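import Mathlib

set_option autoImplicit false

/-!
Normal subgroups with nonabelian simple quotient, all inside one ambient group.
-/

namespace Pool.Agent.LFS

universe u v

variable {Γ : Type u} [Group Γ]

/-- `T` normalises `N`. -/
def Nrm (T N : Subgroup Γ) : Prop := ∀ t ∈ T, ∀ n ∈ N, t * n * t⁻¹ ∈ N

/-- `L` is a normal subgroup of `T` with nonabelian simple quotient. -/
structure NS (T L : Subgroup Γ) : Prop where
  le : L ≤ T
  nrm : Nrm T L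
  nab : ¬ (∀ x ∈ T, ∀ y ∈ T, x * y * x⁻¹ * y⁻¹ ∈ L)
  max : ∀ N : Subgroup Γ, L ≤ N → N ≤ T → Nrm T N → N = L ∨ N = T

theorem Nrm.inv {T N : Subgroup Γ} (h : Nrm T N) {t : Γ} (ht : t ∈ T) {n : Γ} (hn : n ∈ N) :
    t⁻¹ * n * t ∈ N := by
  have := h t⁻¹ (T.inv_mem ht) n hn
  rwa [inv_inv] at this

theorem Nrm.inf {T N N' : Subgroup Γ} (h : Nrm T N) (h' : Nrm T N') : Nrm T (N ⊓ N') :=
  fun t ht n hn => ⟨h t ht n hn.1, h' t ht n hn.2⟩

theorem Nrm.mono {T S N : Subgroup Γ} (h : Nrm T N) (hS : S ≤ T) : Nrm S N :=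
  fun t ht n hn => h t (hS ht) n hn

theorem Nrm.self (T : Subgroup Γ) : Nrm T T :=
  fun t ht n hn => T.mul_mem (T.mul_mem ht hn) (T.inv_mem ht)

/-- the elements of `T` commuting with `N` modulo `Z`. -/
def cm (T N Z : Subgroup Γ) (h : Nrm T Z) : Subgroup Γ where
  carrier := {t | t ∈ T ∧ ∀ b ∈ N, t * b * t⁻¹ * b⁻¹ ∈ Z}
  one_mem' := ⟨T.one_mem, fun b _ => by simp [Z.one_mem]⟩
  mul_mem' := by
    rintro t s ⟨ht, h1⟩ ⟨hs, h2⟩
    refine ⟨T.mul_mem ht hs, fun b hb => ?_⟩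
    have h3 : t * s * b * (t * s)⁻¹ * b⁻¹ =
        (t * (s * b * s⁻¹ * b⁻¹) * t⁻¹) * (t * b * t⁻¹ * b⁻¹) := by group
    rw [h3]
    exact Z.mul_mem (h t ht _ (h2 b hb)) (h1 b hb)
  inv_mem' := by
    rintro t ⟨ht, h1⟩
    refine ⟨T.inv_mem ht, fun b hb => ?_⟩
    have h3 : t⁻¹ * b * t⁻¹⁻¹ * b⁻¹ = t⁻¹ * (t * b * t⁻¹ * b⁻¹)⁻¹ * t := by group
    rw [h3]
    exact h.inv ht (Z.inv_mem (h1 b hb))

theorem mem_cm {T N Z : Subgroup Γ} {h : Nrm T Z} {t : Γ} :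
    t ∈ cm T N Z h ↔ t ∈ T ∧ ∀ b ∈ N, t * b * t⁻¹ * b⁻¹ ∈ Z := Iff.rfl

theorem cm_le {T N Z : Subgroup Γ} (h : Nrm T Z) : cm T N Z h ≤ T := fun _ ht => ht.1

/-- if `S` normalises `T`, `N` and `Z` then it normalises `cm T N Z`. -/
theorem nrm_cm {S T N Z : Subgroup Γ} (h : Nrm T Z) (hT : Nrm S T) (hN : Nrm S N) (hZ : Nrm S Z) :
    Nrm S (cm T N Z h) := by
  rintro s hs t ⟨ht, h1⟩
  refine ⟨hT s hs t ht, fun b hb => ?_⟩
  have h2 := hZ s hs _ (h1 _ (hN.inv hs hb))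
  have h3 : s * t * s⁻¹ * b * (s * t * s⁻¹)⁻¹ * b⁻¹ =
      s * (t * (s⁻¹ * b * s) * t⁻¹ * (s⁻¹ * b * s)⁻¹) * s⁻¹ := by group
  rw [h3]
  exact h2

theorem comm_mem_symm {Z : Subgroup Γ} {a b : Γ} (h : a * b * a⁻¹ * b⁻¹ ∈ Z) :
    b * a * b⁻¹ * a⁻¹ ∈ Z := by
  have := Z.inv_mem h
  have h3 : (a * b * a⁻¹ * b⁻¹)⁻¹ = b * a * b⁻¹ * a⁻¹ := by group
  rwa [h3] at this

/-- primeness. -/
theorem NS.prime {T L : Subgroup Γ} (h : NS T L) {N₁ N₂ : Subgroup Γ} (h1 : N₁ ≤ T)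
    (h2 : N₂ ≤ T) (n1 : Nrm T N₁) (n2 : Nrm T N₂)
    (hc : ∀ a ∈ N₁, ∀ b ∈ N₂, a * b * a⁻¹ * b⁻¹ ∈ L) : N₁ ≤ L ∨ N₂ ≤ L := by
  by_contra hb
  push Not at hb
  obtain ⟨hb1, hb2⟩ := hb
  -- `C` centralises `N₂`
  let C := cm T N₂ L h.nrm
  have hLC : ∀ N : Subgroup Γ, Nrm T N → N ≤ T → L ≤ cm T N L h.nrm := by
    intro N hN hNT l hl
    refine ⟨h.le hl, fun b hb => ?_⟩
    have h3 : l * b * l⁻¹ * b⁻¹ = l * (b * l⁻¹ * b⁻¹) := by group
    rw [h3]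
    exact L.mul_mem hl (h.nrm b (hNT hb) _ (L.inv_mem hl))
  have hC : C = T := by
    rcases h.max C (hLC N₂ n2 h2) (cm_le _) (nrm_cm _ (Nrm.self T) n2 h.nrm) with h3 | h3
    · exfalso
      apply hb1
      intro a ha
      have : a ∈ C := ⟨h1 ha, hc a ha⟩
      rwa [h3] at this
    · exact h3
  let C' := cm T T L h.nrm
  have hC' : C' = T := by
    rcases h.max C' (hLC T (Nrm.self T) le_rfl) (cm_le _)
      (nrm_cm _ (Nrm.self T) (Nrm.self T) h.nrm) with h3 | h3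
    · exfalso
      apply hb2
      intro b hb
      have : b ∈ C' := by
        refine ⟨h2 hb, fun t ht => ?_⟩
        have h4 : t ∈ C := by rw [hC]; exact ht
        exact comm_mem_symm (h4.2 b hb)
      rwa [h3] at this
    · exact h3
  apply h.nab
  intro x hx y hy
  have : x ∈ C' := by rw [hC']; exact hx
  exact this.2 y hy

theorem NS.not_le {T L : Subgroup Γ} (h : NS T L) : ¬ T ≤ L := by
  intro hT
  apply h.nab
  intro x hx y hy
  exact L.mul_mem (L.mul_mem (L.mul_mem (hT hx) (hT hy)) (L.inv_mem (hT hx))) (L.inv_mem (hT hy))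

theorem NS.prime_inf {T L : Subgroup Γ} (h : NS T L) {N₁ N₂ : Subgroup Γ} (h1 : N₁ ≤ T)
    (h2 : N₂ ≤ T) (n1 : Nrm T N₁) (n2 : Nrm T N₂) (hc : ∀ a ∈ N₁, a ∈ N₂ → a ∈ L) :
    N₁ ≤ L ∨ N₂ ≤ L := by
  refine h.prime h1 h2 n1 n2 ?_
  intro a ha b hb
  apply hc
  · have h3 : a * b * a⁻¹ * b⁻¹ = a * (b * a⁻¹ * b⁻¹) := by group
    rw [h3]
    exact N₁.mul_mem ha (n1 b (h2 hb) _ (N₁.inv_mem ha))
  · exact N₂.mul_mem (n2 a (h1 ha) b hb) (N₂.inv_mem hb)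

theorem NS.prime_self {T L : Subgroup Γ} (h : NS T L) {N : Subgroup Γ} (h1 : N ≤ T)
    (n1 : Nrm T N) (hc : ∀ a ∈ N, ∀ b ∈ N, a * b * a⁻¹ * b⁻¹ ∈ L) : N ≤ L := by
  rcases h.prime h1 h1 n1 n1 hc with h | h <;> exact h

/-- primeness for a finite family. -/
theorem NS.prime_fam {T L : Subgroup Γ} (h : NS T L) {ι : Type v} (s : Finset ι)
    (N : ι → Subgroup Γ) (h1 : ∀ i ∈ s, N i ≤ T) (n1 : ∀ i ∈ s, Nrm T (N i))
    (hc : ∀ a ∈ T, (∀ i ∈ s, a ∈ N i) → a ∈ L) : ∃ i ∈ s, N i ≤ L := by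
  classical
  have key : ∀ s : Finset ι, (∀ i ∈ s, N i ≤ T) → (∀ i ∈ s, Nrm T (N i)) →
      ∀ M : Subgroup Γ, M ≤ T → Nrm T M → (∀ a ∈ M, (∀ i ∈ s, a ∈ N i) → a ∈ L) →
        M ≤ L ∨ ∃ i ∈ s, N i ≤ L := by
    intro s
    induction s using Finset.induction_on with
    | empty =>
      intro _ _ M _ _ hM
      exact Or.inl (fun a ha => hM a ha (by simp))
    | insert j s hj ih =>
      intro h1 n1 M hMT hMn hM
      have h2 := ih (fun i hi => h1 i (Finset.mem_insert_of_mem hi))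
        (fun i hi => n1 i (Finset.mem_insert_of_mem hi)) (M ⊓ N j)
        (inf_le_left.trans hMT) (hMn.inf (n1 j (Finset.mem_insert_self _ _))) (by
          intro a ha hi
          refine hM a ha.1 ?_
          intro i his
          rcases Finset.mem_insert.1 his with rfl | his
          · exact ha.2
          · exact hi i his)
      rcases h2 with h2 | ⟨i, hi, h2⟩
      · rcases h.prime_inf hMT (h1 j (Finset.mem_insert_self _ _)) hMn
          (n1 j (Finset.mem_insert_self _ _)) (fun a ha hb => h2 ⟨ha, hb⟩) with h3 | h3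
        · exact Or.inl h3
        · exact Or.inr ⟨j, Finset.mem_insert_self _ _, h3⟩
      · exact Or.inr ⟨i, Finset.mem_insert_of_mem hi, h2⟩
  rcases key s h1 n1 T le_rfl (Nrm.self T) hc with h2 | h2
  · exact absurd h2 h.not_le
  · exact h2

theorem NS.eq_of_le {T L L' : Subgroup Γ} (h : NS T L) (h' : NS T L') (hle : L ≤ L') : L = L' := by
  rcases h.max L' hle h'.le h'.nrm with h1 | h1
  · exact h1.symm
  · exfalso
    exact h'.not_le h1.ge

/-- the product of `C` and `L`. -/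
def pr (T C L : Subgroup Γ) (hC : C ≤ T) (hL : L ≤ T) (hn : Nrm T L) : Subgroup Γ where
  carrier := {t | ∃ c ∈ C, ∃ l ∈ L, t = c * l}
  one_mem' := ⟨1, C.one_mem, 1, L.one_mem, by simp⟩
  mul_mem' := by
    rintro _ _ ⟨c, hc, l, hl, rfl⟩ ⟨c', hc', l', hl', rfl⟩
    refine ⟨c * c', C.mul_mem hc hc', c'⁻¹ * l * c' * l', L.mul_mem (hn.inv (hC hc') hl) hl', ?_⟩
    group
  inv_mem' := by
    rintro _ ⟨c, hc, l, hl, rfl⟩
    refine ⟨c⁻¹, C.inv_mem hc, c * l⁻¹ * c⁻¹, hn c (hC hc) _ (L.inv_mem hl), ?_⟩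
    group

theorem mem_pr {T C L : Subgroup Γ} {hC : C ≤ T} {hL : L ≤ T} {hn : Nrm T L} {t : Γ} :
    t ∈ pr T C L hC hL hn ↔ ∃ c ∈ C, ∃ l ∈ L, t = c * l := Iff.rfl

/-- `T = C L` if `C` is normal and not contained in `L`. -/
theorem NS.exists_mul {T L : Subgroup Γ} (h : NS T L) {C : Subgroup Γ} (hC : C ≤ T)
    (hn : Nrm T C) (hCL : ¬ C ≤ L) {t : Γ} (ht : t ∈ T) : ∃ c ∈ C, ∃ l ∈ L, t = c * l := by
  have h1 := h.max (pr T C L hC h.le h.nrm) (fun l hl => ⟨1, C.one_mem, l, hl, by simp⟩)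
    (by
      rintro _ ⟨c, hc, l, hl, rfl⟩
      exact T.mul_mem (hC hc) (h.le hl))
    (by
      rintro t ht _ ⟨c, hc, l, hl, rfl⟩
      refine ⟨t * c * t⁻¹, hn t ht c hc, t * l * t⁻¹, h.nrm t ht l hl, ?_⟩
      group)
  rcases h1 with h1 | h1
  · exfalso
    apply hCL
    intro c hc
    have : c ∈ pr T C L hC h.le h.nrm := ⟨c, hc, 1, L.one_mem, by simp⟩
    rwa [h1] at this
  · have : t ∈ pr T C L hC h.le h.nrm := by rw [h1]; exact ht
    exact this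

/-- restriction to a supplement. -/
theorem NS.restrict {T L : Subgroup Γ} (h : NS T L) {S : Subgroup Γ} (hS : S ≤ T)
    (hSL : ∀ t ∈ T, ∃ s ∈ S, ∃ l ∈ L, t = s * l) : NS S (L ⊓ S) := by
  refine ⟨inf_le_right, ?_, ?_, ?_⟩
  · exact fun t ht n hn => ⟨h.nrm t (hS ht) n hn.1, S.mul_mem (S.mul_mem ht hn.2) (S.inv_mem ht)⟩
  · intro hab
    apply h.nab
    -- elements of `T` commute modulo `L`
    have h1 : ∀ x ∈ S, ∀ y ∈ T, x * y * x⁻¹ * y⁻¹ ∈ L := by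
      intro x hx y hy
      obtain ⟨s, hs, l, hl, rfl⟩ := hSL y hy
      have h2 : x * (s * l) * x⁻¹ * (s * l)⁻¹ =
          (x * s * x⁻¹ * s⁻¹) * (s * ((x * l * x⁻¹) * l⁻¹) * s⁻¹) := by group
      rw [h2]
      exact L.mul_mem (hab x hx s hs).1
        (h.nrm s (hS hs) _ (L.mul_mem (h.nrm x (hS hx) l hl) (L.inv_mem hl)))
    intro x hx y hy
    obtain ⟨s, hs, l, hl, rfl⟩ := hSL x hx
    have h2 : s * l * y * (s * l)⁻¹ * y⁻¹ =
        (s * (l * (y * l⁻¹ * y⁻¹)) * s⁻¹) * (s * y * s⁻¹ * y⁻¹) := by group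
    rw [h2]
    exact L.mul_mem (h.nrm s (hS hs) _ (L.mul_mem hl (h.nrm y hy _ (L.inv_mem hl)))) (h1 s hs y hy)
  · intro N hLN hNS hn
    have hNT : N ≤ T := hNS.trans hS
    have h1 := h.max (pr T N L hNT h.le h.nrm) (fun l hl => ⟨1, N.one_mem, l, hl, by simp⟩)
      (by
        rintro _ ⟨c, hc, l, hl, rfl⟩
        exact T.mul_mem (hNT hc) (h.le hl))
      (by
        rintro t ht _ ⟨c, hc, l, hl, rfl⟩
        obtain ⟨s, hs, l0, hl0, rfl⟩ := hSL t ht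
        refine ⟨s * c * s⁻¹, hn s hs c hc, s * ((c⁻¹ * l0 * c) * l * l0⁻¹) * s⁻¹,
          h.nrm s (hS hs) _ (L.mul_mem (L.mul_mem (h.nrm.inv (hNT hc) hl0) hl) (L.inv_mem hl0)), ?_⟩
        group)
    rcases h1 with h1 | h1
    · left
      refine le_antisymm ?_ hLN
      intro n hn'
      refine ⟨?_, hNS hn'⟩
      have : n ∈ pr T N L hNT h.le h.nrm := ⟨n, hn', 1, L.one_mem, by simp⟩
      rwa [h1] at this
    · right
      refine le_antisymm hNS ?_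
      intro s hs
      have : s ∈ pr T N L hNT h.le h.nrm := by rw [h1]; exact hS hs
      obtain ⟨n, hn', l, hl, hsl⟩ := this
      have hl' : l ∈ S := by
        have h3 : l = n⁻¹ * s := by rw [hsl]; group
        rw [h3]
        exact S.mul_mem (S.inv_mem (hNS hn')) hs
      rw [hsl]
      exact N.mul_mem hn' (hLN ⟨hl, hl'⟩)

theorem NS.restrict_normal {T L : Subgroup Γ} (h : NS T L) {C : Subgroup Γ} (hC : C ≤ T)
    (hn : Nrm T C) (hCL : ¬ C ≤ L) : NS C (L ⊓ C) :=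
  h.restrict hC (fun _ ht => h.exists_mul hC hn hCL ht)

theorem NS.inj_normal {T L L' : Subgroup Γ} (h : NS T L) (h' : NS T L') {C : Subgroup Γ}
    (hC : C ≤ T) (hn : Nrm T C) (hCL' : ¬ C ≤ L') (heq : L ⊓ C ≤ L') : L = L' := by
  rcases h'.prime_inf h.le hC h.nrm hn (fun a ha hb => heq ⟨ha, hb⟩) with h1 | h1
  · exact h.eq_of_le h' h1
  · exact absurd h1 hCL'

/-- the Chinese remainder theorem. -/
theorem crt {T : Subgroup Γ} (s : Finset (Subgroup Γ)) (hs : ∀ L ∈ s, NS T L)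
    (a : Subgroup Γ → Γ) (ha : ∀ L ∈ s, a L ∈ T) : ∃ t ∈ T, ∀ L ∈ s, t⁻¹ * a L ∈ L := by
  classical
  induction s using Finset.induction_on with
  | empty => exact ⟨1, T.one_mem, by simp⟩
  | insert L₀ s hL₀ ih =>
    obtain ⟨t, ht, h1⟩ := ih (fun L hL => hs L (Finset.mem_insert_of_mem hL))
      (fun L hL => ha L (Finset.mem_insert_of_mem hL))
    have h0 := hs L₀ (Finset.mem_insert_self _ _)
    -- the intersection of the other ones
    let N : Subgroup Γ :=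
      { carrier := {x | x ∈ T ∧ ∀ L ∈ s, x ∈ L}
        one_mem' := ⟨T.one_mem, fun L _ => L.one_mem⟩
        mul_mem' := fun {x y} hx hy => ⟨T.mul_mem hx.1 hy.1,
          fun L hL => L.mul_mem (hx.2 L hL) (hy.2 L hL)⟩
        inv_mem' := fun {x} hx => ⟨T.inv_mem hx.1, fun L hL => L.inv_mem (hx.2 L hL)⟩ }
    have hNT : N ≤ T := fun x hx => hx.1
    have hNn : Nrm T N := fun t ht x hx => ⟨T.mul_mem (T.mul_mem ht hx.1) (T.inv_mem ht),
      fun L hL => (hs L (Finset.mem_insert_of_mem hL)).nrm t ht x (hx.2 L hL)⟩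
    have hNL : ¬ N ≤ L₀ := by
      intro hle
      obtain ⟨L, hL, h2⟩ := h0.prime_fam s id
        (fun L hL => (hs L (Finset.mem_insert_of_mem hL)).le)
        (fun L hL => (hs L (Finset.mem_insert_of_mem hL)).nrm)
        (fun x hx hx' => hle ⟨hx, hx'⟩)
      have h3 := (hs L (Finset.mem_insert_of_mem hL)).eq_of_le h0 h2
      rw [h3] at hL
      exact hL₀ hL
    obtain ⟨n, hn, l, hl, hnl⟩ := h0.exists_mul hNT hNn hNL
      (T.mul_mem (T.inv_mem ht) (ha L₀ (Finset.mem_insert_self _ _)))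
    refine ⟨t * n, T.mul_mem ht hn.1, ?_⟩
    intro L hL
    rcases Finset.mem_insert.1 hL with rfl | hL
    · have h2 : (t * n)⁻¹ * a L = n⁻¹ * (t⁻¹ * a L) := by group
      rw [h2, hnl, inv_mul_cancel_left]
      exact hl
    · have h2 : (t * n)⁻¹ * a L = n⁻¹ * (t⁻¹ * a L) := by group
      rw [h2]
      exact L.mul_mem (L.inv_mem (hn.2 L hL)) (h1 L hL)

/-- four elements pairwise different modulo `L`. -/
theorem NS.four {T L : Subgroup Γ} (h : NS T L) : ∃ x : Fin 4 → Γ, (∀ k, x k ∈ T) ∧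
    ∀ k k', (x k)⁻¹ * x k' ∈ L → k = k' := by
  have h1 := h.nab
  push Not at h1
  obtain ⟨a, ha, b, hb, hab⟩ := h1
  have na : a ∉ L := by
    intro haL
    apply hab
    have h3 : a * b * a⁻¹ * b⁻¹ = a * (b * a⁻¹ * b⁻¹) := by group
    rw [h3]
    exact L.mul_mem haL (h.nrm b hb _ (L.inv_mem haL))
  have nb : b ∉ L := by
    intro hbL
    exact hab (L.mul_mem (h.nrm a ha b hbL) (L.inv_mem hbL))
  have nab' : a⁻¹ * b ∉ L := by
    intro hc
    apply hab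
    have h4 : a * b * a⁻¹ * b⁻¹ = (a * (a * (a⁻¹ * b) * a⁻¹) * a⁻¹) * (a * (a⁻¹ * b)⁻¹ * a⁻¹) := by
      group
    rw [h4]
    exact L.mul_mem (h.nrm a ha _ (h.nrm a ha _ hc)) (h.nrm a ha _ (L.inv_mem hc))
  have nab2 : a * b ∉ L := by
    intro hc
    apply hab
    have h5 : b * a ∈ L := by
      have h6 : b * a = a⁻¹ * (a * b) * a := by group
      rw [h6]
      exact h.nrm.inv ha hc
    have h7 : a * b * a⁻¹ * b⁻¹ = (a * b) * (b * a)⁻¹ := by group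
    rw [h7]
    exact L.mul_mem hc (L.inv_mem h5)
  refine ⟨![1, a, b, a * b], ?_, ?_⟩
  · intro k
    fin_cases k
    · exact T.one_mem
    · exact ha
    · exact hb
    · exact T.mul_mem ha hb
  · have key : ∀ x y : Γ, x⁻¹ * y ∈ L → y⁻¹ * x ∈ L := by
      intro x y hxy
      have := L.inv_mem hxy
      rwa [mul_inv_rev, inv_inv] at this
    have e1 : ¬ ((1 : Γ)⁻¹ * a ∈ L) := by simpa using na
    have e2 : ¬ ((1 : Γ)⁻¹ * b ∈ L) := by simpa using nb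
    have e3 : ¬ ((1 : Γ)⁻¹ * (a * b) ∈ L) := by simpa using nab2
    have e4 : ¬ (a⁻¹ * b ∈ L) := nab'
    have e5 : ¬ (a⁻¹ * (a * b) ∈ L) := by simpa using nb
    have e6 : ¬ (b⁻¹ * (a * b) ∈ L) := by
      intro hc
      apply na
      have := h.nrm b hb _ hc
      have h6 : b * (b⁻¹ * (a * b)) * b⁻¹ = a := by group
      rwa [h6] at this
    intro k k' hkk
    fin_cases k <;> fin_cases k' <;> first
      | rfl
      | exact absurd hkk e1
      | exact absurd hkk e2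
      | exact absurd hkk e3
      | exact absurd hkk e4
      | exact absurd hkk e5
      | exact absurd hkk e6
      | exact absurd (key _ _ hkk) e1
      | exact absurd (key _ _ hkk) e2
      | exact absurd (key _ _ hkk) e3
      | exact absurd (key _ _ hkk) e4
      | exact absurd (key _ _ hkk) e5
      | exact absurd (key _ _ hkk) e6

/-! ### Conjugation -/

/-- the conjugate subgroup. -/
def cj (g : Γ) (L : Subgroup Γ) : Subgroup Γ := L.map (MulAut.conj g).toMonoidHom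

theorem mem_cj {g x : Γ} {L : Subgroup Γ} : x ∈ cj g L ↔ g⁻¹ * x * g ∈ L := by
  constructor
  · rintro ⟨l, hl, rfl⟩
    have : g⁻¹ * ((MulAut.conj g).toMonoidHom l) * g = l := by
      change g⁻¹ * (g * l * g⁻¹) * g = l
      group
    rw [this]
    exact hl
  · intro h
    refine ⟨g⁻¹ * x * g, h, ?_⟩
    change g * (g⁻¹ * x * g) * g⁻¹ = x
    group

theorem conj_mem_cj {g x : Γ} {L : Subgroup Γ} : g * x * g⁻¹ ∈ cj g L ↔ x ∈ L := by
  rw [mem_cj]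
  have : g⁻¹ * (g * x * g⁻¹) * g = x := by group
  rw [this]

theorem cj_one (L : Subgroup Γ) : cj 1 L = L := by
  ext x
  rw [mem_cj]
  simp

theorem cj_mul (g h : Γ) (L : Subgroup Γ) : cj (g * h) L = cj g (cj h L) := by
  ext x
  rw [mem_cj, mem_cj, mem_cj]
  have : (g * h)⁻¹ * x * (g * h) = h⁻¹ * (g⁻¹ * x * g) * h := by group
  rw [this]

theorem cj_inf (g : Γ) (L N : Subgroup Γ) : cj g (L ⊓ N) = cj g L ⊓ cj g N := by
  ext x
  rw [Subgroup.mem_inf, mem_cj, mem_cj, mem_cj, Subgroup.mem_inf]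

theorem cj_mono {g : Γ} {L N : Subgroup Γ} (h : L ≤ N) : cj g L ≤ cj g N := by
  intro x hx
  rw [mem_cj] at hx ⊢
  exact h hx

theorem cj_le_cj {g : Γ} {L N : Subgroup Γ} : cj g L ≤ cj g N ↔ L ≤ N := by
  constructor
  · intro h x hx
    exact conj_mem_cj.1 (h (conj_mem_cj.2 hx))
  · exact cj_mono

theorem cj_inj {g : Γ} {L N : Subgroup Γ} (h : cj g L = cj g N) : L = N :=
  le_antisymm (cj_le_cj.1 h.le) (cj_le_cj.1 h.ge)

theorem cj_cj_inv (g : Γ) (L : Subgroup Γ) : cj g (cj g⁻¹ L) = L := by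
  rw [← cj_mul, mul_inv_cancel, cj_one]

theorem cj_inv_cj (g : Γ) (L : Subgroup Γ) : cj g⁻¹ (cj g L) = L := by
  rw [← cj_mul, inv_mul_cancel, cj_one]

theorem Nrm.cj_eq {T N : Subgroup Γ} (h : Nrm T N) {t : Γ} (ht : t ∈ T) : cj t N = N := by
  ext x
  rw [mem_cj]
  constructor
  · intro hx
    have := h t ht _ hx
    have h2 : t * (t⁻¹ * x * t) * t⁻¹ = x := by group
    rwa [h2] at this
  · intro hx
    exact h.inv ht hx

theorem nrm_of_cj_eq {T N : Subgroup Γ} (h : ∀ t ∈ T, cj t N = N) : Nrm T N := by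
  intro t ht n hn
  rw [← h t ht]
  exact conj_mem_cj.2 hn

theorem Nrm.cj {T N : Subgroup Γ} (h : Nrm T N) (g : Γ) : Nrm (cj g T) (cj g N) := by
  intro t ht n hn
  rw [mem_cj] at ht hn ⊢
  have := h _ ht _ hn
  have h2 : g⁻¹ * t * g * (g⁻¹ * n * g) * (g⁻¹ * t * g)⁻¹ = g⁻¹ * (t * n * t⁻¹) * g := by group
  rwa [h2] at this

theorem NS.cj {T L : Subgroup Γ} (h : NS T L) (g : Γ) : NS (cj g T) (cj g L) := by
  refine ⟨cj_mono h.le, h.nrm.cj g, ?_, ?_⟩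
  · intro hab
    apply h.nab
    intro x hx y hy
    have := hab (g * x * g⁻¹) (conj_mem_cj.2 hx) (g * y * g⁻¹) (conj_mem_cj.2 hy)
    have h2 : g * x * g⁻¹ * (g * y * g⁻¹) * (g * x * g⁻¹)⁻¹ * (g * y * g⁻¹)⁻¹ =
        g * (x * y * x⁻¹ * y⁻¹) * g⁻¹ := by group
    rw [h2] at this
    exact conj_mem_cj.1 this
  · intro N hLN hNT hn
    have h1 := h.max (LFS.cj g⁻¹ N) (by
      rw [← cj_le_cj (g := g), cj_cj_inv]; exact hLN) (by
      rw [← cj_le_cj (g := g), cj_cj_inv]; exact hNT) (by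
      have := hn.cj g⁻¹
      rwa [cj_inv_cj] at this)
    rcases h1 with h1 | h1
    · left
      rw [← h1, cj_cj_inv]
    · right
      rw [← h1, cj_cj_inv]

/-- if `T` is perfect then every proper normal subgroup is contained in one with simple nonabelian
quotient. -/
theorem exists_NS [Finite Γ] {T N : Subgroup Γ} (hNT : N ≤ T) (hn : Nrm T N) (hne : N ≠ T)
    (hperf : ∀ M : Subgroup Γ, Nrm T M → M ≤ T →
      (∀ x ∈ T, ∀ y ∈ T, x * y * x⁻¹ * y⁻¹ ∈ M) → M = T) : ∃ L, NS T L ∧ N ≤ L := by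
  classical
  let S : Set (Subgroup Γ) := {M | N ≤ M ∧ M ≤ T ∧ Nrm T M ∧ M ≠ T}
  have hS : S.Nonempty := ⟨N, le_rfl, hNT, hn, hne⟩
  obtain ⟨L, hL⟩ := (Set.toFinite S).exists_maximal hS
  refine ⟨L, ⟨hL.1.2.1, hL.1.2.2.1, ?_, ?_⟩, hL.1.1⟩
  · intro hab
    exact hL.1.2.2.2 (hperf L hL.1.2.2.1 hL.1.2.1 hab)
  · intro M hLM hMT hMn
    by_cases hM : M = T
    · exact Or.inr hM
    · left
      exact le_antisymm (hL.2 ⟨hL.1.1.trans hLM, hMT, hMn, hM⟩ hLM) hLM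

end Pool.Agent.LFS
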