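import Mathlib
import Pool.Agent.LFS.Prime

set_option autoImplicit false

/-!
Orbits, kernels and blocks.
-/

namespace Pool.Agent.LFS

open Equiv

universe u v

variable {Γ : Type u} [Group Γ] {Ω : Type u}

/-- `O` is an orbit of `T`. -/
structure isOrb (ρ : Γ →* Perm Ω) (T : Subgroup Γ) (O : Set Ω) : Prop where
  ne : O.Nonempty
  inv : ∀ t ∈ T, ∀ o ∈ O, ρ t o ∈ O
  tr : ∀ o ∈ O, ∀ o' ∈ O, ∃ t ∈ T, ρ t o = o'

/-- the pointwise stabiliser. -/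
def kerO (ρ : Γ →* Perm Ω) (T : Subgroup Γ) (O : Set Ω) : Subgroup Γ where
  carrier := {t | t ∈ T ∧ ∀ o ∈ O, ρ t o = o}
  one_mem' := ⟨T.one_mem, fun o _ => by rw [map_one]; rfl⟩
  mul_mem' := by
    rintro t s ⟨ht, h1⟩ ⟨hs, h2⟩
    refine ⟨T.mul_mem ht hs, fun o ho => ?_⟩
    rw [map_mul, Perm.mul_apply, h2 o ho, h1 o ho]
  inv_mem' := by
    rintro t ⟨ht, h1⟩
    refine ⟨T.inv_mem ht, fun o ho => ?_⟩
    rw [map_inv, Perm.inv_eq_iff_eq, h1 o ho]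

theorem mem_kerO {ρ : Γ →* Perm Ω} {T : Subgroup Γ} {O : Set Ω} {t : Γ} :
    t ∈ kerO ρ T O ↔ t ∈ T ∧ ∀ o ∈ O, ρ t o = o := Iff.rfl

theorem kerO_le (ρ : Γ →* Perm Ω) (T : Subgroup Γ) (O : Set Ω) : kerO ρ T O ≤ T :=
  fun _ ht => ht.1

/-- the normal subgroups with nonabelian simple quotient containing the kernel. -/
def LL (ρ : Γ →* Perm Ω) (T : Subgroup Γ) (O : Set Ω) : Set (Subgroup Γ) :=
  {L | NS T L ∧ kerO ρ T O ≤ L}

theorem act_inv_act (ρ : Γ →* Perm Ω) (g : Γ) (o : Ω) : ρ g⁻¹ (ρ g o) = o := by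
  rw [map_inv]; simp

theorem act_act_inv (ρ : Γ →* Perm Ω) (g : Γ) (o : Ω) : ρ g (ρ g⁻¹ o) = o := by
  rw [map_inv]; simp

theorem act_mul (ρ : Γ →* Perm Ω) (g h : Γ) (o : Ω) : ρ (g * h) o = ρ g (ρ h o) := by
  rw [map_mul]; rfl

theorem act_eq_iff {ρ : Γ →* Perm Ω} {g : Γ} {o o' : Ω} : ρ g⁻¹ o = o' ↔ o = ρ g o' := by
  rw [map_inv, Perm.inv_eq_iff_eq]

theorem act_conj (ρ : Γ →* Perm Ω) (g h : Γ) (o : Ω) : ρ (g * h * g⁻¹) (ρ g o) = ρ g (ρ h o) := by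
  rw [act_mul, act_inv_act, act_mul]

theorem kerO_nrm {ρ : Γ →* Perm Ω} {S T : Subgroup Γ} {O : Set Ω} (hST : Nrm S T)
    (hO : ∀ s ∈ S, ∀ o ∈ O, ρ s o ∈ O) : Nrm S (kerO ρ T O) := by
  rintro s hs t ⟨ht, h1⟩
  refine ⟨hST s hs t ht, fun o ho => ?_⟩
  have h2 : ρ s⁻¹ o ∈ O := hO _ (S.inv_mem hs) o ho
  rw [act_mul, act_mul, h1 _ h2, act_act_inv]

theorem cj_kerO {ρ : Γ →* Perm Ω} {T : Subgroup Γ} {O : Set Ω} {f : Γ} (hT : cj f T = T)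
    (hO : ∀ o, ρ f o ∈ O ↔ o ∈ O) : cj f (kerO ρ T O) = kerO ρ T O := by
  ext t
  rw [mem_cj, mem_kerO, mem_kerO, ← mem_cj, hT]
  refine and_congr_right (fun _ => ?_)
  constructor
  · intro h o ho
    have h1 : ρ f⁻¹ o ∈ O := by rw [← hO, act_act_inv]; exact ho
    have h2 := h _ h1
    rw [act_mul, act_mul, act_act_inv, act_eq_iff, act_act_inv] at h2
    exact h2
  · intro h o ho
    have h1 := h _ ((hO o).2 ho)
    rw [act_mul, act_mul, h1, act_inv_act]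

/-- the action on sets. -/
def imP (ρ : Γ →* Perm Ω) : Γ →* Perm (Set Ω) :=
  MonoidHom.mk' (fun g =>
    { toFun := fun s => ρ g '' s
      invFun := fun s => ρ g⁻¹ '' s
      left_inv := fun s => by
        change ρ g⁻¹ '' (ρ g '' s) = s
        rw [← Set.image_comp]
        have : (ρ g⁻¹ : Ω → Ω) ∘ (ρ g) = id := funext (fun o => act_inv_act ρ g o)
        rw [this, Set.image_id]
      right_inv := fun s => by
        change ρ g '' (ρ g⁻¹ '' s) = s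
        rw [← Set.image_comp]
        have : (ρ g : Ω → Ω) ∘ (ρ g⁻¹) = id := funext (fun o => act_act_inv ρ g o)
        rw [this, Set.image_id] }) (by
    intro g h
    apply Equiv.ext
    intro s
    change ρ (g * h) '' s = ρ g '' (ρ h '' s)
    rw [← Set.image_comp, map_mul]
    rfl)

theorem imP_apply (ρ : Γ →* Perm Ω) (g : Γ) (s : Set Ω) : imP ρ g s = ρ g '' s := rfl

theorem mem_imP {ρ : Γ →* Perm Ω} {g : Γ} {s : Set Ω} {x : Ω} :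
    x ∈ imP ρ g s ↔ ρ g⁻¹ x ∈ s := by
  rw [imP_apply]
  constructor
  · rintro ⟨y, hy, rfl⟩
    rwa [act_inv_act]
  · intro h
    exact ⟨_, h, act_act_inv ρ g x⟩

/-- the conjugation action on subgroups. -/
def cjP : Γ →* Perm (Subgroup Γ) :=
  MonoidHom.mk' (fun g =>
    { toFun := fun L => cj g L
      invFun := fun L => cj g⁻¹ L
      left_inv := fun L => cj_inv_cj g L
      right_inv := fun L => cj_cj_inv g L }) (by
    intro g h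
    apply Equiv.ext
    intro L
    exact cj_mul g h L)

theorem cjP_apply (g : Γ) (L : Subgroup Γ) : cjP g L = cj g L := rfl

/-- the orbit of `N`. -/
def blk (ρ : Γ →* Perm Ω) (N : Subgroup Γ) (o : Ω) : Set Ω := {x | ∃ n ∈ N, ρ n o = x}

theorem self_mem_blk (ρ : Γ →* Perm Ω) (N : Subgroup Γ) (o : Ω) : o ∈ blk ρ N o :=
  ⟨1, N.one_mem, by rw [map_one]; rfl⟩

theorem blk_eq {ρ : Γ →* Perm Ω} {N : Subgroup Γ} {o x : Ω} (h : x ∈ blk ρ N o) :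
    blk ρ N x = blk ρ N o := by
  obtain ⟨n, hn, rfl⟩ := h
  ext y
  constructor
  · rintro ⟨m, hm, rfl⟩
    exact ⟨m * n, N.mul_mem hm hn, act_mul ρ m n o⟩
  · rintro ⟨m, hm, rfl⟩
    refine ⟨m * n⁻¹, N.mul_mem hm (N.inv_mem hn), ?_⟩
    rw [act_mul, act_inv_act]

theorem isOrb_blk (ρ : Γ →* Perm Ω) (N : Subgroup Γ) (o : Ω) : isOrb ρ N (blk ρ N o) := by
  refine ⟨⟨o, self_mem_blk ρ N o⟩, ?_, ?_⟩
  · rintro t ht x ⟨n, hn, rfl⟩
    exact ⟨t * n, N.mul_mem ht hn, act_mul ρ t n o⟩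
  · rintro x hx y hy
    rw [← blk_eq hx] at hy
    exact hy

theorem isOrb.eq_blk {ρ : Γ →* Perm Ω} {T : Subgroup Γ} {O : Set Ω} (h : isOrb ρ T O) {o : Ω}
    (ho : o ∈ O) : O = blk ρ T o := by
  ext x
  constructor
  · intro hx
    exact h.tr o ho x hx
  · rintro ⟨n, hn, rfl⟩
    exact h.inv n hn o ho

theorem imP_blk {ρ : Γ →* Perm Ω} {N : Subgroup Γ} {g : Γ} (hg : cj g N = N) (o : Ω) :
    imP ρ g (blk ρ N o) = blk ρ N (ρ g o) := by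
  ext x
  rw [mem_imP]
  constructor
  · rintro ⟨n, hn, h⟩
    refine ⟨g * n * g⁻¹, ?_, ?_⟩
    · rw [← hg]; exact conj_mem_cj.2 hn
    · rw [act_conj, h, act_act_inv]
  · rintro ⟨n, hn, rfl⟩
    refine ⟨g⁻¹ * n * g, ?_, ?_⟩
    · rw [← hg] at hn; exact mem_cj.1 hn
    · rw [act_mul, act_mul]

variable {ρ : Γ →* Perm Ω} {T N : Subgroup Γ} {O : Set Ω}

/-- the set of blocks. -/
def blks (ρ : Γ →* Perm Ω) (N : Subgroup Γ) (O : Set Ω) : Set (Set Ω) := blk ρ N '' O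

theorem isOrb_blks (h : isOrb ρ T O) (hN : Nrm T N) : isOrb (imP ρ) T (blks ρ N O) := by
  refine ⟨h.ne.image _, ?_, ?_⟩
  · rintro t ht _ ⟨o, ho, rfl⟩
    exact ⟨ρ t o, h.inv t ht o ho, (imP_blk (hN.cj_eq ht) o).symm⟩
  · rintro _ ⟨o, ho, rfl⟩ _ ⟨o', ho', rfl⟩
    obtain ⟨t, ht, rfl⟩ := h.tr o ho o' ho'
    exact ⟨t, ht, imP_blk (hN.cj_eq ht) o⟩

/-- the kernel on the blocks. -/
def kb (ρ : Γ →* Perm Ω) (T N : Subgroup Γ) (O : Set Ω) : Subgroup Γ :=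
  kerO (imP ρ) T (blks ρ N O)

theorem le_kb (hNT : N ≤ T) : N ≤ kb ρ T N O := by
  intro n hn
  refine ⟨hNT hn, ?_⟩
  rintro _ ⟨o, -, rfl⟩
  rw [imP_blk ((Nrm.self N).cj_eq hn)]
  exact blk_eq ⟨n, hn, rfl⟩

theorem kb_nrm (h : isOrb ρ T O) (hN : Nrm T N) : Nrm T (kb ρ T N O) :=
  kerO_nrm (Nrm.self T) (isOrb_blks h hN).inv

theorem kb_cj {f : Γ} (hfT : cj f T = T) (hfN : cj f N = N) (hfO : ∀ o, ρ f o ∈ O ↔ o ∈ O) :
    cj f (kb ρ T N O) = kb ρ T N O := by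
  apply cj_kerO hfT
  intro β
  constructor
  · rintro ⟨o, ho, h⟩
    have h1 : o = ρ f (ρ f⁻¹ o) := (act_act_inv ρ f o).symm
    refine ⟨ρ f⁻¹ o, ?_, ?_⟩
    · rw [← hfO, ← h1]; exact ho
    · apply (imP ρ f).injective
      rw [imP_blk hfN, ← h1, h]
  · rintro ⟨o, ho, rfl⟩
    exact ⟨ρ f o, (hfO o).2 ho, (imP_blk hfN o).symm⟩

theorem isOrb_kb (hNT : N ≤ T) {β : Set Ω} (hβ : β ∈ blks ρ N O) :
    isOrb ρ (kb ρ T N O) β := by
  obtain ⟨o, ho, rfl⟩ := hβ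
  refine ⟨⟨o, self_mem_blk ρ N o⟩, ?_, ?_⟩
  · intro t ht x hx
    have h1 : imP ρ t (blk ρ N o) = blk ρ N o := ht.2 _ ⟨o, ho, rfl⟩
    rw [← h1, mem_imP, act_inv_act]
    exact hx
  · intro x hx y hy
    obtain ⟨n, hn, h⟩ := (isOrb_blk ρ N o).tr x hx y hy
    exact ⟨n, le_kb hNT hn, h⟩

theorem LL_blks {L : Subgroup Γ} (hL : NS T L) (hC : kb ρ T N O ≤ L) :
    L ∈ LL (imP ρ) T (blks ρ N O) := ⟨hL, hC⟩

theorem LL_kb [Finite Ω] (h : isOrb ρ T O) (hN : Nrm T N) {L : Subgroup Γ}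
    (hL : L ∈ LL ρ T O) (hC : ¬ kb ρ T N O ≤ L) {β : Set Ω} (hβ : β ∈ blks ρ N O)
    (hNT : N ≤ T) : L ⊓ kb ρ T N O ∈ LL ρ (kb ρ T N O) β := by
  classical
  have hNS := hL.1.restrict_normal (kerO_le _ _ _) (kb_nrm h hN) hC
  refine ⟨hNS, ?_⟩
  have hfin : (blks ρ N O).Finite := Set.toFinite _
  obtain ⟨β₀, hβ₀, h1⟩ := hNS.prime_fam hfin.toFinset (fun β => kerO ρ (kb ρ T N O) β)
    (fun β _ => kerO_le _ _ _)
    (fun β hβ => kerO_nrm (Nrm.self _) (isOrb_kb hNT (hfin.mem_toFinset.1 hβ)).inv) (by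
      intro a ha hb
      refine ⟨hL.2 ⟨ha.1, ?_⟩, ha⟩
      intro o ho
      exact (hb (blk ρ N o) (hfin.mem_toFinset.2 ⟨o, ho, rfl⟩)).2 o (self_mem_blk ρ N o))
  rw [hfin.mem_toFinset] at hβ₀
  obtain ⟨t, ht, rfl⟩ := (isOrb_blks h hN).tr β₀ hβ₀ β hβ
  intro c hc
  refine ⟨?_, hc.1⟩
  have h2 : t⁻¹ * c * t ∈ kerO ρ (kb ρ T N O) β₀ := by
    refine ⟨(kb_nrm h hN).inv ht hc.1, ?_⟩
    intro x hx
    have h3 : ρ c (ρ t x) = ρ t x := hc.2 _ (by rw [mem_imP, act_inv_act]; exact hx)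
    rw [act_mul, act_mul, h3, act_inv_act]
  have h4 := hL.1.nrm t ht _ (h1 h2).1
  have h5 : t * (t⁻¹ * c * t) * t⁻¹ = c := by group
  rwa [h5] at h4

theorem blk_ncard (h : isOrb ρ T O) (hN : Nrm T N) {β β' : Set Ω} (hβ : β ∈ blks ρ N O)
    (hβ' : β' ∈ blks ρ N O) : β.ncard = β'.ncard := by
  obtain ⟨t, -, rfl⟩ := (isOrb_blks h hN).tr β hβ β' hβ'
  exact (Set.ncard_image_of_injective β (ρ t).injective).symm

/-- counting a subset of `O` through the blocks. -/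
theorem ncard_le_blks [Finite Ω] (Y : Set Ω) (k : ℕ)
    (hk : ∀ o ∈ Y, (Y ∩ blk ρ N o).ncard ≤ k) : Y.ncard ≤ (blk ρ N '' Y).ncard * k := by
  classical
  have hY : Y.Finite := Set.toFinite _
  have h1 := Finset.card_le_mul_card_image (s := hY.toFinset) (f := blk ρ N) k (by
    intro β hβ
    obtain ⟨o, ho, rfl⟩ := Finset.mem_image.1 hβ
    refine le_trans ?_ (hk o (hY.mem_toFinset.1 ho))
    rw [← Set.ncard_coe_finset]
    apply Set.ncard_le_ncard _ (Set.toFinite _)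
    intro x hx
    rw [Finset.coe_filter, Set.mem_ofPred_eq, hY.mem_toFinset] at hx
    exact ⟨hx.1, by rw [← hx.2]; exact self_mem_blk ρ N x⟩)
  rw [mul_comm] at h1
  have h2 : (hY.toFinset.image (blk ρ N)).card = (blk ρ N '' Y).ncard := by
    rw [← Set.ncard_coe_finset, Finset.coe_image, hY.coe_toFinset]
  rw [h2] at h1
  rwa [Set.ncard_eq_toFinset_card Y hY]

theorem blks_mul_le [Finite Ω] (h : isOrb ρ T O) (hN : Nrm T N) (hNT : N ≤ T) {β : Set Ω}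
    (hβ : β ∈ blks ρ N O) : (blks ρ N O).ncard * β.ncard ≤ O.ncard := by
  classical
  have hO : O.Finite := Set.toFinite _
  have h1 := Finset.mul_card_image_le_card (s := hO.toFinset) (f := blk ρ N) β.ncard (by
    intro β' hβ'
    obtain ⟨o, ho, rfl⟩ := Finset.mem_image.1 hβ'
    rw [hO.mem_toFinset] at ho
    have h2 : blk ρ N o ∈ blks ρ N O := ⟨o, ho, rfl⟩
    rw [blk_ncard h hN hβ h2, ← Set.ncard_coe_finset]
    apply Set.ncard_le_ncard _ (Set.toFinite _)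
    intro x hx
    rw [Finset.coe_filter, Set.mem_ofPred_eq, hO.mem_toFinset]
    refine ⟨?_, blk_eq hx⟩
    obtain ⟨n, hn, rfl⟩ := hx
    exact h.inv n (hNT hn) o ho)
  have h2 : (hO.toFinset.image (blk ρ N)).card = (blks ρ N O).ncard := by
    rw [← Set.ncard_coe_finset, Finset.coe_image, hO.coe_toFinset]
    rfl
  rw [h2, mul_comm] at h1
  rwa [Set.ncard_eq_toFinset_card O hO]

theorem blks_lt [Finite Ω] (h : isOrb ρ T O) (hN : Nrm T N) (hNT : N ≤ T)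
    (hne : ¬ N ≤ kerO ρ T O) : (blks ρ N O).ncard < O.ncard := by
  have h1 : ∃ n ∈ N, ∃ o ∈ O, ρ n o ≠ o := by
    by_contra hb
    push Not at hb
    exact hne (fun n hn => ⟨hNT hn, fun o ho => hb n hn o ho⟩)
  obtain ⟨n, hn, o, ho, hno⟩ := h1
  have hβ : blk ρ N o ∈ blks ρ N O := ⟨o, ho, rfl⟩
  have h2 := blks_mul_le h hN hNT hβ
  have h3 : 1 < (blk ρ N o).ncard := by
    rw [Set.one_lt_ncard_iff (Set.toFinite _)]
    exact ⟨o, ρ n o, self_mem_blk ρ N o, ⟨n, hn, rfl⟩, fun hc => hno hc.symm⟩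
  have h4 : 0 < (blks ρ N O).ncard := by
    rw [Set.ncard_pos (Set.toFinite _)]
    exact ⟨_, hβ⟩
  nlinarith

theorem blk_lt [Finite Ω] (h : isOrb ρ T O) (hNT : N ≤ T) (hint : ¬ isOrb ρ N O) {β : Set Ω}
    (hβ : β ∈ blks ρ N O) : β.ncard < O.ncard := by
  obtain ⟨o, ho, rfl⟩ := hβ
  apply Set.ncard_lt_ncard _ (Set.toFinite _)
  refine ⟨?_, ?_⟩
  · rintro _ ⟨n, hn, rfl⟩
    exact h.inv n (hNT hn) o ho
  · intro hle
    apply hint
    have h1 : O = blk ρ N o := by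
      apply Set.Subset.antisymm hle
      rintro _ ⟨n, hn, rfl⟩
      exact h.inv n (hNT hn) o ho
    rw [h1]
    exact isOrb_blk ρ N o

end Pool.Agent.LFS
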