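import Mathlib
import Pool.Agent.LFS.Orb

set_option autoImplicit false

/-!
Semiregular normal subgroups.
-/

namespace Pool.Agent.LFS

open Equiv

universe u v

variable {Γ : Type u} [Group Γ] {Ω : Type u}

theorem crt4 {W : Subgroup Γ} (S s₁ : Finset (Subgroup Γ)) (hS : ∀ L ∈ S, NS W L)
    (hs₁ : ∀ L ∈ s₁, NS W L) (hdis : ∀ L ∈ S, L ∉ s₁) :
    ∃ w : (S → Fin 4) → Γ, (∀ c, w c ∈ W) ∧ (∀ c, ∀ L ∈ s₁, w c ∈ L) ∧
      ∀ c c' (L : S), (w c')⁻¹ * w c ∈ (L : Subgroup Γ) → c L = c' L := by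
  classical
  choose! X hX1 hX2 using (fun L (hL : L ∈ S) => (hS L hL).four)
  have key : ∀ c : S → Fin 4, ∃ t ∈ W, ∀ L ∈ S ∪ s₁,
      t⁻¹ * (if h : L ∈ S then X L (c ⟨L, h⟩) else 1) ∈ L := by
    intro c
    apply crt (T := W) (S ∪ s₁) (by
      intro L hL
      rcases Finset.mem_union.1 hL with h | h
      · exact hS L h
      · exact hs₁ L h) (fun L => if h : L ∈ S then X L (c ⟨L, h⟩) else 1)
    intro L hL
    by_cases h : L ∈ S
    · simp only [h, dif_pos]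
      exact hX1 L h _
    · simp only [h, dif_neg, not_false_eq_true]
      exact W.one_mem
  choose w hw1 hw2 using key
  refine ⟨w, hw1, ?_, ?_⟩
  · intro c L hL
    have h1 := hw2 c L (Finset.mem_union_right _ hL)
    have h2 : L ∉ S := fun h => hdis L h hL
    simp only [h2, dif_neg, not_false_eq_true, mul_one] at h1
    simpa using L.inv_mem h1
  · intro c c' L hL
    have h1 := hw2 c L (Finset.mem_union_left _ L.2)
    have h2 := hw2 c' L (Finset.mem_union_left _ L.2)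
    have h3 : (L : Subgroup Γ) ∈ S := L.2
    simp only [h3, dif_pos] at h1 h2
    symm
    apply hX2 L L.2
    have h4 : (X (L : Subgroup Γ) (c' L))⁻¹ * X (L : Subgroup Γ) (c L) =
        ((w c')⁻¹ * X (L : Subgroup Γ) (c' L))⁻¹ * ((w c')⁻¹ * w c) *
          ((w c)⁻¹ * X (L : Subgroup Γ) (c L)) := by group
    rw [h4]
    exact (L : Subgroup Γ).mul_mem ((L : Subgroup Γ).mul_mem ((L : Subgroup Γ).inv_mem h2) hL) h1

/-- the orbits of a semiregular group are large. -/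
theorem semi_card [Finite Ω] {ρ : Γ →* Perm Ω} {W : Subgroup Γ} {O : Set Ω} (hne : O.Nonempty)
    (hinv : ∀ w ∈ W, ∀ o ∈ O, ρ w o ∈ O)
    (hsemi : ∀ w ∈ W, ∀ o ∈ O, ρ w o = o → w ∈ kerO ρ W O) (S : Finset (Subgroup Γ))
    (hS : ∀ L ∈ S, L ∈ LL ρ W O) : 4 ^ S.card ≤ O.ncard := by
  classical
  obtain ⟨w, hw1, -, hw2⟩ := crt4 (W := W) S ∅ (fun L hL => (hS L hL).1) (by simp) (by simp)
  obtain ⟨o, ho⟩ := hne
  let F : (S → Fin 4) → O := fun c => ⟨ρ (w c) o, hinv _ (hw1 c) o ho⟩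
  have hF : Function.Injective F := by
    intro c c' h
    have h1 : ρ (w c) o = ρ (w c') o := congrArg Subtype.val h
    have h2 : (w c')⁻¹ * w c ∈ kerO ρ W O := by
      apply hsemi _ (W.mul_mem (W.inv_mem (hw1 c')) (hw1 c)) o ho
      rw [act_mul, h1, act_inv_act]
    funext L
    exact hw2 c c' L ((hS L L.2).2 h2)
  have h1 := Nat.card_le_card_of_injective F hF
  rw [Nat.card_fun, Nat.card_eq_fintype_card (α := Fin 4), Fintype.card_fin,
    Nat.card_eq_fintype_card (α := S), Fintype.card_coe] at h1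
  exact h1

theorem semi_fix [Finite Ω] {ρ : Γ →* Perm Ω} {W : Subgroup Γ} {O : Set Ω} {f : Γ}
    (hfW : cj f W = W)
    (hinv : ∀ w ∈ W, ∀ o ∈ O, ρ w o ∈ O)
    (hsemi : ∀ w ∈ W, ∀ o ∈ O, ρ w o = o → w ∈ kerO ρ W O) (S : Finset (Subgroup Γ))
    (hS : ∀ L ∈ S, L ∈ LL ρ W O) (hdis : ∀ i ∈ S, ∀ j ∈ S, cj f i ≠ j) :
    {o ∈ O | ρ f o = o}.ncard * 4 ^ S.card ≤ O.ncard := by
  classical
  have hfW' : cj f⁻¹ W = W := by
    rw [← hfW, cj_inv_cj, hfW]
  obtain ⟨w, hw1, hw3, hw2⟩ := crt4 (W := W) S (S.image (cj f⁻¹)) (fun L hL => (hS L hL).1) (by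
    intro L hL
    obtain ⟨L1, hL1, rfl⟩ := Finset.mem_image.1 hL
    have := (hS L1 hL1).1.cj f⁻¹
    rwa [hfW'] at this) (by
    intro L hL hL'
    obtain ⟨j, hj, rfl⟩ := Finset.mem_image.1 hL'
    exact hdis _ hL j hj (cj_cj_inv f j))
  let F : {o ∈ O | ρ f o = o} × (S → Fin 4) → O := fun z =>
    ⟨ρ (w z.2) z.1, hinv _ (hw1 z.2) z.1 z.1.2.1⟩
  have hF : Function.Injective F := by
    rintro ⟨⟨o, ho⟩, c⟩ ⟨⟨o', ho'⟩, c'⟩ h
    have h1 : ρ (w c) o = ρ (w c') o' := congrArg Subtype.val h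
    have hu : (w c')⁻¹ * w c ∈ W := W.mul_mem (W.inv_mem (hw1 c')) (hw1 c)
    obtain ⟨u, hu'⟩ : ∃ u, u = (w c')⁻¹ * w c := ⟨_, rfl⟩
    rw [← hu'] at hu
    have h2 : ρ u o = o' := by rw [hu', act_mul, h1, act_inv_act]
    have h3 : ρ (f * u * f⁻¹) o = o' := by
      have h4 := act_conj ρ f u o
      rw [ho.2, h2, ho'.2] at h4
      exact h4
    have h5 : u⁻¹ * (f * u * f⁻¹) ∈ kerO ρ W O := by
      apply hsemi _ (W.mul_mem (W.inv_mem hu) (by rw [← hfW]; exact conj_mem_cj.2 hu)) o ho.1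
      rw [act_mul, h3, ← h2, act_inv_act]
    have hc : c = c' := by
      funext L
      apply hw2 c c' L
      rw [← hu']
      have h6 : f * u * f⁻¹ ∈ (L : Subgroup Γ) := by
        have h7 : u ∈ cj f⁻¹ (L : Subgroup Γ) := by
          have h8 := hw3 c (cj f⁻¹ (L : Subgroup Γ)) (Finset.mem_image_of_mem _ L.2)
          have h9 := hw3 c' (cj f⁻¹ (L : Subgroup Γ)) (Finset.mem_image_of_mem _ L.2)
          rw [hu']
          exact Subgroup.mul_mem _ (Subgroup.inv_mem _ h9) h8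
        rw [mem_cj, inv_inv] at h7
        exact h7
      have h7 := (L : Subgroup Γ).mul_mem ((hS L L.2).2 h5) ((L : Subgroup Γ).inv_mem h6)
      rw [mul_inv_cancel_right] at h7
      exact (inv_mem_iff (H := (L : Subgroup Γ))).1 h7
    subst hc
    have h8 : o = o' := (ρ (w c)).injective h1
    subst h8
    rfl
  have h1 := Nat.card_le_card_of_injective F hF
  rw [Nat.card_prod, Nat.card_fun, Nat.card_eq_fintype_card (α := Fin 4), Fintype.card_fin,
    Nat.card_eq_fintype_card (α := S), Fintype.card_coe] at h1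
  exact h1

end Pool.Agent.LFS
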