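import Mathlib
import Pool.Agent.LFS.Semi

set_option autoImplicit false

/-!
A permutation moving a component fixes at most three quarters of the points.
-/

namespace Pool.Agent.LFS

open Equiv

universe u v

variable {Γ : Type u} [Group Γ] {Ω : Type u}

/-- `f` normalises `T` and stabilises `O`. -/
structure Stb (ρ : Γ →* Perm Ω) (f : Γ) (T : Subgroup Γ) (O : Set Ω) : Prop where
  gr : cj f T = T
  st : ∀ o, ρ f o ∈ O ↔ o ∈ O

theorem Stb.inv {ρ : Γ →* Perm Ω} {f : Γ} {T : Subgroup Γ} {O : Set Ω} (h : Stb ρ f T O) :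
    Stb ρ f⁻¹ T O := by
  refine ⟨?_, fun o => ?_⟩
  · rw [← h.gr, cj_inv_cj, h.gr]
  · rw [← h.st, act_act_inv]

theorem Stb.one (ρ : Γ →* Perm Ω) (T : Subgroup Γ) (O : Set Ω) : Stb ρ 1 T O :=
  ⟨cj_one T, fun o => by rw [map_one]; rfl⟩

theorem Stb.mul {ρ : Γ →* Perm Ω} {f g : Γ} {T : Subgroup Γ} {O : Set Ω} (h : Stb ρ f T O)
    (h' : Stb ρ g T O) : Stb ρ (f * g) T O := by
  refine ⟨?_, fun o => ?_⟩
  · rw [cj_mul, h'.gr, h.gr]
  · rw [act_mul, h.st, h'.st]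

theorem Stb.pow {ρ : Γ →* Perm Ω} {f : Γ} {T : Subgroup Γ} {O : Set Ω} (h : Stb ρ f T O)
    (k : ℕ) : Stb ρ (f ^ k) T O := by
  induction k with
  | zero => rw [pow_zero]; exact Stb.one ρ T O
  | succ k ih => rw [pow_succ]; exact ih.mul h

theorem Stb.zpow {ρ : Γ →* Perm Ω} {f : Γ} {T : Subgroup Γ} {O : Set Ω} (h : Stb ρ f T O)
    (k : ℤ) : Stb ρ (f ^ k) T O := by
  cases k with
  | ofNat k => rw [Int.ofNat_eq_natCast, zpow_natCast]; exact h.pow k
  | negSucc k => rw [zpow_negSucc]; exact (h.pow _).inv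

theorem Stb.ker {ρ : Γ →* Perm Ω} {f : Γ} {T : Subgroup Γ} {O : Set Ω} (h : Stb ρ f T O) :
    cj f (kerO ρ T O) = kerO ρ T O := cj_kerO h.gr h.st

theorem Stb.LL {ρ : Γ →* Perm Ω} {f : Γ} {T : Subgroup Γ} {O : Set Ω} (h : Stb ρ f T O)
    {L : Subgroup Γ} (hL : L ∈ LL ρ T O) : cj f L ∈ LL ρ T O := by
  refine ⟨?_, ?_⟩
  · have := hL.1.cj f
    rwa [h.gr] at this
  · rw [← h.ker]
    exact cj_mono hL.2

theorem Stb.conj_mem {ρ : Γ →* Perm Ω} {f : Γ} {T : Subgroup Γ} {O : Set Ω} (h : Stb ρ f T O)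
    {t : Γ} (ht : t ∈ T) : f * t * f⁻¹ ∈ T := by
  rw [← h.gr]
  exact conj_mem_cj.2 ht

theorem isOrb.stb {ρ : Γ →* Perm Ω} {T : Subgroup Γ} {O : Set Ω} (h : isOrb ρ T O) {t : Γ}
    (ht : t ∈ T) : Stb ρ t T O := by
  refine ⟨(Nrm.self T).cj_eq ht, fun o => ⟨fun ho => ?_, fun ho => h.inv t ht o ho⟩⟩
  have := h.inv t⁻¹ (T.inv_mem ht) _ ho
  rwa [act_inv_act] at this

theorem isOrb.ker_nrm {ρ : Γ →* Perm Ω} {T : Subgroup Γ} {O : Set Ω} (h : isOrb ρ T O) :
    Nrm T (kerO ρ T O) := kerO_nrm (Nrm.self T) h.inv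

theorem card_cj (g : Γ) (L : Subgroup Γ) : Nat.card (cj g L) = Nat.card L := by
  have h : Function.Injective ((MulAut.conj g).toMonoidHom : Γ →* Γ) := (MulAut.conj g).injective
  exact (Nat.card_congr (L.equivMapOfInjective _ h).toEquiv).symm

theorem cj_eq_of_le [Finite Γ] {g : Γ} {L : Subgroup Γ} (h : cj g L ≤ L) : cj g L = L :=
  Subgroup.eq_of_le_of_card_ge h (card_cj g L).ge

theorem eq_of_half [Finite Γ] {R K : Subgroup Γ} (h : R ≤ K) (hc : Nat.card K < 2 * Nat.card R) :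
    R = K := by
  have h1 : Nat.card R ∣ Nat.card K := Subgroup.card_dvd_of_le h
  obtain ⟨k, hk⟩ := h1
  have h2 : 0 < Nat.card K := Nat.card_pos
  have h3 : k = 1 := by
    rw [hk] at hc h2
    have h4 : k < 2 := by
      by_contra h5
      push Not at h5
      nlinarith
    have h5 : k ≠ 0 := by
      rintro rfl
      simp at h2
    omega
  rw [h3, mul_one] at hk
  exact Subgroup.eq_of_le_of_card_ge h hk.le

theorem eq_of_subset_half [Finite Γ] {R K : Subgroup Γ} (h : R ≤ K) {E : Set Γ}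
    (hE : ∀ x ∈ E, x ∈ R) (hc : Nat.card K < 2 * E.ncard) : R = K := by
  apply eq_of_half h
  have h1 : E.ncard ≤ Nat.card R := by
    rw [← SetLike.coe_sort_coe, Nat.card_coe_set_eq]
    exact Set.ncard_le_ncard hE (Set.toFinite _)
  omega

/-- a subgroup commuting elements modulo `Z`. -/
def cms (T : Subgroup Γ) (s : Γ) (Z : Subgroup Γ) (h : Nrm T Z) : Subgroup Γ where
  carrier := {t | t ∈ T ∧ t * s * t⁻¹ * s⁻¹ ∈ Z}
  one_mem' := ⟨T.one_mem, by simp [Z.one_mem]⟩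
  mul_mem' := by
    rintro t s' ⟨ht, h1⟩ ⟨hs, h2⟩
    refine ⟨T.mul_mem ht hs, ?_⟩
    have h3 : t * s' * s * (t * s')⁻¹ * s⁻¹ =
        (t * (s' * s * s'⁻¹ * s⁻¹) * t⁻¹) * (t * s * t⁻¹ * s⁻¹) := by group
    rw [h3]
    exact Z.mul_mem (h t ht _ h2) h1
  inv_mem' := by
    rintro t ⟨ht, h1⟩
    refine ⟨T.inv_mem ht, ?_⟩
    have h3 : t⁻¹ * s * t⁻¹⁻¹ * s⁻¹ = t⁻¹ * (t * s * t⁻¹ * s⁻¹)⁻¹ * t := by group
    rw [h3]
    exact h.inv ht (Z.inv_mem h1)

/-- averaging. -/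
theorem exists_dense [Finite Γ] [Finite Ω] {ρ : Γ →* Perm Ω} {K : Subgroup Γ} {O : Set Ω}
    (hK : ∀ s ∈ K, ∀ o, ρ s o ∈ O ↔ o ∈ O) (F : Set Ω) (hFO : F ⊆ O)
    (h : 3 * O.ncard < 4 * F.ncard) :
    ∃ o ∈ F, 3 * Nat.card K < 4 * {s | s ∈ K ∧ ρ s o ∈ F}.ncard := by
  classical
  have hfΓ := Fintype.ofFinite Γ
  have hfΩ := Fintype.ofFinite Ω
  let Kf : Finset Γ := Finset.univ.filter (fun s => s ∈ K)
  let Of : Finset Ω := Finset.univ.filter (fun o => o ∈ O)
  let Ff : Finset Ω := Finset.univ.filter (fun o => o ∈ F)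
  have hKc : Kf.card = Nat.card K := by
    rw [← SetLike.coe_sort_coe, Nat.card_coe_set_eq, ← Set.ncard_coe_finset]
    congr 1
    ext x
    simp [Kf]
  have hOc : Of.card = O.ncard := by
    rw [← Set.ncard_coe_finset]
    congr 1
    ext x
    simp [Of]
  have hFc : Ff.card = F.ncard := by
    rw [← Set.ncard_coe_finset]
    congr 1
    ext x
    simp [Ff]
  have hEc : ∀ o, (Kf.filter (fun s => ρ s o ∈ F)).card = {s | s ∈ K ∧ ρ s o ∈ F}.ncard := by
    intro o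
    rw [← Set.ncard_coe_finset]
    congr 1
    ext x
    simp [Kf]
  have key : ∃ o ∈ O, 3 * Nat.card K < 4 * {s | s ∈ K ∧ ρ s o ∈ F}.ncard := by
    by_contra hb
    push Not at hb
    have h1 : ∑ o ∈ Of, (Kf.filter (fun s => ρ s o ∈ F)).card =
        ∑ s ∈ Kf, (Of.filter (fun o => ρ s o ∈ F)).card := by
      simp only [Finset.card_filter]
      exact Finset.sum_comm
    have h2 : ∀ s ∈ Kf, (Of.filter (fun o => ρ s o ∈ F)).card = Ff.card := by
      intro s hs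
      have hsK : s ∈ K := by simpa [Kf] using hs
      apply Finset.card_bij (fun o _ => ρ s o)
      · intro o ho
        simp only [Of, Finset.mem_filter, Finset.mem_univ, true_and] at ho
        simp only [Ff, Finset.mem_filter, Finset.mem_univ, true_and]
        exact ho.2
      · intro a _ b _ hab
        exact (ρ s).injective hab
      · intro b hb
        simp only [Ff, Finset.mem_filter, Finset.mem_univ, true_and] at hb
        refine ⟨ρ s⁻¹ b, ?_, act_act_inv ρ s b⟩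
        simp only [Of, Finset.mem_filter, Finset.mem_univ, true_and]
        rw [act_act_inv]
        refine ⟨?_, hb⟩
        rw [← hK s hsK, act_act_inv]
        exact hFO hb
    rw [Finset.sum_congr rfl h2, Finset.sum_const, smul_eq_mul] at h1
    have h3 : 4 * ∑ o ∈ Of, (Kf.filter (fun s => ρ s o ∈ F)).card ≤ Of.card * (3 * Nat.card K) := by
      rw [Finset.mul_sum, ← smul_eq_mul, ← Finset.sum_const]
      apply Finset.sum_le_sum
      intro o ho
      rw [hEc]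
      exact hb o (by simpa [Of] using ho)
    rw [h1, hKc, hFc, hOc] at h3
    have h4 : 0 < Nat.card K := Nat.card_pos
    nlinarith
  obtain ⟨o, -, ho⟩ := key
  have hne : {s | s ∈ K ∧ ρ s o ∈ F}.Nonempty := by
    rw [Set.nonempty_iff_ne_empty]
    intro he
    rw [he, Set.ncard_empty] at ho
    omega
  obtain ⟨s₁, hs₁, hF₁⟩ := hne
  refine ⟨ρ s₁ o, hF₁, ?_⟩
  have h1 : {s | s ∈ K ∧ ρ s (ρ s₁ o) ∈ F}.ncard = {s | s ∈ K ∧ ρ s o ∈ F}.ncard := by
    have h2 : {s | s ∈ K ∧ ρ s o ∈ F} = (fun s => s * s₁) '' {s | s ∈ K ∧ ρ s (ρ s₁ o) ∈ F} := by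
      ext s
      constructor
      · rintro ⟨hs, hsF⟩
        refine ⟨s * s₁⁻¹, ⟨K.mul_mem hs (K.inv_mem hs₁), ?_⟩, by simp⟩
        rw [act_mul, act_inv_act]
        exact hsF
      · rintro ⟨t, ⟨ht, htF⟩, rfl⟩
        exact ⟨K.mul_mem ht hs₁, by rw [act_mul]; exact htF⟩
    rw [h2, Set.ncard_image_of_injective _ (mul_left_injective s₁)]
  rw [h1]
  exact ho

theorem fix34 [Finite Γ] [Finite Ω] {ρ : Γ →* Perm Ω} {A : Subgroup Γ} {O : Set Ω} {f : Γ}
    (hA : isOrb ρ A O) (hf : Stb ρ f A O)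
    (hss : ∀ a ∈ A, (∀ L ∈ LL ρ A O, a ∈ L) → a ∈ kerO ρ A O) (i₀ : Subgroup Γ)
    (hi₀ : i₀ ∈ LL ρ A O) (hfi : cj f i₀ ≠ i₀) : 4 * {o ∈ O | ρ f o = o}.ncard ≤ 3 * O.ncard := by
  classical
  by_contra hcon
  push Not at hcon
  let Z := kerO ρ A O
  have hZn : Nrm A Z := hA.ker_nrm
  have hZact : ∀ z ∈ Z, ∀ o ∈ O, ρ z o = o := fun z hz o ho => hz.2 o ho
  -- the component
  let K : Subgroup Γ :=
    { carrier := {x | x ∈ A ∧ ∀ L ∈ LL ρ A O, L ≠ i₀ → x ∈ L}
      one_mem' := ⟨A.one_mem, fun L _ _ => L.one_mem⟩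
      mul_mem' := fun {x y} hx hy => ⟨A.mul_mem hx.1 hy.1,
        fun L hL hne => L.mul_mem (hx.2 L hL hne) (hy.2 L hL hne)⟩
      inv_mem' := fun {x} hx => ⟨A.inv_mem hx.1, fun L hL hne => L.inv_mem (hx.2 L hL hne)⟩ }
  have hKA : K ≤ A := fun x hx => hx.1
  have hKn : Nrm A K := fun t ht x hx => ⟨A.mul_mem (A.mul_mem ht hx.1) (A.inv_mem ht),
    fun L hL hne => hL.1.nrm t ht x (hx.2 L hL hne)⟩
  have hKi : ¬ K ≤ i₀ := by
    intro hle
    have hfin : (LL ρ A O \ {i₀}).Finite := Set.toFinite _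
    obtain ⟨L, hL, h1⟩ := hi₀.1.prime_fam hfin.toFinset id
      (fun L hL => ((hfin.mem_toFinset.1 hL).1).1.le)
      (fun L hL => ((hfin.mem_toFinset.1 hL).1).1.nrm) (by
        intro a ha hb
        apply hle
        refine ⟨ha, fun L hL hne => hb L (hfin.mem_toFinset.2 ⟨hL, hne⟩)⟩)
    have h2 := hfin.mem_toFinset.1 hL
    exact h2.2 (h2.1.1.eq_of_le hi₀.1 h1)
  have hKiZ : i₀ ⊓ K ≤ Z := by
    intro x hx
    apply hss x hx.2.1
    intro L hL
    by_cases hne : L = i₀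
    · rw [hne]; exact hx.1
    · exact hx.2.2 L hL hne
  have hfinvi : cj f⁻¹ i₀ ≠ i₀ := by
    intro h
    apply hfi
    calc cj f i₀ = cj f (cj f⁻¹ i₀) := by rw [h]
      _ = i₀ := cj_cj_inv f i₀
  -- the component commutes with its conjugate
  have hcomm : ∀ s ∈ K, ∀ t ∈ K, (f * s * f⁻¹) * t * (f * s * f⁻¹)⁻¹ * t⁻¹ ∈ Z := by
    intro s hs t ht
    have hsA : f * s * f⁻¹ ∈ A := hf.conj_mem hs.1
    apply hss
    · exact A.mul_mem (A.mul_mem (A.mul_mem hsA ht.1) (A.inv_mem hsA)) (A.inv_mem ht.1)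
    intro L hL
    by_cases hne : L = i₀
    · have h1 : s ∈ cj f⁻¹ i₀ := hs.2 _ (hf.inv.LL hi₀) hfinvi
      have h2 : f * s * f⁻¹ ∈ L := by
        rw [mem_cj, inv_inv] at h1
        rw [hne]
        exact h1
      have h3 : (f * s * f⁻¹) * t * (f * s * f⁻¹)⁻¹ * t⁻¹ =
          (f * s * f⁻¹) * (t * (f * s * f⁻¹)⁻¹ * t⁻¹) := by group
      rw [h3]
      exact L.mul_mem h2 (hL.1.nrm t ht.1 _ (L.inv_mem h2))
    · have h2 : t ∈ L := ht.2 L hL hne
      exact L.mul_mem (hL.1.nrm _ hsA t h2) (L.inv_mem h2)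
  -- a dense orbit
  let F : Set Ω := {o ∈ O | ρ f o = o}
  obtain ⟨o, ho, hE⟩ := exists_dense (ρ := ρ) (K := K) (O := O)
    (fun s hs o => (hA.stb (hKA hs)).st o) F (fun x hx => hx.1) hcon
  let E : Set Γ := {s | s ∈ K ∧ ρ s o ∈ F}
  have hEK : ∀ s ∈ E, s ∈ K := fun s hs => hs.1
  have hsf : ∀ s, ρ (f * s * f⁻¹) o = ρ f (ρ s o) := by
    intro s
    have h1 := act_conj ρ f s o
    rwa [ho.2] at h1
  have hEs : ∀ s ∈ E, ρ (f * s * f⁻¹) o = ρ s o := by
    intro s hs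
    rw [hsf, hs.2.2]
  have hKinvO : ∀ s ∈ K, ∀ x ∈ O, ρ s x ∈ O := fun s hs x hx => hA.inv s (hKA hs) x hx
  -- commuting on points of O
  have hswap : ∀ s ∈ K, ∀ t ∈ K, ∀ x ∈ O,
      ρ (f * s * f⁻¹) (ρ t x) = ρ t (ρ (f * s * f⁻¹) x) := by
    intro s hs t ht x hx
    have h1 := hcomm s hs t ht
    have h2 : (f * s * f⁻¹) * t = ((f * s * f⁻¹) * t * (f * s * f⁻¹)⁻¹ * t⁻¹) *
        (t * (f * s * f⁻¹)) := by group
    rw [← act_mul, h2, act_mul, ← act_mul ρ t]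
    apply hZact _ h1
    exact hA.inv _ (A.mul_mem ht.1 (hf.conj_mem hs.1)) x hx
  -- the stabiliser of `o` in the component
  let N : Subgroup Γ :=
    { carrier := {n | n ∈ K ∧ ρ n o = o}
      one_mem' := ⟨K.one_mem, by rw [map_one]; rfl⟩
      mul_mem' := fun {x y} hx hy => ⟨K.mul_mem hx.1 hy.1, by rw [act_mul, hy.2, hx.2]⟩
      inv_mem' := fun {x} hx => ⟨K.inv_mem hx.1, by rw [act_eq_iff, hx.2]⟩ }
  have hNE : ∀ s ∈ E, cj s⁻¹ N = N := by
    intro s hs
    apply cj_eq_of_le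
    intro n hn
    rw [mem_cj, inv_inv] at hn
    refine ⟨?_, ?_⟩
    · have h1 := K.mul_mem (K.mul_mem (K.inv_mem hs.1) hn.1) hs.1
      have h2 : s⁻¹ * (s * n * s⁻¹) * s = n := by group
      rwa [h2] at h1
    · have h1 : ρ (s * n * s⁻¹) (ρ s o) = ρ s o := by
        rw [← hEs s hs, ← hswap s hs.1 _ hn.1 o ho.1, hn.2]
      rw [act_conj] at h1
      exact (ρ s).injective h1
  let RN : Subgroup Γ :=
    { carrier := {s | s ∈ K ∧ cj s N = N}
      one_mem' := ⟨K.one_mem, cj_one N⟩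
      mul_mem' := fun {x y} hx hy => ⟨K.mul_mem hx.1 hy.1, by rw [cj_mul, hy.2, hx.2]⟩
      inv_mem' := fun {x} hx => ⟨K.inv_mem hx.1, by
        have h := hx.2
        calc cj x⁻¹ N = cj x⁻¹ (cj x N) := by rw [h]
          _ = N := cj_inv_cj x N⟩ }
  have hcard2 : Nat.card K < 2 * E.ncard := by
    have : 3 * Nat.card K < 4 * E.ncard := hE
    omega
  have hRN : RN = K := by
    have hle : RN ≤ K := fun s hs => hs.1
    apply eq_of_subset_half hle (E := E) _ hcard2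
    intro s hs
    have h1 : s⁻¹ ∈ RN := ⟨K.inv_mem hs.1, hNE s hs⟩
    exact (inv_mem_iff (H := RN)).1 h1
  have hNn : Nrm K N := by
    apply nrm_of_cj_eq
    intro t ht
    have : t ∈ RN := by rw [hRN]; exact ht
    exact this.2
  have hNS : NS K (i₀ ⊓ K) := hi₀.1.restrict_normal hKA hKn hKi
  have hNZ : N ≤ Z := by
    rcases hNS.max N (by
      intro x hx
      exact ⟨hx.2, hZact x (hKiZ hx) o ho.1⟩) (fun x hx => hx.1) hNn with h1 | h1
    · rw [h1]; exact hKiZ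
    · exfalso
      apply hKi
      intro k hk
      apply hi₀.2
      refine ⟨hk.1, ?_⟩
      intro x hx
      obtain ⟨a, ha, rfl⟩ := hA.tr o ho.1 x hx
      have h2 : a⁻¹ * k * a ∈ N := by
        rw [h1]
        exact hKn.inv ha hk
      have h3 := h2.2
      rw [act_mul, act_mul, act_eq_iff] at h3
      exact h3
  -- elements of E commute with everything
  have hEcomm : ∀ s ∈ E, ∀ t ∈ K, t * s * t⁻¹ * s⁻¹ ∈ Z := by
    intro s hs
    have hRs : cms K s Z (hZn.mono hKA) = K := by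
      have hle : cms K s Z (hZn.mono hKA) ≤ K := fun t ht => ht.1
      apply eq_of_subset_half hle (E := {t | t ∈ E ∧ s * t ∈ E})
      · rintro t ⟨ht, hst⟩
        refine ⟨ht.1, ?_⟩
        -- `s t o = t s o`
        have h1 : ρ (s * t) o = ρ (t * s) o := by
          rw [← hEs _ hst]
          have h2 : f * (s * t) * f⁻¹ = (f * s * f⁻¹) * (f * t * f⁻¹) := by group
          rw [h2, act_mul, hEs t ht, hswap s hs.1 t ht.1 o ho.1, hEs s hs, act_mul]
        have h2 : (t * s)⁻¹ * (s * t) ∈ N := by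
          refine ⟨K.mul_mem (K.inv_mem (K.mul_mem ht.1 hs.1)) (K.mul_mem hs.1 ht.1), ?_⟩
          rw [act_mul, h1, act_inv_act]
        have h3 := hZn (t * s) (A.mul_mem (hKA ht.1) (hKA hs.1)) _ (Z.inv_mem (hNZ h2))
        have h4 : t * s * ((t * s)⁻¹ * (s * t))⁻¹ * (t * s)⁻¹ = t * s * t⁻¹ * s⁻¹ := by group
        rwa [h4] at h3
      · have h1 : {t | s * t ∈ E}.ncard = E.ncard := by
          have h2 : {t | s * t ∈ E} = (fun t => s⁻¹ * t) '' E := by
            ext t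
            constructor
            · intro ht
              exact ⟨s * t, ht, by simp⟩
            · rintro ⟨x, hx, rfl⟩
              change s * (s⁻¹ * x) ∈ E
              rwa [mul_inv_cancel_left]
          rw [h2, Set.ncard_image_of_injective _ (mul_right_injective s⁻¹)]
        have h2 := Set.ncard_union_add_ncard_inter E {t | s * t ∈ E} (Set.toFinite _)
          (Set.toFinite _)
        have h3 : (E ∪ {t | s * t ∈ E}).ncard ≤ Nat.card K := by
          rw [← SetLike.coe_sort_coe, Nat.card_coe_set_eq]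
          apply Set.ncard_le_ncard _ (Set.toFinite _)
          rintro t (ht | ht)
          · exact ht.1
          · have h4 : s * t ∈ K := ht.1
            have h5 := K.mul_mem (K.inv_mem hs.1) h4
            rwa [inv_mul_cancel_left] at h5
        have h4 : (E ∩ {t | s * t ∈ E}).ncard = {t | t ∈ E ∧ s * t ∈ E}.ncard := rfl
        have h5 : 3 * Nat.card K < 4 * E.ncard := hE
        omega
    intro t ht
    have : t ∈ cms K s Z (hZn.mono hKA) := by rw [hRs]; exact ht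
    exact this.2
  have hcmK : cm K K Z (hZn.mono hKA) = K := by
    apply eq_of_subset_half (cm_le _) (E := E) _ hcard2
    intro s hs
    exact ⟨hs.1, fun b hb => comm_mem_symm (hEcomm s hs b hb)⟩
  apply hKi
  apply hi₀.1.prime_self hKA hKn
  intro a ha b hb
  have : a ∈ cm K K Z (hZn.mono hKA) := by rw [hcmK]; exact ha
  exact hi₀.2 (this.2 b hb)

end Pool.Agent.LFS
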