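import Mathlib
import Pool.Agent.LFS.Comp

set_option autoImplicit false

/-!
The component lemma.
-/

namespace Pool.Agent.LFS

open Equiv

universe u v

variable {Γ : Type u} [Group Γ]

/-- the Chinese remainder theorem for families. -/
theorem crt_fam {T : Subgroup Γ} {ι : Type v} (s : Finset ι) (N : ι → Subgroup Γ)
    (hs : ∀ i ∈ s, NS T (N i)) (hinj : ∀ i ∈ s, ∀ j ∈ s, N i = N j → i = j)
    (a : ι → Γ) (ha : ∀ i ∈ s, a i ∈ T) : ∃ t ∈ T, ∀ i ∈ s, t⁻¹ * a i ∈ N i := by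
  classical
  rcases isEmpty_or_nonempty ι with hι | hι
  · exact ⟨1, T.one_mem, fun i => (hι.false i).elim⟩
  have hI : Set.InjOn N (s : Set ι) := fun i hi j hj h => hinj i hi j hj h
  have hinv : ∀ i ∈ s, Function.invFunOn N (s : Set ι) (N i) = i := fun i hi =>
    hI.leftInvOn_invFunOn (Finset.mem_coe.2 hi)
  obtain ⟨t, ht, h⟩ := crt (T := T) (s.image N) (by
      intro L hL
      obtain ⟨i, hi, rfl⟩ := Finset.mem_image.1 hL
      exact hs i hi) (fun L => a (Function.invFunOn N (s : Set ι) L)) (by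
      intro L hL
      obtain ⟨i, hi, rfl⟩ := Finset.mem_image.1 hL
      rw [hinv i hi]
      exact ha i hi)
  refine ⟨t, ht, fun i hi => ?_⟩
  have h1 := h (N i) (Finset.mem_image_of_mem _ hi)
  rwa [hinv i hi] at h1

section blocks

variable {Ω : Type u} {ρ : Γ →* Perm Ω} {T N : Subgroup Γ} {O : Set Ω} {f : Γ}

theorem stb_blks (hf : Stb ρ f T O) (hfN : cj f N = N) : Stb (imP ρ) f T (blks ρ N O) := by
  refine ⟨hf.gr, fun β => ?_⟩
  constructor
  · rintro ⟨o, ho, h⟩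
    have h1 : o = ρ f (ρ f⁻¹ o) := (act_act_inv ρ f o).symm
    refine ⟨ρ f⁻¹ o, ?_, ?_⟩
    · rw [← hf.st, ← h1]; exact ho
    · apply (imP ρ f).injective
      rw [imP_blk hfN, ← h1, h]
  · rintro ⟨o, ho, rfl⟩
    exact ⟨ρ f o, (hf.st o).2 ho, (imP_blk hfN o).symm⟩

theorem stb_kb (hf : Stb ρ f T O) (hfN : cj f N = N) {β : Set Ω} (hβ : imP ρ f β = β) :
    Stb ρ f (kb ρ T N O) β := by
  refine ⟨kb_cj hf.gr hfN hf.st, fun o => ?_⟩
  conv_lhs => rw [← hβ]
  rw [mem_imP, act_inv_act]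

theorem ker_le_kb (hN : Nrm T N) : kerO ρ T O ≤ kb ρ T N O := by
  rintro t ⟨ht, h1⟩
  refine ⟨ht, ?_⟩
  rintro _ ⟨o, ho, rfl⟩
  rw [imP_blk (hN.cj_eq ht), h1 o ho]

theorem blk_subset (h : isOrb ρ T O) (hNT : N ≤ T) {β : Set Ω} (hβ : β ∈ blks ρ N O) : β ⊆ O := by
  obtain ⟨o, ho, rfl⟩ := hβ
  rintro _ ⟨n, hn, rfl⟩
  exact h.inv n (hNT hn) o ho

/-- the fixed points through the blocks. -/
theorem block_fix [Finite Ω] (h : isOrb ρ T O) (hN : Nrm T N) (hNT : N ≤ T)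
    (hfN : cj f N = N) (a b c d : ℕ) (ha : 0 < a)
    (h1 : ∀ β ∈ blks ρ N O, imP ρ f β = β → {o ∈ β | ρ f o = o}.ncard * a ≤ b * β.ncard)
    (h2 : {β ∈ blks ρ N O | imP ρ f β = β}.ncard * c ≤ d * (blks ρ N O).ncard) :
    {o ∈ O | ρ f o = o}.ncard * (a * c) ≤ (b * d) * O.ncard := by
  classical
  rcases Set.eq_empty_or_nonempty {o ∈ O | ρ f o = o} with he | ⟨o₀, ho₀, hf₀⟩
  · rw [he, Set.ncard_empty, zero_mul]; exact Nat.zero_le _
  have hβ₀ : blk ρ N o₀ ∈ blks ρ N O := ⟨o₀, ho₀, rfl⟩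
  have h3 := ncard_le_blks (ρ := ρ) (N := N) {o ∈ O | ρ f o = o} (b * (blk ρ N o₀).ncard / a) (by
    rintro o ⟨ho, hfo⟩
    have hβ : blk ρ N o ∈ blks ρ N O := ⟨o, ho, rfl⟩
    have h4 := h1 _ hβ (by rw [imP_blk hfN, hfo])
    rw [blk_ncard h hN hβ hβ₀] at h4
    rw [Nat.le_div_iff_mul_le ha]
    refine le_trans (Nat.mul_le_mul_right _ ?_) h4
    apply Set.ncard_le_ncard _ (Set.toFinite _)
    rintro x ⟨hx1, hx2⟩
    exact ⟨hx2, hx1.2⟩)
  have h4 : (blk ρ N '' {o ∈ O | ρ f o = o}).ncard ≤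
      {β ∈ blks ρ N O | imP ρ f β = β}.ncard := by
    apply Set.ncard_le_ncard _ (Set.toFinite _)
    rintro _ ⟨o, ⟨ho, hfo⟩, rfl⟩
    exact ⟨⟨o, ho, rfl⟩, by rw [imP_blk hfN, hfo]⟩
  have h5 : b * (blk ρ N o₀).ncard / a * a ≤ b * (blk ρ N o₀).ncard := Nat.div_mul_le_self _ _
  have h6 := blks_mul_le h hN hNT hβ₀
  calc {o ∈ O | ρ f o = o}.ncard * (a * c)
      ≤ ((blk ρ N '' {o ∈ O | ρ f o = o}).ncard * (b * (blk ρ N o₀).ncard / a)) * (a * c) :=
        Nat.mul_le_mul_right _ h3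
    _ ≤ ({β ∈ blks ρ N O | imP ρ f β = β}.ncard * (b * (blk ρ N o₀).ncard / a)) * (a * c) :=
        Nat.mul_le_mul_right _ (Nat.mul_le_mul_right _ h4)
    _ = ({β ∈ blks ρ N O | imP ρ f β = β}.ncard * c) * (b * (blk ρ N o₀).ncard / a * a) := by ring
    _ ≤ (d * (blks ρ N O).ncard) * (b * (blk ρ N o₀).ncard) := Nat.mul_le_mul h2 h5
    _ = (b * d) * ((blks ρ N O).ncard * (blk ρ N o₀).ncard) := by ring
    _ ≤ (b * d) * O.ncard := Nat.mul_le_mul_left _ h6

end blocks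

theorem CL [Finite Γ] (f : Γ) : ∀ (n : ℕ) (Ω : Type u) [Finite Ω] (ρ : Γ →* Perm Ω)
    (A : Subgroup Γ) (O : Set Ω), O.ncard ≤ n → isOrb ρ A O → Stb ρ f A O →
    (∀ a ∈ A, (∀ L ∈ LL ρ A O, a ∈ L) → a ∈ kerO ρ A O) →
    ∀ S : Finset (Subgroup Γ), (∀ i ∈ S, i ∈ LL ρ A O) → (∀ i ∈ S, cj f i ≠ i) →
      (∀ i ∈ S, ∀ j ∈ S, ∀ k : ℤ, cj (f ^ k) i = j → i = j) →
      {o ∈ O | ρ f o = o}.ncard * 4 ^ S.card ≤ 3 ^ S.card * O.ncard := by
  classical
  intro n
  induction n with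
  | zero =>
    intro Ω _ ρ A O hn hA
    exfalso
    have := (Set.ncard_pos (Set.toFinite O)).2 hA.ne
    omega
  | succ n ih =>
  intro Ω _ ρ A O hn hA hf hss S hS hmv hin
  rcases Nat.lt_or_ge 1 S.card with hS2 | hS1
  swap
  · rcases Nat.eq_zero_or_pos S.card with h0 | h0
    · rw [h0, pow_zero, pow_zero, mul_one, one_mul]
      exact Set.ncard_le_ncard (fun x hx => hx.1) (Set.toFinite _)
    · have h1 : S.card = 1 := by omega
      obtain ⟨i, hi⟩ := Finset.card_eq_one.1 h1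
      have hiS : i ∈ S := by rw [hi]; exact Finset.mem_singleton_self i
      have h2 := fix34 hA hf hss i (hS i hiS) (hmv i hiS)
      rw [h1, pow_one, pow_one, mul_comm]
      exact h2
  obtain ⟨i₀, hi₀⟩ : S.Nonempty := Finset.card_pos.1 (by omega)
  have hi₀L := hS i₀ hi₀
  let Z := kerO ρ A O
  let Θ : Set (Subgroup Γ) := {L | ∃ k : ℤ, cj (f ^ k) i₀ = L}
  have hΘf : ∀ L, cj f L ∈ Θ ↔ L ∈ Θ := by
    intro L
    constructor
    · rintro ⟨k, hk⟩
      refine ⟨k - 1, ?_⟩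
      apply cj_inj (g := f)
      rw [← cj_mul, ← zpow_one_add]
      rw [← hk]
      congr 2
      omega
    · rintro ⟨k, rfl⟩
      refine ⟨1 + k, ?_⟩
      rw [zpow_one_add, cj_mul]
  have hi₀Θ : i₀ ∈ Θ := ⟨0, by rw [zpow_zero, cj_one]⟩
  have hSΘ : ∀ L ∈ S, L ≠ i₀ → L ∉ Θ := by
    rintro L hL hne ⟨k, hk⟩
    exact hne (hin i₀ hi₀ L hL k hk).symm
  have hfL : ∀ L, cj f L ∈ LL ρ A O ↔ L ∈ LL ρ A O := by
    intro L
    constructor
    · intro h
      have := hf.inv.LL h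
      rwa [cj_inv_cj] at this
    · exact hf.LL
  -- general construction
  have hmk : ∀ Φ : Set (Subgroup Γ), (∀ L, cj f L ∈ Φ ↔ L ∈ Φ) → ∃ M : Subgroup Γ,
      (∀ x, x ∈ M ↔ x ∈ A ∧ ∀ L ∈ LL ρ A O, L ∈ Φ → x ∈ L) ∧ M ≤ A ∧ Nrm A M ∧ cj f M = M := by
    intro Φ hΦ
    let M : Subgroup Γ :=
      { carrier := {x | x ∈ A ∧ ∀ L ∈ LL ρ A O, L ∈ Φ → x ∈ L}
        one_mem' := ⟨A.one_mem, fun L _ _ => L.one_mem⟩
        mul_mem' := fun {x y} hx hy => ⟨A.mul_mem hx.1 hy.1,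
          fun L hL hne => L.mul_mem (hx.2 L hL hne) (hy.2 L hL hne)⟩
        inv_mem' := fun {x} hx => ⟨A.inv_mem hx.1, fun L hL hne => L.inv_mem (hx.2 L hL hne)⟩ }
    refine ⟨M, fun x => Iff.rfl, fun x hx => hx.1, ?_, ?_⟩
    · exact fun t ht x hx => ⟨A.mul_mem (A.mul_mem ht hx.1) (A.inv_mem ht),
        fun L hL hne => hL.1.nrm t ht x (hx.2 L hL hne)⟩
    · have hle : M ≤ cj f M := by
        intro x hx
        rw [mem_cj]
        refine ⟨?_, ?_⟩
        · rw [← mem_cj, hf.gr]; exact hx.1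
        · intro L hL hLΦ
          have h1 := hx.2 (cj f L) ((hfL L).2 hL) ((hΦ L).2 hLΦ)
          exact mem_cj.1 h1
      exact (Subgroup.eq_of_le_of_card_ge hle (card_cj f M).le).symm
  obtain ⟨A₁, hA₁m, hA₁A, hA₁n, hA₁f⟩ := hmk Θᶜ (fun L => not_congr (hΘf L))
  obtain ⟨W, hWm, hWA, hWn, hWf⟩ := hmk Θ hΘf
  have hA₁i : ¬ A₁ ≤ i₀ := by
    intro hle
    have hfin : (LL ρ A O \ Θ).Finite := Set.toFinite _
    obtain ⟨L, hL, h1⟩ := hi₀L.1.prime_fam hfin.toFinset id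
      (fun L hL => ((hfin.mem_toFinset.1 hL).1).1.le)
      (fun L hL => ((hfin.mem_toFinset.1 hL).1).1.nrm) (by
        intro a ha hb
        apply hle
        rw [hA₁m]
        exact ⟨ha, fun L hL hne => hb L (hfin.mem_toFinset.2 ⟨hL, hne⟩)⟩)
    have h2 := hfin.mem_toFinset.1 hL
    have h3 := h2.1.1.eq_of_le hi₀L.1 h1
    exact h2.2 (by rw [h3]; exact hi₀Θ)
  have hA₁Z : ¬ A₁ ≤ Z := fun h => hA₁i (h.trans hi₀L.2)
  by_cases htr : isOrb ρ A₁ O
  · -- the other components are semiregular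
    have hcomm : ∀ w ∈ W, ∀ a ∈ A₁, w * a * w⁻¹ * a⁻¹ ∈ Z := by
      intro w hw a ha
      apply hss
      · exact A.mul_mem (A.mul_mem (A.mul_mem (hWA hw) (hA₁A ha)) (A.inv_mem (hWA hw)))
          (A.inv_mem (hA₁A ha))
      intro L hL
      by_cases hLΘ : L ∈ Θ
      · have h1 : w ∈ L := ((hWm w).1 hw).2 L hL hLΘ
        have h2 : w * a * w⁻¹ * a⁻¹ = w * (a * w⁻¹ * a⁻¹) := by group
        rw [h2]
        exact L.mul_mem h1 (hL.1.nrm a (hA₁A ha) _ (L.inv_mem h1))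
      · have h1 : a ∈ L := ((hA₁m a).1 ha).2 L hL hLΘ
        exact L.mul_mem (hL.1.nrm w (hWA hw) a h1) (L.inv_mem h1)
    have hsemi : ∀ w ∈ W, ∀ o ∈ O, ρ w o = o → w ∈ kerO ρ W O := by
      intro w hw o ho hwo
      refine ⟨hw, ?_⟩
      intro x hx
      obtain ⟨a, ha, rfl⟩ := htr.tr o ho x hx
      have h1 := hcomm w hw a ha
      have h2 : w * a = (w * a * w⁻¹ * a⁻¹) * (a * w) := by group
      have h3 : ρ ((w * a * w⁻¹ * a⁻¹) * (a * w)) o =
          ρ (w * a * w⁻¹ * a⁻¹) (ρ (a * w) o) := act_mul _ _ _ _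
      rw [← act_mul, h2, h3, act_mul ρ a w, hwo]
      exact h1.2 _ hx
    have hWL : ∀ L ∈ LL ρ A O, L ∉ Θ → ¬ W ≤ L := by
      intro L hL hLΘ hle
      have hfin : (LL ρ A O ∩ Θ).Finite := Set.toFinite _
      obtain ⟨M, hM, h1⟩ := hL.1.prime_fam hfin.toFinset id
        (fun L hL => ((hfin.mem_toFinset.1 hL).1).1.le)
        (fun L hL => ((hfin.mem_toFinset.1 hL).1).1.nrm) (by
          intro a ha hb
          apply hle
          rw [hWm]
          exact ⟨ha, fun L hL hne => hb L (hfin.mem_toFinset.2 ⟨hL, hne⟩)⟩)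
      have h2 := hfin.mem_toFinset.1 hM
      have h3 := h2.1.1.eq_of_le hL.1 h1
      exact hLΘ (by rw [← h3]; exact h2.2)
    have hSW : ∀ L ∈ S.erase i₀, ¬ W ≤ L := fun L hL =>
      hWL L (hS L (Finset.mem_of_mem_erase hL))
        (hSΘ L (Finset.mem_of_mem_erase hL) (Finset.ne_of_mem_erase hL))
    have hcard : ((S.erase i₀).image (fun L => L ⊓ W)).card = S.card - 1 := by
      rw [Finset.card_image_of_injOn, Finset.card_erase_of_mem hi₀]
      intro L hL L' hL' heq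
      have heq' : L ⊓ W = L' ⊓ W := heq
      exact (hS L (Finset.mem_of_mem_erase hL)).1.inj_normal
        (hS L' (Finset.mem_of_mem_erase hL')).1 hWA hWn (hSW L' hL') (heq'.le.trans inf_le_left)
    have h1 := semi_fix (ρ := ρ) (O := O) hWf (fun w hw o ho => hA.inv w (hWA hw) o ho) hsemi
      ((S.erase i₀).image (fun L => L ⊓ W)) (by
        intro M hM
        obtain ⟨L, hL, rfl⟩ := Finset.mem_image.1 hM
        have hLL := hS L (Finset.mem_of_mem_erase hL)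
        refine ⟨hLL.1.restrict_normal hWA hWn (hSW L hL), ?_⟩
        intro x hx
        exact ⟨hLL.2 ⟨hWA hx.1, hx.2⟩, hx.1⟩) (by
        intro M hM M' hM' heq
        obtain ⟨L, hL, rfl⟩ := Finset.mem_image.1 hM
        obtain ⟨L', hL', rfl⟩ := Finset.mem_image.1 hM'
        have hLS := Finset.mem_of_mem_erase hL
        have hLS' := Finset.mem_of_mem_erase hL'
        rw [cj_inf, hWf] at heq
        have h2 : cj f L = L' := (hf.LL (hS L hLS)).1.inj_normal (hS L' hLS').1 hWA hWn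
          (hSW L' hL') (heq.le.trans inf_le_left)
        have h3 := hin L hLS L' hLS' 1 (by rw [zpow_one]; exact h2)
        rw [← h3] at h2
        exact hmv L hLS h2)
    rw [hcard] at h1
    obtain ⟨k, hk⟩ : ∃ k, S.card = k + 2 := ⟨S.card - 2, by omega⟩
    rw [hk] at h1 ⊢
    have h2 : k + 2 - 1 = k + 1 := by omega
    rw [h2] at h1
    have h3 : 1 ≤ 3 ^ k := Nat.one_le_pow _ _ (by norm_num)
    calc {o ∈ O | ρ f o = o}.ncard * 4 ^ (k + 2) = ({o ∈ O | ρ f o = o}.ncard * 4 ^ (k + 1)) * 4 :=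
          by ring
      _ ≤ O.ncard * 4 := Nat.mul_le_mul_right _ h1
      _ ≤ 3 ^ (k + 2) * O.ncard := by
          rw [pow_add, mul_comm O.ncard]
          apply Nat.mul_le_mul_right
          omega
  · -- blocks
    let C := kb ρ A A₁ O
    have hCA : C ≤ A := kerO_le _ _ _
    have hCn : Nrm A C := kb_nrm hA hA₁n
    have hCf : ∀ k : ℤ, cj (f ^ k) C = C := by
      intro k
      have hA₁k : cj (f ^ k) A₁ = A₁ := by
        have h1 : Stb cjP f A₁ Set.univ := ⟨hA₁f, fun o => by simp⟩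
        exact (h1.zpow k).gr
      exact kb_cj (hf.zpow k).gr hA₁k (hf.zpow k).st
    have hCf1 : cj f C = C := by simpa using hCf 1
    have hinj : ∀ L ∈ LL ρ A O, ∀ L' ∈ LL ρ A O, ¬ C ≤ L' → L ⊓ C = L' ⊓ C → L = L' := by
      intro L hL L' hL' hne heq
      exact hL.1.inj_normal hL'.1 hCA hCn hne (heq.le.trans inf_le_left)
    have htop := ih (Set Ω) (imP ρ) A (blks ρ A₁ O)
      (by have := blks_lt hA hA₁n hA₁A hA₁Z; omega) (isOrb_blks hA hA₁n) (stb_blks hf hA₁f) (by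
        intro a ha hb
        change a ∈ C
        have hfin : {L | L ∈ LL ρ A O ∧ ¬ C ≤ L}.Finite := Set.toFinite _
        have h1 : ∀ L ∈ hfin.toFinset, ∃ c ∈ C, c⁻¹ * a ∈ L := by
          intro L hL
          rw [hfin.mem_toFinset] at hL
          obtain ⟨c, hc, l, hl, rfl⟩ := hL.1.1.exists_mul hCA hCn hL.2 ha
          exact ⟨c, hc, by simpa using hl⟩
        choose! c hc1 hc2 using h1
        obtain ⟨c₀, hc₀, h2⟩ := crt_fam (T := C) hfin.toFinset (fun L => L ⊓ C) (by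
            intro L hL
            rw [hfin.mem_toFinset] at hL
            exact hL.1.1.restrict_normal hCA hCn hL.2) (by
            intro L hL L' hL' heq
            rw [hfin.mem_toFinset] at hL hL'
            exact hinj L hL.1 L' hL'.1 hL'.2 heq) c hc1
        have h3 : c₀⁻¹ * a ∈ Z := by
          apply hss _ (A.mul_mem (A.inv_mem (hCA hc₀)) ha)
          intro L hL
          by_cases hCL : C ≤ L
          · exact L.mul_mem (L.inv_mem (hCL hc₀)) (hb L ⟨hL.1, hCL⟩)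
          · have hLm : L ∈ hfin.toFinset := hfin.mem_toFinset.2 ⟨hL, hCL⟩
            have h4 := L.mul_mem (h2 L hLm).1 (hc2 L hLm)
            have h5 : c₀⁻¹ * c L * ((c L)⁻¹ * a) = c₀⁻¹ * a := by group
            rwa [h5] at h4
        have h4 := C.mul_mem hc₀ (ker_le_kb hA₁n h3)
        rwa [mul_inv_cancel_left] at h4)
      (S.filter (fun L => C ≤ L)) (by
        intro L hL
        rw [Finset.mem_filter] at hL
        exact ⟨(hS L hL.1).1, hL.2⟩) (by
        intro L hL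
        exact hmv L (Finset.mem_filter.1 hL).1) (by
        intro L hL L' hL'
        exact hin L (Finset.mem_filter.1 hL).1 L' (Finset.mem_filter.1 hL').1)
    have hcard : ((S.filter (fun L => ¬ C ≤ L)).image (fun L => L ⊓ C)).card =
        (S.filter (fun L => ¬ C ≤ L)).card := by
      apply Finset.card_image_of_injOn
      intro L hL L' hL' heq
      have h1 := Finset.mem_filter.1 (Finset.mem_coe.1 hL)
      have h2 := Finset.mem_filter.1 (Finset.mem_coe.1 hL')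
      exact hinj L (hS L h1.1) L' (hS L' h2.1) h2.2 heq
    have hbot : ∀ β ∈ blks ρ A₁ O, imP ρ f β = β →
        {o ∈ β | ρ f o = o}.ncard * 4 ^ (S.filter (fun L => ¬ C ≤ L)).card ≤
          3 ^ (S.filter (fun L => ¬ C ≤ L)).card * β.ncard := by
      intro β hβ hfβ
      rw [← hcard]
      apply ih Ω ρ C β (by have := blk_lt hA hA₁A htr hβ; omega) (isOrb_kb hA₁A hβ)
        (stb_kb hf hA₁f hfβ)
      · intro a ha hb
        refine ⟨ha, ?_⟩
        have h1 : a ∈ Z := by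
          apply hss a (hCA ha)
          intro L hL
          by_cases hCL : C ≤ L
          · exact hCL ha
          · exact (hb _ (LL_kb hA hA₁n hL hCL hβ hA₁A)).1
        intro o ho
        exact h1.2 o (blk_subset hA hA₁A hβ ho)
      · intro M hM
        obtain ⟨L, hL, rfl⟩ := Finset.mem_image.1 hM
        rw [Finset.mem_filter] at hL
        exact LL_kb hA hA₁n (hS L hL.1) hL.2 hβ hA₁A
      · intro M hM heq
        obtain ⟨L, hL, rfl⟩ := Finset.mem_image.1 hM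
        rw [Finset.mem_filter] at hL
        rw [cj_inf, hCf1] at heq
        exact hmv L hL.1 (hinj _ (hf.LL (hS L hL.1)) L (hS L hL.1) hL.2 heq)
      · intro M hM M' hM' k heq
        obtain ⟨L, hL, rfl⟩ := Finset.mem_image.1 hM
        obtain ⟨L', hL', rfl⟩ := Finset.mem_image.1 hM'
        rw [Finset.mem_filter] at hL hL'
        rw [cj_inf, hCf k] at heq
        have h1 := hinj _ ((hf.zpow k).LL (hS L hL.1)) L' (hS L' hL'.1) hL'.2 heq
        rw [hin L hL.1 L' hL'.1 k h1]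
    have h1 := block_fix hA hA₁n hA₁A hA₁f _ _ _ _ (by positivity) hbot htop
    have h2 : (S.filter (fun L => ¬ C ≤ L)).card + (S.filter (fun L => C ≤ L)).card = S.card := by
      rw [add_comm]
      exact Finset.card_filter_add_card_filter_not (s := S) (fun L => C ≤ L)
    rwa [← pow_add, ← pow_add, h2] at h1

end Pool.Agent.LFS
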