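import Mathlib
import Pool.Agent.LFS.CL

set_option autoImplicit false

/-!
MODULE Sch (helper34, MP_cbf6a9): the Schreier step. NS, Nrm, cm, cj, prime_fam, restrict_normal are in
LFS/Prime.lean, kerO and cjP in LFS/Orb.lean, crt_fam in LFS/CL.lean.

sch_local PROOF. Let N = the subgroup of all g in Gamma with g A g^-1 = A, g L g^-1 = L (or just S joined
with A). Q = N/L, A/L normal in Q and nonabelian simple (from NS A L); conjugation gives
theta : S -> MulAut (A/L) (for example MulAut.conjNormal); theta maps derivedSeries S k into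
derivedSeries (MulAut (A/L)) k <= range of MulAut.conj (SchConj).

sch_step PROOF. Let TA = kerO cjP T I. Suppose not TA <= L; L1 = L meet TA, NS TA L1 (restrict_normal).
For M in I let TM = {t in TA : exists a in A, for all x in A, (t x t^-1) (a x a^-1)^-1 in M}, a subgroup,
normalised by TA. If t lies in all TM then by crt_fam (T := A, family I) there is a in A with
a^-1 a_M in M for all M; then a^-1 t is in cm T A Z (for x in A, [a^-1 t, x] lies in all M, so in Z by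
hss), so t in A (cm T A Z) <= L. By primeness (prime_fam for NS TA L1) some TM <= L1. By sch_local the
k-th derived subgroup of TA is in TM <= L1, and iterating prime_self, TA <= L1. Contradiction.
-/

namespace Pool.Agent.LFS

universe u v

/-- the outer automorphism group of `S` is solvable: some derived subgroup of the automorphism
group consists of inner automorphisms. -/
def SchP (S : Type u) [Group S] : Prop :=
  ∃ k, derivedSeries (MulAut S) k ≤ (MulAut.conj : S →* MulAut S).range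

/-- the conclusion of the Schreier conjecture for the nonabelian simple sections `A / N` of `Γ`
with `A` finite. -/
def SchG (Γ : Type u) [Group Γ] : Prop :=
  ∀ (A : Subgroup Γ) (N : Subgroup A) [N.Normal], Finite A → IsSimpleGroup (A ⧸ N) →
    (∃ a b : A ⧸ N, a * b ≠ b * a) → SchP (A ⧸ N)

theorem SchP.congr {S : Type u} {S' : Type v} [Group S] [Group S'] (h : SchP S) (e : S ≃* S') :
    SchP S' := by
  obtain ⟨k, hk⟩ := h
  refine ⟨k, ?_⟩
  intro φ hφ
  let E : MulAut S' ≃* MulAut S := MulAut.congr e.symm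
  have h1 : E φ ∈ derivedSeries (MulAut S) k :=
    map_derivedSeries_le_derivedSeries E.toMonoidHom k ⟨φ, hφ, rfl⟩
  obtain ⟨s, hs⟩ := hk h1
  refine ⟨e s, ?_⟩
  apply MulEquiv.ext
  intro x
  have h2 := congrArg (fun ψ : MulAut S => ψ (e.symm x)) hs
  have h3 : s * e.symm x * s⁻¹ = e.symm (φ (e (e.symm x))) := h2
  rw [e.apply_symm_apply] at h3
  have h4 := congrArg e h3
  rw [map_mul, map_mul, map_inv, e.apply_symm_apply, e.apply_symm_apply] at h4
  exact h4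

theorem SchG.hom {Γ : Type u} [Group Γ] (h : SchG Γ) (A : Subgroup Γ) [Finite A] {S : Type v}
    [Group S] (hS : IsSimpleGroup S) (f : A →* S) (hf : Function.Surjective f)
    (hab : ∃ a b : S, a * b ≠ b * a) : SchP S := by
  let e : (A ⧸ f.ker) ≃* S := QuotientGroup.quotientKerEquivOfSurjective f hf
  have h1 : IsSimpleGroup (A ⧸ f.ker) := by
    exact e.isSimpleGroup
  have h2 : ∃ a b : A ⧸ f.ker, a * b ≠ b * a := by
    obtain ⟨a, b, hne⟩ := hab
    refine ⟨e.symm a, e.symm b, fun hc => hne ?_⟩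
    rw [← map_mul, ← map_mul] at hc
    exact e.symm.injective hc
  exact (h A f.ker inferInstance h1 h2).congr e

theorem SchG.of_injective {Q : Type u} {R : Type v} [Group Q] [Group R]
    (h : SchG R) (f : Q →* R) (hf : Function.Injective f) : SchG Q := by
  intro A N hN hfin hS hab
  let A' := A.map f
  let e : A ≃* A' := A.equivMapOfInjective f hf
  have hA' : Finite A' := Finite.of_equiv _ e.toEquiv
  exact h.hom A' hS ((QuotientGroup.mk' N).comp e.symm.toMonoidHom)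
    ((QuotientGroup.mk'_surjective N).comp e.symm.surjective) hab

theorem SchG.of_surjective {Q : Type u} {R : Type v} [Group Q] [Group R] [Finite Q]
    (h : SchG Q) (f : Q →* R) (hf : Function.Surjective f) : SchG R := by
  intro A N hN hfin hS hab
  let A' := A.comap f
  let g : A' →* A := f.subgroupComap A
  have hg : Function.Surjective g := f.subgroupComap_surjective_of_surjective A hf
  exact h.hom A' hS ((QuotientGroup.mk' N).comp g) ((QuotientGroup.mk'_surjective N).comp hg) hab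

namespace Sch

variable {Γ : Type u} [Group Γ]

theorem simple {A L : Subgroup Γ} (h : NS A L) [hn : (L.subgroupOf A).Normal] :
    IsSimpleGroup (A ⧸ L.subgroupOf A) := by
  have hab := h.nab
  push Not at hab
  obtain ⟨x, hx, y, hy, hxy⟩ := hab
  have : Nontrivial (A ⧸ L.subgroupOf A) := by
    rcases subsingleton_or_nontrivial (A ⧸ L.subgroupOf A) with hs | hs
    · exfalso
      apply hxy
      have h1 : ((⟨x * y * x⁻¹ * y⁻¹, A.mul_mem (A.mul_mem (A.mul_mem hx hy) (A.inv_mem hx))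
        (A.inv_mem hy)⟩ : A) : A ⧸ L.subgroupOf A) = 1 := Subsingleton.elim _ _
      rw [QuotientGroup.eq_one_iff, Subgroup.mem_subgroupOf] at h1
      exact h1
    · exact hs
  refine ⟨fun H hH => ?_⟩
  let N : Subgroup Γ := (H.comap (QuotientGroup.mk' (L.subgroupOf A))).map A.subtype
  have hmem : ∀ a : A, (a : Γ) ∈ N ↔ (a : A ⧸ L.subgroupOf A) ∈ H := by
    intro a
    constructor
    · rintro ⟨b, hb, hab⟩
      have : b = a := Subtype.ext hab
      rw [← this]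
      exact hb
    · intro ha
      exact ⟨a, ha, rfl⟩
  have hLN : L ≤ N := by
    intro l hl
    have := (hmem ⟨l, h.le hl⟩).2 (by
      have h1 : ((⟨l, h.le hl⟩ : A) : A ⧸ L.subgroupOf A) = 1 := by
        rw [QuotientGroup.eq_one_iff, Subgroup.mem_subgroupOf]
        exact hl
      rw [h1]
      exact H.one_mem)
    exact this
  have hNA : N ≤ A := by
    rintro _ ⟨b, -, rfl⟩
    exact b.2
  have hNn : Nrm A N := by
    rintro t ht _ ⟨b, hb, rfl⟩
    have := (hmem (⟨t, ht⟩ * b * ⟨t, ht⟩⁻¹)).2 (by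
      have h1 := hH.conj_mem _ hb ((⟨t, ht⟩ : A) : A ⧸ L.subgroupOf A)
      exact h1)
    exact this
  rcases h.max N hLN hNA hNn with h1 | h1
  · left
    rw [eq_bot_iff]
    intro q hq
    obtain ⟨a, rfl⟩ := QuotientGroup.mk_surjective q
    have h2 : (a : Γ) ∈ N := (hmem a).2 hq
    rw [h1] at h2
    rw [Subgroup.mem_bot, QuotientGroup.eq_one_iff, Subgroup.mem_subgroupOf]
    exact h2
  · right
    rw [eq_top_iff]
    intro q _
    obtain ⟨a, rfl⟩ := QuotientGroup.mk_surjective q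
    have h2 : (a : Γ) ∈ N := by rw [h1]; exact a.2
    exact (hmem a).1 h2

/-- conjugation of `S` on `A`. -/
def cjA {S A : Subgroup Γ} (hSA : Nrm S A) (s : S) : A ≃* A where
  toFun a := ⟨s * a * (s : Γ)⁻¹, hSA s s.2 a a.2⟩
  invFun a := ⟨(s : Γ)⁻¹ * a * s, hSA.inv s.2 a.2⟩
  left_inv a := by
    apply Subtype.ext
    change (s : Γ)⁻¹ * (s * a * (s : Γ)⁻¹) * s = a
    group
  right_inv a := by
    apply Subtype.ext
    change (s : Γ) * ((s : Γ)⁻¹ * a * s) * (s : Γ)⁻¹ = a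
    group
  map_mul' a b := by
    apply Subtype.ext
    change (s : Γ) * (a * b) * (s : Γ)⁻¹ = (s * a * (s : Γ)⁻¹) * (s * b * (s : Γ)⁻¹)
    group

theorem cjA_map {S A L : Subgroup Γ} (hSA : Nrm S A) (hSL : Nrm S L) (s : S) :
    (L.subgroupOf A).map ((cjA hSA s : A ≃* A) : A →* A) = L.subgroupOf A := by
  ext a
  rw [Subgroup.mem_map]
  constructor
  · rintro ⟨b, hb, rfl⟩
    rw [Subgroup.mem_subgroupOf] at hb ⊢
    exact hSL s s.2 _ hb
  · intro ha
    refine ⟨(cjA hSA s).symm a, ?_, ?_⟩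
    · rw [Subgroup.mem_subgroupOf] at ha ⊢
      exact hSL.inv s.2 ha
    · exact (cjA hSA s).apply_symm_apply a

/-- the action of `S` on `A / L`. -/
def th {S A L : Subgroup Γ} [hn : (L.subgroupOf A).Normal] (hSA : Nrm S A) (hSL : Nrm S L) :
    S →* MulAut (A ⧸ L.subgroupOf A) :=
  MonoidHom.mk' (fun s => QuotientGroup.congr _ _ (cjA hSA s) (cjA_map hSA hSL s)) (by
    intro s t
    apply MulEquiv.ext
    intro q
    obtain ⟨a, rfl⟩ := QuotientGroup.mk_surjective q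
    change ((cjA hSA (s * t) a : A) : A ⧸ L.subgroupOf A) =
      ((cjA hSA s (cjA hSA t a) : A) : A ⧸ L.subgroupOf A)
    congr 1
    apply Subtype.ext
    change ((s : Γ) * t) * a * ((s : Γ) * t)⁻¹ = s * (t * a * (t : Γ)⁻¹) * (s : Γ)⁻¹
    group)

theorem th_apply {S A L : Subgroup Γ} [hn : (L.subgroupOf A).Normal] (hSA : Nrm S A)
    (hSL : Nrm S L) (s : S) (a : A) :
    th hSA hSL s (a : A ⧸ L.subgroupOf A) = ((cjA hSA s a : A) : A ⧸ L.subgroupOf A) := rfl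

/-- the elements of `TA` acting on `A / M` as inner automorphisms. -/
def tm (TA A M : Subgroup Γ) (hA : Nrm TA A) (hM : Nrm TA M) : Subgroup Γ where
  carrier := {t | t ∈ TA ∧ ∃ a ∈ A, ∀ x ∈ A, (t * x * t⁻¹) * (a * x * a⁻¹)⁻¹ ∈ M}
  one_mem' := ⟨TA.one_mem, 1, A.one_mem, fun x _ => by simp [M.one_mem]⟩
  mul_mem' := by
    rintro t s ⟨ht, a, ha, h1⟩ ⟨hs, b, hb, h2⟩
    refine ⟨TA.mul_mem ht hs, a * b, A.mul_mem ha hb, fun x hx => ?_⟩
    have h3 : t * s * x * (t * s)⁻¹ * (a * b * x * (a * b)⁻¹)⁻¹ =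
        (t * (s * x * s⁻¹ * (b * x * b⁻¹)⁻¹) * t⁻¹) *
          (t * (b * x * b⁻¹) * t⁻¹ * (a * (b * x * b⁻¹) * a⁻¹)⁻¹) := by group
    rw [h3]
    exact M.mul_mem (hM t ht _ (h2 x hx))
      (h1 _ (A.mul_mem (A.mul_mem hb hx) (A.inv_mem hb)))
  inv_mem' := by
    rintro t ⟨ht, a, ha, h1⟩
    refine ⟨TA.inv_mem ht, a⁻¹, A.inv_mem ha, fun x hx => ?_⟩
    have h2 := hM.inv ht (h1 _ (A.mul_mem (A.mul_mem (A.inv_mem ha) hx) ha))
    have h3 := M.inv_mem h2
    have h4 : (t⁻¹ * (t * (a⁻¹ * x * a) * t⁻¹ * (a * (a⁻¹ * x * a) * a⁻¹)⁻¹) * t)⁻¹ =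
        t⁻¹ * x * t⁻¹⁻¹ * (a⁻¹ * x * a⁻¹⁻¹)⁻¹ := by group
    rwa [h4] at h3

theorem tm_nrm {TA A M : Subgroup Γ} (hA : Nrm TA A) (hM : Nrm TA M) :
    Nrm TA (tm TA A M hA hM) := by
  rintro s hs t ⟨ht, a, ha, h1⟩
  refine ⟨TA.mul_mem (TA.mul_mem hs ht) (TA.inv_mem hs), s * a * s⁻¹, hA s hs a ha,
    fun x hx => ?_⟩
  have h2 := hM s hs _ (h1 _ (hA.inv hs hx))
  have h3 : s * (t * (s⁻¹ * x * s) * t⁻¹ * (a * (s⁻¹ * x * s) * a⁻¹)⁻¹) * s⁻¹ =
      s * t * s⁻¹ * x * (s * t * s⁻¹)⁻¹ * (s * a * s⁻¹ * x * (s * a * s⁻¹)⁻¹)⁻¹ := by group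
  rwa [h3] at h2

/-- a derived subgroup of `S` inside `L` forces `S ≤ L`. -/
theorem derived_le {S L : Subgroup Γ} (h : NS S L) (k : ℕ)
    (hk : (derivedSeries S k).map S.subtype ≤ L) : S ≤ L := by
  induction k with
  | zero =>
    intro s hs
    exact hk ⟨⟨s, hs⟩, by rw [derivedSeries_zero]; exact Subgroup.mem_top _, rfl⟩
  | succ k ih =>
    apply ih
    apply h.prime_self
    · rintro _ ⟨b, -, rfl⟩
      exact b.2
    · rintro t ht _ ⟨b, hb, rfl⟩
      exact ⟨⟨t, ht⟩ * b * ⟨t, ht⟩⁻¹, (derivedSeries_normal S k).conj_mem _ hb _, rfl⟩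
    · rintro _ ⟨a, ha, rfl⟩ _ ⟨b, hb, rfl⟩
      apply hk
      refine ⟨a * b * a⁻¹ * b⁻¹, ?_, rfl⟩
      rw [derivedSeries_succ]
      exact Subgroup.commutator_mem_commutator ha hb

end Sch

theorem sch_local {Γ : Type u} [Group Γ] [Finite Γ] (hSch : SchG Γ) {A L : Subgroup Γ}
    (h : NS A L) (S : Subgroup Γ) (hSA : Nrm S A) (hSL : Nrm S L) :
    ∃ k, ∀ t ∈ (derivedSeries S k).map S.subtype, ∃ a ∈ A, ∀ x ∈ A,
      (t * x * t⁻¹) * (a * x * a⁻¹)⁻¹ ∈ L := by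
  have hn : (L.subgroupOf A).Normal := by
    refine ⟨fun l hl g => ?_⟩
    rw [Subgroup.mem_subgroupOf] at hl ⊢
    exact h.nrm g g.2 _ hl
  have hab := h.nab
  push Not at hab
  obtain ⟨x, hx, y, hy, hxy⟩ := hab
  obtain ⟨k, hk⟩ := hSch A (L.subgroupOf A) inferInstance (Sch.simple h)
    ⟨((⟨x, hx⟩ : A) : A ⧸ L.subgroupOf A), ((⟨y, hy⟩ : A) : A ⧸ L.subgroupOf A), by
      intro hc
      apply hxy
      have h1 : ((⟨x, hx⟩ * ⟨y, hy⟩ : A) : A ⧸ L.subgroupOf A) =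
        ((⟨y, hy⟩ * ⟨x, hx⟩ : A) : A ⧸ L.subgroupOf A) := hc
      rw [QuotientGroup.eq_iff_div_mem, Subgroup.mem_subgroupOf] at h1
      have h2 : x * y * x⁻¹ * y⁻¹ = x * y / (y * x) := by rw [div_eq_mul_inv]; group
      rw [h2]
      exact h1⟩
  refine ⟨k, ?_⟩
  rintro _ ⟨s, hs, rfl⟩
  have h1 : Sch.th hSA hSL s ∈ derivedSeries (MulAut (A ⧸ L.subgroupOf A)) k :=
    map_derivedSeries_le_derivedSeries (Sch.th hSA hSL) k ⟨s, hs, rfl⟩
  obtain ⟨q, hq⟩ := hk h1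
  obtain ⟨a, rfl⟩ := QuotientGroup.mk_surjective q
  refine ⟨a, a.2, fun x hx => ?_⟩
  have h2 := congrArg (fun φ : MulAut (A ⧸ L.subgroupOf A) =>
    φ ((⟨x, hx⟩ : A) : A ⧸ L.subgroupOf A)) hq
  have h3 : ((a * ⟨x, hx⟩ * a⁻¹ : A) : A ⧸ L.subgroupOf A) =
      ((Sch.cjA hSA s ⟨x, hx⟩ : A) : A ⧸ L.subgroupOf A) := h2
  have h4 := h3.symm
  rw [QuotientGroup.eq_iff_div_mem, Subgroup.mem_subgroupOf] at h4
  have h5 : (s : Γ) * x * (s : Γ)⁻¹ * ((a : Γ) * x * (a : Γ)⁻¹)⁻¹ =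
      (s : Γ) * x * (s : Γ)⁻¹ / ((a : Γ) * x * (a : Γ)⁻¹) := (div_eq_mul_inv _ _).symm
  change (s : Γ) * x * (s : Γ)⁻¹ * ((a : Γ) * x * (a : Γ)⁻¹)⁻¹ ∈ L
  rw [h5]
  exact h4

theorem sch_step {Γ : Type u} [Group Γ] [Finite Γ] (hSch : SchG Γ) {T A Z L : Subgroup Γ}
    (hAT : A ≤ T) (hA : Nrm T A) (hZ : Nrm T Z) (I : Set (Subgroup Γ)) (hI : ∀ M ∈ I, NS A M)
    (hIT : ∀ t ∈ T, ∀ M ∈ I, cj t M ∈ I) (hss : ∀ a ∈ A, (∀ M ∈ I, a ∈ M) → a ∈ Z)
    (hL : NS T L) (hAL : A ≤ L) (hWL : cm T A Z hZ ≤ L) : kerO cjP T I ≤ L := by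
  classical
  by_contra hne
  have hTT : kerO cjP T I ≤ T := kerO_le _ _ _
  have hTn : Nrm T (kerO cjP T I) := kerO_nrm (Nrm.self T) hIT
  have hNS : NS (kerO cjP T I) (L ⊓ kerO cjP T I) := hL.restrict_normal hTT hTn hne
  have hTA : Nrm (kerO cjP T I) A := hA.mono hTT
  have hTM : ∀ M ∈ I, Nrm (kerO cjP T I) M := by
    intro M hM
    exact nrm_of_cj_eq (fun t ht => ht.2 M hM)
  have : Fintype I := Fintype.ofFinite I
  obtain ⟨M, hM, h1⟩ := hNS.prime_fam (ι := I) Finset.univ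
    (fun M => Sch.tm (kerO cjP T I) A M.1 hTA (hTM M.1 M.2))
    (fun M _ t ht => ht.1) (fun M _ => Sch.tm_nrm hTA (hTM M.1 M.2)) (by
      intro t ht hall
      have h2 : ∀ M : I, ∃ a ∈ A, ∀ x ∈ A, (t * x * t⁻¹) * (a * x * a⁻¹)⁻¹ ∈ M.1 :=
        fun M => (hall M (Finset.mem_univ _)).2
      choose a ha h3 using h2
      obtain ⟨b, hb, h4⟩ := crt_fam (T := A) (Finset.univ : Finset I) (fun M => M.1)
        (fun M _ => hI M.1 M.2) (fun M _ M' _ h => Subtype.ext h) a (fun M _ => ha M)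
      refine ⟨?_, ht⟩
      have h5 : b⁻¹ * t ∈ L := by
        apply hWL
        refine ⟨T.mul_mem (T.inv_mem (hAT hb)) (hTT ht), fun x hx => ?_⟩
        apply hss
        · have h6 : b⁻¹ * t * x * (b⁻¹ * t)⁻¹ * x⁻¹ = b⁻¹ * (t * x * t⁻¹) * b * x⁻¹ := by group
          rw [h6]
          exact A.mul_mem (A.mul_mem (A.mul_mem (A.inv_mem hb) (hA t (hTT ht) x hx)) hb)
            (A.inv_mem hx)
        · intro M hM
          have h6 := h3 ⟨M, hM⟩ x hx
          have h7 := h4 ⟨M, hM⟩ (Finset.mem_univ _)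
          have h8 : b⁻¹ * t * x * (b⁻¹ * t)⁻¹ * x⁻¹ =
              (b⁻¹ * ((t * x * t⁻¹) * (a ⟨M, hM⟩ * x * (a ⟨M, hM⟩)⁻¹)⁻¹) * b) *
                ((b⁻¹ * a ⟨M, hM⟩) * (x * (b⁻¹ * a ⟨M, hM⟩)⁻¹ * x⁻¹)) := by group
          rw [h8]
          exact M.mul_mem ((hI M hM).nrm.inv hb h6)
            (M.mul_mem h7 ((hI M hM).nrm x hx _ (M.inv_mem h7)))
      have h6 := L.mul_mem (hAL hb) h5
      rwa [mul_inv_cancel_left] at h6)
  obtain ⟨k, hk⟩ := sch_local hSch (hI M.1 M.2) (kerO cjP T I) hTA (hTM M.1 M.2)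
  apply hNS.not_le
  apply Sch.derived_le hNS k
  intro t ht
  apply h1
  refine ⟨?_, hk t ht⟩
  obtain ⟨s, -, rfl⟩ := ht
  exact s.2

end Pool.Agent.LFS
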