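import Mathlib
import Pool.Agent.LFS.Sch

set_option autoImplicit false

/-!
Minimal normal subgroups modulo the kernel.
-/

namespace Pool.Agent.LFS

open Equiv

universe u v

variable {Γ : Type u} [Group Γ] {Ω : Type u}

theorem cj_zpow {f : Γ} {N : Subgroup Γ} (h : cj f N = N) (k : ℤ) : cj (f ^ k) N = N := by
  have h1 : Stb cjP f N Set.univ := ⟨h, fun o => by simp⟩
  exact (h1.zpow k).gr

theorem nrm_zpowers {f : Γ} {N : Subgroup Γ} (h : cj f N = N) :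
    Nrm (Subgroup.zpowers f) N := by
  apply nrm_of_cj_eq
  rintro t ht
  obtain ⟨k, rfl⟩ := Subgroup.mem_zpowers_iff.1 ht
  exact cj_zpow h k

theorem cj_cm {f : Γ} {T N Z : Subgroup Γ} (h : Nrm T Z) (hT : cj f T = T) (hN : cj f N = N)
    (hZ : cj f Z = Z) : cj f (cm T N Z h) = cm T N Z h :=
  (nrm_cm h (nrm_zpowers hT) (nrm_zpowers hN) (nrm_zpowers hZ)).cj_eq
    (Subgroup.mem_zpowers f)

/-- minimal `T`- and `f`-invariant subgroup acting nontrivially. -/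
structure MinA (ρ : Γ →* Perm Ω) (f : Γ) (T : Subgroup Γ) (O : Set Ω) (A : Subgroup Γ) :
    Prop where
  le : A ≤ T
  nrm : Nrm T A
  fix : cj f A = A
  act : ¬ A ≤ kerO ρ T O
  min : ∀ N : Subgroup Γ, N ≤ A → Nrm T N → cj f N = N → N ≤ kerO ρ T O ∨ N = A

theorem exists_minA [Finite Γ] {ρ : Γ →* Perm Ω} {f : Γ} {T : Subgroup Γ} {O : Set Ω}
    (hf : Stb ρ f T O) (hT : ¬ T ≤ kerO ρ T O) : ∃ A, MinA ρ f T O A := by
  classical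
  let S : Set (Subgroup Γ) := {N | N ≤ T ∧ Nrm T N ∧ cj f N = N ∧ ¬ N ≤ kerO ρ T O}
  have hS : S.Nonempty := ⟨T, le_rfl, Nrm.self T, hf.gr, hT⟩
  obtain ⟨A, hA⟩ := (Set.toFinite S).exists_minimal hS
  refine ⟨A, hA.1.1, hA.1.2.1, hA.1.2.2.1, hA.1.2.2.2, ?_⟩
  intro N hNA hN hfN
  by_cases hNZ : N ≤ kerO ρ T O
  · exact Or.inl hNZ
  · right
    exact le_antisymm hNA (hA.2 ⟨hNA.trans hA.1.1, hN, hfN, hNZ⟩ hNA)

theorem semi_of_comm {ρ : Γ →* Perm Ω} {A W : Subgroup Γ} {O : Set Ω} (hA : isOrb ρ A O)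
    (hW : ∀ w ∈ W, ∀ o ∈ O, ρ w o ∈ O)
    (hc : ∀ w ∈ W, ∀ a ∈ A, ∀ o ∈ O, ρ (w * a * w⁻¹ * a⁻¹) o = o) :
    ∀ w ∈ W, ∀ o ∈ O, ρ w o = o → w ∈ kerO ρ W O := by
  intro w hw o ho hwo
  refine ⟨hw, ?_⟩
  intro x hx
  obtain ⟨a, ha, rfl⟩ := hA.tr o ho x hx
  have h2 : w * a = (w * a * w⁻¹ * a⁻¹) * (a * w) := by group
  have h3 : ρ ((w * a * w⁻¹ * a⁻¹) * (a * w)) o =
      ρ (w * a * w⁻¹ * a⁻¹) (ρ (a * w) o) := act_mul _ _ _ _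
  rw [← act_mul, h2, h3, act_mul ρ a w, hwo]
  exact hc w hw a ha _ hx

section

variable {ρ : Γ →* Perm Ω} {f : Γ} {T : Subgroup Γ} {O : Set Ω} {A : Subgroup Γ}

theorem MinA.stbT (h : MinA ρ f T O A) (hT : isOrb ρ T O) {t : Γ} (ht : t ∈ T) :
    Stb ρ t A O := ⟨h.nrm.cj_eq ht, (hT.stb ht).st⟩

theorem MinA.stbf (h : MinA ρ f T O A) (hf : Stb ρ f T O) : Stb ρ f A O := ⟨h.fix, hf.st⟩

theorem MinA.kerA (h : MinA ρ f T O A) : kerO ρ A O ≤ kerO ρ T O :=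
  fun _ hx => ⟨h.le hx.1, hx.2⟩

/-- `A` is perfect in the nonabelian case. -/
theorem MinA.perfect (h : MinA ρ f T O A)
    (hna : ¬ ∀ a ∈ A, ∀ b ∈ A, a * b * a⁻¹ * b⁻¹ ∈ kerO ρ T O) (M : Subgroup Γ)
    (_ : Nrm A M) (hMA : M ≤ A) (hM : ∀ x ∈ A, ∀ y ∈ A, x * y * x⁻¹ * y⁻¹ ∈ M) : M = A := by
  -- the commutator subgroup
  let C : Subgroup Γ := Subgroup.closure {z | ∃ x ∈ A, ∃ y ∈ A, z = x * y * x⁻¹ * y⁻¹}
  have hCM : C ≤ M := by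
    rw [Subgroup.closure_le]
    rintro _ ⟨x, hx, y, hy, rfl⟩
    exact hM x hx y hy
  have hcj : ∀ g, cj g A = A → cj g C ≤ C := by
    intro g hg
    have h1 : cj g C = (Subgroup.closure {z | ∃ x ∈ A, ∃ y ∈ A, z = x * y * x⁻¹ * y⁻¹}).map
      (MulAut.conj g).toMonoidHom := rfl
    rw [h1, MonoidHom.map_closure, Subgroup.closure_le]
    rintro _ ⟨_, ⟨x, hx, y, hy, rfl⟩, rfl⟩
    apply Subgroup.subset_closure
    refine ⟨g * x * g⁻¹, ?_, g * y * g⁻¹, ?_, ?_⟩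
    · rw [← hg]; exact conj_mem_cj.2 hx
    · rw [← hg]; exact conj_mem_cj.2 hy
    · change g * (x * y * x⁻¹ * y⁻¹) * g⁻¹ = _
      group
  have hcj' : ∀ g, cj g A = A → cj g C = C := by
    intro g hg
    refine le_antisymm (hcj g hg) ?_
    have h1 : cj g⁻¹ A = A := by
      calc cj g⁻¹ A = cj g⁻¹ (cj g A) := by rw [hg]
        _ = A := cj_inv_cj g A
    have h2 := cj_mono (g := g) (hcj g⁻¹ h1)
    rwa [cj_cj_inv] at h2
  rcases h.min C (hCM.trans hMA) (nrm_of_cj_eq (fun t ht => hcj' t (h.nrm.cj_eq ht)))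
    (hcj' f h.fix) with h1 | h1
  · exfalso
    apply hna
    intro a ha b hb
    exact h1 (Subgroup.subset_closure ⟨a, ha, b, hb, rfl⟩)
  · exact le_antisymm hMA (by rw [← h1]; exact hCM)

theorem MinA.nonempty [Finite Γ] (h : MinA ρ f T O A)
    (hna : ¬ ∀ a ∈ A, ∀ b ∈ A, a * b * a⁻¹ * b⁻¹ ∈ kerO ρ T O) (hA : isOrb ρ A O) :
    (LL ρ A O).Nonempty := by
  obtain ⟨L, hL, hle⟩ := exists_NS (T := A) (N := kerO ρ A O) (kerO_le _ _ _) hA.ker_nrm (by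
    intro he
    apply h.act
    have := h.kerA
    rwa [he] at this) (fun M hM hMA hc => h.perfect hna M hM hMA hc)
  exact ⟨L, hL, hle⟩

/-- an invariant nonempty subset of `LL ρ A O` is everything. -/
theorem MinA.all [Finite Γ] (h : MinA ρ f T O A) (hf : Stb ρ f T O) (Θ : Set (Subgroup Γ))
    (hΘ : Θ ⊆ LL ρ A O) (hne : Θ.Nonempty) (hΘT : ∀ t ∈ T, ∀ L ∈ Θ, cj t L ∈ Θ)
    (hΘf : ∀ L ∈ Θ, cj f L ∈ Θ) : (∀ a ∈ A, (∀ L ∈ Θ, a ∈ L) → a ∈ kerO ρ A O) ∧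
      Θ = LL ρ A O := by
  classical
  let R : Subgroup Γ :=
    { carrier := {x | x ∈ A ∧ ∀ L ∈ Θ, x ∈ L}
      one_mem' := ⟨A.one_mem, fun L _ => L.one_mem⟩
      mul_mem' := fun {x y} hx hy => ⟨A.mul_mem hx.1 hy.1,
        fun L hL => L.mul_mem (hx.2 L hL) (hy.2 L hL)⟩
      inv_mem' := fun {x} hx => ⟨A.inv_mem hx.1, fun L hL => L.inv_mem (hx.2 L hL)⟩ }
  have hcj : ∀ g, cj g A = A → (∀ L ∈ Θ, cj g L ∈ Θ) → cj g R = R := by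
    intro g hg hgΘ
    have hle : R ≤ cj g R := by
      intro x hx
      rw [mem_cj]
      refine ⟨?_, ?_⟩
      · rw [← mem_cj, hg]; exact hx.1
      · intro L hL
        exact mem_cj.1 (hx.2 _ (hgΘ L hL))
    exact (Subgroup.eq_of_le_of_card_ge hle (card_cj g R).le).symm
  have hRZ : R ≤ kerO ρ T O := by
    rcases h.min R (fun x hx => hx.1)
      (nrm_of_cj_eq (fun t ht => hcj t (h.nrm.cj_eq ht) (hΘT t ht))) (hcj f h.fix hΘf) with h1 | h1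
    · exact h1
    · exfalso
      obtain ⟨L, hL⟩ := hne
      apply (hΘ hL).1.not_le
      rw [← h1]
      exact fun x hx => hx.2 L hL
  refine ⟨fun a ha hb => ⟨ha, (hRZ ⟨ha, hb⟩).2⟩, ?_⟩
  apply Set.Subset.antisymm hΘ
  intro L hL
  have hfin : Θ.Finite := Set.toFinite _
  obtain ⟨M, hM, h1⟩ := hL.1.prime_fam hfin.toFinset id
    (fun M hM => (hΘ (hfin.mem_toFinset.1 hM)).1.le)
    (fun M hM => (hΘ (hfin.mem_toFinset.1 hM)).1.nrm) (by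
      intro a ha hb
      apply hL.2
      exact ⟨ha, (hRZ ⟨ha, fun M hM => hb M (hfin.mem_toFinset.2 hM)⟩).2⟩)
  have h2 := (hΘ (hfin.mem_toFinset.1 hM)).1.eq_of_le hL.1 h1
  rw [← h2]
  exact hfin.mem_toFinset.1 hM

theorem MinA.ss [Finite Γ] (h : MinA ρ f T O A) (hf : Stb ρ f T O) (hT : isOrb ρ T O)
    (hna : ¬ ∀ a ∈ A, ∀ b ∈ A, a * b * a⁻¹ * b⁻¹ ∈ kerO ρ T O) (hA : isOrb ρ A O) :
    ∀ a ∈ A, (∀ L ∈ LL ρ A O, a ∈ L) → a ∈ kerO ρ A O :=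
  (h.all hf (LL ρ A O) (fun _ h => h) (h.nonempty hna hA)
    (fun _ ht _ hL => (h.stbT hT ht).LL hL) (fun _ hL => (h.stbf hf).LL hL)).1

theorem MinA.two_le [Finite Ω] (h : MinA ρ f T O A) (hT : isOrb ρ T O) : 2 ≤ O.ncard := by
  have h1 : ∃ n ∈ A, ∃ o ∈ O, ρ n o ≠ o := by
    by_contra hb
    push Not at hb
    exact h.act (fun n hn => ⟨h.le hn, fun o ho => hb n hn o ho⟩)
  obtain ⟨n, hn, o, ho, hno⟩ := h1
  have h2 : 1 < O.ncard := by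
    rw [Set.one_lt_ncard_iff (Set.toFinite _)]
    exact ⟨o, ρ n o, ho, hT.inv n (h.le hn) o ho, fun hc => hno hc.symm⟩
  omega

/-! ### The abelian case -/

theorem MinA.ab_ker (h : MinA ρ f T O A) (hA : isOrb ρ A O)
    (hab : ∀ a ∈ A, ∀ b ∈ A, a * b * a⁻¹ * b⁻¹ ∈ kerO ρ T O) {a : Γ} (ha : a ∈ A) {y : Ω}
    (hy : y ∈ O) (hay : ρ a y = y) : a ∈ kerO ρ T O := by
  refine ⟨h.le ha, ?_⟩
  intro z hz
  obtain ⟨b, hb, rfl⟩ := hA.tr y hy z hz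
  have h2 : a * b = (a * b * a⁻¹ * b⁻¹) * (b * a) := by group
  have h3 : ρ ((a * b * a⁻¹ * b⁻¹) * (b * a)) y = ρ (a * b * a⁻¹ * b⁻¹) (ρ (b * a) y) :=
    act_mul _ _ _ _
  rw [← act_mul, h2, h3, act_mul ρ b a, hay]
  exact (hab a ha b hb).2 _ hz

theorem MinA.ab_le (h : MinA ρ f T O A)
    (hab : ∀ a ∈ A, ∀ b ∈ A, a * b * a⁻¹ * b⁻¹ ∈ kerO ρ T O) {L : Subgroup Γ}
    (hL : L ∈ LL ρ T O) : A ≤ L :=
  hL.1.prime_self h.le h.nrm (fun a ha b hb => hL.2 (hab a ha b hb))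

theorem MinA.ab_dec (hA : isOrb ρ A O) (hT : isOrb ρ T O) (hAT : A ≤ T) {o : Ω} (ho : o ∈ O)
    {t : Γ} (ht : t ∈ T) : ∃ a ∈ A, ∃ s ∈ kerO ρ T {o}, t = a * s := by
  obtain ⟨a, ha, hao⟩ := hA.tr o ho (ρ t o) (hT.inv t ht o ho)
  refine ⟨a, ha, a⁻¹ * t, ⟨T.mul_mem (T.inv_mem (hAT ha)) ht, ?_⟩, by group⟩
  intro x hx
  rw [Set.mem_singleton_iff.1 hx, act_mul, ← hao, act_inv_act]

theorem stb_blk {T₀ : Subgroup Γ} (hfT : cj f T₀ = T₀) {x : Ω} (hfx : ρ f x ∈ blk ρ T₀ x) :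
    Stb ρ f T₀ (blk ρ T₀ x) := by
  refine ⟨hfT, fun y => ?_⟩
  have h1 : imP ρ f (blk ρ T₀ x) = blk ρ T₀ x := by
    rw [imP_blk hfT, blk_eq hfx]
  conv_lhs => rw [← h1]
  rw [mem_imP, act_inv_act]

theorem MinA.ab_LL (h : MinA ρ f T O A) (hf : Stb ρ f T O) (hT : isOrb ρ T O)
    (hA : isOrb ρ A O) (hab : ∀ a ∈ A, ∀ b ∈ A, a * b * a⁻¹ * b⁻¹ ∈ kerO ρ T O) {o : Ω}
    (ho : o ∈ O) (hfo : ρ f o = o) {x : Ω} (hx : x ∈ O) (hxo : x ≠ o)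
    (hfx : ρ f x ∈ blk ρ (kerO ρ T {o}) x) {L : Subgroup Γ} (hL : L ∈ LL ρ T O) :
    L ⊓ kerO ρ T {o} ∈ LL ρ (kerO ρ T {o}) (blk ρ (kerO ρ T {o}) x) := by
  let Z := kerO ρ T O
  let T₀ := kerO ρ T {o}
  have hT₀T : T₀ ≤ T := kerO_le _ _ _
  have hAL := h.ab_le hab hL
  have hZn : Nrm T Z := hT.ker_nrm
  refine ⟨hL.1.restrict hT₀T ?_, ?_⟩
  · intro t ht
    obtain ⟨a, ha, s, hs, rfl⟩ := MinA.ab_dec hA hT h.le ho ht
    refine ⟨s, hs, s⁻¹ * a * s, hAL (h.nrm.inv (hT₀T hs) ha), by group⟩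
  · let P := blk ρ T₀ x
    let Q := kerO ρ T₀ P
    have hQT : Q ≤ T₀ := kerO_le _ _ _
    have hfT₀ : cj f T₀ = T₀ := cj_kerO hf.gr (by
      intro y
      rw [Set.mem_singleton_iff, Set.mem_singleton_iff]
      constructor
      · intro hy
        rw [← hfo] at hy
        exact (ρ f).injective hy
      · rintro rfl
        exact hfo)
    have hfQ : cj f Q = Q := (stb_blk hfT₀ hfx).ker
    have hso : ∀ s ∈ T₀, ρ s o = o := fun s hs => hs.2 o rfl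
    let B := cm A Q Z (hZn.mono h.le)
    have hBA : B ≤ A := cm_le _
    have hB1 : Nrm T₀ B := nrm_cm _ (h.nrm.mono hT₀T)
      (kerO_nrm (Nrm.self T₀) (isOrb_blk ρ T₀ x).inv) (hZn.mono hT₀T)
    have hB2 : Nrm A B := by
      intro a ha b hb
      have h1 : a * b * a⁻¹ * b⁻¹ ∈ B := by
        have h2 := hab a ha b (hBA hb)
        refine ⟨A.mul_mem (A.mul_mem (A.mul_mem ha (hBA hb)) (A.inv_mem ha))
          (A.inv_mem (hBA hb)), ?_⟩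
        intro t ht
        have h3 : a * b * a⁻¹ * b⁻¹ * t * (a * b * a⁻¹ * b⁻¹)⁻¹ * t⁻¹ =
            (a * b * a⁻¹ * b⁻¹) * (t * (a * b * a⁻¹ * b⁻¹)⁻¹ * t⁻¹) := by group
        rw [h3]
        exact Z.mul_mem h2 (hZn t (hT₀T (hQT ht)) _ (Z.inv_mem h2))
      have h2 := B.mul_mem h1 hb
      rwa [inv_mul_cancel_right] at h2
    have hB3 : Nrm T B := by
      apply nrm_of_cj_eq
      intro t ht
      obtain ⟨a, ha, s, hs, rfl⟩ := MinA.ab_dec hA hT h.le ho ht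
      rw [cj_mul, hB1.cj_eq hs, hB2.cj_eq ha]
    have hB4 : cj f B = B := cj_cm _ h.fix hfQ hf.ker
    obtain ⟨a₀, ha₀, hax⟩ := hA.tr o ho x hx
    have ha₀B : a₀ ∈ B := by
      refine ⟨ha₀, ?_⟩
      intro t ht
      have h1 : a₀ * t * a₀⁻¹ * t⁻¹ ∈ A := by
        have h2 : a₀ * t * a₀⁻¹ * t⁻¹ = a₀ * (t * a₀⁻¹ * t⁻¹) := by group
        rw [h2]
        exact A.mul_mem ha₀ (h.nrm t (hT₀T (hQT ht)) _ (A.inv_mem ha₀))
      apply h.ab_ker hA hab h1 hx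
      have h2 : ρ t⁻¹ x = x := by
        rw [act_eq_iff]
        exact (ht.2 x (self_mem_blk ρ T₀ x)).symm
      have h3 : ρ a₀⁻¹ x = o := by rw [act_eq_iff, hax]
      rw [act_mul, h2, act_mul, act_mul, h3, hso t (hQT ht), hax]
    have hBeq : B = A := by
      rcases h.min B hBA hB3 hB4 with h1 | h1
      · exfalso
        have h2 := (h1 ha₀B).2 o ho
        rw [hax] at h2
        exact hxo h2
      · exact h1
    intro t ht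
    refine ⟨hL.2 ⟨hT₀T (hQT ht), ?_⟩, hQT ht⟩
    intro y hy
    obtain ⟨a, ha, rfl⟩ := hA.tr o ho y hy
    have h1 : a ∈ B := by rw [hBeq]; exact ha
    have h2 := h1.2 t ht
    have h3 : t * a = (a * t * a⁻¹ * t⁻¹)⁻¹ * (a * t) := by group
    rw [← act_mul, h3, act_mul, act_mul ρ a t, hso t (hQT ht)]
    exact (Z.inv_mem h2).2 _ hy

theorem MinA.ab_inj (h : MinA ρ f T O A) (hT : isOrb ρ T O)
    (hA : isOrb ρ A O) (hab : ∀ a ∈ A, ∀ b ∈ A, a * b * a⁻¹ * b⁻¹ ∈ kerO ρ T O) {o : Ω}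
    (ho : o ∈ O) {L L' : Subgroup Γ} (hL : L ∈ LL ρ T O) (hL' : L' ∈ LL ρ T O)
    (heq : L ⊓ kerO ρ T {o} = L' ⊓ kerO ρ T {o}) : L = L' := by
  apply hL.1.eq_of_le hL'.1
  intro l hl
  obtain ⟨a, ha, s, hs, rfl⟩ := MinA.ab_dec hA hT h.le ho (hL.1.le hl)
  have h1 : s ∈ L ⊓ kerO ρ T {o} := by
    refine ⟨?_, hs⟩
    have h2 := L.mul_mem (L.inv_mem (h.ab_le hab hL ha)) hl
    rwa [inv_mul_cancel_left] at h2
  rw [heq] at h1
  exact L'.mul_mem (h.ab_le hab hL' ha) h1.1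

end

end Pool.Agent.LFS
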