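import Mathlib
import Pool.Agent.LFS.MinA

set_option autoImplicit false

/-!
Transitive groups have few simple quotients.
-/

namespace Pool.Agent.LFS

open Equiv

universe u v

section

variable {Γ : Type u} [Group Γ] {Ω : Type u}
variable {ρ : Γ →* Perm Ω} {f : Γ} {T : Subgroup Γ} {O : Set Ω} {A : Subgroup Γ}

theorem LL_restrict {C L : Subgroup Γ} (hC : C ≤ T) (hn : Nrm T C) (hL : L ∈ LL ρ T O)
    (hCL : ¬ C ≤ L) : L ⊓ C ∈ LL ρ C O := by
  refine ⟨hL.1.restrict_normal hC hn hCL, ?_⟩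
  intro x hx
  exact ⟨hL.2 ⟨hC hx.1, hx.2⟩, hx.1⟩

theorem LL_inj {C L L' : Subgroup Γ} (hC : C ≤ T) (hn : Nrm T C) (hL : L ∈ LL ρ T O)
    (hL' : L' ∈ LL ρ T O) (hCL' : ¬ C ≤ L') (heq : L ⊓ C = L' ⊓ C) : L = L' :=
  hL.1.inj_normal hL'.1 hC hn hCL' (heq.le.trans inf_le_left)

/-- the centraliser modulo the kernel. -/
def cW (h : isOrb ρ T O) (A : Subgroup Γ) : Subgroup Γ := cm T A (kerO ρ T O) h.ker_nrm

theorem cW_le (h : isOrb ρ T O) : cW h A ≤ T := cm_le _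

theorem MinA.cW_nrm (hA : MinA ρ f T O A) (h : isOrb ρ T O) : Nrm T (cW h A) :=
  nrm_cm _ (Nrm.self T) hA.nrm h.ker_nrm

theorem MinA.cW_fix (hA : MinA ρ f T O A) (h : isOrb ρ T O) (hf : Stb ρ f T O) :
    cj f (cW h A) = cW h A := cj_cm _ hf.gr hA.fix hf.ker

theorem cW_semi (h : isOrb ρ T O) (htr : isOrb ρ A O) :
    ∀ w ∈ cW h A, ∀ o ∈ O, ρ w o = o → w ∈ kerO ρ (cW h A) O :=
  semi_of_comm htr (fun w hw o ho => h.inv w hw.1 o ho)
    (fun w hw a ha o ho => (hw.2 a ha).2 o ho)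

theorem cW_inv (h : isOrb ρ T O) : ∀ w ∈ cW h A, ∀ o ∈ O, ρ w o ∈ O :=
  fun w hw o ho => h.inv w hw.1 o ho

theorem MinA.na_iii [Finite Γ] (hSch : SchG Γ) (hA : MinA ρ f T O A) (h : isOrb ρ T O)
    (hf : Stb ρ f T O) (htr : isOrb ρ A O)
    (hna : ¬ ∀ a ∈ A, ∀ b ∈ A, a * b * a⁻¹ * b⁻¹ ∈ kerO ρ T O) {L : Subgroup Γ}
    (hL : L ∈ LL ρ T O) (hAL : A ≤ L) (hWL : cW h A ≤ L) : L ∈ LL cjP T (LL ρ A O) := by
  refine ⟨hL.1, ?_⟩
  refine sch_step (A := A) (Z := kerO ρ T O) hSch hA.le hA.nrm h.ker_nrm (LL ρ A O)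
    (fun M hM => hM.1) (fun t ht M hM => (hA.stbT h ht).LL hM) ?_ hL.1 hAL hWL
  intro a ha hb
  exact hA.kerA (hA.ss hf h hna htr a ha hb)

/-- if some `L` does not contain `A` then `LL ρ A O` has one element up to `f`. -/
theorem MinA.na_ii [Finite Γ] (hA : MinA ρ f T O A) (hf : Stb ρ f T O) {L : Subgroup Γ}
    (hL : L ∈ LL ρ T O) (hAL : ¬ A ≤ L) :
    ∀ M ∈ LL ρ A O, ∃ k : ℤ, M = cj (f ^ k) (L ⊓ A) := by
  have hLA : L ⊓ A ∈ LL ρ A O := LL_restrict hA.le hA.nrm hL hAL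
  have hLAT : ∀ t ∈ T, cj t (L ⊓ A) = L ⊓ A := by
    intro t ht
    rw [cj_inf, hL.1.nrm.cj_eq ht, hA.nrm.cj_eq ht]
  have h1 := (hA.all hf {M | ∃ k : ℤ, M = cj (f ^ k) (L ⊓ A)} (by
      rintro M ⟨k, rfl⟩
      exact ((hA.stbf hf).zpow k).LL hLA) ⟨L ⊓ A, 0, by rw [zpow_zero, cj_one]⟩ (by
      rintro t ht M ⟨k, rfl⟩
      refine ⟨k, ?_⟩
      rw [← cj_mul]
      have h2 : (f ^ k)⁻¹ * t * f ^ k ∈ T := by
        have := (hf.zpow k).inv.conj_mem ht
        rwa [inv_inv] at this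
      have h3 : t * f ^ k = f ^ k * ((f ^ k)⁻¹ * t * f ^ k) := by group
      rw [h3, cj_mul, hLAT _ h2]) (by
      rintro M ⟨k, rfl⟩
      refine ⟨1 + k, ?_⟩
      rw [zpow_one_add, cj_mul])).2
  intro M hM
  rw [← h1] at hM
  exact hM

theorem LL_block_card [Finite Γ] [Finite Ω] {N : Subgroup Γ} (h : isOrb ρ T O) (hN : Nrm T N)
    (hNT : N ≤ T) {β : Set Ω} (hβ : β ∈ blks ρ N O) :
    (LL ρ T O).ncard ≤ (LL (imP ρ) T (blks ρ N O)).ncard + (LL ρ (kb ρ T N O) β).ncard := by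
  have h1 : LL ρ T O = {L ∈ LL ρ T O | kb ρ T N O ≤ L} ∪ {L ∈ LL ρ T O | ¬ kb ρ T N O ≤ L} := by
    ext L
    simp only [Set.mem_union, Set.mem_sep_iff]
    tauto
  rw [h1]
  refine (Set.ncard_union_le _ _).trans (Nat.add_le_add ?_ ?_)
  · apply Set.ncard_le_ncard _ (Set.toFinite _)
    rintro L ⟨hL, hC⟩
    exact ⟨hL.1, hC⟩
  · apply Set.ncard_le_ncard_of_injOn (fun L => L ⊓ kb ρ T N O) _ _ (Set.toFinite _)
    · rintro L ⟨hL, hC⟩
      exact LL_kb h hN hL hC hβ hNT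
    · rintro L ⟨hL, hC⟩ L' ⟨hL', hC'⟩ heq
      exact LL_inj (kerO_le _ _ _) (kb_nrm h hN) hL hL' hC' heq

end

theorem C1 {Γ : Type u} [Group Γ] [Finite Γ] (hSch : SchG Γ) : ∀ (n : ℕ) (Ω : Type u)
    [Finite Ω] (ρ : Γ →* Perm Ω) (T : Subgroup Γ) (O : Set Ω), Nat.card T + O.ncard ≤ n →
    isOrb ρ T O → 2 ^ (LL ρ T O).ncard ≤ O.ncard := by
  classical
  intro n
  induction n with
  | zero =>
    intro Ω _ ρ T O hn hT
    exfalso
    have := (Set.ncard_pos (Set.toFinite O)).2 hT.ne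
    omega
  | succ n ih =>
  intro Ω _ ρ T O hn hT
  have hOpos : 0 < O.ncard := (Set.ncard_pos (Set.toFinite O)).2 hT.ne
  rcases Set.eq_empty_or_nonempty (LL ρ T O) with he | ⟨L₀, hL₀⟩
  · rw [he, Set.ncard_empty, pow_zero]
    exact hOpos
  have hf : Stb ρ 1 T O := Stb.one ρ T O
  obtain ⟨A, hA⟩ := exists_minA hf (fun h => hL₀.1.not_le (h.trans hL₀.2))
  by_cases htr : isOrb ρ A O
  swap
  · -- blocks
    obtain ⟨o, ho⟩ := hT.ne
    have hβ : blk ρ A o ∈ blks ρ A O := ⟨o, ho, rfl⟩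
    have h1 := LL_block_card hT hA.nrm hA.le hβ
    have h2 := ih (Set Ω) (imP ρ) T (blks ρ A O)
      (by have := blks_lt hT hA.nrm hA.le hA.act; omega) (isOrb_blks hT hA.nrm)
    have h3 := ih Ω ρ (kb ρ T A O) (blk ρ A o) (by
      have h4 := blk_lt hT hA.le htr hβ
      have h5 : Nat.card (kb ρ T A O) ≤ Nat.card T := Subgroup.card_le_of_le (kerO_le _ _ _)
      omega) (isOrb_kb hA.le hβ)
    have h4 := blks_mul_le hT hA.nrm hA.le hβ
    calc 2 ^ (LL ρ T O).ncard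
        ≤ 2 ^ ((LL (imP ρ) T (blks ρ A O)).ncard + (LL ρ (kb ρ T A O) (blk ρ A o)).ncard) :=
          Nat.pow_le_pow_right (by norm_num) h1
      _ = 2 ^ (LL (imP ρ) T (blks ρ A O)).ncard * 2 ^ (LL ρ (kb ρ T A O) (blk ρ A o)).ncard :=
          pow_add _ _ _
      _ ≤ (blks ρ A O).ncard * (blk ρ A o).ncard := Nat.mul_le_mul h2 h3
      _ ≤ O.ncard := h4
  have h2O := hA.two_le hT
  by_cases hab : ∀ a ∈ A, ∀ b ∈ A, a * b * a⁻¹ * b⁻¹ ∈ kerO ρ T O
  · -- abelian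
    obtain ⟨o, x, ho, hx, hox⟩ := (Set.one_lt_ncard_iff (Set.toFinite O)).1 (by omega)
    have hfo : ρ 1 o = o := by rw [map_one]; rfl
    have hfx : ρ 1 x ∈ blk ρ (kerO ρ T {o}) x := by
      rw [map_one]; exact self_mem_blk _ _ _
    have hsub : blk ρ (kerO ρ T {o}) x ⊆ O \ {o} := by
      rintro _ ⟨s, hs, rfl⟩
      refine ⟨hT.inv s hs.1 x hx, ?_⟩
      intro hc
      have h1 : ρ s o = o := hs.2 o rfl
      have h2 : ρ s x = o := hc
      rw [← h1] at h2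
      exact hox ((ρ s).injective h2).symm
    have hlt : (blk ρ (kerO ρ T {o}) x).ncard < O.ncard := by
      refine lt_of_le_of_lt (Set.ncard_le_ncard hsub (Set.toFinite _)) ?_
      rw [Set.ncard_sdiff_singleton_of_mem ho]
      omega
    have h1 : (LL ρ T O).ncard ≤
        (LL ρ (kerO ρ T {o}) (blk ρ (kerO ρ T {o}) x)).ncard := by
      apply Set.ncard_le_ncard_of_injOn (fun L => L ⊓ kerO ρ T {o}) _ _ (Set.toFinite _)
      · intro L hL
        exact hA.ab_LL hf hT htr hab ho hfo hx (fun h => hox h.symm) hfx hL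
      · intro L hL L' hL' heq
        exact hA.ab_inj hT htr hab ho hL hL' heq
    have h2 := ih Ω ρ (kerO ρ T {o}) (blk ρ (kerO ρ T {o}) x) (by
      have h5 : Nat.card (kerO ρ T {o}) ≤ Nat.card T := Subgroup.card_le_of_le (kerO_le _ _ _)
      omega) (isOrb_blk _ _ _)
    exact (Nat.pow_le_pow_right (by norm_num) h1).trans (h2.trans hlt.le)
  · -- nonabelian
    let W := cW hT A
    have hWT : W ≤ T := cW_le hT
    have hWn : Nrm T W := hA.cW_nrm hT
    have hw : 4 ^ (LL ρ W O).ncard ≤ O.ncard := by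
      have hfin : (LL ρ W O).Finite := Set.toFinite _
      have := semi_card (ρ := ρ) (W := W) hT.ne (cW_inv hT) (cW_semi hT htr) hfin.toFinset
        (fun L hL => hfin.mem_toFinset.1 hL)
      rwa [← Set.ncard_eq_toFinset_card _ hfin] at this
    have hsplit : (LL ρ T O).ncard ≤ (LL ρ W O).ncard + {L ∈ LL ρ T O | W ≤ L}.ncard := by
      have h1 : LL ρ T O = {L ∈ LL ρ T O | ¬ W ≤ L} ∪ {L ∈ LL ρ T O | W ≤ L} := by
        ext L
        simp only [Set.mem_union, Set.mem_sep_iff]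
        tauto
      conv_lhs => rw [h1]
      refine (Set.ncard_union_le _ _).trans (Nat.add_le_add_right ?_ _)
      apply Set.ncard_le_ncard_of_injOn (fun L => L ⊓ W) _ _ (Set.toFinite _)
      · rintro L ⟨hL, hC⟩
        exact LL_restrict hWT hWn hL hC
      · rintro L ⟨hL, hC⟩ L' ⟨hL', hC'⟩ heq
        exact LL_inj hWT hWn hL hL' hC' heq
    have hTker : ∀ L ∈ LL cjP T (LL ρ A O), ¬ T ≤ kerO cjP T (LL ρ A O) := by
      intro L hL hle
      exact hL.1.not_le (hle.trans hL.2)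
    by_cases hii : ∃ L₁ ∈ LL ρ T O, W ≤ L₁ ∧ ¬ A ≤ L₁
    · obtain ⟨L₁, hL₁, -, hAL₁⟩ := hii
      have hI := hA.na_ii hf hL₁ hAL₁
      have hI' : ∀ M ∈ LL ρ A O, M = L₁ ⊓ A := by
        intro M hM
        obtain ⟨k, hk⟩ := hI M hM
        rwa [one_zpow, cj_one] at hk
      have hker : T ≤ kerO cjP T (LL ρ A O) := by
        intro t ht
        refine ⟨ht, ?_⟩
        intro M hM
        rw [hI' M hM]
        change cj t (L₁ ⊓ A) = L₁ ⊓ A
        rw [cj_inf, hL₁.1.nrm.cj_eq ht, hA.nrm.cj_eq ht]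
      have hx2 : {L ∈ LL ρ T O | W ≤ L}.ncard ≤ 1 := by
        rw [Set.ncard_le_one (Set.toFinite _)]
        have key : ∀ L ∈ LL ρ T O, W ≤ L → L = L₁ := by
          intro L hL hWL
          have hAL : ¬ A ≤ L := by
            intro hAL
            exact hTker L (hA.na_iii hSch hT hf htr hab hL hAL hWL) hker
          exact LL_inj hA.le hA.nrm hL hL₁ hAL₁ (hI' _ (LL_restrict hA.le hA.nrm hL hAL))
        rintro L ⟨hL, hWL⟩ L' ⟨hL', hWL'⟩
        rw [key L hL hWL, key L' hL' hWL']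
      rcases Nat.eq_zero_or_pos (LL ρ W O).ncard with h0 | h0
      · have h1 : (LL ρ T O).ncard ≤ 1 := by omega
        calc 2 ^ (LL ρ T O).ncard ≤ 2 ^ 1 := Nat.pow_le_pow_right (by norm_num) h1
          _ ≤ O.ncard := h2O
      · have h1 : (LL ρ T O).ncard ≤ 2 * (LL ρ W O).ncard := by omega
        calc 2 ^ (LL ρ T O).ncard ≤ 2 ^ (2 * (LL ρ W O).ncard) :=
              Nat.pow_le_pow_right (by norm_num) h1
          _ = 4 ^ (LL ρ W O).ncard := by rw [pow_mul]; norm_num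
          _ ≤ O.ncard := hw
    · push Not at hii
      have hx2 : ∀ L ∈ {L ∈ LL ρ T O | W ≤ L}, L ∈ LL cjP T (LL ρ A O) := by
        rintro L ⟨hL, hWL⟩
        exact hA.na_iii hSch hT hf htr hab hL (hii L hL hWL) hWL
      rcases Set.eq_empty_or_nonempty {L ∈ LL ρ T O | W ≤ L} with he | ⟨L₁, hL₁⟩
      · rw [he, Set.ncard_empty, add_zero] at hsplit
        calc 2 ^ (LL ρ T O).ncard ≤ 2 ^ (LL ρ W O).ncard :=
              Nat.pow_le_pow_right (by norm_num) hsplit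
          _ ≤ 4 ^ (LL ρ W O).ncard := Nat.pow_le_pow_left (by norm_num) _
          _ ≤ O.ncard := hw
      · have hne := hTker L₁ (hx2 L₁ hL₁)
        have hAT : A ≠ T := by
          intro heq
          apply hne
          intro t ht
          refine ⟨ht, ?_⟩
          intro M hM
          rw [← heq] at ht
          exact hM.1.nrm.cj_eq ht
        have hcardA : Nat.card A < Nat.card T := by
          refine lt_of_le_of_ne (Subgroup.card_le_of_le hA.le) ?_
          intro hc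
          exact hAT (Subgroup.eq_of_le_of_card_ge hA.le hc.ge)
        have hIA := ih Ω ρ A O (by omega) htr
        have hIlt : (LL ρ A O).ncard < O.ncard :=
          lt_of_lt_of_le Nat.lt_two_pow_self hIA
        obtain ⟨M₀, hM₀⟩ := hA.nonempty hab htr
        have hΘ := (hA.all hf (blk cjP T M₀) (by
            rintro _ ⟨t, ht, rfl⟩
            exact (hA.stbT hT ht).LL hM₀) ⟨M₀, self_mem_blk _ _ _⟩
          (fun t ht L hL => (isOrb_blk cjP T M₀).inv t ht L hL)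
          (fun L hL => by rw [cj_one]; exact hL)).2
        have hIorb : isOrb cjP T (LL ρ A O) := by
          rw [← hΘ]
          exact isOrb_blk cjP T M₀
        have hTI := ih (Subgroup Γ) cjP T (LL ρ A O) (by omega) hIorb
        have hx : {L ∈ LL ρ T O | W ≤ L}.ncard ≤ (LL cjP T (LL ρ A O)).ncard :=
          Set.ncard_le_ncard hx2 (Set.toFinite _)
        obtain ⟨x, hxe⟩ : ∃ x, x = {L ∈ LL ρ T O | W ≤ L}.ncard := ⟨_, rfl⟩
        obtain ⟨w, hwe⟩ : ∃ w, w = (LL ρ W O).ncard := ⟨_, rfl⟩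
        rw [← hxe, ← hwe] at hsplit
        rw [← hxe] at hx
        rw [← hwe] at hw
        have h1 : 2 * x ≤ (LL ρ A O).ncard := by
          have h2 : 2 ^ x ≤ (LL ρ A O).ncard :=
            (Nat.pow_le_pow_right (by norm_num) hx).trans hTI
          refine le_trans ?_ h2
          rcases x with _ | x
          · simp
          · have h3 : x < 2 ^ x := Nat.lt_two_pow_self
            rw [pow_succ]
            omega
        have h2 : 4 ^ x ≤ O.ncard := by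
          calc 4 ^ x = 2 ^ (2 * x) := by rw [pow_mul]; norm_num
            _ ≤ 2 ^ (LL ρ A O).ncard := Nat.pow_le_pow_right (by norm_num) h1
            _ ≤ O.ncard := hIA
        have h3 : (2 ^ (w + x)) ^ 2 ≤ O.ncard ^ 2 := by
          calc (2 ^ (w + x)) ^ 2 = 4 ^ w * 4 ^ x := by
                rw [← pow_mul, mul_comm (w + x) 2, pow_mul, ← pow_add]; norm_num
            _ ≤ O.ncard * O.ncard := Nat.mul_le_mul hw h2
            _ = O.ncard ^ 2 := (sq _).symm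
        have h4 : 2 ^ (w + x) ≤ O.ncard := (Nat.pow_le_pow_iff_left (by norm_num)).1 h3
        exact (Nat.pow_le_pow_right (by norm_num) hsplit).trans h4

end Pool.Agent.LFS
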