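import Mathlib

set_option autoImplicit false

/-!
An element outside the group generated by a subgroup and an involution which makes it commute
with its conjugate.
-/

namespace Pool.Agent.LFS

variable {D Γ : Type*} [Group D] [Group Γ]

theorem notMem_closure (a : D →* Γ) (w : Γ) (hw : w * w = 1)
    (hcomm : ∀ d e, a d * (w * a e * w) = (w * a e * w) * a d)
    (hdis : ∀ d e, a d = w * a e * w → d = 1)
    (hwa : ∀ d, w ≠ a d) (X : Subgroup D) (g : D) (hg : g ∉ X) :
    a g ∉ Subgroup.closure (a '' (X : Set D) ∪ {w}) := by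
  obtain ⟨W, hW⟩ : ∃ W : D → Γ, ∀ x, W x = w * a x * w := ⟨_, fun _ => rfl⟩
  have hWm : ∀ x y, W x * W y = W (x * y) := by
    intro x y
    rw [hW, hW, hW, map_mul]
    calc w * a x * w * (w * a y * w) = w * a x * (w * w) * a y * w := by simp only [mul_assoc]
      _ = w * (a x * a y) * w := by rw [hw]; simp only [mul_assoc, one_mul]
  have hwx : ∀ x, w * a x = W x * w := by
    intro x
    rw [hW, mul_assoc (w * a x), hw, mul_one]
  have hwW : ∀ x, w * W x = a x * w := by
    intro x
    rw [hW]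
    calc w * (w * a x * w) = (w * w) * a x * w := by simp only [mul_assoc]
      _ = a x * w := by rw [hw, one_mul]
  have hW1 : W 1 = 1 := by
    rw [hW, map_one, mul_one, hw]
  have hc : ∀ x y, W x * a y = a y * W x := fun x y => by rw [hW]; exact (hcomm y x).symm
  let S : Subgroup Γ :=
    { carrier := {y | ∃ x0 ∈ X, ∃ x1 ∈ X, y = a x0 * W x1 ∨ y = a x0 * W x1 * w}
      one_mem' := ⟨1, X.one_mem, 1, X.one_mem, Or.inl (by rw [map_one, hW1, mul_one])⟩
      mul_mem' := by
        rintro _ _ ⟨x0, h0, x1, h1, rfl | rfl⟩ ⟨y0, k0, y1, k1, rfl | rfl⟩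
        · refine ⟨x0 * y0, X.mul_mem h0 k0, x1 * y1, X.mul_mem h1 k1, Or.inl ?_⟩
          rw [map_mul, ← hWm]
          calc a x0 * W x1 * (a y0 * W y1) = a x0 * (W x1 * a y0) * W y1 := by
                simp only [mul_assoc]
            _ = _ := by rw [hc]; simp only [mul_assoc]
        · refine ⟨x0 * y0, X.mul_mem h0 k0, x1 * y1, X.mul_mem h1 k1, Or.inr ?_⟩
          rw [map_mul, ← hWm]
          calc a x0 * W x1 * (a y0 * W y1 * w) = a x0 * (W x1 * a y0) * W y1 * w := by
                simp only [mul_assoc]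
            _ = _ := by rw [hc]; simp only [mul_assoc]
        · refine ⟨x0 * y1, X.mul_mem h0 k1, x1 * y0, X.mul_mem h1 k0, Or.inr ?_⟩
          rw [map_mul, ← hWm]
          calc a x0 * W x1 * w * (a y0 * W y1) = a x0 * W x1 * (w * a y0) * W y1 := by
                simp only [mul_assoc]
            _ = a x0 * W x1 * W y0 * (w * W y1) := by rw [hwx]; simp only [mul_assoc]
            _ = a x0 * (W x1 * W y0 * a y1) * w := by rw [hwW]; simp only [mul_assoc]
            _ = _ := by rw [hWm, hc, ← hWm]; simp only [mul_assoc]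
        · refine ⟨x0 * y1, X.mul_mem h0 k1, x1 * y0, X.mul_mem h1 k0, Or.inl ?_⟩
          rw [map_mul, ← hWm]
          calc a x0 * W x1 * w * (a y0 * W y1 * w) = a x0 * W x1 * (w * a y0) * W y1 * w := by
                simp only [mul_assoc]
            _ = a x0 * W x1 * W y0 * (w * W y1) * w := by rw [hwx]; simp only [mul_assoc]
            _ = a x0 * (W x1 * W y0 * a y1) * (w * w) := by rw [hwW]; simp only [mul_assoc]
            _ = _ := by rw [hWm, hc, ← hWm, hw]; simp only [mul_assoc, mul_one]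
      inv_mem' := by
        have hWi : ∀ x, (W x)⁻¹ = W x⁻¹ := by
          intro x
          rw [inv_eq_iff_mul_eq_one, hWm, mul_inv_cancel, hW1]
        have hwi : w⁻¹ = w := by rw [inv_eq_iff_mul_eq_one, hw]
        rintro _ ⟨x0, h0, x1, h1, rfl | rfl⟩
        · refine ⟨x0⁻¹, X.inv_mem h0, x1⁻¹, X.inv_mem h1, Or.inl ?_⟩
          rw [mul_inv_rev, hWi, ← map_inv, hc]
        · refine ⟨x1⁻¹, X.inv_mem h1, x0⁻¹, X.inv_mem h0, Or.inr ?_⟩
          rw [mul_inv_rev, mul_inv_rev, hWi, hwi, ← map_inv]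
          calc w * (W x1⁻¹ * a x0⁻¹) = (w * W x1⁻¹) * a x0⁻¹ := by rw [mul_assoc]
            _ = a x1⁻¹ * (w * a x0⁻¹) := by rw [hwW, mul_assoc]
            _ = _ := by rw [hwx, mul_assoc] }
  intro hmem
  have hS : Subgroup.closure (a '' (X : Set D) ∪ {w}) ≤ S := by
    rw [Subgroup.closure_le]
    rintro y (⟨x, hx, rfl⟩ | rfl)
    · exact ⟨x, hx, 1, X.one_mem, Or.inl (by rw [hW1, mul_one])⟩
    · exact ⟨1, X.one_mem, 1, X.one_mem, Or.inr (by rw [hW1, map_one, one_mul, one_mul])⟩
  obtain ⟨x0, h0, x1, h1, h | h⟩ := hS hmem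
  · have h2 : a (x0⁻¹ * g) = w * a x1 * w := by
      rw [map_mul, h, map_inv, inv_mul_cancel_left, hW]
    have h3 := hdis _ _ h2
    apply hg
    have h4 : g = x0 := by
      rw [inv_mul_eq_one] at h3
      exact h3.symm
    rwa [h4]
  · have h2 : w = a (x0⁻¹ * g * x1⁻¹) := by
      have h3 : a g = a x0 * w * a x1 := by
        rw [h, hW]
        calc a x0 * (w * a x1 * w) * w = a x0 * (w * a x1 * (w * w)) := by simp only [mul_assoc]
          _ = _ := by rw [hw, mul_one, mul_assoc]
      rw [map_mul, map_mul, map_inv, map_inv, h3]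
      group
    exact hwa _ h2

end Pool.Agent.LFS
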