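import Mathlib

set_option autoImplicit false

/-!
Groups all of whose nonabelian simple sections have order in a given set of numbers.
-/

namespace Pool.Agent.LFS

universe u v

/-- every nonabelian simple section (quotient of a subgroup) of `Q` has its order in `P`. -/
def SecIn (P : Set ℕ) (Q : Type u) [Group Q] : Prop :=
  ∀ (A : Subgroup Q) (N : Subgroup A) [N.Normal], IsSimpleGroup (A ⧸ N) →
    (∃ a b : A ⧸ N, a * b ≠ b * a) → Nat.card (A ⧸ N) ∈ P

/-- the same with surjective homomorphisms. -/
theorem SecIn.hom {P : Set ℕ} {Q : Type u} [Group Q] (h : SecIn P Q)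
    (A : Subgroup Q) {S : Type v} [Group S] (hS : IsSimpleGroup S) (f : A →* S)
    (hf : Function.Surjective f) (hab : ∃ a b : S, a * b ≠ b * a) : Nat.card S ∈ P := by
  let e : (A ⧸ f.ker) ≃* S := QuotientGroup.quotientKerEquivOfSurjective f hf
  have h1 : IsSimpleGroup (A ⧸ f.ker) := by
    exact e.isSimpleGroup
  have h2 : ∃ a b : A ⧸ f.ker, a * b ≠ b * a := by
    obtain ⟨a, b, hne⟩ := hab
    refine ⟨e.symm a, e.symm b, fun hc => hne ?_⟩
    rw [← map_mul, ← map_mul] at hc
    exact e.symm.injective hc
  have h3 := h A f.ker h1 h2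
  rwa [Nat.card_congr e.toEquiv] at h3

theorem SecIn.of_injective {P : Set ℕ} {Q : Type u} {R : Type v} [Group Q] [Group R]
    (h : SecIn P R) (f : Q →* R) (hf : Function.Injective f) : SecIn P Q := by
  intro A N hN hS hab
  let A' := A.map f
  let e : A ≃* A' := A.equivMapOfInjective f hf
  exact h.hom A' hS ((QuotientGroup.mk' N).comp e.symm.toMonoidHom)
    ((QuotientGroup.mk'_surjective N).comp e.symm.surjective) hab

theorem SecIn.of_surjective {P : Set ℕ} {Q : Type u} {R : Type v} [Group Q] [Group R]
    (h : SecIn P Q) (f : Q →* R) (hf : Function.Surjective f) : SecIn P R := by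
  intro A N hN hS hab
  let A' := A.comap f
  let g : A' →* A := f.subgroupComap A
  have hg : Function.Surjective g := f.subgroupComap_surjective_of_surjective A hf
  exact h.hom A' hS ((QuotientGroup.mk' N).comp g) ((QuotientGroup.mk'_surjective N).comp hg) hab

theorem SecIn.of_comm {P : Set ℕ} {Q : Type u} [Group Q] (h : ∀ a b : Q, a * b = b * a) :
    SecIn P Q := by
  intro A N hN hS hab
  exfalso
  obtain ⟨a, b, hne⟩ := hab
  induction a using QuotientGroup.induction_on with
  | H a =>
    induction b using QuotientGroup.induction_on with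
    | H b =>
      apply hne
      rw [← QuotientGroup.mk_mul, ← QuotientGroup.mk_mul]
      congr 1
      exact Subtype.ext (h a b)

theorem SecIn.ext {P : Set ℕ} {Q : Type u} [Group Q] (N : Subgroup Q) [N.Normal]
    (h1 : SecIn P N) (h2 : SecIn P (Q ⧸ N)) : SecIn P Q := by
  intro A L hL hS hab
  let S := A ⧸ L
  let f : A →* S := QuotientGroup.mk' L
  have hf : Function.Surjective f := QuotientGroup.mk'_surjective L
  let B : Subgroup A := N.subgroupOf A
  have hB : B.Normal := inferInstance
  have hmap : (B.map f).Normal := hB.map f hf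
  rcases hS.eq_bot_or_eq_top_of_normal (B.map f) hmap with hb | ht
  · -- `f` factors through the image of `A` in `Q ⧸ N`
    let q : A →* (A.map (QuotientGroup.mk' N)) := (QuotientGroup.mk' N).subgroupMap A
    have hq : Function.Surjective q := (QuotientGroup.mk' N).subgroupMap_surjective A
    have hker : q.ker ≤ f.ker := by
      intro a ha
      have ha1 : (QuotientGroup.mk' N) (a : Q) = 1 := by
        exact congrArg Subtype.val (MonoidHom.mem_ker.1 ha)
      have ha2 : (a : Q) ∈ N := by
        rwa [QuotientGroup.mk'_apply, QuotientGroup.eq_one_iff] at ha1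
      have ha3 : f a ∈ B.map f := ⟨a, Subgroup.mem_subgroupOf.2 ha2, rfl⟩
      rw [hb] at ha3
      exact MonoidHom.mem_ker.2 (Subgroup.mem_bot.1 ha3)
    let g := q.liftOfSurjective hq ⟨f, hker⟩
    have hg : ∀ a, g (q a) = f a := fun a => MonoidHom.liftOfRightInverse_comp_apply _ _ _ _ _
    have hgs : Function.Surjective g := by
      intro s
      obtain ⟨a, rfl⟩ := hf s
      exact ⟨q a, hg a⟩
    exact h2.hom _ hS g hgs hab
  · -- `N ⊓ A` maps onto `S`
    let B' : Subgroup N := A.subgroupOf N
    let g : B' →* S := f.comp (MonoidHom.mk' (fun b : B' => (⟨(b : N), b.2⟩ : A)) (fun _ _ => rfl))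
    have hgs : Function.Surjective g := by
      intro s
      have hs : s ∈ B.map f := by rw [ht]; exact Subgroup.mem_top s
      obtain ⟨b, hb, rfl⟩ := hs
      exact ⟨⟨⟨(b : Q), Subgroup.mem_subgroupOf.1 hb⟩, b.2⟩, rfl⟩
    exact h1.hom B' hS g hgs hab

/-- solvable groups have no nonabelian simple section. -/
theorem SecIn.of_isSolvable {P : Set ℕ} {Q : Type u} [Group Q] (h : Group.IsSolvable Q) :
    SecIn P Q := by
  intro A N hN hS hab
  exfalso
  have h1 : Group.IsSolvable (A ⧸ N) := inferInstance
  obtain ⟨a, b, hne⟩ := hab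
  exact hne (IsSimpleGroup.comm_iff_isSolvable.2 h1 a b)

end Pool.Agent.LFS
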