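import Mathlib
import Pool.Agent.LFS.Sec

set_option autoImplicit false

/-!
The chain criterion.
-/

namespace Pool.Agent.LFS

universe u v

variable {G : Type u} [Group G]

/-- every quotient of `Y` covered by the subgroup `X` has all its nonabelian simple sections of
order in `P`. -/
def Tight (P : Set ℕ) (X Y : Subgroup G) : Prop :=
  X ≤ Y ∧ ∀ (Q : Type u) [Group Q] (f : Y →* Q),
    (∀ y : Y, ∃ x : Y, (x : G) ∈ X ∧ f x = f y) → SecIn P f.range

theorem chain_secIn {P : Set ℕ} (X : ℕ → Subgroup G) (hX : ∀ j, Tight P (X j) (X (j + 1)))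
    (K : Subgroup G) (hK : K = ⨆ j, X j) (N : Subgroup K) [N.Normal] [N.FiniteIndex] :
    SecIn P (K ⧸ N) := by
  have hmono : Monotone X := monotone_nat_of_le_succ (fun j => (hX j).1)
  have hle : ∀ j, X j ≤ K := fun j => hK ▸ le_iSup X j
  have hmem : ∀ k : K, ∃ j, (k : G) ∈ X j := by
    intro k
    have hk : (k : G) ∈ ⨆ j, X j := hK ▸ k.2
    exact (Subgroup.mem_iSup_of_directed (hmono.directed_le)).1 hk
  have hfin : Finite (K ⧸ N) := Subgroup.finite_quotient_of_finiteIndex
  have hrep : ∀ t : K ⧸ N, ∃ j, ∃ k : K, (k : G) ∈ X j ∧ (QuotientGroup.mk' N) k = t := by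
    intro t
    obtain ⟨k, rfl⟩ := QuotientGroup.mk'_surjective N t
    obtain ⟨j, hj⟩ := hmem k
    exact ⟨j, k, hj, rfl⟩
  choose J r hr1 hr2 using hrep
  obtain ⟨m, hm⟩ : ∃ m, ∀ t, J t ≤ m := by
    obtain ⟨m, hm⟩ := (Set.finite_range J).bddAbove
    exact ⟨m, fun t => hm ⟨t, rfl⟩⟩
  let f : X (m + 1) →* K ⧸ N := (QuotientGroup.mk' N).comp (Subgroup.inclusion (hle (m + 1)))
  have hcov : ∀ t : K ⧸ N, ∃ x : X (m + 1), (x : G) ∈ X m ∧ f x = t := by
    intro t
    have h1 : ((r t : K) : G) ∈ X m := hmono (hm t) (hr1 t)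
    refine ⟨⟨(r t : G), (hX m).1 h1⟩, h1, ?_⟩
    have h2 : Subgroup.inclusion (hle (m + 1)) ⟨(r t : G), (hX m).1 h1⟩ = r t := Subtype.ext rfl
    change (QuotientGroup.mk' N) (Subgroup.inclusion (hle (m + 1)) ⟨(r t : G), (hX m).1 h1⟩) = t
    rw [h2, hr2]
  have h3 : SecIn P f.range := by
    refine (hX m).2 (K ⧸ N) f ?_
    intro y
    exact hcov (f y)
  refine h3.of_surjective f.range.subtype ?_
  intro t
  obtain ⟨x, -, hx⟩ := hcov t
  exact ⟨⟨t, ⟨x, hx⟩⟩, rfl⟩

/-- a finite subgroup without nontrivial quotients with all nonabelian simple sections in `P`. -/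
theorem exists_free {P : Set ℕ} (H : Subgroup G) [Finite H] (hH : ¬ SecIn P H) :
    ∃ A : Subgroup G, A ≤ H ∧ (∃ a ∈ A, a ≠ 1) ∧
      ∀ (Q : Type u) [Group Q] (f : A →* Q), SecIn P f.range → ∀ a, f a = 1 := by
  classical
  have hex : ∃ c : ℕ, ∃ A : Subgroup G, A ≤ H ∧ ¬ SecIn P A ∧ Nat.card A = c :=
    ⟨_, H, le_rfl, hH, rfl⟩
  obtain ⟨A, hAH, hA, hc⟩ := Nat.find_spec hex
  have hfinA : Finite A := Finite.of_injective _ (Subgroup.inclusion_injective hAH)
  have key : ∀ (Q : Type u) [Group Q] (f : A →* Q), SecIn P f.range → ∀ a, f a = 1 := by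
    intro Q _ f hf a
    by_contra hne
    let L : Subgroup A := f.ker
    have hL : a ∉ L := fun h => hne (MonoidHom.mem_ker.1 h)
    have h1 : SecIn P L := by
      let L' : Subgroup G := L.map A.subtype
      let e : L ≃* L' := L.equivMapOfInjective A.subtype A.subtype_injective
      have h2 : SecIn P L' := by
        by_contra hb
        have hle : L' ≤ A := by
          rintro _ ⟨x, -, rfl⟩
          exact x.2
        have hlt : Nat.card L' < Nat.card A := by
          refine lt_of_le_of_ne (Subgroup.card_le_of_le hle) ?_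
          intro heq
          have := Subgroup.eq_of_le_of_card_ge hle heq.ge
          apply hL
          have ha : (a : G) ∈ L' := by rw [this]; exact a.2
          obtain ⟨x, hx, hxa⟩ := ha
          have : x = a := Subtype.ext hxa
          rwa [← this]
        rw [hc] at hlt
        exact Nat.find_min hex hlt ⟨L', hle.trans hAH, hb, rfl⟩
      exact h2.of_injective e.toMonoidHom e.injective
    have h2 : SecIn P (A ⧸ L) := by
      let e : (A ⧸ L) ≃* f.range := QuotientGroup.quotientKerEquivRange f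
      exact hf.of_injective e.toMonoidHom e.injective
    exact hA (SecIn.ext L h1 h2)
  refine ⟨A, hAH, ?_, key⟩
  by_contra hb
  push Not at hb
  apply hA
  apply SecIn.of_comm
  intro a b
  have h1 : a = 1 := Subtype.ext (hb a a.2)
  have h2 : b = 1 := Subtype.ext (hb b b.2)
  rw [h1, h2]

/-- The chain criterion: if the first group of a tight chain is not in the class then the union
is not residually finite. -/
theorem chain_not_rf {P : Set ℕ} (X : ℕ → Subgroup G) (hX : ∀ j, Tight P (X j) (X (j + 1)))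
    [Finite (X 0)] (h0 : ¬ SecIn P (X 0)) :
    ∃ k : (⨆ j, X j : Subgroup G), k ≠ 1 ∧
      ∀ N : Subgroup (⨆ j, X j : Subgroup G), N.Normal → N.FiniteIndex → k ∈ N := by
  obtain ⟨A, hA0, ⟨a, haA, ha1⟩, hA⟩ := exists_free (X 0) h0
  have hAK : A ≤ ⨆ j, X j := hA0.trans (le_iSup X 0)
  refine ⟨⟨a, hAK haA⟩, fun h => ha1 (congrArg Subtype.val h), ?_⟩
  intro N hN hfi
  have h1 := chain_secIn X hX _ rfl N
  let f : A →* (⨆ j, X j : Subgroup G) ⧸ N :=
    (QuotientGroup.mk' N).comp (Subgroup.inclusion hAK)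
  have h2 : SecIn P f.range := h1.of_injective f.range.subtype f.range.subtype_injective
  have h3 := hA _ f h2 ⟨a, haA⟩
  have h4 : (QuotientGroup.mk' N) ⟨a, hAK haA⟩ = 1 := h3
  rwa [QuotientGroup.mk'_apply, QuotientGroup.eq_one_iff] at h4

end Pool.Agent.LFS
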