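import Mathlib
import Pool.Agent.LFS.Sec
import Pool.Agent.LFS.Tight
import Pool.Agent.LFS.Grp

set_option autoImplicit false

/-!
The core construction.
-/

namespace Pool.Agent.LFS

open Equiv

universe u v

/-- an invariant set of at most `s` points on which some permutation `w` makes the group commute
with its conjugate. -/
def HasCfg {D : Type u} [Group D] {n : ℕ} (ρ : D →* Perm (Fin n)) (s : ℕ) : Prop :=
  ∃ (I : Type) (_ : Fintype I) (e : I ↪ Fin n) (a : D →* Perm I) (w : Perm I),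
    (∀ d i, ρ d (e i) = e (a d i)) ∧ w * w = 1 ∧
    (∀ d d', a d * (w * a d' * w) = (w * a d' * w) * a d) ∧
    (∀ d d', a d = w * a d' * w → d = 1) ∧ (∀ d, w ≠ a d) ∧ Fintype.card I ≤ s

theorem card_alt_gt {k m : ℕ} (hk : 5 ≤ k) (hm : m ≤ k) {α : Type*} [Fintype α] [DecidableEq α]
    (hα : Fintype.card α = k) : m < Nat.card (alternatingGroup α) := by
  have h2 : Nontrivial α := by
    rw [← Fintype.one_lt_card_iff_nontrivial]; omega
  have h3 : 2 * Nat.card (alternatingGroup α) = Nat.card (Perm α) :=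
    two_mul_nat_card_alternatingGroup
  have h4 : Nat.card (Perm α) = k.factorial := by
    rw [Nat.card_eq_fintype_card, Fintype.card_perm, hα]
  obtain ⟨j, rfl⟩ : ∃ j, k = j + 3 := ⟨k - 3, by omega⟩
  have h5 : (j + 3).factorial = (j + 3) * ((j + 2) * (j + 1).factorial) := by
    rw [Nat.factorial_succ, Nat.factorial_succ]
  have h6 : 1 ≤ (j + 1).factorial := Nat.factorial_pos _
  have h7 : (j + 3) * ((j + 2) * 1) ≤ (j + 3).factorial := by
    rw [h5]
    exact Nat.mul_le_mul le_rfl (Nat.mul_le_mul le_rfl h6)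
  nlinarith

theorem exists_even {n : ℕ} {I : Type} [Fintype I] (e : I ↪ Fin n) (w : Perm I)
    (hn : Fintype.card I + 2 ≤ n) :
    ∃ c : Perm (Fin n), c ∈ alternatingGroup (Fin n) ∧ ∀ i, c (e i) = e (w i) := by
  classical
  have h1 : ∀ i, (w.viaEmbedding e) (e i) = e (w i) := fun i => Perm.viaEmbedding_apply w e i
  rcases Int.units_eq_one_or (Perm.sign (w.viaEmbedding e)) with hs | hs
  · exact ⟨_, Perm.mem_alternatingGroup.2 hs, h1⟩
  · have hcard : (Finset.univ.map e : Finset (Fin n)).card = Fintype.card I := by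
      rw [Finset.card_map, Finset.card_univ]
    have h2 : 1 < ((Finset.univ.map e)ᶜ : Finset (Fin n)).card := by
      rw [Finset.card_compl, hcard, Fintype.card_fin]; omega
    obtain ⟨p, hp, q, hq, hpq⟩ := Finset.one_lt_card.1 h2
    have hp' : ∀ i, e i ≠ p := by
      intro i hi
      rw [Finset.mem_compl] at hp
      exact hp (Finset.mem_map.2 ⟨i, Finset.mem_univ _, hi⟩)
    have hq' : ∀ i, e i ≠ q := by
      intro i hi
      rw [Finset.mem_compl] at hq
      exact hq (Finset.mem_map.2 ⟨i, Finset.mem_univ _, hi⟩)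
    refine ⟨w.viaEmbedding e * Equiv.swap p q, ?_, ?_⟩
    · rw [Perm.mem_alternatingGroup, map_mul, hs, Perm.sign_swap hpq]; rfl
    · intro i
      rw [Perm.mul_apply, Equiv.swap_apply_of_ne_of_ne (hp' i) (hq' i), h1]

theorem core {P : Set ℕ} {H : Type u} [Group H] [Finite H] {n : ℕ} (ψ : H →* Perm (Fin n))
    (hψ : ψ.range = alternatingGroup (Fin n)) (D X : Subgroup H) (hXD : X ≤ D) (g : H)
    (hgD : g ∈ D) (hgX : g ∉ X) (s : ℕ) (hcfg : HasCfg (ψ.comp D.subtype) s)
    (hn : s + 5 + Nat.card X ≤ n)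
    (hM : ∀ (L : Subgroup ψ.ker) [L.Normal], Nat.card (ψ.ker ⧸ L) ≤ Nat.card X →
      ¬ SecIn P (ψ.ker ⧸ L) →
        n ^ s < (Subgroup.normalizer ((L.map ψ.ker.subtype : Subgroup H) : Set H)).index) :
    ∃ Y : Subgroup H, g ∉ Y ∧ Tight P X Y := by
  classical
  obtain ⟨I, _, e, a, w, hea, hw, hcomm, hdis, hwa, hI⟩ := hcfg
  obtain ⟨c, hc, hcw⟩ := exists_even e w (by omega)
  obtain ⟨c', hc'⟩ : ∃ c' : H, ψ c' = c := by
    have : c ∈ ψ.range := by rw [hψ]; exact hc
    exact this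
  let K0 : Subgroup (Perm I) :=
    Subgroup.closure (a '' ((X.subgroupOf D : Subgroup D) : Set D) ∪ {w})
  have hgK : a ⟨g, hgD⟩ ∉ K0 :=
    notMem_closure a w hw hcomm hdis hwa (X.subgroupOf D) ⟨g, hgD⟩
      (fun h => hgX (Subgroup.mem_subgroupOf.1 h))
  have hinvact : ∀ (h : H) (y : Perm I), (∀ i, ψ h (e i) = e (y i)) →
      ∀ i, ψ h⁻¹ (e i) = e (y⁻¹ i) := by
    intro h y hy i
    have h0 : y (y⁻¹ i) = i := by simp
    rw [map_inv, Perm.inv_eq_iff_eq, hy, h0]
  let Y : Subgroup H :=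
    { carrier := {h | ∃ y ∈ K0, ∀ i, ψ h (e i) = e (y i)}
      one_mem' := ⟨1, K0.one_mem, fun i => by rw [map_one]; rfl⟩
      mul_mem' := by
        rintro h h' ⟨y, hy, hy1⟩ ⟨y', hy', hy1'⟩
        refine ⟨y * y', K0.mul_mem hy hy', fun i => ?_⟩
        rw [map_mul, Perm.mul_apply, hy1', hy1, Perm.mul_apply]
      inv_mem' := by
        rintro h ⟨y, hy, hy1⟩
        exact ⟨y⁻¹, K0.inv_mem hy, hinvact h y hy1⟩ }
  have hYmem : ∀ h, h ∈ Y ↔ ∃ y ∈ K0, ∀ i, ψ h (e i) = e (y i) := fun h => Iff.rfl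
  let R : Subgroup H :=
    { carrier := {h | ∀ i, ψ h (e i) = e i}
      one_mem' := fun i => by rw [map_one]; rfl
      mul_mem' := by
        intro h h' h1 h2 i
        rw [map_mul, Perm.mul_apply, h2, h1]
      inv_mem' := by
        intro h h1 i
        rw [map_inv, Perm.inv_eq_iff_eq, h1] }
  have hRmem : ∀ h, h ∈ R ↔ ∀ i, ψ h (e i) = e i := fun h => Iff.rfl
  have hRY : R ≤ Y := fun h hh => ⟨1, K0.one_mem, hh⟩
  have hMR : ψ.ker ≤ R := by
    intro h hh i
    rw [MonoidHom.mem_ker.1 hh]; rfl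
  have hxact : ∀ x (hx : x ∈ D) i, ψ x (e i) = e (a ⟨x, hx⟩ i) := fun x hx i => hea ⟨x, hx⟩ i
  have hXY : X ≤ Y := by
    intro x hx
    refine ⟨a ⟨x, hXD hx⟩, Subgroup.subset_closure (Or.inl ⟨⟨x, hXD hx⟩, hx, rfl⟩), ?_⟩
    exact hxact x (hXD hx)
  have hgY : g ∉ Y := by
    rintro ⟨y, hy, hy1⟩
    apply hgK
    have : a ⟨g, hgD⟩ = y := by
      ext i
      apply e.injective
      rw [← hy1, ← hxact g hgD]
    rwa [this]
  have hcY : c' ∈ Y := by
    refine ⟨w, Subgroup.subset_closure (Or.inr rfl), fun i => ?_⟩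
    rw [hc', hcw]
  refine ⟨Y, hgY, hXY, ?_⟩
  intro Q _ f hf
  -- the group `F = f(Y)` is finite of order at most `|X|`
  let F := f.range
  let f' : Y →* F := f.rangeRestrict
  have hf's : Function.Surjective f' := f.rangeRestrict_surjective
  have hf'cov : ∀ y : Y, ∃ x : Y, (x : H) ∈ X ∧ f' x = f' y := by
    intro y
    obtain ⟨x, hx, hxy⟩ := hf y
    exact ⟨x, hx, Subtype.ext hxy⟩
  have hFfin : Finite F := Finite.of_surjective f' hf's
  have hFcard : Nat.card F ≤ Nat.card X := by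
    have : Function.Surjective (fun x : X => f' ⟨x, hXY x.2⟩) := by
      intro t
      obtain ⟨y, rfl⟩ := hf's t
      obtain ⟨x, hx, hxy⟩ := hf'cov y
      exact ⟨⟨x, hx⟩, hxy⟩
    exact Nat.card_le_card_of_surjective _ this
  let RY : Subgroup Y := R.subgroupOf Y
  have hRYn : RY.Normal := by
    refine ⟨fun r hr y => ?_⟩
    obtain ⟨z, hz, hz1⟩ := y.2
    have hr' : ∀ i, ψ (r : H) (e i) = e i := hr
    change ((y * r * y⁻¹ : Y) : H) ∈ R
    intro i
    change ψ ((y : H) * (r : H) * (y : H)⁻¹) (e i) = e i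
    have h0 : z (z⁻¹ i) = i := by simp
    rw [map_mul, map_mul, Perm.mul_apply, Perm.mul_apply, hinvact _ z hz1, hr', hz1, h0]
  let S : Subgroup F := RY.map f'
  have hSn : S.Normal := hRYn.map f' hf's
  have hcommF : ∀ p q : F, p * q * p⁻¹ * q⁻¹ ∈ S := by
    intro p q
    obtain ⟨p0, rfl⟩ := hf's p
    obtain ⟨q0, rfl⟩ := hf's q
    obtain ⟨x, hx, hxp⟩ := hf'cov p0
    obtain ⟨x', hx', hxq⟩ := hf'cov ((⟨c', hcY⟩ : Y)⁻¹ * q0 * ⟨c', hcY⟩)
    have hq1 : f' q0 = f' (⟨c', hcY⟩ * x' * (⟨c', hcY⟩ : Y)⁻¹) := by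
      rw [map_mul, map_mul, hxq, ← map_mul, ← map_mul]
      congr 1
      group
    rw [← hxp, hq1, ← map_inv, ← map_inv, ← map_mul, ← map_mul, ← map_mul]
    refine ⟨_, ?_, rfl⟩
    change (_ : H) ∈ R
    -- the commutator acts trivially
    have hax : ∀ i, ψ (x : H) (e i) = e (a ⟨x, hXD hx⟩ i) := hxact _ (hXD hx)
    have hax' : ∀ i, ψ (x' : H) (e i) = e (a ⟨x', hXD hx'⟩ i) := hxact _ (hXD hx')
    have hcact : ∀ i, ψ c' (e i) = e (w i) := fun i => by rw [hc', hcw]
    have hwi : w⁻¹ = w := by rw [inv_eq_iff_mul_eq_one, hw]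
    have hcact' : ∀ i, ψ c'⁻¹ (e i) = e (w i) := fun i => by rw [hinvact c' w hcact, hwi]
    have hz : ∀ i, ψ (c' * (x' : H) * c'⁻¹) (e i) = e ((w * a ⟨x', hXD hx'⟩ * w) i) := by
      intro i
      rw [map_mul, map_mul, Perm.mul_apply, Perm.mul_apply, hcact', hax', hcact]
      rfl
    have hz' := hinvact _ _ hz
    have hax'' := hinvact _ _ hax
    intro i
    change ψ ((x : H) * (c' * (x' : H) * c'⁻¹) * (x : H)⁻¹ * (c' * (x' : H) * c'⁻¹)⁻¹) (e i) = e i
    rw [map_mul, map_mul, map_mul, Perm.mul_apply, Perm.mul_apply, Perm.mul_apply, hz', hax'',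
      hz, hax]
    congr 1
    have h1 := hcomm ⟨x, hXD hx⟩ ⟨x', hXD hx'⟩
    have h2 : a ⟨x, hXD hx⟩ * (w * a ⟨x', hXD hx'⟩ * w) * (a ⟨x, hXD hx⟩)⁻¹ *
        (w * a ⟨x', hXD hx'⟩ * w)⁻¹ = 1 := by
      rw [h1]; group
    exact congrArg (fun σ : Perm I => σ i) h2
  -- `S` is the image of the kernel
  let MY : Subgroup Y := ψ.ker.subgroupOf Y
  let T : Subgroup F := MY.map f'
  have hTn : T.Normal := (inferInstance : MY.Normal).map f' hf's
  let Cc : Finset (Fin n) := (Finset.univ.map e)ᶜ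
  have hCc : ∀ p, p ∉ Cc ↔ ∃ i, e i = p := by
    intro p
    rw [Finset.mem_compl, not_not, Finset.mem_map]
    constructor
    · rintro ⟨i, -, hi⟩; exact ⟨i, hi⟩
    · rintro ⟨i, hi⟩; exact ⟨i, Finset.mem_univ _, hi⟩
  have hCcard : Fintype.card Cc = n - Fintype.card I := by
    rw [Fintype.card_coe, Finset.card_compl, Finset.card_map, Finset.card_univ, Fintype.card_fin]
  have hRsupp : ∀ h : H, h ∈ R ↔ ∃ σ : alternatingGroup Cc,
      ψ h = (alternatingGroup.ofSubtype Cc σ : Perm (Fin n)) := by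
    intro h
    have hmem : ψ h ∈ alternatingGroup (Fin n) := by rw [← hψ]; exact ⟨h, rfl⟩
    have h1 := alternatingGroup.mem_range_ofSubtype_iff Cc ⟨ψ h, hmem⟩
    constructor
    · intro hR
      have h2 : (⟨ψ h, hmem⟩ : alternatingGroup (Fin n)) ∈ (alternatingGroup.ofSubtype Cc).range := by
        rw [h1]
        intro p hp
        by_contra hpC
        obtain ⟨i, rfl⟩ := (hCc p).1 hpC
        exact (Perm.mem_support.1 hp) (hR i)
      obtain ⟨σ, hσ⟩ := h2
      exact ⟨σ, by rw [hσ]⟩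
    · rintro ⟨σ, hσ⟩ i
      have h2 : (⟨ψ h, hmem⟩ : alternatingGroup (Fin n)) ∈ (alternatingGroup.ofSubtype Cc).range :=
        ⟨σ, Subtype.ext hσ.symm⟩
      rw [h1] at h2
      by_contra hne
      have h3 : e i ∈ Cc := h2 (Perm.mem_support.2 hne)
      exact ((hCc (e i)).2 ⟨i, rfl⟩) h3
  have hlift : ∀ σ : alternatingGroup Cc, ∃ h : H, h ∈ R ∧
      ψ h = (alternatingGroup.ofSubtype Cc σ : Perm (Fin n)) := by
    intro σ
    have h1 : (alternatingGroup.ofSubtype Cc σ : Perm (Fin n)) ∈ ψ.range := by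
      rw [hψ]; exact (alternatingGroup.ofSubtype Cc σ).2
    obtain ⟨h, hh⟩ := h1
    exact ⟨h, (hRsupp h).2 ⟨σ, hh⟩, hh⟩
  choose l hlR hlψ using hlift
  let fl : alternatingGroup Cc → F := fun σ => f' ⟨l σ, hRY (hlR σ)⟩
  -- two elements with the same image under ψ have the same image modulo T
  have hsame : ∀ y y' : Y, ψ (y : H) = ψ (y' : H) → f' y * (f' y')⁻¹ ∈ T := by
    intro y y' hyy
    rw [← map_inv, ← map_mul]
    refine ⟨_, ?_, rfl⟩
    change ((y * y'⁻¹ : Y) : H) ∈ ψ.ker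
    rw [MonoidHom.mem_ker]
    change ψ ((y : H) * (y' : H)⁻¹) = 1
    rw [map_mul, map_inv, hyy, mul_inv_cancel]
  let Kθ : Subgroup (alternatingGroup Cc) :=
    { carrier := {σ | fl σ ∈ T}
      one_mem' := by
        have h1 := hsame ⟨l 1, hRY (hlR 1)⟩ 1 (by
          change ψ (l 1) = ψ ((1 : Y) : H)
          rw [hlψ, map_one]
          simp)
        rw [map_one, inv_one, mul_one] at h1
        exact h1
      mul_mem' := by
        intro σ τ hσ hτ
        have h1 := hsame ⟨l (σ * τ), hRY (hlR _)⟩ (⟨l σ, hRY (hlR σ)⟩ * ⟨l τ, hRY (hlR τ)⟩) (by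
          change ψ (l (σ * τ)) = ψ (l σ * l τ)
          rw [hlψ, map_mul, map_mul, hlψ, hlψ]
          simp)
        have h2 : f' (⟨l σ, hRY (hlR σ)⟩ * ⟨l τ, hRY (hlR τ)⟩) ∈ T := by
          rw [map_mul]; exact T.mul_mem hσ hτ
        have h3 := T.mul_mem h1 h2
        rwa [inv_mul_cancel_right] at h3
      inv_mem' := by
        intro σ hσ
        have h1 := hsame ⟨l σ⁻¹, hRY (hlR _)⟩ (⟨l σ, hRY (hlR σ)⟩⁻¹) (by
          change ψ (l σ⁻¹) = ψ (l σ)⁻¹
          rw [hlψ, map_inv, map_inv, hlψ]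
          simp)
        have h2 : f' (⟨l σ, hRY (hlR σ)⟩⁻¹) ∈ T := by
          rw [map_inv]; exact T.inv_mem hσ
        have h3 := T.mul_mem h1 h2
        rwa [inv_mul_cancel_right] at h3 }
  have hKn : Kθ.Normal := by
    refine ⟨fun σ hσ τ => ?_⟩
    have hσ' : fl σ ∈ T := hσ
    change fl (τ * σ * τ⁻¹) ∈ T
    have h1 := hsame ⟨l (τ * σ * τ⁻¹), hRY (hlR _)⟩
      (⟨l τ, hRY (hlR τ)⟩ * ⟨l σ, hRY (hlR σ)⟩ * ⟨l τ, hRY (hlR τ)⟩⁻¹) (by
        change ψ (l (τ * σ * τ⁻¹)) = ψ (l τ * l σ * (l τ)⁻¹)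
        rw [hlψ, map_mul, map_mul, map_inv, map_mul, map_mul, map_inv, hlψ, hlψ]
        simp)
    have h2 : f' (⟨l τ, hRY (hlR τ)⟩ * ⟨l σ, hRY (hlR σ)⟩ * ⟨l τ, hRY (hlR τ)⟩⁻¹) ∈ T := by
      rw [map_mul, map_mul, map_inv]
      exact hTn.conj_mem _ hσ' _
    have h3 := T.mul_mem h1 h2
    rwa [inv_mul_cancel_right] at h3
  have hST : S ≤ T := by
    have h5 : 5 ≤ Nat.card Cc := by
      rw [Nat.card_eq_fintype_card, hCcard]; omega
    have hsimple : IsSimpleGroup (alternatingGroup Cc) := alternatingGroup.isSimpleGroup h5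
    rcases hsimple.eq_bot_or_eq_top_of_normal Kθ hKn with hb | ht
    · exfalso
      have hinj : Function.Injective fl := by
        intro σ τ hστ
        have h1 : σ * τ⁻¹ ∈ Kθ := by
          change fl (σ * τ⁻¹) ∈ T
          have h1 := hsame ⟨l (σ * τ⁻¹), hRY (hlR _)⟩
            (⟨l σ, hRY (hlR σ)⟩ * ⟨l τ, hRY (hlR τ)⟩⁻¹) (by
              change ψ (l (σ * τ⁻¹)) = ψ (l σ * (l τ)⁻¹)
              rw [hlψ, map_mul, map_inv, map_mul, map_inv, hlψ, hlψ]
              simp)
          have h2 : f' (⟨l σ, hRY (hlR σ)⟩ * ⟨l τ, hRY (hlR τ)⟩⁻¹) = 1 := by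
            rw [map_mul, map_inv]
            change fl σ * (fl τ)⁻¹ = 1
            rw [hστ, mul_inv_cancel]
          rw [h2, inv_one, mul_one] at h1
          exact h1
        rw [hb, Subgroup.mem_bot, mul_inv_eq_one] at h1
        exact h1
      have h6 : Nat.card (alternatingGroup Cc) ≤ Nat.card F := Nat.card_le_card_of_injective fl hinj
      have h7 : Nat.card X < Nat.card (alternatingGroup Cc) :=
        card_alt_gt (k := n - Fintype.card I) (by omega) (by omega) hCcard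
      omega
    · rintro _ ⟨y, hy, rfl⟩
      obtain ⟨σ, hσ⟩ := (hRsupp (y : H)).1 hy
      have h1 : fl σ ∈ T := by
        have : σ ∈ Kθ := by rw [ht]; exact Subgroup.mem_top σ
        exact this
      have h2 := hsame y ⟨l σ, hRY (hlR σ)⟩ (by
        change ψ (y : H) = ψ (l σ)
        rw [hσ, hlψ])
      have h3 := T.mul_mem h2 h1
      change f' y ∈ T
      have h4 : f' y * (f' ⟨l σ, hRY (hlR σ)⟩)⁻¹ * fl σ = f' y := inv_mul_cancel_right _ _
      rwa [h4] at h3
  have hTsec : SecIn P T := by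
    let M := ψ.ker
    let incl : M →* Y := Subgroup.inclusion (hMR.trans hRY)
    let L : Subgroup M := (f'.comp incl).ker
    have hrange : (f'.comp incl).range = T := by
      ext t
      constructor
      · rintro ⟨m, rfl⟩
        exact ⟨incl m, m.2, rfl⟩
      · rintro ⟨y, hy, rfl⟩
        exact ⟨⟨(y : H), hy⟩, rfl⟩
    let eq1 : (M ⧸ L) ≃* (f'.comp incl).range := QuotientGroup.quotientKerEquivRange _
    have hcardML : Nat.card (M ⧸ L) ≤ Nat.card X := by
      rw [Nat.card_congr eq1.toEquiv]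
      exact (Subgroup.card_le_card_group _).trans hFcard
    have hsec : SecIn P (M ⧸ L) := by
      by_contra hns
      have h1 := hM L hcardML hns
      have hYN : R ≤ Subgroup.normalizer ((L.map M.subtype : Subgroup H) : Set H) := by
        intro h hh
        have hmemL : ∀ z : H, z ∈ (L.map M.subtype : Subgroup H) ↔
            ∃ hz : z ∈ M, f' ⟨z, hRY (hMR hz)⟩ = 1 := by
          intro z
          constructor
          · rintro ⟨m, hm, rfl⟩
            exact ⟨m.2, hm⟩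
          · rintro ⟨hz, hz1⟩
            exact ⟨⟨z, hz⟩, hz1, rfl⟩
        rw [Subgroup.mem_normalizer_iff]
        intro z
        rw [hmemL, hmemL]
        have hMn : M.Normal := inferInstance
        have hh' : h ∈ Y := hRY hh
        constructor
        · rintro ⟨hz, hz1⟩
          refine ⟨hMn.conj_mem z hz h, ?_⟩
          have : (⟨h * z * h⁻¹, hRY (hMR (hMn.conj_mem z hz h))⟩ : Y) =
              ⟨h, hh'⟩ * ⟨z, hRY (hMR hz)⟩ * (⟨h, hh'⟩ : Y)⁻¹ := Subtype.ext rfl
          rw [this, map_mul, map_mul, hz1, mul_one, map_inv, mul_inv_cancel]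
        · rintro ⟨hz, hz1⟩
          have hz' : z ∈ M := by
            have := hMn.conj_mem _ hz h⁻¹
            have h2 : h⁻¹ * (h * z * h⁻¹) * h⁻¹⁻¹ = z := by group
            rwa [h2] at this
          refine ⟨hz', ?_⟩
          have : (⟨z, hRY (hMR hz')⟩ : Y) =
              (⟨h, hh'⟩ : Y)⁻¹ * ⟨h * z * h⁻¹, hRY (hMR hz)⟩ * ⟨h, hh'⟩ := by
            apply Subtype.ext
            change z = h⁻¹ * (h * z * h⁻¹) * h
            group
          rw [this, map_mul, map_mul, hz1, mul_one, map_inv, inv_mul_cancel]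
      have hRidx : R.index ≤ n ^ s := by
        have h2 : Function.Injective (fun q : H ⧸ R => (Quotient.out q)) := Quotient.out_injective
        have h3 : Function.Injective (fun (q : H ⧸ R) (i : I) => ψ (Quotient.out q) (e i)) := by
          intro q q' hqq
          rw [← QuotientGroup.out_eq' q, ← QuotientGroup.out_eq' q', QuotientGroup.eq]
          intro i
          rw [map_mul, map_inv, Perm.mul_apply, Perm.inv_eq_iff_eq]
          exact (congrFun hqq i).symm
        have h4 : Nat.card (H ⧸ R) ≤ Nat.card (I → Fin n) := Nat.card_le_card_of_injective _ h3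
        rw [Nat.card_fun, Nat.card_eq_fintype_card (α := Fin n), Nat.card_eq_fintype_card (α := I),
          Fintype.card_fin] at h4
        exact h4.trans (Nat.pow_le_pow_right (by omega) hI)
      have h5 : (Subgroup.normalizer ((L.map ψ.ker.subtype : Subgroup H) : Set H)).index ≤
          R.index := Subgroup.index_antitone hYN
      exact absurd h1 (not_lt.2 (h5.trans hRidx))
    have h6 : SecIn P (f'.comp incl).range := hsec.of_injective eq1.symm.toMonoidHom eq1.symm.injective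
    rwa [hrange] at h6
  have hSsec : SecIn P S := hTsec.of_injective (Subgroup.inclusion hST) (Subgroup.inclusion_injective hST)
  refine SecIn.ext S hSsec (SecIn.of_comm ?_)
  intro p q
  induction p using QuotientGroup.induction_on with
  | H p =>
    induction q using QuotientGroup.induction_on with
    | H q =>
      rw [← QuotientGroup.mk_mul, ← QuotientGroup.mk_mul, QuotientGroup.eq]
      have h1 := hcommF q⁻¹ p⁻¹
      have h2 : (p * q)⁻¹ * (q * p) = q⁻¹ * p⁻¹ * q⁻¹⁻¹ * p⁻¹⁻¹ := by group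
      rw [h2]
      exact h1

end Pool.Agent.LFS
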