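import Mathlib
import Pool.Agent.LFS.Core

set_option autoImplicit false

/-!
The two configurations.
-/

namespace Pool.Agent.LFS

open Equiv

universe u v

theorem hasCfg_of {D : Type u} [Group D] {n : ℕ} (ρ : D →* Perm (Fin n)) (s : ℕ)
    (I : Type v) [Fintype I] (e : I ↪ Fin n) (a : D →* Perm I) (w : Perm I)
    (h1 : ∀ d i, ρ d (e i) = e (a d i)) (h2 : w * w = 1)
    (h3 : ∀ d d', a d * (w * a d' * w) = (w * a d' * w) * a d)
    (h4 : ∀ d d', a d = w * a d' * w → d = 1) (h5 : ∀ d, w ≠ a d) (h6 : Fintype.card I ≤ s) :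
    HasCfg ρ s := by
  let ε : I ≃ Fin (Fintype.card I) := Fintype.equivFin I
  let E : Perm I ≃* Perm (Fin (Fintype.card I)) := ε.permCongrHom
  refine ⟨Fin (Fintype.card I), inferInstance, ε.symm.toEmbedding.trans e, E.toMonoidHom.comp a,
    E w, ?_, ?_, ?_, ?_, ?_, ?_⟩
  · intro d i
    change ρ d (e (ε.symm i)) = e (ε.symm (ε (a d (ε.symm i))))
    rw [h1, Equiv.symm_apply_apply]
  · rw [← map_mul, h2, map_one]
  · intro d d'
    change E (a d) * (E w * E (a d') * E w) = E w * E (a d') * E w * E (a d)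
    rw [← map_mul, ← map_mul, ← map_mul, ← map_mul, h3]
  · intro d d' h
    change E (a d) = E w * E (a d') * E w at h
    rw [← map_mul, ← map_mul] at h
    exact h4 d d' (E.injective h)
  · intro d h
    exact h5 d (E.injective h)
  · rwa [Fintype.card_fin]

theorem cfg_finitary {D : Type u} [Group D] [Nontrivial D] {n : ℕ} (ρ : D →* Perm (Fin n))
    (hρ : Function.Injective ρ) (S : Finset (Fin n)) (hS : ∀ d p, p ∉ S → ρ d p = p)
    (hn : 2 * S.card ≤ n) : HasCfg ρ (2 * S.card) := by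
  classical
  have hSinv : ∀ d p, ρ d p ∈ S ↔ p ∈ S := by
    intro d p
    constructor
    · intro h
      by_contra hp
      rw [hS d p hp] at h
      exact hp h
    · intro h
      by_contra hp
      have h1 := hS d⁻¹ _ hp
      have h0 : (ρ d)⁻¹ (ρ d p) = p := by simp
      rw [map_inv, h0] at h1
      rw [h1] at h
      exact hp h
  let ρS : D →* Perm S := MonoidHom.mk' (fun d => (ρ d).subtypePerm (hSinv d)) (by
    intro d d'
    apply Equiv.ext
    intro p
    apply Subtype.ext
    change ρ (d * d') p = ρ d (ρ d' p)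
    rw [map_mul]; rfl)
  have hρS : ∀ d (p : S), ((ρS d p : S) : Fin n) = ρ d p := fun d p => rfl
  have hcard : Fintype.card S ≤ Fintype.card ((Sᶜ : Finset (Fin n)) : Finset (Fin n)) := by
    rw [Fintype.card_coe, Fintype.card_coe, Finset.card_compl, Fintype.card_fin]; omega
  obtain ⟨τ⟩ : Nonempty (S ↪ ((Sᶜ : Finset (Fin n)) : Finset (Fin n))) :=
    Function.Embedding.nonempty_of_card_le hcard
  have hτ : ∀ s, ((τ s : _) : Fin n) ∉ S := fun s => Finset.mem_compl.1 (τ s).2
  let e : S ⊕ S ↪ Fin n :=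
    { toFun := Sum.elim (fun s => (s : Fin n)) (fun s => ((τ s : _) : Fin n))
      inj' := by
        rintro (s | s) (t | t) h
        · exact congrArg Sum.inl (Subtype.ext h)
        · exfalso
          have h' : (s : Fin n) = (τ t : _) := h
          exact hτ t (h' ▸ s.2)
        · exfalso
          have h' : ((τ s : _) : Fin n) = t := h
          exact hτ s (h' ▸ t.2)
        · have h' : ((τ s : _) : Fin n) = (τ t : _) := h
          exact congrArg Sum.inr (τ.injective (Subtype.ext h')) }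
  let a : D →* Perm (S ⊕ S) := (Perm.sumCongrHom S S).comp (ρS.prod 1)
  have hal : ∀ d s, a d (Sum.inl s) = Sum.inl (ρS d s) := fun d s => rfl
  have har : ∀ d s, a d (Sum.inr s) = Sum.inr s := fun d s => rfl
  let w : Perm (S ⊕ S) := Equiv.sumComm S S
  have hwl : ∀ s, w (Sum.inl s) = Sum.inr s := fun s => rfl
  have hwr : ∀ s, w (Sum.inr s) = Sum.inl s := fun s => rfl
  obtain ⟨d0, hd0⟩ := exists_ne (1 : D)
  obtain ⟨p0, hp0⟩ : ∃ p0, ρ d0 p0 ≠ p0 := by
    by_contra hb
    push Not at hb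
    apply hd0
    apply hρ
    rw [map_one]
    exact Equiv.ext hb
  have hp0S : p0 ∈ S := by
    by_contra h
    exact hp0 (hS d0 p0 h)
  refine hasCfg_of ρ _ (S ⊕ S) e a w ?_ ?_ ?_ ?_ ?_ ?_
  · rintro d (s | s)
    · rfl
    · exact hS d _ (hτ s)
  · ext x
    rcases x with s | s <;> rfl
  · intro d d'
    apply Equiv.ext
    rintro (s | s)
    · simp only [Perm.mul_apply, hal, har, hwl, hwr]
    · simp only [Perm.mul_apply, hal, har, hwl, hwr]
  · intro d d' h
    apply hρ
    rw [map_one]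
    apply Equiv.ext
    intro p
    by_cases hp : p ∈ S
    · have h1 := congrArg (fun σ : Perm (S ⊕ S) => σ (Sum.inl ⟨p, hp⟩)) h
      simp only [Perm.mul_apply, hal, har, hwl, hwr] at h1
      have h2 := congrArg Subtype.val (Sum.inl.inj h1)
      exact h2
    · exact hS d p hp
  · intro d h
    have h1 := congrArg (fun σ : Perm (S ⊕ S) => σ (Sum.inl ⟨p0, hp0S⟩)) h
    simp only [hal, hwl] at h1
    exact absurd h1 (by simp)
  · rw [Fintype.card_sum, Fintype.card_coe]; omega

/-- choice of points in different orbits. -/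
theorem choose_points {D : Type u} [Group D] [Fintype D] {n : ℕ} (ρ : D →* Perm (Fin n))
    {κ : Type v} [Fintype κ] (T : κ → Finset (Fin n))
    (hT : ∀ x, Fintype.card D * Fintype.card κ ≤ (T x).card) :
    ∃ p : κ → Fin n, (∀ x, p x ∈ T x) ∧ ∀ x y d, ρ d (p x) = p y → x = y := by
  classical
  let O : Fin n → Finset (Fin n) := fun p => Finset.univ.image (fun d => ρ d p)
  have hO : ∀ p d, O (ρ d p) = O p := by
    intro p d
    ext q
    simp only [O, Finset.mem_image, Finset.mem_univ, true_and]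
    constructor
    · rintro ⟨c, rfl⟩
      exact ⟨c * d, by rw [map_mul]; rfl⟩
    · rintro ⟨c, rfl⟩
      refine ⟨c * d⁻¹, ?_⟩
      have h0 : (ρ d)⁻¹ (ρ d p) = p := by simp
      rw [map_mul, map_inv, Perm.mul_apply, h0]
  have hself : ∀ p, p ∈ O p := by
    intro p
    exact Finset.mem_image.2 ⟨1, Finset.mem_univ _, by rw [map_one]; rfl⟩
  have hOcard : ∀ p, (O p).card ≤ Fintype.card D := fun p => Finset.card_image_le
  let t : κ → Finset (Finset (Fin n)) := fun x => (T x).image O
  have ht : ∀ x, Fintype.card κ ≤ (t x).card := by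
    intro x
    have h1 : (T x).card ≤ Fintype.card D * (t x).card := by
      apply Finset.card_le_mul_card_image
      intro A hA
      obtain ⟨p, hp, rfl⟩ := Finset.mem_image.1 hA
      refine le_trans (Finset.card_le_card ?_) (hOcard p)
      intro q hq
      have hq' := (Finset.mem_filter.1 hq).2
      rw [← hq']
      exact hself q
    have h2 := (hT x).trans h1
    exact Nat.le_of_mul_le_mul_left h2 Fintype.card_pos
  have hall : ∀ s : Finset κ, s.card ≤ (s.biUnion t).card := by
    intro s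
    rcases s.eq_empty_or_nonempty with rfl | ⟨x, hx⟩
    · simp
    · exact (Finset.card_le_univ s).trans ((ht x).trans
        (Finset.card_le_card (Finset.subset_biUnion_of_mem t hx)))
  obtain ⟨f, hf, hft⟩ := (Finset.all_card_le_biUnion_card_iff_exists_injective t).1 hall
  have hp : ∀ x, ∃ p ∈ T x, O p = f x := fun x => Finset.mem_image.1 (hft x)
  choose p hpT hpf using hp
  refine ⟨p, hpT, ?_⟩
  intro x y d h
  apply hf
  rw [← hpf, ← hpf, ← h, hO]

theorem cfg_nonfinitary {D : Type u} [Group D] [Fintype D] [Nontrivial D] {n : ℕ}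
    (ρ : D →* Perm (Fin n))
    (hmove : ∀ d : D, d ≠ 1 → Nat.card (Subgroup D) * Fintype.card D ^ 4 ≤
      (Finset.univ.filter (fun p => ρ d p ≠ p)).card) :
    HasCfg ρ (Fintype.card D ^ 4) := by
  classical
  -- a stabiliser type for every nontrivial element
  let stab : Fin n → Subgroup D := fun p =>
    { carrier := {d | ρ d p = p}
      one_mem' := by change ρ 1 p = p; rw [map_one]; rfl
      mul_mem' := by
        intro d d' h h'
        change ρ (d * d') p = p
        have h1 : ρ d p = p := h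
        have h2 : ρ d' p = p := h'
        rw [map_mul, Perm.mul_apply, h2, h1]
      inv_mem' := by
        intro d h
        change ρ d⁻¹ p = p
        have h1 : ρ d p = p := h
        rw [map_inv, Perm.inv_eq_iff_eq, h1] }
  have hstab : ∀ p d, d ∈ stab p ↔ ρ d p = p := fun p d => Iff.rfl
  let J := {d : D // d ≠ 1}
  have hfinS : Fintype (Subgroup D) := Fintype.ofFinite _
  have hU : ∀ j : J, ∃ U : Subgroup D, (j : D) ∉ U ∧
      Fintype.card D ^ 4 ≤ (Finset.univ.filter (fun p => stab p = U)).card := by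
    intro j
    obtain ⟨U, -, hU⟩ := Finset.exists_le_card_fiber_of_mul_le_card_of_maps_to
      (s := Finset.univ.filter (fun p => ρ (j : D) p ≠ p)) (t := (Finset.univ : Finset (Subgroup D)))
      (f := stab) (n := Fintype.card D ^ 4) (fun _ _ => Finset.mem_univ _) ⟨⊥, Finset.mem_univ _⟩
      (by
        have h1 := hmove j j.2
        rw [Nat.card_eq_fintype_card] at h1
        rwa [Finset.card_univ])
    have hpos : 0 < Fintype.card D ^ 4 := pow_pos Fintype.card_pos 4
    obtain ⟨p, hp⟩ := Finset.card_pos.1 (hpos.trans_le hU)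
    rw [Finset.mem_filter, Finset.mem_filter] at hp
    refine ⟨U, ?_, ?_⟩
    · intro hjU
      rw [← hp.2] at hjU
      exact hp.1.2 ((hstab p _).1 hjU)
    · refine hU.trans (Finset.card_le_card ?_)
      intro q hq
      rw [Finset.mem_filter] at hq ⊢
      exact ⟨Finset.mem_univ _, hq.2⟩
  choose U hjU hUcard using hU
  let Λ := Σ j : J, D ⧸ U j
  have hJ : Fintype.card J ≤ Fintype.card D := Fintype.card_subtype_le _
  have hq : ∀ j, Nat.card (D ⧸ U j) ≤ Fintype.card D := by
    intro j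
    rw [← Nat.card_eq_fintype_card]
    exact Nat.card_le_card_of_surjective _ (QuotientGroup.mk_surjective)
  have hΛfin : Fintype Λ := Fintype.ofFinite _
  have hΛ : Fintype.card Λ ≤ Fintype.card D ^ 2 := by
    rw [← Nat.card_eq_fintype_card, Nat.card_sigma]
    calc ∑ j : J, Nat.card (D ⧸ U j) ≤ ∑ _j : J, Fintype.card D := Finset.sum_le_sum
          (fun j _ => hq j)
      _ = Fintype.card J * Fintype.card D := by rw [Finset.sum_const, Finset.card_univ, smul_eq_mul]
      _ ≤ Fintype.card D * Fintype.card D := Nat.mul_le_mul hJ le_rfl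
      _ = Fintype.card D ^ 2 := (sq _).symm
  obtain ⟨p, hpT, hp⟩ := choose_points ρ (κ := J × Λ)
    (fun x => Finset.univ.filter (fun p => stab p = U x.1)) (by
      intro x
      refine le_trans ?_ (hUcard x.1)
      rw [Fintype.card_prod]
      calc Fintype.card D * (Fintype.card J * Fintype.card Λ)
          ≤ Fintype.card D * (Fintype.card D * Fintype.card D ^ 2) :=
            Nat.mul_le_mul le_rfl (Nat.mul_le_mul hJ hΛ)
        _ = Fintype.card D ^ 4 := by ring)
  have hpst : ∀ x : J × Λ, ∀ d, ρ d (p x) = p x ↔ d ∈ U x.1 := by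
    intro x d
    have h1 := (Finset.mem_filter.1 (hpT x)).2
    rw [← h1]
    exact (hstab _ _).symm
  -- the embedding
  let E : ∀ (x : J × Λ), (D ⧸ U x.1) → Fin n := fun x q =>
    Quotient.liftOn' q (fun δ => ρ δ (p x)) (by
      intro δ δ' h
      rw [QuotientGroup.leftRel_apply] at h
      have h1 := (hpst x _).2 h
      rw [map_mul, map_inv, Perm.mul_apply, Perm.inv_eq_iff_eq] at h1
      exact h1.symm)
  have hE : ∀ x (δ : D), E x (QuotientGroup.mk δ) = ρ δ (p x) := fun x δ => rfl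
  have hEinj : ∀ x y (q : D ⧸ U x.1) (r : D ⧸ U y.1), E x q = E y r → x = y ∧ HEq q r := by
    intro x y q r
    induction q using QuotientGroup.induction_on with
    | H δ =>
      induction r using QuotientGroup.induction_on with
      | H ε =>
        intro h
        rw [hE, hE] at h
        have h1 : ρ (ε⁻¹ * δ) (p x) = p y := by
          rw [map_mul, map_inv, Perm.mul_apply, Perm.inv_eq_iff_eq, h]
        have h2 := hp x y _ h1
        subst h2
        refine ⟨rfl, heq_of_eq ?_⟩
        rw [QuotientGroup.eq]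
        rw [← inv_mem_iff, mul_inv_rev, inv_inv]
        exact (hpst x _).1 h1
  let e : Λ × Λ ↪ Fin n :=
    { toFun := fun z => E (z.1.1, z.2) z.1.2
      inj' := by
        rintro ⟨⟨j, q⟩, l⟩ ⟨⟨k, r⟩, m⟩ h
        obtain ⟨h1, h2⟩ := hEinj (j, l) (k, m) q r h
        obtain ⟨rfl, rfl⟩ := Prod.mk.inj h1
        rw [eq_of_heq h2] }
  let aΛ : D →* Perm Λ := MulAction.toPermHom D Λ
  have haΛ : ∀ d (j : J) (q : D ⧸ U j), aΛ d ⟨j, q⟩ = ⟨j, d • q⟩ := fun d j q => rfl
  let a : D →* Perm (Λ × Λ) := MonoidHom.mk' (fun d => Equiv.prodCongr (aΛ d) (1 : Perm Λ)) (by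
    intro d d'
    apply Equiv.ext
    rintro ⟨x, y⟩
    change (aΛ (d * d') x, y) = (aΛ d (aΛ d' x), y)
    rw [map_mul]; rfl)
  have ha : ∀ d (x y : Λ), a d (x, y) = (aΛ d x, y) := fun d x y => rfl
  let w : Perm (Λ × Λ) := Equiv.prodComm Λ Λ
  have hw : ∀ x y : Λ, w (x, y) = (y, x) := fun x y => rfl
  refine hasCfg_of ρ _ (Λ × Λ) e a w ?_ ?_ ?_ ?_ ?_ ?_
  · rintro d ⟨⟨j, q⟩, l⟩
    induction q using QuotientGroup.induction_on with
    | H δ =>
      change ρ d (ρ δ (p (j, l))) = ρ (d * δ) (p (j, l))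
      rw [map_mul]; rfl
  · apply Equiv.ext
    rintro ⟨x, y⟩
    rfl
  · intro d d'
    apply Equiv.ext
    rintro ⟨x, y⟩
    simp only [Perm.mul_apply, ha, hw]
  · intro d d' h
    by_contra hd
    have h1 := congrArg (fun σ : Perm (Λ × Λ) =>
      σ ((⟨⟨d, hd⟩, QuotientGroup.mk 1⟩ : Λ), (⟨⟨d, hd⟩, QuotientGroup.mk 1⟩ : Λ))) h
    simp only [Perm.mul_apply, ha, hw] at h1
    have h2 : (aΛ d ⟨⟨d, hd⟩, QuotientGroup.mk 1⟩ : Λ) = ⟨⟨d, hd⟩, QuotientGroup.mk 1⟩ :=
      (Prod.mk.inj h1).1
    rw [haΛ] at h2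
    have h3 : d • (QuotientGroup.mk 1 : D ⧸ U ⟨d, hd⟩) = QuotientGroup.mk 1 :=
      eq_of_heq (Sigma.mk.inj h2).2
    have h4 : (QuotientGroup.mk (d * 1) : D ⧸ U ⟨d, hd⟩) = QuotientGroup.mk 1 := h3
    rw [QuotientGroup.eq, mul_one, mul_one, inv_mem_iff] at h4
    exact hjU ⟨d, hd⟩ h4
  · intro d h
    obtain ⟨d0, hd0⟩ := exists_ne (1 : D)
    let x : Λ := ⟨⟨d0, hd0⟩, QuotientGroup.mk 1⟩
    let y : Λ := ⟨⟨d0, hd0⟩, QuotientGroup.mk d0⟩
    have hxy : x ≠ y := by
      intro h
      have h3 : (QuotientGroup.mk 1 : D ⧸ U ⟨d0, hd0⟩) = QuotientGroup.mk d0 :=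
        eq_of_heq (Sigma.mk.inj h).2
      rw [QuotientGroup.eq, inv_one, one_mul] at h3
      exact hjU ⟨d0, hd0⟩ h3
    have h1 := congrArg (fun σ : Perm (Λ × Λ) => σ (x, y)) h
    simp only [ha, hw] at h1
    exact hxy (Prod.mk.inj h1).2.symm.symm
  · rw [Fintype.card_prod]
    calc Fintype.card Λ * Fintype.card Λ ≤ Fintype.card D ^ 2 * Fintype.card D ^ 2 :=
          Nat.mul_le_mul hΛ hΛ
      _ = Fintype.card D ^ 4 := by ring

end Pool.Agent.LFS
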