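import Mathlib
import Pool.Agent.LFS.Cfg

set_option autoImplicit false

/-!
MODULE Cfg2 (helper34, MP_cbf6a9): the configuration with a third coordinate.

PROOF: copy the proof of cfg_nonfinitary in LFS/Cfg.lean (and of hasCfg_of), using
choose_points with kappa = (J x Lambda) x Fin a0, so that p : (J x Lambda) x Fin a0 -> Fin n and
e ((x, y), k) = the point of the orbit of p ((j, y), k) belonging to x = (j, q). The group D acts on
the first coordinate only; w swaps the first two coordinates.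
-/

namespace Pool.Agent.LFS

open Equiv

universe u v

/-- configuration with `a₀` copies. -/
def HasCfg2 {D : Type u} [Group D] {n : ℕ} (ρ : D →* Perm (Fin n)) (s a₀ : ℕ) : Prop :=
  ∃ (I : Type) (_ : Fintype I) (e : I × Fin a₀ ↪ Fin n) (a : D →* Perm I) (w : Perm I),
    (∀ d i k, ρ d (e (i, k)) = e (a d i, k)) ∧ w * w = 1 ∧
    (∀ d d', a d * (w * a d' * w) = (w * a d' * w) * a d) ∧
    (∀ d d', a d = w * a d' * w → d = 1) ∧ (∀ d, w ≠ a d) ∧ Fintype.card I ≤ s

theorem hasCfg2_of {D : Type u} [Group D] {n : ℕ} (ρ : D →* Perm (Fin n)) (s a₀ : ℕ)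
    (I : Type v) [Fintype I] (e : I × Fin a₀ ↪ Fin n) (a : D →* Perm I) (w : Perm I)
    (h1 : ∀ d i k, ρ d (e (i, k)) = e (a d i, k)) (h2 : w * w = 1)
    (h3 : ∀ d d', a d * (w * a d' * w) = (w * a d' * w) * a d)
    (h4 : ∀ d d', a d = w * a d' * w → d = 1) (h5 : ∀ d, w ≠ a d) (h6 : Fintype.card I ≤ s) :
    HasCfg2 ρ s a₀ := by
  let ε : I ≃ Fin (Fintype.card I) := Fintype.equivFin I
  let E : Perm I ≃* Perm (Fin (Fintype.card I)) := ε.permCongrHom
  refine ⟨Fin (Fintype.card I), inferInstance,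
    (Equiv.prodCongr ε.symm (Equiv.refl (Fin a₀))).toEmbedding.trans e, E.toMonoidHom.comp a,
    E w, ?_, ?_, ?_, ?_, ?_, ?_⟩
  · intro d i k
    change ρ d (e (ε.symm i, k)) = e (ε.symm (ε (a d (ε.symm i))), k)
    rw [h1, Equiv.symm_apply_apply]
  · rw [← map_mul, h2, map_one]
  · intro d d'
    change E (a d) * (E w * E (a d') * E w) = E w * E (a d') * E w * E (a d)
    rw [← map_mul, ← map_mul, ← map_mul, ← map_mul, h3]
  · intro d d' h
    change E (a d) = E w * E (a d') * E w at h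
    rw [← map_mul, ← map_mul] at h
    exact h4 d d' (E.injective h)
  · intro d h
    exact h5 d (E.injective h)
  · rwa [Fintype.card_fin]

theorem cfg2 {D : Type u} [Group D] [Fintype D] [Nontrivial D] {n : ℕ} (ρ : D →* Perm (Fin n))
    (a₀ : ℕ) (ha₀ : 0 < a₀)
    (hmove : ∀ d : D, d ≠ 1 → Nat.card (Subgroup D) * (Fintype.card D ^ 4 * a₀) ≤
      (Finset.univ.filter (fun p => ρ d p ≠ p)).card) :
    HasCfg2 ρ (Fintype.card D ^ 4) a₀ := by
  classical
  -- a stabiliser type for every nontrivial element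
  let stab : Fin n → Subgroup D := fun p =>
    { carrier := {d | ρ d p = p}
      one_mem' := by change ρ 1 p = p; rw [map_one]; rfl
      mul_mem' := by
        intro d d' h h'
        change ρ (d * d') p = p
        have h1 : ρ d p = p := h
        have h2 : ρ d' p = p := h'
        rw [map_mul, Perm.mul_apply, h2, h1]
      inv_mem' := by
        intro d h
        change ρ d⁻¹ p = p
        have h1 : ρ d p = p := h
        rw [map_inv, Perm.inv_eq_iff_eq, h1] }
  have hstab : ∀ p d, d ∈ stab p ↔ ρ d p = p := fun p d => Iff.rfl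
  let J := {d : D // d ≠ 1}
  have hfinS : Fintype (Subgroup D) := Fintype.ofFinite _
  have hU : ∀ j : J, ∃ U : Subgroup D, (j : D) ∉ U ∧
      Fintype.card D ^ 4 * a₀ ≤ (Finset.univ.filter (fun p => stab p = U)).card := by
    intro j
    obtain ⟨U, -, hU⟩ := Finset.exists_le_card_fiber_of_mul_le_card_of_maps_to
      (s := Finset.univ.filter (fun p => ρ (j : D) p ≠ p)) (t := (Finset.univ : Finset (Subgroup D)))
      (f := stab) (n := Fintype.card D ^ 4 * a₀) (fun _ _ => Finset.mem_univ _)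
      ⟨⊥, Finset.mem_univ _⟩
      (by
        have h1 := hmove j j.2
        rw [Nat.card_eq_fintype_card] at h1
        rwa [Finset.card_univ])
    have hpos : 0 < Fintype.card D ^ 4 * a₀ := Nat.mul_pos (pow_pos Fintype.card_pos 4) ha₀
    obtain ⟨p, hp⟩ := Finset.card_pos.1 (hpos.trans_le hU)
    rw [Finset.mem_filter, Finset.mem_filter] at hp
    refine ⟨U, ?_, ?_⟩
    · intro hjU
      rw [← hp.2] at hjU
      exact hp.1.2 ((hstab p _).1 hjU)
    · refine hU.trans (Finset.card_le_card ?_)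
      intro q hq
      rw [Finset.mem_filter] at hq ⊢
      exact ⟨Finset.mem_univ _, hq.2⟩
  choose U hjU hUcard using hU
  let Λ := Σ j : J, D ⧸ U j
  have hJ : Fintype.card J ≤ Fintype.card D := Fintype.card_subtype_le _
  have hq : ∀ j, Nat.card (D ⧸ U j) ≤ Fintype.card D := by
    intro j
    rw [← Nat.card_eq_fintype_card]
    exact Nat.card_le_card_of_surjective _ (QuotientGroup.mk_surjective)
  have hΛfin : Fintype Λ := Fintype.ofFinite _
  have hΛ : Fintype.card Λ ≤ Fintype.card D ^ 2 := by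
    rw [← Nat.card_eq_fintype_card, Nat.card_sigma]
    calc ∑ j : J, Nat.card (D ⧸ U j) ≤ ∑ _j : J, Fintype.card D := Finset.sum_le_sum
          (fun j _ => hq j)
      _ = Fintype.card J * Fintype.card D := by rw [Finset.sum_const, Finset.card_univ, smul_eq_mul]
      _ ≤ Fintype.card D * Fintype.card D := Nat.mul_le_mul hJ le_rfl
      _ = Fintype.card D ^ 2 := (sq _).symm
  obtain ⟨p, hpT, hp⟩ := choose_points ρ (κ := (J × Λ) × Fin a₀)
    (fun x => Finset.univ.filter (fun p => stab p = U x.1.1)) (by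
      intro x
      refine le_trans ?_ (hUcard x.1.1)
      rw [Fintype.card_prod, Fintype.card_prod, Fintype.card_fin]
      calc Fintype.card D * (Fintype.card J * Fintype.card Λ * a₀)
          ≤ Fintype.card D * (Fintype.card D * Fintype.card D ^ 2 * a₀) :=
            Nat.mul_le_mul le_rfl (Nat.mul_le_mul (Nat.mul_le_mul hJ hΛ) le_rfl)
        _ = Fintype.card D ^ 4 * a₀ := by ring)
  have hpst : ∀ x : (J × Λ) × Fin a₀, ∀ d, ρ d (p x) = p x ↔ d ∈ U x.1.1 := by
    intro x d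
    have h1 := (Finset.mem_filter.1 (hpT x)).2
    rw [← h1]
    exact (hstab _ _).symm
  -- the embedding
  let E : ∀ (x : (J × Λ) × Fin a₀), (D ⧸ U x.1.1) → Fin n := fun x q =>
    Quotient.liftOn' q (fun δ => ρ δ (p x)) (by
      intro δ δ' h
      rw [QuotientGroup.leftRel_apply] at h
      have h1 := (hpst x _).2 h
      rw [map_mul, map_inv, Perm.mul_apply, Perm.inv_eq_iff_eq] at h1
      exact h1.symm)
  have hE : ∀ x (δ : D), E x (QuotientGroup.mk δ) = ρ δ (p x) := fun x δ => rfl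
  have hEinj : ∀ x y (q : D ⧸ U x.1.1) (r : D ⧸ U y.1.1), E x q = E y r → x = y ∧ HEq q r := by
    intro x y q r
    induction q using QuotientGroup.induction_on with
    | H δ =>
      induction r using QuotientGroup.induction_on with
      | H ε =>
        intro h
        rw [hE, hE] at h
        have h1 : ρ (ε⁻¹ * δ) (p x) = p y := by
          rw [map_mul, map_inv, Perm.mul_apply, Perm.inv_eq_iff_eq, h]
        have h2 := hp x y _ h1
        subst h2
        refine ⟨rfl, heq_of_eq ?_⟩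
        rw [QuotientGroup.eq]
        rw [← inv_mem_iff, mul_inv_rev, inv_inv]
        exact (hpst x _).1 h1
  let e : (Λ × Λ) × Fin a₀ ↪ Fin n :=
    { toFun := fun z => E ((z.1.1.1, z.1.2), z.2) z.1.1.2
      inj' := by
        rintro ⟨⟨⟨j, q⟩, l⟩, c⟩ ⟨⟨⟨k, r⟩, m⟩, c'⟩ h
        obtain ⟨h1, h2⟩ := hEinj ((j, l), c) ((k, m), c') q r h
        obtain ⟨h3, rfl⟩ := Prod.mk.inj h1
        obtain ⟨rfl, rfl⟩ := Prod.mk.inj h3
        rw [eq_of_heq h2] }
  let aΛ : D →* Perm Λ := MulAction.toPermHom D Λ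
  have haΛ : ∀ d (j : J) (q : D ⧸ U j), aΛ d ⟨j, q⟩ = ⟨j, d • q⟩ := fun d j q => rfl
  let a : D →* Perm (Λ × Λ) := MonoidHom.mk' (fun d => Equiv.prodCongr (aΛ d) (1 : Perm Λ)) (by
    intro d d'
    apply Equiv.ext
    rintro ⟨x, y⟩
    change (aΛ (d * d') x, y) = (aΛ d (aΛ d' x), y)
    rw [map_mul]; rfl)
  have ha : ∀ d (x y : Λ), a d (x, y) = (aΛ d x, y) := fun d x y => rfl
  let w : Perm (Λ × Λ) := Equiv.prodComm Λ Λ
  have hw : ∀ x y : Λ, w (x, y) = (y, x) := fun x y => rfl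
  refine hasCfg2_of ρ _ a₀ (Λ × Λ) e a w ?_ ?_ ?_ ?_ ?_ ?_
  · rintro d ⟨⟨j, q⟩, l⟩ c
    induction q using QuotientGroup.induction_on with
    | H δ =>
      change ρ d (ρ δ (p ((j, l), c))) = ρ (d * δ) (p ((j, l), c))
      rw [map_mul]; rfl
  · apply Equiv.ext
    rintro ⟨x, y⟩
    rfl
  · intro d d'
    apply Equiv.ext
    rintro ⟨x, y⟩
    simp only [Perm.mul_apply, ha, hw]
  · intro d d' h
    by_contra hd
    have h1 := congrArg (fun σ : Perm (Λ × Λ) =>
      σ ((⟨⟨d, hd⟩, QuotientGroup.mk 1⟩ : Λ), (⟨⟨d, hd⟩, QuotientGroup.mk 1⟩ : Λ))) h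
    simp only [Perm.mul_apply, ha, hw] at h1
    have h2 : (aΛ d ⟨⟨d, hd⟩, QuotientGroup.mk 1⟩ : Λ) = ⟨⟨d, hd⟩, QuotientGroup.mk 1⟩ :=
      (Prod.mk.inj h1).1
    rw [haΛ] at h2
    have h3 : d • (QuotientGroup.mk 1 : D ⧸ U ⟨d, hd⟩) = QuotientGroup.mk 1 :=
      eq_of_heq (Sigma.mk.inj h2).2
    have h4 : (QuotientGroup.mk (d * 1) : D ⧸ U ⟨d, hd⟩) = QuotientGroup.mk 1 := h3
    rw [QuotientGroup.eq, mul_one, mul_one, inv_mem_iff] at h4
    exact hjU ⟨d, hd⟩ h4
  · intro d h
    obtain ⟨d0, hd0⟩ := exists_ne (1 : D)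
    let x : Λ := ⟨⟨d0, hd0⟩, QuotientGroup.mk 1⟩
    let y : Λ := ⟨⟨d0, hd0⟩, QuotientGroup.mk d0⟩
    have hxy : x ≠ y := by
      intro h
      have h3 : (QuotientGroup.mk 1 : D ⧸ U ⟨d0, hd0⟩) = QuotientGroup.mk d0 :=
        eq_of_heq (Sigma.mk.inj h).2
      rw [QuotientGroup.eq, inv_one, one_mul] at h3
      exact hjU ⟨d0, hd0⟩ h3
    have h1 := congrArg (fun σ : Perm (Λ × Λ) => σ (x, y)) h
    simp only [ha, hw] at h1
    exact hxy (Prod.mk.inj h1).2.symm.symm
  · rw [Fintype.card_prod]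
    calc Fintype.card Λ * Fintype.card Λ ≤ Fintype.card D ^ 2 * Fintype.card D ^ 2 :=
          Nat.mul_le_mul hΛ hΛ
      _ = Fintype.card D ^ 4 := by ring

end Pool.Agent.LFS
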