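import Mathlib
import Pool.Agent.LFS.CL
import Pool.Agent.LFS.Sec

set_option autoImplicit false

/-!
MODULE Cnt (helper34, MP_cbf6a9): two counting lemmas and the solvable residual.

exists_third PROOF: take S <= M maximal (card) with pi i <> j for all i, j in S. For x in M outside S
maximality gives pi x in S or pi^-1 x in S, so M <= S u pi^-1 S u pi S.
exists_transversal PROOF: take S <= M maximal with the property; then every x in M is pi^k s with s in S,
and k may be taken in {0..p-1}.
exists_resid PROOF: derivedSeries of the group M becomes constant (M finite), equal to R say (R = its own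
commutator, M/R solvable); T = image of R. Characteristic: an automorphism of M given by conjugation with
g maps R to R. For the last claim f factors through M/R, so f.range is solvable: SecIn.of_isSolvable in
LFS/Sec.lean (Group.IsSolvable).
-/

namespace Pool.Agent.LFS

open Equiv

universe u v

theorem cnt_max {α : Type v} (M : Finset α) (P : Finset α → Prop) (h0 : P ∅) :
    ∃ S ⊆ M, P S ∧ ∀ S' ⊆ M, P S' → S'.card ≤ S.card := by
  classical
  obtain ⟨S, hS, hmax⟩ := Finset.exists_max_image (M.powerset.filter P) Finset.card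
    ⟨∅, by simp [h0]⟩
  rw [Finset.mem_filter, Finset.mem_powerset] at hS
  refine ⟨S, hS.1, hS.2, fun S' h1 h2 => hmax S' ?_⟩
  rw [Finset.mem_filter, Finset.mem_powerset]
  exact ⟨h1, h2⟩

theorem exists_third {α : Type v} (π : Perm α) (M : Finset α) (hM : ∀ x ∈ M, π x ≠ x) :
    ∃ S ⊆ M, (∀ i ∈ S, ∀ j ∈ S, π i ≠ j) ∧ M.card ≤ 3 * S.card := by
  classical
  obtain ⟨S, hSM, hS, hmax⟩ := cnt_max M (fun S => ∀ i ∈ S, ∀ j ∈ S, π i ≠ j) (by simp)
  refine ⟨S, hSM, hS, ?_⟩
  have hsub : M ⊆ S ∪ (S.image π ∪ S.image (π⁻¹ : Perm α)) := by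
    intro x hx
    by_contra hx2
    simp only [Finset.mem_union, Finset.mem_image, not_or, not_exists, not_and] at hx2
    obtain ⟨hxS, h1, h2⟩ := hx2
    have h4 := hmax (insert x S) (Finset.insert_subset hx hSM) (by
      intro i hi j hj hij
      rcases Finset.mem_insert.1 hi with hi' | hi'
      · rcases Finset.mem_insert.1 hj with hj' | hj'
        · rw [hi', hj'] at hij
          exact hM _ hx hij
        · exact h2 j hj' (by rw [← hij, hi']; simp)
      · rcases Finset.mem_insert.1 hj with hj' | hj'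
        · rw [hj'] at hij
          exact h1 i hi' hij
        · exact hS i hi' j hj' hij)
    rw [Finset.card_insert_of_notMem hxS] at h4
    omega
  have h5 := Finset.card_le_card hsub
  have h6 := Finset.card_union_le S (S.image π ∪ S.image (π⁻¹ : Perm α))
  have h7 := Finset.card_union_le (S.image π) (S.image (π⁻¹ : Perm α))
  have h8 : (S.image π).card ≤ S.card := Finset.card_image_le
  have h9 : (S.image (π⁻¹ : Perm α)).card ≤ S.card := Finset.card_image_le
  omega

theorem exists_transversal {α : Type v} (π : Perm α) (p : ℕ) (hp : 0 < p) (hπ : π ^ p = 1)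
    (M : Finset α) :
    ∃ S ⊆ M, (∀ i ∈ S, ∀ j ∈ S, ∀ k : ℤ, (π ^ k) i = j → i = j) ∧ M.card ≤ p * S.card := by
  classical
  obtain ⟨S, hSM, hS, hmax⟩ := cnt_max M
    (fun S => ∀ i ∈ S, ∀ j ∈ S, ∀ k : ℤ, (π ^ k) i = j → i = j) (by simp)
  refine ⟨S, hSM, hS, ?_⟩
  have hred : ∀ k : ℤ, ∃ r ∈ Finset.range p, π ^ k = π ^ r := by
    intro k
    have hp' : (p : ℤ) ≠ 0 := by exact_mod_cast hp.ne'
    have h0 : 0 ≤ k % p := Int.emod_nonneg k hp'
    have h1 : k % p < p := Int.emod_lt_of_pos k (by exact_mod_cast hp)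
    refine ⟨(k % p).toNat, by rw [Finset.mem_range]; omega, ?_⟩
    rw [← zpow_natCast, Int.toNat_of_nonneg h0]
    conv_lhs => rw [← Int.mul_ediv_add_emod k p]
    rw [zpow_add, zpow_mul, zpow_natCast, hπ, one_zpow, one_mul]
  have hsub : M ⊆ (Finset.range p ×ˢ S).image (fun rs => (π ^ rs.1) rs.2) := by
    intro x hx
    by_cases hxS : x ∈ S
    · rw [Finset.mem_image]
      exact ⟨(0, x), by simp [hp, hxS], by simp⟩
    by_contra hx2
    have hno : ∀ s ∈ S, ∀ k : ℤ, (π ^ k) s ≠ x := by
      intro s hs k hk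
      apply hx2
      obtain ⟨r, hr, hkr⟩ := hred k
      rw [Finset.mem_image]
      exact ⟨(r, s), Finset.mem_product.2 ⟨hr, hs⟩, by rw [← hk, hkr]⟩
    have h4 := hmax (insert x S) (Finset.insert_subset hx hSM) (by
      intro i hi j hj k hij
      rcases Finset.mem_insert.1 hi with hi' | hi'
      · rcases Finset.mem_insert.1 hj with hj' | hj'
        · rw [hi', hj']
        · exfalso
          apply hno j hj' (-k)
          rw [← hij, hi', zpow_neg]
          simp
      · rcases Finset.mem_insert.1 hj with hj' | hj'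
        · rw [hj'] at hij
          exact absurd hij (hno i hi' k)
        · exact hS i hi' j hj' k hij)
    rw [Finset.card_insert_of_notMem hxS] at h4
    omega
  calc M.card ≤ ((Finset.range p ×ˢ S).image (fun rs => (π ^ rs.1) rs.2)).card :=
        Finset.card_le_card hsub
    _ ≤ (Finset.range p ×ˢ S).card := Finset.card_image_le
    _ = p * S.card := by rw [Finset.card_product, Finset.card_range]

theorem exists_resid {Γ : Type u} [Group Γ] [Finite Γ] (M : Subgroup Γ) :
    ∃ T : Subgroup Γ, T ≤ M ∧ (∀ g, cj g M = M → cj g T = T) ∧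
      (∀ N : Subgroup Γ, N ≤ T → Nrm T N → (∀ x ∈ T, ∀ y ∈ T, x * y * x⁻¹ * y⁻¹ ∈ N) → N = T) ∧
      ∀ (Q : Type u) [Group Q] (f : M →* Q), (∀ m : M, (m : Γ) ∈ T → f m = 1) →
        SecIn ∅ f.range := by
  obtain ⟨n, hn⟩ : ∃ n, derivedSeries M (n + 1) = derivedSeries M n := by
    have hne : (Set.range (fun n => Nat.card (derivedSeries M n))).Nonempty := ⟨_, ⟨0, rfl⟩⟩
    obtain ⟨n, hn⟩ := Nat.sInf_mem hne
    refine ⟨n, ?_⟩
    have h1 : derivedSeries M (n + 1) ≤ derivedSeries M n :=
      derivedSeries_antitone M (Nat.le_succ n)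
    refine Subgroup.eq_of_le_of_card_ge h1 ?_
    have h2 : Nat.card (derivedSeries M n) =
        sInf (Set.range (fun n => Nat.card (derivedSeries M n))) := hn
    rw [h2]
    exact Nat.sInf_le ⟨n + 1, rfl⟩
  refine ⟨(derivedSeries M n).map M.subtype, ?_, ?_, ?_, ?_⟩
  · rintro _ ⟨x, _, rfl⟩
    exact x.2
  · intro g hg
    have hmem : ∀ x : M, g * (x : Γ) * g⁻¹ ∈ M := by
      intro x
      have h1 : g * (x : Γ) * g⁻¹ ∈ cj g M := by
        rw [mem_cj]
        have : g⁻¹ * (g * (x : Γ) * g⁻¹) * g = x := by group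
        rw [this]
        exact x.2
      rwa [hg] at h1
    let φ : M →* M :=
      { toFun := fun x => ⟨g * (x : Γ) * g⁻¹, hmem x⟩
        map_one' := by
          apply Subtype.ext
          simp
        map_mul' := by
          intro x y
          apply Subtype.ext
          simp }
    have hle : cj g ((derivedSeries M n).map M.subtype) ≤ (derivedSeries M n).map M.subtype := by
      intro y hy
      rw [mem_cj] at hy
      obtain ⟨x, hx, hxy⟩ := hy
      have h1 := map_derivedSeries_le_derivedSeries φ n (Subgroup.mem_map_of_mem φ hx)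
      refine ⟨φ x, h1, ?_⟩
      change g * (x : Γ) * g⁻¹ = y
      have hxy' : (x : Γ) = g⁻¹ * y * g := hxy
      rw [hxy']
      group
    exact Subgroup.eq_of_le_of_card_ge hle (card_cj g _).ge
  · intro N hNT _ hN
    refine le_antisymm hNT ?_
    have h1 : (derivedSeries M n).map M.subtype =
        ⁅(derivedSeries M n).map M.subtype, (derivedSeries M n).map M.subtype⁆ := by
      rw [← Subgroup.map_commutator, ← derivedSeries_succ, hn]
    rw [h1, Subgroup.commutator_le]
    intro x hx y hy
    exact hN x hx y hy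
  · intro Q _ f hf
    apply SecIn.of_isSolvable
    refine ⟨⟨n, ?_⟩⟩
    rw [← map_derivedSeries_eq f.rangeRestrict_surjective n, eq_bot_iff]
    rintro _ ⟨x, hx, rfl⟩
    rw [Subgroup.mem_bot]
    apply Subtype.ext
    exact hf x ⟨x, hx, rfl⟩

end Pool.Agent.LFS
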