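import Mathlib
import Pool.Agent.LFS.Tight
import Pool.Agent.LFS.Grp

set_option autoImplicit false

/-!
The core construction for an arbitrary factor group.
-/

namespace Pool.Agent.LFS

universe u v

theorem core_abs {P : Set ℕ} {H : Type u} [Group H] [Finite H] {Γ : Type v} [Group Γ]
    (ψ : H →* Γ) (X Y R : Subgroup H) (hXY : X ≤ Y) (hMR : ψ.ker ≤ R) (hRY : R ≤ Y)
    (hRn : ∀ y ∈ Y, ∀ r ∈ R, y * r * y⁻¹ ∈ R) (c : H) (hc : c ∈ Y)
    (hcomm : ∀ x ∈ X, ∀ x' ∈ X, x * (c * x' * c⁻¹) * x⁻¹ * (c * x' * c⁻¹)⁻¹ ∈ R)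
    (hR : ∀ (Q : Type u) [Group Q] (f : R →* Q), Nat.card Q ≤ Nat.card X → Finite Q →
      (∀ r : R, ψ r = 1 → f r = 1) → SecIn P f.range)
    (hM : ∀ (L : Subgroup ψ.ker) [L.Normal], Nat.card (ψ.ker ⧸ L) ≤ Nat.card X →
      ¬ SecIn P (ψ.ker ⧸ L) →
        R.index < (Subgroup.normalizer ((L.map ψ.ker.subtype : Subgroup H) : Set H)).index) :
    Tight P X Y := by
  classical
  refine ⟨hXY, ?_⟩
  intro Q _ f hf
  let F := f.range
  let f' : Y →* F := f.rangeRestrict
  have hf's : Function.Surjective f' := f.rangeRestrict_surjective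
  have hf'cov : ∀ y : Y, ∃ x : Y, (x : H) ∈ X ∧ f' x = f' y := by
    intro y
    obtain ⟨x, hx, hxy⟩ := hf y
    exact ⟨x, hx, Subtype.ext hxy⟩
  have hFfin : Finite F := Finite.of_surjective f' hf's
  have hFcard : Nat.card F ≤ Nat.card X := by
    have : Function.Surjective (fun x : X => f' ⟨x, hXY x.2⟩) := by
      intro t
      obtain ⟨y, rfl⟩ := hf's t
      obtain ⟨x, hx, hxy⟩ := hf'cov y
      exact ⟨⟨x, hx⟩, hxy⟩
    exact Nat.card_le_card_of_surjective _ this
  let RY : Subgroup Y := R.subgroupOf Y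
  have hRYn : RY.Normal := ⟨fun r hr y => hRn y y.2 r hr⟩
  let S : Subgroup F := RY.map f'
  have hSn : S.Normal := hRYn.map f' hf's
  have hcommF : ∀ p q : F, p * q * p⁻¹ * q⁻¹ ∈ S := by
    intro p q
    obtain ⟨p0, rfl⟩ := hf's p
    obtain ⟨q0, rfl⟩ := hf's q
    obtain ⟨x, hx, hxp⟩ := hf'cov p0
    obtain ⟨x', hx', hxq⟩ := hf'cov ((⟨c, hc⟩ : Y)⁻¹ * q0 * ⟨c, hc⟩)
    have hq1 : f' q0 = f' (⟨c, hc⟩ * x' * (⟨c, hc⟩ : Y)⁻¹) := by
      rw [map_mul, map_mul, hxq, ← map_mul, ← map_mul]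
      congr 1
      group
    rw [← hxp, hq1, ← map_inv, ← map_inv, ← map_mul, ← map_mul, ← map_mul]
    refine ⟨_, ?_, rfl⟩
    exact hcomm x hx x' hx'
  let MY : Subgroup Y := ψ.ker.subgroupOf Y
  let T : Subgroup F := MY.map f'
  have hTn : T.Normal := (inferInstance : MY.Normal).map f' hf's
  have hTS : T ≤ S := by
    rintro _ ⟨y, hy, rfl⟩
    exact ⟨y, hMR hy, rfl⟩
  have hTsec : SecIn P T := by
    let M := ψ.ker
    let incl : M →* Y := Subgroup.inclusion (hMR.trans hRY)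
    let L : Subgroup M := (f'.comp incl).ker
    have hrange : (f'.comp incl).range = T := by
      ext t
      constructor
      · rintro ⟨m, rfl⟩
        exact ⟨incl m, m.2, rfl⟩
      · rintro ⟨y, hy, rfl⟩
        exact ⟨⟨(y : H), hy⟩, rfl⟩
    let eq1 : (M ⧸ L) ≃* (f'.comp incl).range := QuotientGroup.quotientKerEquivRange _
    have hcardML : Nat.card (M ⧸ L) ≤ Nat.card X := by
      rw [Nat.card_congr eq1.toEquiv]
      exact (Subgroup.card_le_card_group _).trans hFcard
    have hsec : SecIn P (M ⧸ L) := by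
      by_contra hns
      have h1 := hM L hcardML hns
      have hYN : R ≤ Subgroup.normalizer ((L.map M.subtype : Subgroup H) : Set H) := by
        intro h hh
        have hmemL : ∀ z : H, z ∈ (L.map M.subtype : Subgroup H) ↔
            ∃ hz : z ∈ M, f' ⟨z, hRY (hMR hz)⟩ = 1 := by
          intro z
          constructor
          · rintro ⟨m, hm, rfl⟩
            exact ⟨m.2, hm⟩
          · rintro ⟨hz, hz1⟩
            exact ⟨⟨z, hz⟩, hz1, rfl⟩
        rw [Subgroup.mem_normalizer_iff]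
        intro z
        rw [hmemL, hmemL]
        have hMn : M.Normal := inferInstance
        have hh' : h ∈ Y := hRY hh
        constructor
        · rintro ⟨hz, hz1⟩
          refine ⟨hMn.conj_mem z hz h, ?_⟩
          have : (⟨h * z * h⁻¹, hRY (hMR (hMn.conj_mem z hz h))⟩ : Y) =
              ⟨h, hh'⟩ * ⟨z, hRY (hMR hz)⟩ * (⟨h, hh'⟩ : Y)⁻¹ := Subtype.ext rfl
          rw [this, map_mul, map_mul, hz1, mul_one, map_inv, mul_inv_cancel]
        · rintro ⟨hz, hz1⟩
          have hz' : z ∈ M := by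
            have := hMn.conj_mem _ hz h⁻¹
            have h2 : h⁻¹ * (h * z * h⁻¹) * h⁻¹⁻¹ = z := by group
            rwa [h2] at this
          refine ⟨hz', ?_⟩
          have : (⟨z, hRY (hMR hz')⟩ : Y) =
              (⟨h, hh'⟩ : Y)⁻¹ * ⟨h * z * h⁻¹, hRY (hMR hz)⟩ * ⟨h, hh'⟩ := by
            apply Subtype.ext
            change z = h⁻¹ * (h * z * h⁻¹) * h
            group
          rw [this, map_mul, map_mul, hz1, mul_one, map_inv, inv_mul_cancel]
      have h5 : (Subgroup.normalizer ((L.map ψ.ker.subtype : Subgroup H) : Set H)).index ≤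
          R.index := Subgroup.index_antitone hYN
      exact absurd h1 (not_lt.2 h5)
    have h6 : SecIn P (f'.comp incl).range := hsec.of_injective eq1.symm.toMonoidHom eq1.symm.injective
    rwa [hrange] at h6
  -- the quotient `S ⧸ T`
  let TS : Subgroup S := T.subgroupOf S
  have hTSn : TS.Normal := inferInstance
  let r0 : R →* S := MonoidHom.mk' (fun r : R => (⟨f' ⟨r, hRY r.2⟩, ⟨⟨r, hRY r.2⟩, r.2, rfl⟩⟩ : S))
    (by
      intro a b
      apply Subtype.ext
      change f' ⟨(a * b : R), _⟩ = f' ⟨a, _⟩ * f' ⟨b, _⟩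
      rw [← map_mul]
      rfl)
  have hr0 : Function.Surjective r0 := by
    rintro ⟨_, ⟨y, hy, rfl⟩⟩
    exact ⟨⟨(y : H), hy⟩, rfl⟩
  let r1 : R →* S ⧸ TS := (QuotientGroup.mk' TS).comp r0
  have hr1 : Function.Surjective r1 := (QuotientGroup.mk'_surjective TS).comp hr0
  have hST : SecIn P (S ⧸ TS) := by
    have h1 : SecIn P r1.range := by
      refine hR (S ⧸ TS) r1 ?_ inferInstance ?_
      · refine (Nat.card_le_card_of_surjective _ (QuotientGroup.mk'_surjective TS)).trans ?_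
        exact (Subgroup.card_le_card_group _).trans hFcard
      · intro r hr
        change (QuotientGroup.mk' TS) (r0 r) = 1
        rw [QuotientGroup.mk'_apply, QuotientGroup.eq_one_iff]
        change ((r0 r : S) : F) ∈ T
        exact ⟨⟨r, hRY r.2⟩, MonoidHom.mem_ker.2 hr, rfl⟩
    refine h1.of_surjective r1.range.subtype ?_
    intro t
    obtain ⟨r, hr⟩ := hr1 t
    exact ⟨⟨t, ⟨r, hr⟩⟩, rfl⟩
  have hTS' : SecIn P TS := by
    refine hTsec.of_injective (MonoidHom.mk' (fun t : TS => (⟨((t : S) : F), t.2⟩ : T))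
      (fun _ _ => rfl)) ?_
    intro a b hab
    have h1 := congrArg (fun t : T => (t : F)) hab
    exact Subtype.ext (Subtype.ext h1)
  have hSsec : SecIn P S := SecIn.ext TS hTS' hST
  refine SecIn.ext S hSsec (SecIn.of_comm ?_)
  intro p q
  induction p using QuotientGroup.induction_on with
  | H p =>
    induction q using QuotientGroup.induction_on with
    | H q =>
      rw [← QuotientGroup.mk_mul, ← QuotientGroup.mk_mul, QuotientGroup.eq]
      have h1 := hcommF q⁻¹ p⁻¹
      have h2 : (p * q)⁻¹ * (q * p) = q⁻¹ * p⁻¹ * q⁻¹⁻¹ * p⁻¹⁻¹ := by group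
      rw [h2]
      exact h1

end Pool.Agent.LFS
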