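import Mathlib

set_option autoImplicit false

/-!
MODULE Delta (helper34, MP_cbf6a9).

PROOF. Write (p r s) for the 3-cycle p -> r -> s -> p (p, r, s distinct). E = {p : exists r, s outside
C, p, r, s distinct, (p r s) in S}, Delta = complement of E.
(1) p outside C is in E (take r, s outside C, hS). So Delta <= C.
(2) p in E => (p r s) in S for ALL distinct r, s outside C different from p: if p is in C conjugate by
    an even permutation fixing C pointwise and mapping the given pair to (r, s) (exists since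
    n - |C| >= 4; use a further swap of two other points outside C to make it even); if p is outside C
    it is clear from hS.
(3) sigma in S, p in E => sigma p in E: choose r, s outside C, different from p with sigma r, sigma s
    outside C (n - 2|C| - 1 >= 2); sigma (p r s) sigma^-1 = (sigma p, sigma r, sigma s) in S. Use
    sigma^-1 for the converse.
(4) Delta empty: S contains all (p r s) with r, s outside C. (a t u) (b t u)^-1 is a 3-cycle on {a, b, t}:
    this gives all (a b t) with t outside C, then all 3-cycles; the 3-cycles generate the alternating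
    group (Equiv.Perm.closure_three_cycles_eq_alternating).
-/

namespace Pool.Agent.LFS

open Equiv

/-- the 3-cycle p -> r -> s -> p -/
private def Delta_cyc {n : ℕ} (p r s : Fin n) : Perm (Fin n) := swap p r * swap r s

private theorem Delta_cyc_fix {n : ℕ} {p r s x : Fin n} (h1 : x ≠ p) (h2 : x ≠ r) (h3 : x ≠ s) :
    Delta_cyc p r s x = x := by
  unfold Delta_cyc
  rw [Perm.mul_apply, swap_apply_of_ne_of_ne h2 h3, swap_apply_of_ne_of_ne h1 h2]

private theorem Delta_cyc_alt {n : ℕ} {p r s : Fin n} (h1 : p ≠ r) (h2 : r ≠ s) :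
    Delta_cyc p r s ∈ alternatingGroup (Fin n) := by
  unfold Delta_cyc
  rw [Perm.mem_alternatingGroup, Perm.sign_mul, Perm.sign_swap h1, Perm.sign_swap h2]
  rfl

private theorem Delta_cyc_conj {n : ℕ} (σ : Perm (Fin n)) (p r s : Fin n) :
    σ * Delta_cyc p r s * σ⁻¹ = Delta_cyc (σ p) (σ r) (σ s) := by
  unfold Delta_cyc
  rw [Equiv.swap_apply_apply, Equiv.swap_apply_apply]
  group

private theorem Delta_cyc_mul {n : ℕ} (a b t u : Fin n) :
    Delta_cyc a t u * (Delta_cyc b t u)⁻¹ = Delta_cyc a t b := by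
  unfold Delta_cyc
  rw [mul_inv_rev, Equiv.swap_inv, Equiv.swap_inv, mul_assoc, ← mul_assoc (swap t u),
    Equiv.swap_mul_self, one_mul, Equiv.swap_comm b t]

private theorem Delta_cyc_rot {n : ℕ} {a b t : Fin n} (h1 : a ≠ b) (h2 : a ≠ t) :
    Delta_cyc a b t = Delta_cyc b t a := by
  unfold Delta_cyc
  have h := Equiv.swap_apply_apply (swap b t) t a
  rw [Equiv.swap_apply_right, Equiv.swap_apply_of_ne_of_ne h1 h2, Equiv.swap_inv] at h
  rw [Equiv.swap_comm a b, h, mul_assoc, Equiv.swap_mul_self, mul_one]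

private theorem Delta_pair {n : ℕ} (B : Finset (Fin n)) (hB : B.card + 2 ≤ n) :
    ∃ r s, r ∉ B ∧ s ∉ B ∧ r ≠ s := by
  have h : 1 < (Bᶜ).card := by
    rw [Finset.card_compl, Fintype.card_fin]
    omega
  obtain ⟨r, hr, s, hs, hrs⟩ := Finset.one_lt_card.1 h
  exact ⟨r, s, Finset.mem_compl.1 hr, Finset.mem_compl.1 hs, hrs⟩

/-- an even permutation which fixes C and maps r, s to r', s' -/
private theorem Delta_move {n : ℕ} (C : Finset (Fin n)) (hn : C.card + 4 ≤ n)
    {r s r' s' : Fin n} (hr : r ∉ C) (hs : s ∉ C) (hrs : r ≠ s) (hr' : r' ∉ C) (hs' : s' ∉ C)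
    (hrs' : r' ≠ s') : ∃ τ ∈ alternatingGroup (Fin n), (∀ p ∈ C, τ p = p) ∧ τ r = r' ∧ τ s = s' := by
  set s1 : Fin n := swap r r' s with hs1
  have hs1C : s1 ∉ C := by
    rw [hs1]
    by_cases h : s = r'
    · rw [h, swap_apply_right]
      exact hr
    · rw [swap_apply_of_ne_of_ne (Ne.symm hrs) h]
      exact hs
  have hs1r' : r' ≠ s1 := by
    intro h
    have h2 : swap r r' s = swap r r' r := by
      rw [swap_apply_left, ← hs1, ← h]
    exact hrs ((swap r r').injective h2).symm
  set τ0 : Perm (Fin n) := swap s1 s' * swap r r' with hτ0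
  have h0r : τ0 r = r' := by
    rw [hτ0, Perm.mul_apply, swap_apply_left, swap_apply_of_ne_of_ne hs1r' hrs']
  have h0s : τ0 s = s' := by
    rw [hτ0, Perm.mul_apply, ← hs1, swap_apply_left]
  have h0C : ∀ p ∈ C, τ0 p = p := by
    intro p hp
    have e1 : p ≠ r := fun h => hr (h ▸ hp)
    have e2 : p ≠ r' := fun h => hr' (h ▸ hp)
    have e3 : p ≠ s1 := fun h => hs1C (h ▸ hp)
    have e4 : p ≠ s' := fun h => hs' (h ▸ hp)
    rw [hτ0, Perm.mul_apply, swap_apply_of_ne_of_ne e1 e2, swap_apply_of_ne_of_ne e3 e4]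
  rcases Int.units_eq_one_or (Perm.sign τ0) with h | h
  · exact ⟨τ0, Perm.mem_alternatingGroup.2 h, h0C, h0r, h0s⟩
  · obtain ⟨u, v, hu, hv, huv⟩ := Delta_pair (insert r' (insert s' C)) (by
      have h1 := Finset.card_insert_le r' (insert s' C)
      have h2 := Finset.card_insert_le s' C
      omega)
    rw [Finset.mem_insert, Finset.mem_insert, not_or, not_or] at hu hv
    refine ⟨swap u v * τ0, ?_, ?_, ?_, ?_⟩
    · rw [Perm.mem_alternatingGroup, Perm.sign_mul, h, Perm.sign_swap huv]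
      rfl
    · intro p hp
      have e1 : p ≠ u := fun h => hu.2.2 (h ▸ hp)
      have e2 : p ≠ v := fun h => hv.2.2 (h ▸ hp)
      rw [Perm.mul_apply, h0C p hp, swap_apply_of_ne_of_ne e1 e2]
    · rw [Perm.mul_apply, h0r, swap_apply_of_ne_of_ne (Ne.symm hu.1) (Ne.symm hv.1)]
    · rw [Perm.mul_apply, h0s, swap_apply_of_ne_of_ne (Ne.symm hu.2.1) (Ne.symm hv.2.1)]

/-- the moved set -/
private def Delta_E {n : ℕ} (C : Finset (Fin n)) (S : Subgroup (Perm (Fin n))) (p : Fin n) : Prop :=
  ∃ r s, r ∉ C ∧ s ∉ C ∧ p ≠ r ∧ p ≠ s ∧ r ≠ s ∧ Delta_cyc p r s ∈ S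

private theorem Delta_out {n : ℕ} {C : Finset (Fin n)} {S : Subgroup (Perm (Fin n))}
    (hS : ∀ σ ∈ alternatingGroup (Fin n), (∀ p ∈ C, σ p = p) → σ ∈ S) {p r s : Fin n}
    (hp : p ∉ C) (hr : r ∉ C) (hs : s ∉ C) (h1 : p ≠ r) (h3 : r ≠ s) :
    Delta_cyc p r s ∈ S := by
  refine hS _ (Delta_cyc_alt h1 h3) fun x hx => ?_
  exact Delta_cyc_fix (fun h => hp (h ▸ hx)) (fun h => hr (h ▸ hx)) (fun h => hs (h ▸ hx))

private theorem Delta_all {n : ℕ} {C : Finset (Fin n)} (hn : 2 * C.card + 10 ≤ n)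
    {S : Subgroup (Perm (Fin n))}
    (hS : ∀ σ ∈ alternatingGroup (Fin n), (∀ p ∈ C, σ p = p) → σ ∈ S) {p : Fin n}
    (hE : Delta_E C S p) {r s : Fin n} (hr : r ∉ C) (hs : s ∉ C) (h1 : p ≠ r)
    (h3 : r ≠ s) : Delta_cyc p r s ∈ S := by
  by_cases hp : p ∈ C
  · obtain ⟨r0, s0, hr0, hs0, _, _, hrs0, hmem⟩ := hE
    obtain ⟨τ, hτ, hτC, hτr, hτs⟩ := Delta_move C (by omega) hr0 hs0 hrs0 hr hs h3
    have hτS : τ ∈ S := hS τ hτ hτC
    have h := S.mul_mem (S.mul_mem hτS hmem) (S.inv_mem hτS)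
    rw [Delta_cyc_conj, hτr, hτs, hτC p hp] at h
    exact h
  · exact Delta_out hS hp hr hs h1 h3

private theorem Delta_inv {n : ℕ} {C : Finset (Fin n)} (hn : 2 * C.card + 10 ≤ n)
    {S : Subgroup (Perm (Fin n))}
    (hS : ∀ σ ∈ alternatingGroup (Fin n), (∀ p ∈ C, σ p = p) → σ ∈ S) {p : Fin n}
    (hE : Delta_E C S p) {σ : Perm (Fin n)} (hσ : σ ∈ S) : Delta_E C S (σ p) := by
  obtain ⟨r, s, hr, hs, hrs⟩ := Delta_pair (insert p (C ∪ C.image (fun x => σ⁻¹ x))) (by
      have h1 := Finset.card_insert_le p (C ∪ C.image (fun x => σ⁻¹ x))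
      have h2 := Finset.card_union_le C (C.image (fun x => σ⁻¹ x))
      have h3 : (C.image (fun x => σ⁻¹ x)).card ≤ C.card := Finset.card_image_le
      omega)
  rw [Finset.mem_insert, Finset.mem_union, not_or, not_or] at hr hs
  have hσr : σ r ∉ C := by
    intro h
    apply hr.2.2
    rw [Finset.mem_image]
    exact ⟨σ r, h, Equiv.symm_apply_apply σ r⟩
  have hσs : σ s ∉ C := by
    intro h
    apply hs.2.2
    rw [Finset.mem_image]
    exact ⟨σ s, h, Equiv.symm_apply_apply σ s⟩
  have hm := Delta_all hn hS hE hr.2.1 hs.2.1 (Ne.symm hr.1) hrs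
  refine ⟨σ r, σ s, hσr, hσs, fun h => hr.1 (σ.injective h).symm,
    fun h => hs.1 (σ.injective h).symm, fun h => hrs (σ.injective h), ?_⟩
  have h := S.mul_mem (S.mul_mem hσ hm) (S.inv_mem hσ)
  rw [Delta_cyc_conj] at h
  exact h

theorem exists_delta {n : ℕ} (C : Finset (Fin n)) (hn : 2 * C.card + 10 ≤ n)
    (S : Subgroup (Perm (Fin n))) (hS' : S ≤ alternatingGroup (Fin n))
    (hS : ∀ σ ∈ alternatingGroup (Fin n), (∀ p ∈ C, σ p = p) → σ ∈ S) :
    ∃ Δ : Finset (Fin n), Δ ⊆ C ∧ (∀ σ ∈ S, ∀ p, σ p ∈ Δ ↔ p ∈ Δ) ∧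
      (Δ = ∅ → S = alternatingGroup (Fin n)) := by
  classical
  refine ⟨Finset.univ.filter fun p => ¬ Delta_E C S p, ?_, ?_, ?_⟩
  · intro p hp
    rw [Finset.mem_filter] at hp
    by_contra hpC
    apply hp.2
    obtain ⟨r, s, hr, hs, hrs⟩ := Delta_pair (insert p C) (by
      have h1 := Finset.card_insert_le p C
      omega)
    rw [Finset.mem_insert, not_or] at hr hs
    exact ⟨r, s, hr.2, hs.2, Ne.symm hr.1, Ne.symm hs.1, hrs,
      Delta_out hS hpC hr.2 hs.2 (Ne.symm hr.1) hrs⟩
  · intro σ hσ p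
    rw [Finset.mem_filter, Finset.mem_filter]
    have key : Delta_E C S (σ p) ↔ Delta_E C S p := by
      refine ⟨fun h => ?_, fun h => Delta_inv hn hS h hσ⟩
      have h2 := Delta_inv hn hS h (S.inv_mem hσ)
      have h3 : σ⁻¹ (σ p) = p := Equiv.symm_apply_apply σ p
      rw [h3] at h2
      exact h2
    rw [key]
    simp
  · intro hemp
    have hE : ∀ p, Delta_E C S p := by
      intro p
      by_contra h
      have : p ∈ (∅ : Finset (Fin n)) := by
        rw [← hemp, Finset.mem_filter]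
        exact ⟨Finset.mem_univ p, h⟩
      simp at this
    -- two points arbitrary, one outside
    have h2 : ∀ a b t : Fin n, t ∉ C → a ≠ t → b ≠ t → Delta_cyc a t b ∈ S := by
      intro a b t ht hat hbt
      obtain ⟨u, _, hu, _, _⟩ := Delta_pair (insert t (insert a (insert b C))) (by
        have h1 := Finset.card_insert_le t (insert a (insert b C))
        have h2 := Finset.card_insert_le a (insert b C)
        have h3 := Finset.card_insert_le b C
        omega)
      simp only [Finset.mem_insert, not_or] at hu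
      have ha := Delta_all hn hS (hE a) ht hu.2.2.2 hat (Ne.symm hu.1)
      have hb := Delta_all hn hS (hE b) ht hu.2.2.2 hbt (Ne.symm hu.1)
      have h := S.mul_mem ha (S.inv_mem hb)
      rw [Delta_cyc_mul] at h
      exact h
    have h3 : ∀ a b c : Fin n, a ≠ b → a ≠ c → b ≠ c → Delta_cyc a c b ∈ S := by
      intro a b c hab hac hbc
      obtain ⟨u, _, hu, _, _⟩ := Delta_pair (insert c (insert a (insert b C))) (by
        have h1 := Finset.card_insert_le c (insert a (insert b C))
        have h2 := Finset.card_insert_le a (insert b C)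
        have h3 := Finset.card_insert_le b C
        omega)
      simp only [Finset.mem_insert, not_or] at hu
      have ha : Delta_cyc a c u ∈ S := by
        rw [Delta_cyc_rot hac (Ne.symm hu.2.1)]
        exact h2 c a u hu.2.2.2 (Ne.symm hu.1) (Ne.symm hu.2.1)
      have hb : Delta_cyc b c u ∈ S := by
        rw [Delta_cyc_rot hbc (Ne.symm hu.2.2.1)]
        exact h2 c b u hu.2.2.2 (Ne.symm hu.1) (Ne.symm hu.2.2.1)
      have h := S.mul_mem ha (S.inv_mem hb)
      rw [Delta_cyc_mul] at h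
      exact h
    refine le_antisymm hS' ?_
    rw [← Equiv.Perm.closure_three_cycles_eq_alternating, Subgroup.closure_le]
    intro g hg
    have hg3 : g.IsThreeCycle := hg
    have hne : g.support.Nonempty := by
      rw [← Finset.card_pos, hg3.card_support]
      norm_num
    obtain ⟨a, ha⟩ := hne
    have h4 := hg3.eq_swap_mul_swap_iff_mem_support.2 ha
    have h5 := hg3.nodup_iff_mem_support.2 ha
    simp only [List.nodup_cons, List.mem_cons, List.not_mem_nil, or_false, not_or,
      not_false_eq_true, List.nodup_nil, and_true] at h5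
    have h6 := h3 a (g (g a)) (g a) h5.1.2 h5.1.1 (Ne.symm h5.2)
    change g ∈ S
    rw [h4]
    exact h6

end Pool.Agent.LFS
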