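import Mathlib

set_option autoImplicit false

/-!
MODULE FinCase (helper34, MP_cbf6a9): the finitary case.

G infinite simple with a faithful action by finitary permutations => a proper subgroup which is
not residually finite. PROOF.
(a) G acts nontrivially on some orbit, hence faithfully (simple) and the orbit is infinite (G is
    infinite). Restrict to it: G transitive, faithful, finitary on an infinite set S.
(b) For v in S let Phi(v) = {u : the orbit of u under the stabiliser G_v is finite}. Claim: Phi(v)
    is finite. Let A be a G-invariant relation on S with finite out-neighbourhoods A(v) (a finite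
    union of sets {(g v, g u) : g in G} with u in Phi(v)). The set R(v) of points reachable from v
    along A is finite: for w in A(v) take g_w with g_w v = w; if z is outside v and outside all the
    (finite) supports of the g_w then dist(v,z) = dist(g_w v, g_w z) = dist(w,z) for all w in A(v),
    so z is not reachable (dist(v,z) = 1 + min dist(w,z)). R(g v) = g R(v), all R(v) have the same
    size, u in R(v) => R(u) <= R(v) => R(u) = R(v). So the R(v) are finite blocks (a G-invariant
    equivalence relation with finite classes), and Phi(v) is the directed union of the R(v). So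
    being in Phi(v) is a G-invariant equivalence relation. If Phi(v) is infinite: every g fixes
    the class Phi(v) (otherwise it moves infinitely many points), so Phi(v) = S by transitivity.
    Take g <> 1: its support is finite, so contained in one class R(v) (enlarge A); then g fixes
    every class of R; the kernel of G on the classes of R is normal and nontrivial, so it is G,
    but G is transitive on the infinite set S and the classes are finite. Contradiction.
(c) K = pointwise stabiliser of the finite set Phi(v) (contains v; K <> G as S has two points). K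
    has finite index in G_v, so all its orbits outside Phi(v) are infinite.
(d) Let N be normal of finite index in K, x, y in K. Let A = supp x u supp y, finite, disjoint from
    Phi(v); N has infinite orbits on A. By B. H. Neumann's lemma (Mathlib:
    Subgroup.exists_finiteIndex_of_leftCoset_cover or similar in GroupTheory/CosetCover) there is
    n in N with n A disjoint from A (otherwise N is a finite union of cosets of stabilisers of
    points of A, all of infinite index). [x,n] = x * (n x^-1 n^-1) is in N, and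
    [[x,n],y] = [x,y] since n x^-1 n^-1 has support n(supp x), disjoint from the supports of x, y.
    So [x,y] is in N.
(e) K is not abelian: otherwise supp x is K-invariant and finite for x in K, so x = 1, K = 1,
    contradicting that K has infinite orbits on the nonempty set outside Phi(v).
-/

namespace Pool.Agent.LFS

open Equiv Pointwise

universe u v

/-- There is a path of length `n` from `x` to `y`. -/
def fcSteps {S : Type v} (A : S → S → Prop) : ℕ → S → S → Prop
  | 0, x, y => x = y
  | n + 1, x, y => ∃ w, A x w ∧ fcSteps A n w y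

theorem fcSteps_add {S : Type v} (A : S → S → Prop) (m n : ℕ) (x y z : S)
    (h1 : fcSteps A m x y) (h2 : fcSteps A n y z) : fcSteps A (m + n) x z := by
  induction m generalizing x with
  | zero =>
    have h3 : x = y := h1
    rw [h3, zero_add]
    exact h2
  | succ m ih =>
    obtain ⟨w, hw, h3⟩ := h1
    rw [Nat.succ_add]
    exact ⟨w, hw, ih w h3⟩

section Act

variable {G : Type u} [Group G] {S : Type v} [MulAction G S]

theorem fcSteps_smul (A : S → S → Prop) (hA : ∀ (g : G) x y, A x y → A (g • x) (g • y)) (g : G)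
    (n : ℕ) (x y : S) (h : fcSteps A n x y) : fcSteps A n (g • x) (g • y) := by
  induction n generalizing x with
  | zero =>
    have h3 : x = y := h
    rw [h3]
    rfl
  | succ n ih =>
    obtain ⟨w, hw, h3⟩ := h
    exact ⟨g • w, hA g _ _ hw, ih w h3⟩

theorem fc_reach_finite [MulAction.IsPretransitive G S]
    (hfin : ∀ g : G, {x : S | g • x ≠ x}.Finite) (A : S → S → Prop)
    (hA : ∀ (g : G) x y, A x y → A (g • x) (g • y)) (hout : ∀ x, {y | A x y}.Finite) (x : S) :
    {y | ∃ n, fcSteps A n x y}.Finite := by
  classical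
  choose c hc using fun w : S => MulAction.exists_smul_eq G x w
  have hF : ({x} ∪ ⋃ w ∈ {y | A x y}, {z : S | c w • z ≠ z}).Finite :=
    (Set.finite_singleton x).union ((hout x).biUnion (fun w _ => hfin (c w)))
  apply hF.subset
  intro y hy
  by_contra hn
  have hy' : ∃ n, fcSteps A n x y := hy
  have h1 := Nat.find_spec hy'
  have h2 := fun m (h : m < Nat.find hy') => Nat.find_min hy' h
  generalize Nat.find hy' = n at h1 h2
  cases n with
  | zero =>
    apply hn
    left
    exact h1.symm
  | succ m =>
    obtain ⟨w, hw, h3⟩ := h1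
    have h4 : c w • y = y := by
      by_contra h5
      apply hn
      right
      simp only [Set.mem_iUnion]
      exact ⟨w, hw, h5⟩
    apply h2 m (Nat.lt_succ_self m)
    have h5 := fcSteps_smul A hA (c w)⁻¹ m w y h3
    have h6 : (c w)⁻¹ • w = x := by
      rw [inv_smul_eq_iff, hc]
    have h7 : (c w)⁻¹ • y = y := by
      rw [inv_smul_eq_iff, h4]
    rw [h6, h7] at h5
    exact h5

theorem fc_reach_symm [MulAction.IsPretransitive G S]
    (hfin : ∀ g : G, {x : S | g • x ≠ x}.Finite) (A : S → S → Prop)
    (hA : ∀ (g : G) x y, A x y → A (g • x) (g • y)) (hout : ∀ x, {y | A x y}.Finite) (x y : S)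
    (h : ∃ n, fcSteps A n x y) : ∃ n, fcSteps A n y x := by
  have hf := fc_reach_finite hfin A hA hout
  have hle : ∀ (g : G) (z : S), {t | ∃ n, fcSteps A n z t}.ncard ≤
      {t | ∃ n, fcSteps A n (g • z) t}.ncard := by
    intro g z
    rw [← Set.ncard_image_of_injective _ (MulAction.injective g)]
    apply Set.ncard_le_ncard _ (hf _)
    rintro _ ⟨t, ⟨n, ht⟩, rfl⟩
    exact ⟨n, fcSteps_smul A hA g n z t ht⟩
  have hsub : {t | ∃ n, fcSteps A n y t} ⊆ {t | ∃ n, fcSteps A n x t} := by
    rintro t ⟨n, ht⟩
    obtain ⟨m, hm⟩ := h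
    exact ⟨m + n, fcSteps_add A m n x y t hm ht⟩
  obtain ⟨g, hg⟩ := MulAction.exists_smul_eq G x y
  have hcard := hle g x
  rw [hg] at hcard
  have heq := Set.eq_of_subset_of_ncard_le hsub hcard (hf x)
  have hx : x ∈ {t | ∃ n, fcSteps A n x t} := ⟨0, rfl⟩
  rw [← heq] at hx
  exact hx

/-- The orbit of `u` under the stabiliser of `v` is finite. -/
def fcE (G : Type u) [Group G] {S : Type v} [MulAction G S] (v u : S) : Prop :=
  (MulAction.orbit (MulAction.stabilizer G v) u).Finite

theorem fcE_of (R : S → S → Prop) (hR : ∀ (g : G) x y, R x y → R (g • x) (g • y)) (v u : S)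
    (hf : {y | R v y}.Finite) (h : R v u) : fcE G v u := by
  apply hf.subset
  rintro _ ⟨k, rfl⟩
  have h1 := hR (k : G) v u h
  have h2 : (k : G) • v = v := k.2
  rw [h2] at h1
  exact h1

theorem fcE_smul (g : G) (v u : S) (h : fcE G v u) : fcE G (g • v) (g • u) := by
  apply (h.image (fun x => g • x)).subset
  rintro _ ⟨k, rfl⟩
  refine ⟨(g⁻¹ * (k : G) * g) • u, ⟨⟨g⁻¹ * (k : G) * g, ?_⟩, rfl⟩, ?_⟩
  · rw [MulAction.mem_stabilizer_iff, mul_smul, mul_smul]
    have h2 : (k : G) • (g • v) = g • v := k.2
    rw [h2, inv_smul_smul]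
  · change g • ((g⁻¹ * (k : G) * g) • u) = (k : G) • (g • u)
    rw [← mul_smul, ← mul_smul]
    congr 1
    group

theorem fc_class [MulAction.IsPretransitive G S]
    (hfin : ∀ g : G, {x : S | g • x ≠ x}.Finite) (P : Set (S × S)) (hP : P.Finite)
    (hE : ∀ p ∈ P, fcE G p.1 p.2) :
    ∃ R : S → S → Prop, (∀ x, R x x) ∧ (∀ x y, R x y → R y x) ∧
      (∀ x y z, R x y → R y z → R x z) ∧ (∀ (g : G) x y, R x y → R (g • x) (g • y)) ∧
      (∀ x, {y | R x y}.Finite) ∧ ∀ p ∈ P, R p.1 p.2 := by
  let A : S → S → Prop := fun x y => ∃ p ∈ P, ∃ g : G, g • p.1 = x ∧ g • p.2 = y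
  have hA : ∀ (g : G) x y, A x y → A (g • x) (g • y) := by
    rintro g x y ⟨p, hp, k, h1, h2⟩
    refine ⟨p, hp, g * k, ?_, ?_⟩
    · rw [mul_smul, h1]
    · rw [mul_smul, h2]
  have hout : ∀ x, {y | A x y}.Finite := by
    intro x
    have hU : (⋃ p ∈ P, {y : S | ∃ g : G, g • p.1 = x ∧ g • p.2 = y}).Finite := by
      apply hP.biUnion
      intro p hp
      by_cases hx : ∃ k : G, k • p.1 = x
      · obtain ⟨k, hk⟩ := hx
        apply ((hE p hp).image (fun z => k • z)).subset
        rintro y ⟨g, h1, h2⟩
        refine ⟨(k⁻¹ * g) • p.2, ⟨⟨k⁻¹ * g, ?_⟩, rfl⟩, ?_⟩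
        · rw [MulAction.mem_stabilizer_iff, mul_smul, h1, ← hk, inv_smul_smul]
        · change k • ((k⁻¹ * g) • p.2) = y
          rw [← mul_smul, mul_inv_cancel_left, h2]
      · convert! Set.finite_empty
        ext y
        simp only [Set.mem_ofPred_eq, Set.mem_empty_iff_false, iff_false]
        rintro ⟨g, h1, -⟩
        exact hx ⟨g, h1⟩
    apply hU.subset
    rintro y ⟨p, hp, g, h⟩
    simp only [Set.mem_iUnion]
    exact ⟨p, hp, g, h⟩
  refine ⟨fun x y => ∃ n, fcSteps A n x y, fun x => ⟨0, rfl⟩, fc_reach_symm hfin A hA hout, ?_,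
    ?_, fc_reach_finite hfin A hA hout, ?_⟩
  · rintro x y z ⟨m, hm⟩ ⟨n, hn⟩
    exact ⟨m + n, fcSteps_add A m n x y z hm hn⟩
  · rintro g x y ⟨n, hn⟩
    exact ⟨n, fcSteps_smul A hA g n x y hn⟩
  · intro p hp
    exact ⟨1, p.2, ⟨p, hp, 1, one_smul _ _, one_smul _ _⟩, rfl⟩

theorem fcE_symm [MulAction.IsPretransitive G S]
    (hfin : ∀ g : G, {x : S | g • x ≠ x}.Finite) (x y : S) (h : fcE G x y) : fcE G y x := by
  obtain ⟨R, -, h2, -, h4, h5, h6⟩ := fc_class hfin {(x, y)} (Set.finite_singleton _) (by
    intro p hp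
    rw [Set.mem_singleton_iff] at hp
    rw [hp]
    exact h)
  exact fcE_of R h4 y x (h5 y) (h2 _ _ (h6 (x, y) rfl))

theorem fcE_trans [MulAction.IsPretransitive G S]
    (hfin : ∀ g : G, {x : S | g • x ≠ x}.Finite) (x y z : S) (h : fcE G x y) (h' : fcE G y z) :
    fcE G x z := by
  obtain ⟨R, -, -, h3, h4, h5, h6⟩ := fc_class hfin {(x, y), (y, z)} (Set.toFinite _) (by
    intro p hp
    rcases hp with hp | hp
    · rw [hp]
      exact h
    · rw [hp]
      exact h')
  exact fcE_of R h4 x z (h5 x) (h3 _ _ _ (h6 (x, y) (by simp)) (h6 (y, z) (by simp)))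

theorem fc_phi_finite [IsSimpleGroup G] [Infinite S] [MulAction.IsPretransitive G S]
    [FaithfulSMul G S] (hfin : ∀ g : G, {x : S | g • x ≠ x}.Finite) (v : S) :
    {u | fcE G v u}.Finite := by
  by_contra hv
  have hinf : ∀ x : S, {u : S | fcE G x u}.Infinite := by
    intro x hx
    apply hv
    obtain ⟨g, hg⟩ := MulAction.exists_smul_eq G v x
    apply (Set.Finite.image (fun z : S => g⁻¹ • z) hx).subset
    intro u hu
    refine ⟨g • u, ?_, inv_smul_smul g u⟩
    have := fcE_smul g v u hu
    rw [hg] at this
    exact this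
  have hall : ∀ x y : S, fcE G x y := by
    intro x y
    obtain ⟨g, hg⟩ := MulAction.exists_smul_eq G x y
    obtain ⟨u, hu, hu2⟩ := (hinf x).exists_notMem_finite (hfin g)
    have h1 : g • u = u := by
      by_contra h
      exact hu2 h
    have h2 := fcE_smul g x u hu
    rw [h1, hg] at h2
    exact fcE_trans hfin x u y hu (fcE_symm hfin y u h2)
  obtain ⟨g, hg⟩ := exists_ne (1 : G)
  obtain ⟨R, h1, h2, h3, h4, h5, h6⟩ := fc_class hfin ({x : S | g • x ≠ x} ×ˢ {x : S | g • x ≠ x})
    ((hfin g).prod (hfin g)) (fun p _ => hall p.1 p.2)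
  let N : Subgroup G :=
    { carrier := {h | ∀ x, R x (h • x)}
      mul_mem' := by
        intro a b ha hb x
        rw [mul_smul]
        exact h3 _ _ _ (hb x) (ha (b • x))
      one_mem' := by
        intro x
        rw [one_smul]
        exact h1 x
      inv_mem' := by
        intro a ha x
        have := ha (a⁻¹ • x)
        rw [smul_inv_smul] at this
        exact h2 _ _ this }
  have hN : N.Normal := by
    constructor
    intro a ha k x
    have := h4 k _ _ (ha (k⁻¹ • x))
    rw [smul_inv_smul, ← mul_smul, ← mul_smul] at this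
    exact this
  have hgN : g ∈ N := by
    intro x
    by_cases hx : g • x = x
    · rw [hx]
      exact h1 x
    · apply h6 (x, g • x)
      refine ⟨hx, ?_⟩
      intro h
      exact hx (MulAction.injective g h)
  rcases hN.eq_bot_or_eq_top with h | h
  · rw [h, Subgroup.mem_bot] at hgN
    exact hg hgN
  · have hfu : (Set.univ : Set S).Finite := by
      apply (h5 v).subset
      intro y _
      obtain ⟨k, hk⟩ := MulAction.exists_smul_eq G v y
      have hk2 : k ∈ N := by
        rw [h]
        exact Subgroup.mem_top k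
      have := hk2 v
      rw [hk] at this
      exact this
    exact Set.infinite_univ hfu

theorem fc_orbit (H : Subgroup G) (u : S) :
    (MulAction.orbit H u).Finite ↔ (MulAction.stabilizer G u).relIndex H ≠ 0 := by
  have h1 : (MulAction.stabilizer G u).subgroupOf H = MulAction.stabilizer H u := by
    ext k
    rfl
  rw [Subgroup.relIndex, h1, MulAction.index_stabilizer]
  constructor
  · intro h
    exact Set.ncard_ne_zero_of_mem (MulAction.mem_orbit_self u) h
  · intro h
    exact Set.finite_of_ncard_ne_zero h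

theorem fc_neumann (H : Subgroup G) (A : Set S) (hA : A.Finite)
    (hinf : ∀ a ∈ A, ¬ (MulAction.orbit H a).Finite) : ∃ n ∈ H, ∀ a ∈ A, n • a ∉ A := by
  classical
  by_contra hcon
  push Not at hcon
  let s : Finset (S × S) := hA.toFinset ×ˢ hA.toFinset
  let g : S × S → H := fun p => if h : ∃ n : H, n • p.1 = p.2 then h.choose else 1
  have hg : ∀ p : S × S, (∃ n : H, n • p.1 = p.2) → g p • p.1 = p.2 := by
    intro p h
    simp only [g, dif_pos h]
    exact h.choose_spec
  have hcov : ⋃ p ∈ s, g p • ((MulAction.stabilizer H p.1 : Subgroup H) : Set H) = Set.univ := by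
    rw [Set.eq_univ_iff_forall]
    intro n
    obtain ⟨a, ha, hb⟩ := hcon n n.2
    simp only [Set.mem_iUnion]
    refine ⟨(a, (n : G) • a), ?_, ?_⟩
    · simp only [s, Finset.mem_product, Set.Finite.mem_toFinset]
      exact ⟨ha, hb⟩
    · rw [mem_leftCoset_iff]
      change (g (a, (n : G) • a))⁻¹ * n ∈ MulAction.stabilizer H a
      rw [MulAction.mem_stabilizer_iff, mul_smul, inv_smul_eq_iff]
      exact (hg (a, (n : G) • a) ⟨n, rfl⟩).symm
  obtain ⟨p, hp, hfi⟩ := Subgroup.exists_finiteIndex_of_leftCoset_cover hcov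
  simp only [s, Finset.mem_product, Set.Finite.mem_toFinset] at hp
  apply hinf p.1 hp.1
  have := hfi.index_ne_zero
  rw [MulAction.index_stabilizer] at this
  exact Set.finite_of_ncard_ne_zero this

theorem fc_trans [IsSimpleGroup G] [Infinite S] [MulAction.IsPretransitive G S]
    [FaithfulSMul G S] (hfin : ∀ g : G, {x : S | g • x ≠ x}.Finite) :
    ∃ K : Subgroup G, K ≠ ⊤ ∧ ∃ k : K, k ≠ 1 ∧
      ∀ N : Subgroup K, N.Normal → N.FiniteIndex → k ∈ N := by
  classical
  obtain ⟨v⟩ : Nonempty S := inferInstance
  have hphi := fc_phi_finite hfin v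
  have hvv : fcE G v v := by
    apply (Set.finite_singleton v).subset
    rintro _ ⟨k, rfl⟩
    exact k.2
  have hfinite : Finite {u | fcE G v u} := hphi
  let K : Subgroup G := ⨅ u : {u | fcE G v u}, MulAction.stabilizer G (u : S)
  have hKmem : ∀ k ∈ K, ∀ u, fcE G v u → k • u = u := by
    intro k hk u hu
    rw [Subgroup.mem_iInf] at hk
    exact hk ⟨u, hu⟩
  have hKrel : K.relIndex (MulAction.stabilizer G v) ≠ 0 := by
    apply Subgroup.relIndex_iInf_ne_zero
    intro u
    rw [← fc_orbit]
    exact u.2
  have hKorb : ∀ u, ¬ fcE G v u → ¬ (MulAction.orbit K u).Finite := by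
    intro u hu h
    apply hu
    rw [fc_orbit] at h
    rw [fcE, fc_orbit]
    exact Subgroup.relIndex_ne_zero_trans h hKrel
  have hsupp : ∀ k ∈ K, ∀ a : S, k • a ≠ a → ¬ fcE G v a := fun k hk a ha h => ha (hKmem k hk a h)
  -- the commutators
  have hcomm : ∀ (x y : K) (N : Subgroup K), N.Normal → N.FiniteIndex →
      x * y * x⁻¹ * y⁻¹ ∈ N := by
    intro x y N hN hfi
    let N' : Subgroup G := N.map K.subtype
    have hN'rel : N'.relIndex K ≠ 0 := by
      rw [Subgroup.relIndex, Subgroup.subgroupOf,
        Subgroup.comap_map_eq_self_of_injective K.subtype_injective]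
      exact hfi.index_ne_zero
    have hN'orb : ∀ u, ¬ fcE G v u → ¬ (MulAction.orbit N' u).Finite := by
      intro u hu h
      apply hKorb u hu
      rw [fc_orbit] at h ⊢
      exact Subgroup.relIndex_ne_zero_trans h hN'rel
    obtain ⟨_, ⟨n, hn, rfl⟩, hdis⟩ := fc_neumann N' ({a : S | (x : G) • a ≠ a} ∪
      {a : S | (y : G) • a ≠ a}) ((hfin x).union (hfin y)) (by
        rintro a (ha | ha)
        · exact hN'orb a (hsupp x x.2 a ha)
        · exact hN'orb a (hsupp y y.2 a ha))
    change ∀ a ∈ _, (n : G) • a ∉ _ at hdis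
    -- z = n x^-1 n^-1 commutes with y
    have hz : ∀ a : S, ((n * x⁻¹ * n⁻¹ : K) : G) • a ≠ a → (y : G) • a = a := by
      intro a ha
      by_contra hya
      have h1 : (x : G) • ((n : G)⁻¹ • a) ≠ (n : G)⁻¹ • a := by
        intro h2
        apply ha
        have h3 : (x : G)⁻¹ • ((n : G)⁻¹ • a) = (n : G)⁻¹ • a := by
          rw [inv_smul_eq_iff, h2]
        change ((n : G) * (x : G)⁻¹ * (n : G)⁻¹) • a = a
        rw [mul_smul, mul_smul, h3, smul_inv_smul]
      have h4 := hdis ((n : G)⁻¹ • a) (Or.inl h1)
      rw [smul_inv_smul] at h4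
      exact h4 (Or.inr hya)
    have hcz : (n * x⁻¹ * n⁻¹) * y = y * (n * x⁻¹ * n⁻¹) := by
      apply Subtype.ext
      apply FaithfulSMul.eq_of_smul_eq_smul (α := S)
      intro a
      change (((n * x⁻¹ * n⁻¹ : K) : G) * (y : G)) • a = ((y : G) * ((n * x⁻¹ * n⁻¹ : K) : G)) • a
      generalize hz' : n * x⁻¹ * n⁻¹ = z at hz
      rw [mul_smul, mul_smul]
      by_cases hya : (y : G) • a = a
      · rw [hya]
        by_cases hza : (z : G) • a = a
        · rw [hza, hya]
        · symm
          apply hz
          intro h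
          exact hza (MulAction.injective (z : G) h)
      · have h1 : (z : G) • a = a := by
          by_contra h
          exact hya (hz a h)
        rw [h1]
        by_contra h
        have h2 := hz _ h
        exact hya (MulAction.injective (y : G) h2)
    have hc : x * (n * x⁻¹ * n⁻¹) ∈ N := by
      have h1 := hN.conj_mem n hn x
      have h2 := N.mul_mem h1 (N.inv_mem hn)
      convert! h2 using 1
      group
    have h3 := N.mul_mem hc (hN.conj_mem _ (N.inv_mem hc) y)
    convert! h3 using 1
    calc x * y * x⁻¹ * y⁻¹ = x * (y * (n * x⁻¹ * n⁻¹)) * (n * x⁻¹ * n⁻¹)⁻¹ * x⁻¹ * y⁻¹ := by group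
      _ = x * ((n * x⁻¹ * n⁻¹) * y) * (n * x⁻¹ * n⁻¹)⁻¹ * x⁻¹ * y⁻¹ := by rw [hcz]
      _ = _ := by group
  -- K is not abelian
  have hnon : ∃ x y : K, x * y * x⁻¹ * y⁻¹ ≠ 1 := by
    by_contra hab
    push Not at hab
    have hab' : ∀ x y : K, x * y = y * x := by
      intro x y
      have := hab x y
      rwa [mul_inv_eq_one, mul_inv_eq_iff_eq_mul] at this
    have htriv : ∀ x : K, ∀ a : S, (x : G) • a = a := by
      intro x a
      by_contra hxa
      apply hKorb a (hsupp x x.2 a hxa)
      apply (hfin x).subset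
      rintro _ ⟨k, rfl⟩
      change (x : G) • ((k : G) • a) ≠ (k : G) • a
      rw [← mul_smul]
      have h1 : (x : G) * (k : G) = (k : G) * (x : G) := congrArg Subtype.val (hab' x k)
      rw [h1, mul_smul]
      intro h2
      exact hxa (MulAction.injective (k : G) h2)
    obtain ⟨a, ha⟩ := hphi.exists_notMem
    apply hKorb a ha
    apply (Set.finite_singleton a).subset
    rintro _ ⟨k, rfl⟩
    exact htriv k a
  obtain ⟨x, y, hxy⟩ := hnon
  refine ⟨K, ?_, x * y * x⁻¹ * y⁻¹, hxy, fun N hN hfi => hcomm x y N hN hfi⟩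
  intro hK
  have : (Set.univ : Set S).Finite := by
    apply (Set.finite_singleton v).subset
    intro y _
    obtain ⟨k, hk⟩ := MulAction.exists_smul_eq G v y
    have hkK : k ∈ K := by
      rw [hK]
      exact Subgroup.mem_top k
    have := hKmem k hkK v hvv
    rw [hk] at this
    exact this
  exact Set.infinite_univ this

end Act

theorem finitary_main {G : Type u} [Group G] [Infinite G] [IsSimpleGroup G] {Λ : Type v}
    (α : G →* Perm Λ) (hα : Function.Injective α) (hfin : ∀ g, {x | α g x ≠ x}.Finite) :
    ∃ K : Subgroup G, K ≠ ⊤ ∧ ∃ k : K, k ≠ 1 ∧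
      ∀ N : Subgroup K, N.Normal → N.FiniteIndex → k ∈ N := by
  classical
  let _ : MulAction G Λ := MulAction.compHom Λ α
  have hsm : ∀ (g : G) (x : Λ), g • x = α g x := fun _ _ => rfl
  obtain ⟨g₀, hg₀⟩ := exists_ne (1 : G)
  have hx0 : ∃ x₀ : Λ, g₀ • x₀ ≠ x₀ := by
    by_contra h
    push Not at h
    apply hg₀
    apply hα
    rw [map_one]
    ext x
    exact h x
  obtain ⟨x₀, hx₀⟩ := hx0
  let β : G →* Perm (MulAction.orbit G x₀) := MulAction.toPermHom G (MulAction.orbit G x₀)
  have hβ : Function.Injective β := by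
    rw [← MonoidHom.ker_eq_bot_iff]
    rcases (inferInstance : β.ker.Normal).eq_bot_or_eq_top with h | h
    · exact h
    · exfalso
      have h1 : g₀ ∈ β.ker := by
        rw [h]
        exact Subgroup.mem_top _
      rw [MonoidHom.mem_ker] at h1
      have h2 := congrArg (fun e : Perm (MulAction.orbit G x₀) =>
        ((e ⟨x₀, MulAction.mem_orbit_self x₀⟩ : MulAction.orbit G x₀) : Λ)) h1
      exact hx₀ h2
  have hinfO : Infinite (MulAction.orbit G x₀) := by
    by_contra h
    rw [not_infinite_iff_finite] at h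
    have : Finite G := Finite.of_injective β hβ
    exact not_finite G
  have hfaith : FaithfulSMul G (MulAction.orbit G x₀) := by
    constructor
    intro a b h
    apply hβ
    ext x
    exact congrArg Subtype.val (h x)
  apply fc_trans (G := G) (S := MulAction.orbit G x₀)
  intro g
  apply Set.Finite.of_finite_image (f := Subtype.val) _ Subtype.val_injective.injOn
  apply (hfin g).subset
  rintro _ ⟨x, hx, rfl⟩
  intro h
  apply hx
  apply Subtype.ext
  exact h

end Pool.Agent.LFS
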