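import Mathlib
import Pool.Agent.LFS.Cfg

set_option autoImplicit false

/-!
MODULE Pos (helper34, MP_cbf6a9): positions.

PROOF. Let kk = number of pairs (i, d) in iota x D. Choose distinct representatives P(i,d) in Delta i
(possible: |Delta i| >= |iota| |D|; greedy or Hall as in choose_points in LFS/Cfg.lean). By choose_points
(LFS/Cfg.lean, with kappa = iota x {d <> 1}, T (i,d) = points moved by d, at least |D| (|iota||D|) of them)
choose points U(i,d) moved by d, lying in pairwise different D-orbits. Let V = union of the D-orbits of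
the U(i,d) (at most |D| |iota||D| points), W = union of the Delta i (at most |iota| c points). Define an
injection tau : W -> Fin n, P(i,d) |-> U(i,d) (d <> 1), all other points of W injectively to points outside V
(room: n >= |iota| c + |iota||D|^2 + 2). Extend to a permutation sigma, made even by a swap of two points
outside W before (see exists_even in LFS/Core.lean). For i and d <> 1 take p = P(i,d): rho d (sigma p) =
rho d U(i,d) is in the D-orbit of U(i,d), different from U(i,d), so it is not in sigma(W): the only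
point of sigma(W) in that orbit is U(i,d).
-/

namespace Pool.Agent.LFS

open Equiv

universe u v

theorem positions {D : Type u} [Group D] [Fintype D] {n : ℕ} (ρ : D →* Perm (Fin n))
    {ι : Type v} [Fintype ι] (Δ : ι → Finset (Fin n)) (c : ℕ)
    (hΔ : ∀ i, Fintype.card ι * Fintype.card D ≤ (Δ i).card) (hΔc : ∀ i, (Δ i).card ≤ c)
    (hmove : ∀ d : D, d ≠ 1 → Fintype.card D * (Fintype.card ι * Fintype.card D) ≤
      (Finset.univ.filter (fun p => ρ d p ≠ p)).card)
    (hn : Fintype.card ι * c + Fintype.card D * (Fintype.card ι * Fintype.card D) + 2 ≤ n) :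
    ∃ σ ∈ alternatingGroup (Fin n), ∀ d : D, d ≠ 1 → ∀ i, ∃ p ∈ Δ i, ∀ j, ∀ q ∈ Δ j,
      ρ d (σ p) ≠ σ q := by
  classical
  let κ := ι × {d : D // d ≠ 1}
  have hκ : Fintype.card κ ≤ Fintype.card ι * Fintype.card D := by
    rw [Fintype.card_prod]
    exact Nat.mul_le_mul le_rfl (Fintype.card_subtype_le _)
  obtain ⟨U, hUT, hU⟩ := choose_points ρ (κ := κ)
    (fun x => Finset.univ.filter (fun p => ρ (x.2 : D) p ≠ p)) (by
      intro x
      exact (Nat.mul_le_mul le_rfl hκ).trans (hmove _ x.2.2))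
  obtain ⟨P, hP, hPt⟩ :=
    (Finset.all_card_le_biUnion_card_iff_exists_injective (fun x : κ => Δ x.1)).1 (by
      intro s
      rcases s.eq_empty_or_nonempty with rfl | ⟨x, hx⟩
      · simp
      · exact (Finset.card_le_univ s).trans (hκ.trans ((hΔ x.1).trans
          (Finset.card_le_card (Finset.subset_biUnion_of_mem (fun x : κ => Δ x.1) hx)))))
  let V : Finset (Fin n) :=
    Finset.univ.biUnion (fun x : κ => Finset.univ.image (fun d : D => ρ d (U x)))
  have hVmem : ∀ x d, ρ d (U x) ∈ V := fun x d =>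
    Finset.mem_biUnion.2 ⟨x, Finset.mem_univ _, Finset.mem_image.2 ⟨d, Finset.mem_univ _, rfl⟩⟩
  have hV : V.card ≤ Fintype.card D * (Fintype.card ι * Fintype.card D) := by
    have h1 : V.card ≤ (Finset.univ : Finset κ).card * Fintype.card D :=
      Finset.card_biUnion_le_card_mul _ _ _ (fun x _ => Finset.card_image_le)
    rw [Finset.card_univ] at h1
    refine h1.trans ?_
    rw [mul_comm (Fintype.card κ)]
    exact Nat.mul_le_mul le_rfl hκ
  let W : Finset (Fin n) := Finset.univ.biUnion Δ
  have hW : W.card ≤ Fintype.card ι * c := by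
    have h1 : W.card ≤ (Finset.univ : Finset ι).card * c :=
      Finset.card_biUnion_le_card_mul _ _ _ (fun i _ => hΔc i)
    rwa [Finset.card_univ] at h1
  let A : Finset (Fin n) := Finset.univ.image P
  have hAW : ∀ x, P x ∈ W := fun x => Finset.mem_biUnion.2 ⟨x.1, Finset.mem_univ _, hPt x⟩
  have hA : ∀ x, P x ∈ A := fun x => Finset.mem_image.2 ⟨x, Finset.mem_univ _, rfl⟩
  obtain ⟨g⟩ : Nonempty (((W \ A : Finset (Fin n)) : Type) ↪ ((Vᶜ : Finset (Fin n)) : Type)) := by
    apply Function.Embedding.nonempty_of_card_le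
    rw [Fintype.card_coe, Fintype.card_coe, Finset.card_compl, Fintype.card_fin]
    have h1 : (W \ A).card ≤ W.card := Finset.card_le_card Finset.sdiff_subset
    omega
  have hg : ∀ w, ((g w : _) : Fin n) ∉ V := fun w => Finset.mem_compl.1 (g w).2
  have hw : ∀ w : ((W \ A : Finset (Fin n)) : Type), (w : Fin n) ∉ A := fun w =>
    (Finset.mem_sdiff.1 w.2).2
  have h1 : Function.Injective (Sum.elim P
      (fun w : ((W \ A : Finset (Fin n)) : Type) => (w : Fin n))) := by
    rintro (x | w) (y | z) h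
    · exact congrArg Sum.inl (hP h)
    · exfalso
      have h' : P x = (z : Fin n) := h
      exact hw z (h' ▸ hA x)
    · exfalso
      have h' : (w : Fin n) = P y := h
      exact hw w (h' ▸ hA y)
    · exact congrArg Sum.inr (Subtype.ext h)
  have hU1 : ∀ x, U x ∈ V := by
    intro x
    have h2 := hVmem x 1
    rw [map_one] at h2
    exact h2
  have h2 : Function.Injective (Sum.elim U
      (fun w : ((W \ A : Finset (Fin n)) : Type) => ((g w : _) : Fin n))) := by
    rintro (x | w) (y | z) h
    · have h' : U x = U y := h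
      refine congrArg Sum.inl (hU x y 1 ?_)
      rw [map_one]
      exact h'
    · exfalso
      have h' : U x = ((g z : _) : Fin n) := h
      exact hg z (h' ▸ hU1 x)
    · exfalso
      have h' : ((g w : _) : Fin n) = U y := h
      exact hg w (h' ▸ hU1 y)
    · have h' : ((g w : _) : Fin n) = ((g z : _) : Fin n) := h
      exact congrArg Sum.inr (g.injective (Subtype.ext h'))
  obtain ⟨τ, hτ⟩ := Equiv.Perm.exists_extending_pair _ _ h1 h2
  have hτP : ∀ x, τ (P x) = U x := fun x => hτ (Sum.inl x)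
  have hτW : ∀ q ∈ W, q ∉ A → τ q ∉ V := by
    intro q hq hqA
    have h3 : τ q = ((g ⟨q, Finset.mem_sdiff.2 ⟨hq, hqA⟩⟩ : _) : Fin n) :=
      hτ (Sum.inr ⟨q, Finset.mem_sdiff.2 ⟨hq, hqA⟩⟩)
    rw [h3]
    exact hg _
  obtain ⟨σ, hσ, hστ⟩ : ∃ σ ∈ alternatingGroup (Fin n), ∀ q ∈ W, σ q = τ q := by
    rcases Int.units_eq_one_or (Perm.sign τ) with hs | hs
    · exact ⟨τ, Perm.mem_alternatingGroup.2 hs, fun q _ => rfl⟩
    · have h3 : 1 < (Wᶜ : Finset (Fin n)).card := by
        rw [Finset.card_compl, Fintype.card_fin]; omega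
      obtain ⟨p, hp, q, hq, hpq⟩ := Finset.one_lt_card.1 h3
      refine ⟨τ * Equiv.swap p q, ?_, ?_⟩
      · rw [Perm.mem_alternatingGroup, map_mul, hs, Perm.sign_swap hpq]; rfl
      · intro r hr
        have hrp : r ≠ p := fun h => Finset.mem_compl.1 hp (h ▸ hr)
        have hrq : r ≠ q := fun h => Finset.mem_compl.1 hq (h ▸ hr)
        rw [Perm.mul_apply, Equiv.swap_apply_of_ne_of_ne hrp hrq]
  refine ⟨σ, hσ, ?_⟩
  intro d hd i
  refine ⟨P (i, ⟨d, hd⟩), hPt (i, ⟨d, hd⟩), ?_⟩
  intro j q hq h
  have hqW : q ∈ W := Finset.mem_biUnion.2 ⟨j, Finset.mem_univ _, hq⟩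
  rw [hστ _ (hAW _), hτP, hστ _ hqW] at h
  by_cases hqA : q ∈ A
  · obtain ⟨y, -, rfl⟩ := Finset.mem_image.1 hqA
    rw [hτP] at h
    have h3 := hU _ _ _ h
    rw [← h3] at h
    exact (Finset.mem_filter.1 (hUT (i, ⟨d, hd⟩))).2 h
  · apply hτW q hqW hqA
    rw [← h]
    exact hVmem _ _

end Pool.Agent.LFS
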