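import Mathlib

set_option autoImplicit false

/-!
Arithmetic for the separation lemma.
-/

namespace Pool.Agent.LFS

theorem sq_le_two_pow (m : ℕ) : m ^ 2 ≤ 40 * 2 ^ m := by
  induction m with
  | zero => simp
  | succ m ih =>
    rcases Nat.lt_or_ge m 3 with h | h
    · interval_cases m <;> norm_num
    · rw [pow_succ 2 m]
      nlinarith

theorem nine_le (m : ℕ) : 9 * m ≤ 5 * 2 ^ m := by
  induction m with
  | zero => simp
  | succ m ih =>
    rcases Nat.lt_or_ge m 2 with h | h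
    · interval_cases m <;> norm_num
    · rw [pow_succ 2 m]
      nlinarith

/-- the abelian case. -/
theorem ar_ab (q m c N : ℕ) (hq : 80 ≤ q) (hc : 1 ≤ c) (hN : 2 ≤ N) (hdvd : c ∣ N)
    (h : (c - 1) * (q + m) ≤ q * (N - 1)) (hm : 2 ^ m ≤ N) : c * (q + m) ≤ q * N := by
  obtain ⟨R, rfl⟩ := hdvd
  obtain ⟨c', rfl⟩ : ∃ c', c = c' + 1 := ⟨c - 1, by omega⟩
  rw [Nat.add_sub_cancel] at h
  have hR0 : 0 < R := by
    rcases Nat.eq_zero_or_pos R with h0 | h0
    · rw [h0] at hN; simp at hN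
    · exact h0
  rcases Nat.lt_or_ge R 2 with hR | hR
  · have hR1 : R = 1 := by omega
    subst hR1
    rw [mul_one] at h hN ⊢
    rw [Nat.add_sub_cancel] at h
    have hc' : 0 < c' := by omega
    have hm0 : m = 0 := by
      by_contra hne
      have : 0 < m := by omega
      nlinarith
    subst hm0
    rw [add_zero]
    exact (mul_comm _ _).le
  · by_contra hcon
    push Not at hcon
    have h1 : q * R < q + m := by
      by_contra h2
      push Not at h2
      nlinarith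
    -- c <= m
    have h2 : c' + 1 ≤ m := by
      have h3 : 1 ≤ (c' + 1) * R := Nat.mul_pos (by omega) hR0
      obtain ⟨N', hN'⟩ : ∃ N', (c' + 1) * R = N' + 1 := ⟨(c' + 1) * R - 1, by omega⟩
      rw [hN', Nat.add_sub_cancel] at h
      by_contra h4
      push Not at h4
      have h5 : q * R + 1 ≤ q + m := h1
      nlinarith
    have h3 : q < m := by nlinarith
    have h4 : (c' + 1) * R ≤ m * R := Nat.mul_le_mul_right _ h2
    have h5 : q * 2 ^ m ≤ q * (m * R) := Nat.mul_le_mul_left _ (hm.trans h4)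
    have h6 : q * (m * R) = m * (q * R) := by ring
    have h7 : m * (q * R) < m * (2 * m) := by
      apply Nat.mul_lt_mul_of_pos_left _ (by omega)
      omega
    have h8 := sq_le_two_pow m
    have h9 : 80 * 2 ^ m ≤ q * 2 ^ m := Nat.mul_le_mul_right _ hq
    nlinarith

/-- the nonabelian case. -/
theorem ar_na (p m u v x N : ℕ) (hp : 2 ≤ p) (hm : m ≤ 3 * u + 5 * (p * v))
    (h1 : x * 4 ^ u ≤ N) (h2 : x * 4 ^ v ≤ 3 ^ v * N) :
    x * (40 * p + m) ≤ 40 * p * N := by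
  have hv : ∀ v : ℕ, (8 + v) ^ 2 * 3 ^ v ≤ 64 * 4 ^ v := by
    intro v
    induction v with
    | zero => norm_num
    | succ v ih =>
      have h3 : (8 + (v + 1)) ^ 2 * 64 ≤ 81 * (8 + v) ^ 2 := by
        have h3' : (8 + (v + 1)) ^ 2 * 64 + (144 * v + 17 * v ^ 2) = 81 * (8 + v) ^ 2 := by ring
        omega
      have h4 : 0 < 3 ^ v := by positivity
      have h5 : (8 + (v + 1)) ^ 2 * 3 ^ (v + 1) * 64 ≤ 64 * 4 ^ (v + 1) * 64 := by
        calc (8 + (v + 1)) ^ 2 * 3 ^ (v + 1) * 64 = ((8 + (v + 1)) ^ 2 * 64) * (3 * 3 ^ v) := by ring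
          _ ≤ (81 * (8 + v) ^ 2) * (3 * 3 ^ v) := Nat.mul_le_mul_right _ h3
          _ = 243 * ((8 + v) ^ 2 * 3 ^ v) := by ring
          _ ≤ 243 * (64 * 4 ^ v) := Nat.mul_le_mul_left _ ih
          _ ≤ 256 * (64 * 4 ^ v) := Nat.mul_le_mul_right _ (by norm_num)
          _ = 64 * 4 ^ (v + 1) * 64 := by ring
      exact Nat.le_of_mul_le_mul_right h5 (by norm_num)
  have hu : 80 + 3 * u ≤ 80 * 2 ^ u := by
    have : u < 2 ^ u := Nat.lt_two_pow_self
    omega
  have h3 : 16 * (40 * p + m) ≤ p * ((80 + 3 * u) * (8 + v)) := by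
    have h4 : 16 * m ≤ 48 * u + 80 * (p * v) := by omega
    have h5 : 48 * u ≤ 24 * (p * u) := by nlinarith
    nlinarith [Nat.zero_le (p * (u * v))]
  have h4 : 40 * p + m ≤ 5 * p * (2 ^ u * (8 + v)) := by
    have h5 : p * ((80 + 3 * u) * (8 + v)) ≤ p * ((80 * 2 ^ u) * (8 + v)) :=
      Nat.mul_le_mul_left _ (Nat.mul_le_mul_right _ hu)
    have h6 : 16 * (40 * p + m) ≤ 16 * (5 * p * (2 ^ u * (8 + v))) := by
      refine (h3.trans h5).trans (le_of_eq ?_)
      ring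
    omega
  have h5 : (x * (40 * p + m)) ^ 2 * 3 ^ v ≤ (40 * p * N) ^ 2 * 3 ^ v := by
    calc (x * (40 * p + m)) ^ 2 * 3 ^ v ≤ (x * (5 * p * (2 ^ u * (8 + v)))) ^ 2 * 3 ^ v := by
          gcongr
      _ = x ^ 2 * (25 * p ^ 2 * (2 ^ u) ^ 2) * ((8 + v) ^ 2 * 3 ^ v) := by ring
      _ ≤ x ^ 2 * (25 * p ^ 2 * (2 ^ u) ^ 2) * (64 * 4 ^ v) := Nat.mul_le_mul_left _ (hv v)
      _ = (40 * p) ^ 2 * ((x * 4 ^ u) * (x * 4 ^ v)) := by
          have : (2 ^ u) ^ 2 = 4 ^ u := by rw [← pow_mul, mul_comm, pow_mul]; norm_num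
          rw [this]; ring
      _ ≤ (40 * p) ^ 2 * (N * (3 ^ v * N)) := Nat.mul_le_mul_left _ (Nat.mul_le_mul h1 h2)
      _ = (40 * p * N) ^ 2 * 3 ^ v := by ring
  have h6 : (x * (40 * p + m)) ^ 2 ≤ (40 * p * N) ^ 2 :=
    Nat.le_of_mul_le_mul_right h5 (by positivity)
  exact (Nat.pow_le_pow_iff_left (by norm_num)).1 h6

/-- the transitive case on the components. -/
theorem ar_alpha (p m₁ mv a F : ℕ) (hmv : p ≤ mv) (hF : F + mv = a)
    (h1 : F * (40 * p + m₁) ≤ 40 * p * a) (h2 : 2 ^ m₁ ≤ a) : m₁ ≤ 5 * mv := by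
  rcases Nat.lt_or_ge (5 * p) m₁ with h | h
  · have h3 : a * m₁ ≤ mv * (40 * p + m₁) := by
      rw [← hF] at h1 ⊢
      nlinarith
    have h4 : a ≤ 9 * mv := by
      have h5 : a * m₁ ≤ (9 * mv) * m₁ := by
        refine h3.trans ?_
        have : 40 * p + m₁ ≤ 9 * m₁ := by omega
        calc mv * (40 * p + m₁) ≤ mv * (9 * m₁) := Nat.mul_le_mul_left _ this
          _ = 9 * mv * m₁ := by ring
      exact Nat.le_of_mul_le_mul_right h5 (by omega)
    have h5 := nine_le m₁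
    omega
  · omega

/-- the block case. -/
theorem ar_block (q m mt x N : ℕ) (hq : 0 < q)
    (h : x * ((q + (m - mt)) * (q + mt)) ≤ (q * q) * N) : x * (q + m) ≤ q * N := by
  have h1 : q * (q + m) ≤ (q + (m - mt)) * (q + mt) := by
    rcases Nat.lt_or_ge m mt with h2 | h2
    · have h3 : m - mt = 0 := by omega
      rw [h3, add_zero]
      exact Nat.mul_le_mul_left _ (by omega)
    · obtain ⟨k, rfl⟩ : ∃ k, m = mt + k := ⟨m - mt, by omega⟩
      rw [Nat.add_sub_cancel_left]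
      nlinarith
  have h2 : q * (x * (q + m)) ≤ q * (q * N) := by
    calc q * (x * (q + m)) = x * (q * (q + m)) := by ring
      _ ≤ x * ((q + (m - mt)) * (q + mt)) := Nat.mul_le_mul_left _ h1
      _ ≤ (q * q) * N := h
      _ = q * (q * N) := by ring
  exact Nat.le_of_mul_le_mul_left h2 hq

end Pool.Agent.LFS
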