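import Mathlib
import Pool.Agent.LFS.C1
import Pool.Agent.LFS.Cnt
import Pool.Agent.LFS.QArith

set_option autoImplicit false

/-!
The quantitative separation lemma.
-/

namespace Pool.Agent.LFS

open Equiv

universe u v

section

variable {Γ : Type u} [Group Γ] {Ω : Type u}
variable {ρ : Γ →* Perm Ω} {f : Γ} {T : Subgroup Γ} {O : Set Ω} {A : Subgroup Γ}

theorem sum_fib {α β : Type*} [DecidableEq β] (s Y : Finset α) (g : α → β) (hY : Y ⊆ s) (a b : ℕ)
    (h : ∀ x ∈ s, (Y.filter (fun y => g y = g x)).card * a ≤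
      b * (s.filter (fun y => g y = g x)).card) : Y.card * a ≤ b * s.card := by
  classical
  have h1 : Y.card = ∑ c ∈ s.image g, (Y.filter (fun y => g y = c)).card :=
    Finset.card_eq_sum_card_fiberwise (fun x hx => Finset.mem_image_of_mem g (hY hx))
  have h2 : s.card = ∑ c ∈ s.image g, (s.filter (fun y => g y = c)).card :=
    Finset.card_eq_sum_card_fiberwise (fun x hx => Finset.mem_image_of_mem g hx)
  rw [h1, h2, Finset.sum_mul, Finset.mul_sum]
  apply Finset.sum_le_sum
  intro c hc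
  obtain ⟨x, hx, rfl⟩ := Finset.mem_image.1 hc
  exact h x hx

/-- orbit-stabiliser. -/
theorem card_blk [Finite Γ] (R : Subgroup Γ) (o : Ω) :
    Nat.card R = (blk ρ R o).ncard * Nat.card (kerO ρ R {o}) := by
  let act : MulAction R Ω := MulAction.compHom Ω (ρ.comp R.subtype)
  have hsm : ∀ (r : R) (x : Ω), r • x = ρ r x := fun r x => rfl
  have h1 : (MulAction.stabilizer R o).index = (MulAction.orbit R o).ncard :=
    MulAction.index_stabilizer R o
  have h2 : MulAction.orbit R o = blk ρ R o := by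
    ext x
    constructor
    · rintro ⟨r, rfl⟩
      exact ⟨r, r.2, rfl⟩
    · rintro ⟨n, hn, rfl⟩
      exact ⟨⟨n, hn⟩, rfl⟩
  have h3 : Nat.card (MulAction.stabilizer R o) = Nat.card (kerO ρ R {o}) := by
    apply Nat.card_congr
    exact
      { toFun := fun r => ⟨r.1, r.1.2, fun x hx => by
          rw [Set.mem_singleton_iff.1 hx]
          exact r.2⟩
        invFun := fun r => ⟨⟨r.1, r.2.1⟩, r.2.2 o rfl⟩
        left_inv := fun r => rfl
        right_inv := fun r => rfl }
  rw [← h2, ← h1, ← h3, mul_comm]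
  exact (Subgroup.card_mul_index _).symm

theorem mv_block_card [Finite Γ] [Finite Ω] {N : Subgroup Γ} (h : isOrb ρ T O) (hN : Nrm T N)
    (hNT : N ≤ T) (hf : Stb ρ f T O) (hfN : cj f N = N) {β : Set Ω} (hβ : β ∈ blks ρ N O) :
    {L ∈ LL ρ T O | cj f L ≠ L}.ncard ≤ {L ∈ LL (imP ρ) T (blks ρ N O) | cj f L ≠ L}.ncard +
      {L ∈ LL ρ (kb ρ T N O) β | cj f L ≠ L}.ncard := by
  have h1 : {L ∈ LL ρ T O | cj f L ≠ L} = {L ∈ LL ρ T O | kb ρ T N O ≤ L ∧ cj f L ≠ L} ∪
      {L ∈ LL ρ T O | ¬ kb ρ T N O ≤ L ∧ cj f L ≠ L} := by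
    ext L
    simp only [Set.mem_union, Set.mem_sep_iff]
    tauto
  rw [h1]
  refine (Set.ncard_union_le _ _).trans (Nat.add_le_add ?_ ?_)
  · apply Set.ncard_le_ncard _ (Set.toFinite _)
    rintro L ⟨hL, hC, hm⟩
    exact ⟨⟨hL.1, hC⟩, hm⟩
  · apply Set.ncard_le_ncard_of_injOn (fun L => L ⊓ kb ρ T N O) _ _ (Set.toFinite _)
    · rintro L ⟨hL, hC, hm⟩
      refine ⟨LL_kb h hN hL hC hβ hNT, ?_⟩
      intro heq
      rw [cj_inf, kb_cj hf.gr hfN hf.st] at heq
      exact hm (LL_inj (kerO_le _ _ _) (kb_nrm h hN) (hf.LL hL) hL hC heq)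
    · rintro L ⟨hL, hC, hm⟩ L' ⟨hL', hC', hm'⟩ heq
      exact LL_inj (kerO_le _ _ _) (kb_nrm h hN) hL hL' hC' heq

/-- the orbit of a moved point under an element of prime order. -/
theorem p_le_moved [Finite Γ] {p : ℕ} (hp : p.Prime) (hfp : f ^ p = 1) {I : Set (Subgroup Γ)}
    (hI : ∀ M ∈ I, cj f M ∈ I) {M : Subgroup Γ} (hM : M ∈ I) (hfM : cj f M ≠ M) :
    p ≤ {L ∈ I | cj f L ≠ L}.ncard := by
  have hIk : ∀ k : ℕ, cj (f ^ k) M ∈ I := by
    intro k
    induction k with
    | zero => rw [pow_zero, cj_one]; exact hM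
    | succ k ih => rw [pow_succ', cj_mul]; exact hI _ ih
  have hmk : ∀ k : ℕ, cj f (cj (f ^ k) M) ≠ cj (f ^ k) M := by
    intro k h
    apply hfM
    rw [← cj_mul, ← pow_succ', pow_succ, cj_mul] at h
    exact cj_inj h
  have hinj : ∀ i j : ℕ, i < j → j < p → cj (f ^ i) M ≠ cj (f ^ j) M := by
    intro i j hij hjp h
    obtain ⟨k, rfl⟩ : ∃ k, j = i + k := ⟨j - i, by omega⟩
    rw [pow_add, cj_mul] at h
    have h1 : cj (f ^ k) M = M := (cj_inj h).symm
    have hk : 0 < k := by omega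
    have hcop : Nat.Coprime k p := by
      rw [Nat.coprime_comm, hp.coprime_iff_not_dvd]
      exact fun hd => by have := Nat.le_of_dvd hk hd; omega
    apply hfM
    have h2 : f = (f ^ k) ^ (Nat.gcdA k p) := by
      have h3 := Nat.gcd_eq_gcd_ab k p
      rw [hcop.gcd_eq_one, Nat.cast_one] at h3
      have h4 : f ^ (1 : ℤ) = f ^ ((k : ℤ) * Nat.gcdA k p + (p : ℤ) * Nat.gcdB k p) := by
        rw [← h3]
      rw [zpow_one, zpow_add, zpow_mul, zpow_mul, zpow_natCast, zpow_natCast, hfp, one_zpow,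
        mul_one] at h4
      exact h4
    rw [h2]
    exact cj_zpow h1 _
  have h1 : (Set.range (fun k : Fin p => cj (f ^ (k : ℕ)) M)).ncard = p := by
    rw [← Nat.card_coe_set_eq, Nat.card_range_of_injective, Nat.card_eq_fintype_card,
      Fintype.card_fin]
    intro i j h
    by_contra hne
    rcases Nat.lt_or_ge (i : ℕ) (j : ℕ) with h2 | h2
    · exact hinj i j h2 j.2 h
    · have h3 : (j : ℕ) < i := by
        rcases Nat.lt_or_ge (j : ℕ) (i : ℕ) with h4 | h4
        · exact h4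
        · exact absurd (Fin.ext (le_antisymm h4 h2)) hne
      exact hinj j i h3 i.2 h.symm
  calc p = (Set.range (fun k : Fin p => cj (f ^ (k : ℕ)) M)).ncard := h1.symm
    _ ≤ _ := by
      apply Set.ncard_le_ncard _ (Set.toFinite _)
      rintro _ ⟨k, rfl⟩
      exact ⟨hIk k, hmk k⟩

/-- counting the quotients through the orbits on a set of subgroups. -/
theorem beta_count [Finite Γ] (hSch : SchG Γ) {I : Set (Subgroup Γ)}
    (hIT : ∀ t ∈ T, ∀ M ∈ I, cj t M ∈ I) (J : Set (Subgroup Γ))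
    (hJ : ∀ L ∈ J, NS T L ∧ kerO cjP T I ≤ L) : J.ncard ≤ I.ncard := by
  classical
  have hfI : I.Finite := Set.toFinite _
  have hsub : ∀ M ∈ I, blk cjP T M ⊆ I := by
    rintro M hM _ ⟨t, ht, rfl⟩
    exact hIT t ht M hM
  have h1 : J ⊆ ⋃ P ∈ hfI.toFinset.image (blk cjP T), LL cjP T P := by
    intro L hL
    obtain ⟨hNS, hk⟩ := hJ L hL
    obtain ⟨M, hM, h2⟩ := hNS.prime_fam hfI.toFinset (fun M => kerO cjP T (blk cjP T M))
      (fun M _ => kerO_le _ _ _)
      (fun M _ => kerO_nrm (Nrm.self T) (isOrb_blk cjP T M).inv) (by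
        intro a ha hb
        apply hk
        refine ⟨ha, fun M hM => ?_⟩
        exact (hb M (hfI.mem_toFinset.2 hM)).2 M (self_mem_blk _ _ _))
    rw [Set.mem_iUnion₂]
    exact ⟨blk cjP T M, Finset.mem_image_of_mem _ hM, hNS, h2⟩
  have h2 : ∀ P ∈ hfI.toFinset.image (blk cjP T), (LL cjP T P).ncard ≤ P.ncard := by
    intro P hP
    obtain ⟨M, hM, rfl⟩ := Finset.mem_image.1 hP
    have h3 := C1 hSch _ (Subgroup Γ) cjP T (blk cjP T M) le_rfl (isOrb_blk cjP T M)
    exact (Nat.lt_two_pow_self.trans_le h3).le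
  have h3 : J.ncard ≤ ∑ P ∈ hfI.toFinset.image (blk cjP T), (LL cjP T P).ncard := by
    refine (Set.ncard_le_ncard h1 (Set.toFinite _)).trans ?_
    exact Finset.set_ncard_biUnion_le _ _
  have h4 : I.ncard = ∑ P ∈ hfI.toFinset.image (blk cjP T), P.ncard := by
    rw [Set.ncard_eq_toFinset_card I hfI,
      Finset.card_eq_sum_card_fiberwise (t := hfI.toFinset.image (blk cjP T))
        (f := blk cjP T) (fun x hx => Finset.mem_image_of_mem _ hx)]
    apply Finset.sum_congr rfl
    intro P hP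
    obtain ⟨M, hM, rfl⟩ := Finset.mem_image.1 hP
    rw [← Set.ncard_coe_finset]
    congr 1
    ext L
    rw [Finset.coe_filter, Set.mem_ofPred_eq, hfI.mem_toFinset]
    constructor
    · rintro ⟨-, hL⟩
      rw [← hL]
      exact self_mem_blk _ _ _
    · intro hL
      exact ⟨hsub M (hfI.mem_toFinset.1 hM) hL, blk_eq hL⟩
  rw [h4]
  exact h3.trans (Finset.sum_le_sum h2)

end

theorem QSL {Γ : Type u} [Group Γ] [Finite Γ] (hSch : SchG Γ) (f : Γ) (p : ℕ)
    (hp : p.Prime) (hfp : f ^ p = 1) : ∀ (n : ℕ) (Ω : Type u) [Finite Ω] (ρ : Γ →* Perm Ω)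
    (T : Subgroup Γ) (O : Set Ω), O.ncard ≤ n → isOrb ρ T O → Stb ρ f T O →
    {o ∈ O | ρ f o = o}.ncard * (40 * p + {L ∈ LL ρ T O | cj f L ≠ L}.ncard) ≤
      40 * p * O.ncard := by
  classical
  intro n
  induction n with
  | zero =>
    intro Ω _ ρ T O hn hT
    exfalso
    have := (Set.ncard_pos (Set.toFinite O)).2 hT.ne
    omega
  | succ n ih =>
  intro Ω _ ρ T O hn hT hf
  have hp2 := hp.two_le
  have hFO : {o ∈ O | ρ f o = o}.ncard ≤ O.ncard :=
    Set.ncard_le_ncard (fun x hx => hx.1) (Set.toFinite _)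
  rcases Set.eq_empty_or_nonempty {L ∈ LL ρ T O | cj f L ≠ L} with he | ⟨L₀, hL₀, hmL₀⟩
  · rw [he, Set.ncard_empty, add_zero, mul_comm]
    exact Nat.mul_le_mul_left _ hFO
  rcases Set.eq_empty_or_nonempty {o ∈ O | ρ f o = o} with he | ⟨o, ho, hfo⟩
  · rw [he, Set.ncard_empty, zero_mul]
    exact Nat.zero_le _
  obtain ⟨A, hA⟩ := exists_minA hf (fun h => hL₀.1.not_le (h.trans hL₀.2))
  by_cases htr : isOrb ρ A O
  swap
  · -- blocks
    have htop := ih (Set Ω) (imP ρ) T (blks ρ A O)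
      (by have := blks_lt hT hA.nrm hA.le hA.act; omega) (isOrb_blks hT hA.nrm)
      (stb_blks hf hA.fix)
    obtain ⟨mt, hmt⟩ : ∃ mt, mt = {L ∈ LL (imP ρ) T (blks ρ A O) | cj f L ≠ L}.ncard := ⟨_, rfl⟩
    obtain ⟨m, hm⟩ : ∃ m, m = {L ∈ LL ρ T O | cj f L ≠ L}.ncard := ⟨_, rfl⟩
    rw [← hmt] at htop
    rw [← hm]
    have hbot : ∀ β ∈ blks ρ A O, imP ρ f β = β →
        {o ∈ β | ρ f o = o}.ncard * (40 * p + (m - mt)) ≤ 40 * p * β.ncard := by
      intro β hβ hfβ
      have h1 := ih Ω ρ (kb ρ T A O) β (by have := blk_lt hT hA.le htr hβ; omega)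
        (isOrb_kb hA.le hβ) (stb_kb hf hA.fix hfβ)
      have h2 := mv_block_card hT hA.nrm hA.le hf hA.fix hβ
      rw [← hm, ← hmt] at h2
      refine le_trans (Nat.mul_le_mul_left _ ?_) h1
      omega
    have h1 := block_fix hT hA.nrm hA.le hA.fix (40 * p + (m - mt)) (40 * p) (40 * p + mt)
      (40 * p) (by omega) hbot htop
    exact ar_block (40 * p) m mt _ _ (by omega) h1
  have h2O := hA.two_le hT
  by_cases hab : ∀ a ∈ A, ∀ b ∈ A, a * b * a⁻¹ * b⁻¹ ∈ kerO ρ T O
  · -- abelian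
    let Z := kerO ρ T O
    let T₀ := kerO ρ T {o}
    have hfT₀ : cj f T₀ = T₀ := cj_kerO hf.gr (by
      intro y
      rw [Set.mem_singleton_iff, Set.mem_singleton_iff]
      constructor
      · intro hy
        rw [← hfo] at hy
        exact (ρ f).injective hy
      · rintro rfl
        exact hfo)
    have hsub : ∀ x ∈ O, x ≠ o → blk ρ T₀ x ⊆ O \ {o} := by
      rintro x hx hxo _ ⟨s, hs, rfl⟩
      refine ⟨hT.inv s hs.1 x hx, ?_⟩
      intro hc
      have h1 : ρ s o = o := hs.2 o rfl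
      have h2 : ρ s x = o := hc
      rw [← h1] at h2
      exact hxo ((ρ s).injective h2)
    have hOo : (O \ {o}).ncard = O.ncard - 1 := Set.ncard_sdiff_singleton_of_mem ho
    have hlt : ∀ x ∈ O, x ≠ o → (blk ρ T₀ x).ncard < O.ncard := by
      intro x hx hxo
      refine lt_of_le_of_lt (Set.ncard_le_ncard (hsub x hx hxo) (Set.toFinite _)) ?_
      rw [hOo]
      omega
    have hfinO : (O \ {o}).Finite := Set.toFinite _
    have hfinF : ({o ∈ O | ρ f o = o} \ {o}).Finite := Set.toFinite _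
    have hsum := sum_fib (s := hfinO.toFinset) (Y := hfinF.toFinset) (blk ρ T₀) (by
        intro x hx
        rw [hfinF.mem_toFinset] at hx
        rw [hfinO.mem_toFinset]
        exact ⟨hx.1.1, hx.2⟩) (40 * p + {L ∈ LL ρ T O | cj f L ≠ L}.ncard) (40 * p) (by
        intro x hx
        rw [hfinO.mem_toFinset] at hx
        have hxO : x ∈ O := hx.1
        have hxo : x ≠ o := hx.2
        have hs : (hfinO.toFinset.filter (fun y => blk ρ T₀ y = blk ρ T₀ x)).card =
            (blk ρ T₀ x).ncard := by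
          rw [← Set.ncard_coe_finset]
          congr 1
          ext y
          rw [Finset.coe_filter, Set.mem_ofPred_eq, hfinO.mem_toFinset]
          constructor
          · rintro ⟨-, hy⟩
            rw [← hy]
            exact self_mem_blk _ _ _
          · intro hy
            exact ⟨hsub x hxO hxo hy, blk_eq hy⟩
        have hY : (hfinF.toFinset.filter (fun y => blk ρ T₀ y = blk ρ T₀ x)).card =
            {y ∈ blk ρ T₀ x | ρ f y = y}.ncard := by
          rw [← Set.ncard_coe_finset]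
          congr 1
          ext y
          rw [Finset.coe_filter, Set.mem_ofPred_eq, hfinF.mem_toFinset]
          constructor
          · rintro ⟨hy1, hy⟩
            refine ⟨?_, hy1.1.2⟩
            rw [← hy]
            exact self_mem_blk _ _ _
          · rintro ⟨hy, hfy⟩
            have h1 := hsub x hxO hxo hy
            exact ⟨⟨⟨h1.1, hfy⟩, h1.2⟩, blk_eq hy⟩
        rw [hs, hY]
        rcases Set.eq_empty_or_nonempty {y ∈ blk ρ T₀ x | ρ f y = y} with he | ⟨y, hy, hfy⟩
        · rw [he, Set.ncard_empty, zero_mul]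
          exact Nat.zero_le _
        · rw [← blk_eq hy]
          have hyO := hsub x hxO hxo hy
          have hyb : ρ f y ∈ blk ρ T₀ y := by rw [hfy]; exact self_mem_blk _ _ _
          have h1 := ih Ω ρ T₀ (blk ρ T₀ y) (by have := hlt y hyO.1 hyO.2; omega)
            (isOrb_blk _ _ _) (stb_blk hfT₀ hyb)
          refine le_trans (Nat.mul_le_mul_left _ (Nat.add_le_add_left ?_ _)) h1
          apply Set.ncard_le_ncard_of_injOn (fun L => L ⊓ T₀) _ _ (Set.toFinite _)
          · rintro L ⟨hL, hm⟩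
            refine ⟨hA.ab_LL hf hT htr hab ho hfo hyO.1 hyO.2 hyb hL, ?_⟩
            intro heq
            rw [cj_inf, hfT₀] at heq
            exact hm (hA.ab_inj hT htr hab ho (hf.LL hL) hL heq)
          · rintro L ⟨hL, hm⟩ L' ⟨hL', hm'⟩ heq
            exact hA.ab_inj hT htr hab ho hL hL' heq)
    have hFo : ({o ∈ O | ρ f o = o} \ {o}).ncard = {o ∈ O | ρ f o = o}.ncard - 1 :=
      Set.ncard_sdiff_singleton_of_mem ⟨ho, hfo⟩
    rw [← Set.ncard_eq_toFinset_card _ hfinF, ← Set.ncard_eq_toFinset_card _ hfinO, hFo, hOo]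
      at hsum
    -- divisibility
    have hZn : Nrm T Z := hT.ker_nrm
    let A' : Subgroup Γ :=
      { carrier := {a | a ∈ A ∧ a⁻¹ * (f * a * f⁻¹) ∈ Z}
        one_mem' := ⟨A.one_mem, by simp [Z.one_mem]⟩
        mul_mem' := by
          rintro a b ⟨ha, h1⟩ ⟨hb, h2⟩
          refine ⟨A.mul_mem ha hb, ?_⟩
          have h3 : (a * b)⁻¹ * (f * (a * b) * f⁻¹) =
              (b⁻¹ * (a⁻¹ * (f * a * f⁻¹)) * b) * (b⁻¹ * (f * b * f⁻¹)) := by group
          rw [h3]
          exact Z.mul_mem (hZn.inv (hA.le hb) h1) h2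
        inv_mem' := by
          rintro a ⟨ha, h1⟩
          refine ⟨A.inv_mem ha, ?_⟩
          have h3 : a⁻¹⁻¹ * (f * a⁻¹ * f⁻¹) = a * (a⁻¹ * (f * a * f⁻¹))⁻¹ * a⁻¹ := by group
          rw [h3]
          exact hZn a (hA.le ha) _ (Z.inv_mem h1) }
    have hA'A : A' ≤ A := fun a ha => ha.1
    have hfa : ∀ a ∈ A, f * a * f⁻¹ ∈ A := fun a ha => (hA.stbf hf).conj_mem ha
    have hact : ∀ a, ρ (f * a * f⁻¹) o = ρ f (ρ a o) := by
      intro a
      have := act_conj ρ f a o
      rwa [hfo] at this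
    have hblkA' : blk ρ A' o = {o ∈ O | ρ f o = o} := by
      ext x
      constructor
      · rintro ⟨a, ha, rfl⟩
        refine ⟨htr.inv a ha.1 o ho, ?_⟩
        rw [← hact]
        have h1 : f * a * f⁻¹ = a * (a⁻¹ * (f * a * f⁻¹)) := by group
        rw [h1, act_mul, ha.2.2 o ho]
      · rintro ⟨hx, hfx⟩
        obtain ⟨a, ha, rfl⟩ := htr.tr o ho x hx
        refine ⟨a, ⟨ha, ?_⟩, rfl⟩
        apply hA.ab_ker htr hab (A.mul_mem (A.inv_mem ha) (hfa a ha)) ho
        rw [act_mul, hact, hfx, act_inv_act]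
    have hblkA : blk ρ A o = O := (htr.eq_blk ho).symm
    have hst : kerO ρ A' {o} = kerO ρ A {o} := by
      ext a
      rw [mem_kerO, mem_kerO]
      constructor
      · rintro ⟨ha, h1⟩
        exact ⟨ha.1, h1⟩
      · rintro ⟨ha, h1⟩
        refine ⟨⟨ha, ?_⟩, h1⟩
        have h2 : a ∈ Z := hA.ab_ker htr hab ha ho (h1 o rfl)
        exact Z.mul_mem (Z.inv_mem h2) (by
          have h3 : f * a * f⁻¹ ∈ cj f Z := conj_mem_cj.2 h2
          rwa [hf.ker] at h3)
    have hdvd : {o ∈ O | ρ f o = o}.ncard ∣ O.ncard := by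
      have h1 := card_blk (ρ := ρ) A' o
      have h2 := card_blk (ρ := ρ) A o
      rw [hblkA', hst] at h1
      rw [hblkA] at h2
      have h3 : Nat.card A' ∣ Nat.card A := Subgroup.card_dvd_of_le hA'A
      rw [h1, h2] at h3
      exact Nat.dvd_of_mul_dvd_mul_right Nat.card_pos h3
    have hFpos : 1 ≤ {o ∈ O | ρ f o = o}.ncard := by
      have := (Set.ncard_pos (Set.toFinite {o ∈ O | ρ f o = o})).2 ⟨o, ho, hfo⟩
      omega
    apply ar_ab (40 * p) _ _ _ (by omega) hFpos h2O hdvd hsum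
    refine le_trans (Nat.pow_le_pow_right (by norm_num) ?_) (C1 hSch _ Ω ρ T O le_rfl hT)
    exact Set.ncard_le_ncard (fun L hL => hL.1) (Set.toFinite _)
  · -- nonabelian
    let W := cW hT A
    let I := LL ρ A O
    have hWT : W ≤ T := cW_le hT
    have hWn : Nrm T W := hA.cW_nrm hT
    have hWf : cj f W = W := hA.cW_fix hT hf
    have hIT : ∀ t ∈ T, ∀ M ∈ I, cj t M ∈ I := fun t ht M hM => (hA.stbT hT ht).LL hM
    have hIf : ∀ M ∈ I, cj f M ∈ I := fun M hM => (hA.stbf hf).LL hM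
    have hIf' : ∀ M, cj f M ∈ I ↔ M ∈ I := by
      intro M
      constructor
      · intro h
        have := (hA.stbf hf).inv.LL h
        rwa [cj_inv_cj] at this
      · exact hIf M
    -- semiregular part
    have hfW : {L ∈ LL ρ W O | cj f L ≠ L}.Finite := Set.toFinite _
    obtain ⟨S', hS'M, hS'd, hS'c⟩ := exists_third (cjP f) hfW.toFinset (by
      intro L hL
      exact (hfW.mem_toFinset.1 hL).2)
    have h1 := semi_fix (ρ := ρ) (O := O) hWf (cW_inv hT) (cW_semi hT htr) S'
      (fun L hL => (hfW.mem_toFinset.1 (hS'M hL)).1) hS'd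
    -- components
    have hfI : {L ∈ I | cj f L ≠ L}.Finite := Set.toFinite _
    have hπ : (cjP f) ^ p = 1 := by rw [← map_pow, hfp, map_one]
    obtain ⟨S, hSM, hSd, hSc⟩ := exists_transversal (cjP f) p hp.pos hπ hfI.toFinset
    have h2 := CL f _ Ω ρ A O le_rfl htr (hA.stbf hf) (hA.ss hf hT hab htr) S
      (fun L hL => (hfI.mem_toFinset.1 (hSM hL)).1)
      (fun L hL => (hfI.mem_toFinset.1 (hSM hL)).2) (by
        intro i hi j hj k hk
        apply hSd i hi j hj k
        rw [← map_zpow]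
        exact hk)
    rw [← Set.ncard_eq_toFinset_card _ hfW] at hS'c
    rw [← Set.ncard_eq_toFinset_card _ hfI] at hSc
    -- splitting
    have hsplit : {L ∈ LL ρ T O | cj f L ≠ L}.ncard ≤ {L ∈ LL ρ W O | cj f L ≠ L}.ncard +
        {L ∈ LL ρ T O | W ≤ L ∧ cj f L ≠ L}.ncard := by
      have h3 : {L ∈ LL ρ T O | cj f L ≠ L} = {L ∈ LL ρ T O | ¬ W ≤ L ∧ cj f L ≠ L} ∪
          {L ∈ LL ρ T O | W ≤ L ∧ cj f L ≠ L} := by
        ext L
        simp only [Set.mem_union, Set.mem_sep_iff]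
        tauto
      conv_lhs => rw [h3]
      refine (Set.ncard_union_le _ _).trans (Nat.add_le_add_right ?_ _)
      apply Set.ncard_le_ncard_of_injOn (fun L => L ⊓ W) _ _ (Set.toFinite _)
      · rintro L ⟨hL, hC, hm⟩
        refine ⟨LL_restrict hWT hWn hL hC, ?_⟩
        intro heq
        rw [cj_inf, hWf] at heq
        exact hm (LL_inj hWT hWn (hf.LL hL) hL hC heq)
      · rintro L ⟨hL, hC, hm⟩ L' ⟨hL', hC', hm'⟩ heq
        exact LL_inj hWT hWn hL hL' hC' heq
    -- the main estimate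
    have hmain : {L ∈ LL ρ T O | W ≤ L ∧ cj f L ≠ L}.ncard ≤ 5 * {L ∈ I | cj f L ≠ L}.ncard := by
      by_cases hα : ∃ M₀ ∈ I, ∃ t ∈ T, cj f M₀ = cj t M₀
      · obtain ⟨M₀, hM₀, t₀, ht₀, hft₀⟩ := hα
        have hΘ := (hA.all hf (blk cjP T M₀) (by
            rintro _ ⟨t, ht, rfl⟩
            exact hIT t ht M₀ hM₀) ⟨M₀, self_mem_blk _ _ _⟩
          (fun t ht L hL => (isOrb_blk cjP T M₀).inv t ht L hL) (by
            rintro _ ⟨t, ht, rfl⟩
            refine ⟨f * t * f⁻¹ * t₀, T.mul_mem (hf.conj_mem ht) ht₀, ?_⟩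
            change cj (f * t * f⁻¹ * t₀) M₀ = cj f (cj t M₀)
            rw [cj_mul, ← hft₀, ← cj_mul, ← cj_mul]
            congr 1
            group)).2
        have hIorb : isOrb cjP T I := by
          change isOrb cjP T (LL ρ A O)
          rw [← hΘ]
          exact isOrb_blk cjP T M₀
        have hstb : Stb cjP f T I := ⟨hf.gr, fun M => hIf' M⟩
        have hsubm : ∀ L ∈ {L ∈ LL ρ T O | W ≤ L ∧ cj f L ≠ L},
            L ∈ {L ∈ LL cjP T I | cj f L ≠ L} := by
          rintro L ⟨hL, hWL, hm⟩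
          refine ⟨?_, hm⟩
          apply hA.na_iii hSch hT hf htr hab hL _ hWL
          by_contra hAL
          have hLA : L ⊓ A ∈ I := LL_restrict hA.le hA.nrm hL hAL
          obtain ⟨t, ht, h3⟩ := hIorb.tr _ hLA _ (hIf _ hLA)
          have h4 : cj t (L ⊓ A) = L ⊓ A := by
            rw [cj_inf, hL.1.nrm.cj_eq ht, hA.nrm.cj_eq ht]
          have h5 : cj f (L ⊓ A) = L ⊓ A := by
            rw [← h3]; exact h4
          rw [cj_inf, hA.fix] at h5
          exact hm (LL_inj hA.le hA.nrm (hf.LL hL) hL hAL h5)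
        have hle : {L ∈ LL ρ T O | W ≤ L ∧ cj f L ≠ L}.ncard ≤
            {L ∈ LL cjP T I | cj f L ≠ L}.ncard := Set.ncard_le_ncard hsubm (Set.toFinite _)
        refine hle.trans ?_
        rcases Set.eq_empty_or_nonempty {L ∈ LL cjP T I | cj f L ≠ L} with he | ⟨L₁, hL₁, hmL₁⟩
        · rw [he, Set.ncard_empty]
          exact Nat.zero_le _
        have hIA := C1 hSch _ Ω ρ A O le_rfl htr
        have hIlt : I.ncard < O.ncard := lt_of_lt_of_le Nat.lt_two_pow_self hIA
        have hTI := ih (Subgroup Γ) cjP T I (by omega) hIorb hstb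
        have hTI2 := C1 hSch _ (Subgroup Γ) cjP T I le_rfl hIorb
        have hm1 : 2 ^ {L ∈ LL cjP T I | cj f L ≠ L}.ncard ≤ I.ncard :=
          le_trans (Nat.pow_le_pow_right (by norm_num)
            (Set.ncard_le_ncard (fun L hL => hL.1) (Set.toFinite _))) hTI2
        have hmvd : ∃ M ∈ I, cj f M ≠ M := by
          by_contra hb
          push Not at hb
          apply hmL₁
          apply cj_eq_of_le
          intro x hx
          rw [mem_cj] at hx
          have hxT : x ∈ T := by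
            have h3 := hf.conj_mem (hL₁.1.le hx)
            have h4 : f * (f⁻¹ * x * f) * f⁻¹ = x := by group
            rwa [h4] at h3
          have h3 : x * (f⁻¹ * x * f)⁻¹ ∈ kerO cjP T I := by
            refine ⟨T.mul_mem hxT (T.inv_mem (hL₁.1.le hx)), ?_⟩
            intro M hM
            change cj (x * (f⁻¹ * x * f)⁻¹) M = M
            have h4 : x * (f⁻¹ * x * f)⁻¹ = x * f⁻¹ * x⁻¹ * f := by group
            have hinv : ∀ N ∈ I, cj f⁻¹ N = N := by
              intro N hN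
              calc cj f⁻¹ N = cj f⁻¹ (cj f N) := by rw [hb N hN]
                _ = N := cj_inv_cj f N
            have h5 : cj x⁻¹ M ∈ I := hIT _ (T.inv_mem hxT) M hM
            rw [h4, cj_mul, hb M hM, cj_mul, cj_mul, hinv _ h5, cj_cj_inv]
          have h4 := L₁.mul_mem (hL₁.2 h3) hx
          rwa [inv_mul_cancel_right] at h4
        obtain ⟨M₁, hM₁, hmM₁⟩ := hmvd
        have hpm := p_le_moved hp hfp hIf hM₁ hmM₁
        have hsum : {L ∈ I | cjP f L = L}.ncard + {L ∈ I | cj f L ≠ L}.ncard = I.ncard := by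
          rw [← Set.ncard_union_eq _ (Set.toFinite _) (Set.toFinite _)]
          · congr 1
            ext L
            simp only [Set.mem_union, Set.mem_sep_iff, cjP_apply]
            tauto
          · rw [Set.disjoint_left]
            rintro L ⟨-, h3⟩ ⟨-, h4⟩
            exact h4 h3
        exact ar_alpha p _ _ I.ncard _ hpm hsum hTI hm1
      · push Not at hα
        have hmI : {L ∈ I | cj f L ≠ L} = I := by
          ext L
          constructor
          · exact fun h => h.1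
          · intro h
            refine ⟨h, ?_⟩
            have := hα L h 1 T.one_mem
            rwa [cj_one] at this
        rw [hmI]
        have hle : {L ∈ LL ρ T O | W ≤ L ∧ cj f L ≠ L}.ncard ≤ I.ncard := by
          by_cases hii : ∃ L₁ ∈ LL ρ T O, W ≤ L₁ ∧ ¬ A ≤ L₁
          · obtain ⟨L₁, hL₁, -, hAL₁⟩ := hii
            have hI := hA.na_ii hf hL₁ hAL₁
            have hker : T ≤ kerO cjP T I := by
              intro t ht
              refine ⟨ht, ?_⟩
              intro M hM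
              obtain ⟨k, rfl⟩ := hI M hM
              change cj t (cj (f ^ k) (L₁ ⊓ A)) = cj (f ^ k) (L₁ ⊓ A)
              have h3 : (f ^ k)⁻¹ * t * f ^ k ∈ T := by
                have := (hf.zpow k).inv.conj_mem ht
                rwa [inv_inv] at this
              have h4 : t * f ^ k = f ^ k * ((f ^ k)⁻¹ * t * f ^ k) := by group
              rw [← cj_mul, h4, cj_mul, cj_inf, hL₁.1.nrm.cj_eq h3, hA.nrm.cj_eq h3]
            apply Set.ncard_le_ncard_of_injOn (fun L => L ⊓ A) _ _ (Set.toFinite _)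
            · rintro L ⟨hL, hWL, hm⟩
              apply LL_restrict hA.le hA.nrm hL
              intro hAL
              have h3 := hA.na_iii hSch hT hf htr hab hL hAL hWL
              exact h3.1.not_le (hker.trans h3.2)
            · rintro L ⟨hL, hWL, hm⟩ L' ⟨hL', hWL', hm'⟩ heq
              apply LL_inj hA.le hA.nrm hL hL' _ heq
              intro hAL
              have h3 := hA.na_iii hSch hT hf htr hab hL' hAL hWL'
              exact h3.1.not_le (hker.trans h3.2)
          · push Not at hii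
            apply beta_count (T := T) hSch hIT
            rintro L ⟨hL, hWL, hm⟩
            exact hA.na_iii hSch hT hf htr hab hL (hii L hL hWL) hWL
        omega
    apply ar_na p _ S'.card S.card _ _ hp2 _ h1 h2
    have h3 : 5 * {L ∈ I | cj f L ≠ L}.ncard ≤ 5 * (p * S.card) := Nat.mul_le_mul_left _ hSc
    omega

end Pool.Agent.LFS
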