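import Mathlib
import Pool.Agent.LFS.QSL

set_option autoImplicit false

/-!
MODULE ThmZ (helper34, MP_cbf6a9). PROOF.
(1) V: a subgroup of T, V <> bot, cj g V = V for all g, minimal with these properties, and with
    C_T(V) = cm T V bot <= L. Existence: the family of all minimal ones; the intersection of the
    C_T(V) is normal in Gamma; if it is not bot it contains a minimal V, which is then abelian,
    contradicting hab; so the intersection is bot <= L and NS.prime_fam gives V with C_T(V) <= L.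
    V is perfect: if N <= V is V-normal with V/N abelian then the commutator subgroup of V, normal in
    Gamma, is bot (V abelian, contradiction) or V, so N = V. I = {M : NS V M} is not empty (exists_NS)
    and its intersection is Gamma-normal and not V, so trivial.
(2) Gamma permutes I (NS.cj). Case I: not kerO cjP T I <= L. Then not V <= L: otherwise sch_step
    (A := V, Z := bot) gives kerO cjP T I <= L. For w = cj h L: NS T w, not V <= w; M(w) = w meet V is in I
    (restrict_normal), injective (inj_normal), cj d (M w) = M (cj d w). hpos for J = {L}: the second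
    alternative is impossible (at most one element, 40 |D|^2 > 1), so there is h with cj d (cj h L) <> cj h L for
    all d <> 1 in D; i = M (cj h L) satisfies cj d i <> i for all 1 <> d in D.
(3) Case II: kerO cjP T I <= L. By prime_fam over the T-orbits O on I (blk cjP T i, i in I), some orbit O
    has kerO cjP T O <= L. J = {w : exists h, w = cj h L, and kerO cjP T O <= w}, contains L. hpos gives h; O' = cj h '' O
    is a T-orbit (T is normal) and cj h '' J = {w conjugate of L : kerO cjP T O' <= w}. If d in D has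
    cj d '' O' = O' then cj d fixes cj h '' J as a set, so for d <> 1 at least 40 |D|^2 elements of it, which
    all belong to LL cjP T O', are moved. For f in D of prime order p with cj f '' O' = O' QSL gives
    |Fix_O' f| (40 p + 40 |D|^2) <= 40 p |O'|, and p <= |D|, so |Fix| (1 + |D|) <= |O'|. Fewer than |D| such f:
    some i in O' is fixed by none of them. If 1 <> d in D, cj d i = i then d maps the T-orbit O' of i
    to itself, a power of d has prime order, contradiction. So cj d i <> i for all 1 <> d in D.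
(4) i in I with cj d i <> i for 1 <> d in D. Take t in V, t not in i. By crt_fam (T := V, family I) there is q in V
    with q^-1 (x t x^-1) in cj x i for x in X and q in M for all other M in I. For y in X, y q y^-1 has the same
    property, and the intersection of I is trivial, so y q y^-1 = q. g^-1 is not in X so q lies in cj g^-1 i, and
    g q g^-1 in i; but q is congruent to t modulo i, so not in i. So g q g^-1 <> q.
-/

namespace Pool.Agent.LFS

open Equiv

universe u v

section thmZ_aux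

variable {Γ : Type u} [Group Γ]

private theorem thmZ_nrm_bot (T : Subgroup Γ) : Nrm T (⊥ : Subgroup Γ) := by
  intro t _ n hn
  rw [Subgroup.mem_bot] at hn ⊢
  rw [hn]; group

private theorem thmZ_nrm {T V : Subgroup Γ} (hV : ∀ g, cj g V = V) : Nrm T V :=
  nrm_of_cj_eq (fun t _ => hV t)

/-- a subgroup given by a conjugation invariant condition. -/
private theorem thmZ_cj_eq {V : Subgroup Γ} (h : ∀ g, ∀ x ∈ V, g * x * g⁻¹ ∈ V) (g : Γ) :
    cj g V = V := by
  ext x
  rw [mem_cj]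
  constructor
  · intro hx
    have h1 := h g _ hx
    have h2 : g * (g⁻¹ * x * g) * g⁻¹ = x := by group
    rwa [h2] at h1
  · intro hx
    have h1 := h g⁻¹ x hx
    rwa [inv_inv] at h1

private theorem thmZ_conj_mem {V : Subgroup Γ} (h : ∀ g, cj g V = V) {g x : Γ} (hx : x ∈ V) :
    g * x * g⁻¹ ∈ V := by
  rw [← h g]
  exact conj_mem_cj.2 hx

/-- the minimal nontrivial `Γ`-normal subgroups of `T`. -/
private structure thmZMin (T V : Subgroup Γ) : Prop where
  le : V ≤ T
  cj : ∀ g, LFS.cj g V = V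
  ne : V ≠ ⊥
  min : ∀ W : Subgroup Γ, W ≤ V → (∀ g, LFS.cj g W = W) → W = ⊥ ∨ W = V

private theorem thmZ_exists_min [Finite Γ] {T C : Subgroup Γ} (hC : C ≤ T) (hCn : ∀ g, cj g C = C)
    (hne : C ≠ ⊥) : ∃ V, thmZMin T V ∧ V ≤ C := by
  classical
  let S : Set (Subgroup Γ) := {W | W ≤ C ∧ (∀ g, cj g W = W) ∧ W ≠ ⊥}
  have hS : S.Nonempty := ⟨C, le_rfl, hCn, hne⟩
  obtain ⟨V, hV⟩ := (Set.toFinite S).exists_minimal hS
  refine ⟨V, ⟨hV.1.1.trans hC, hV.1.2.1, hV.1.2.2, ?_⟩, hV.1.1⟩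
  intro W hWV hW
  by_cases h0 : W = ⊥
  · exact Or.inl h0
  · right
    exact le_antisymm hWV (hV.2 ⟨hWV.trans hV.1.1, hW, h0⟩ hWV)

private theorem thmZ_exists_V [Finite Γ] (T L : Subgroup Γ)
    (hT : ∀ g, cj g T = T) (hL : NS T L)
    (hab : ∀ N : Subgroup Γ, N ≤ T → (∀ g, cj g N = N) → (∀ a ∈ N, ∀ b ∈ N, a * b = b * a) →
      N = ⊥) : ∃ V, thmZMin T V ∧ cm T V ⊥ (thmZ_nrm_bot T) ≤ L := by
  classical
  let S : Set (Subgroup Γ) := {V | thmZMin T V}
  have hS : S.Finite := Set.toFinite S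
  obtain ⟨V, hV, h⟩ := hL.prime_fam hS.toFinset (fun V => cm T V ⊥ (thmZ_nrm_bot T))
    (fun V _ => cm_le _)
    (fun V hV => nrm_cm _ (Nrm.self T) (thmZ_nrm (hS.mem_toFinset.1 hV).cj) (thmZ_nrm_bot T)) (by
      intro a ha hb
      -- the intersection
      let C : Subgroup Γ :=
        { carrier := {x | x ∈ T ∧ ∀ V ∈ hS.toFinset, x ∈ cm T V ⊥ (thmZ_nrm_bot T)}
          one_mem' := ⟨T.one_mem, fun V _ => Subgroup.one_mem _⟩
          mul_mem' := fun {x y} hx hy => ⟨T.mul_mem hx.1 hy.1,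
            fun V hV => Subgroup.mul_mem _ (hx.2 V hV) (hy.2 V hV)⟩
          inv_mem' := fun {x} hx => ⟨T.inv_mem hx.1,
            fun V hV => Subgroup.inv_mem _ (hx.2 V hV)⟩ }
      have hCn : ∀ g, cj g C = C := by
        apply thmZ_cj_eq
        rintro g x ⟨hx1, hx2⟩
        refine ⟨thmZ_conj_mem hT hx1, ?_⟩
        intro V hV
        refine ⟨thmZ_conj_mem hT hx1, ?_⟩
        intro b hb
        have hVm := hS.mem_toFinset.1 hV
        have h1 : g⁻¹ * b * g ∈ V := by
          have := thmZ_conj_mem hVm.cj (g := g⁻¹) hb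
          rwa [inv_inv] at this
        have h2 := (hx2 V hV).2 _ h1
        rw [Subgroup.mem_bot] at h2 ⊢
        have h3 : g * x * g⁻¹ * b * (g * x * g⁻¹)⁻¹ * b⁻¹ =
          g * (x * (g⁻¹ * b * g) * x⁻¹ * (g⁻¹ * b * g)⁻¹) * g⁻¹ := by group
        rw [h3, h2]
        group
      have hC0 : C = ⊥ := by
        by_contra hne
        obtain ⟨V, hV, hVC⟩ := thmZ_exists_min (T := T) (C := C) (fun x hx => hx.1) hCn hne
        apply hV.ne
        apply hab V hV.le hV.cj
        intro x hx y hy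
        have h1 := (hVC hx).2 V (hS.mem_toFinset.2 hV)
        have h2 := h1.2 y hy
        rw [Subgroup.mem_bot] at h2
        have h3 : x * y = (x * y * x⁻¹ * y⁻¹) * (y * x) := by group
        rw [h3, h2, one_mul]
      have haC : a ∈ C := ⟨ha, hb⟩
      rw [hC0, Subgroup.mem_bot] at haC
      rw [haC]
      exact L.one_mem)
  exact ⟨V, hS.mem_toFinset.1 hV, h⟩

/-- `V` is perfect. -/
private theorem thmZ_perfect {T V : Subgroup Γ} (hV : thmZMin T V)
    (hab : ∀ N : Subgroup Γ, N ≤ T → (∀ g, cj g N = N) → (∀ a ∈ N, ∀ b ∈ N, a * b = b * a) →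
      N = ⊥) (M : Subgroup Γ) (_hM : Nrm V M) (hMV : M ≤ V)
    (hc : ∀ x ∈ V, ∀ y ∈ V, x * y * x⁻¹ * y⁻¹ ∈ M) : M = V := by
  have h1 : ∀ g, cj g ⁅V, V⁆ = ⁅V, V⁆ := by
    intro g
    have h2 : cj g ⁅V, V⁆ = ⁅cj g V, cj g V⁆ := Subgroup.map_commutator V V _
    rw [h2, hV.cj]
  have h2 : ⁅V, V⁆ ≤ M := by
    rw [Subgroup.commutator_le]
    intro x hx y hy
    exact hc x hx y hy
  rcases hV.min ⁅V, V⁆ (h2.trans hMV) h1 with h3 | h3
  · exfalso
    apply hV.ne
    apply hab V hV.le hV.cj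
    intro x hx y hy
    have h4 : x * y * x⁻¹ * y⁻¹ ∈ (⊥ : Subgroup Γ) := by
      rw [← h3]
      exact Subgroup.commutator_mem_commutator hx hy
    rw [Subgroup.mem_bot] at h4
    have h5 : x * y = (x * y * x⁻¹ * y⁻¹) * (y * x) := by group
    rw [h5, h4, one_mul]
  · apply le_antisymm hMV
    rw [← h3]
    exact h2

/-- the intersection of the maximal normal subgroups of `V` is trivial. -/
private theorem thmZ_inter [Finite Γ] {T V : Subgroup Γ} (hV : thmZMin T V)
    (hab : ∀ N : Subgroup Γ, N ≤ T → (∀ g, cj g N = N) → (∀ a ∈ N, ∀ b ∈ N, a * b = b * a) →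
      N = ⊥) (a : Γ) (ha : a ∈ V) (h : ∀ M, NS V M → a ∈ M) : a = 1 := by
  let C : Subgroup Γ :=
    { carrier := {x | x ∈ V ∧ ∀ M, NS V M → x ∈ M}
      one_mem' := ⟨V.one_mem, fun M _ => Subgroup.one_mem _⟩
      mul_mem' := fun {x y} hx hy => ⟨V.mul_mem hx.1 hy.1,
        fun M hM => Subgroup.mul_mem _ (hx.2 M hM) (hy.2 M hM)⟩
      inv_mem' := fun {x} hx => ⟨V.inv_mem hx.1,
        fun M hM => Subgroup.inv_mem _ (hx.2 M hM)⟩ }
  have hCn : ∀ g, cj g C = C := by
    apply thmZ_cj_eq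
    rintro g x ⟨hx1, hx2⟩
    refine ⟨thmZ_conj_mem hV.cj hx1, ?_⟩
    intro M hM
    have h1 := hM.cj g⁻¹
    rw [hV.cj] at h1
    have h2 := hx2 _ h1
    rw [mem_cj, inv_inv] at h2
    exact h2
  rcases hV.min C (fun x hx => hx.1) hCn with h1 | h1
  · have haC : a ∈ C := ⟨ha, h⟩
    rw [h1, Subgroup.mem_bot] at haC
    exact haC
  · exfalso
    obtain ⟨M, hM, -⟩ := exists_NS (T := V) (N := ⊥) bot_le (thmZ_nrm_bot V)
      (fun hc => hV.ne hc.symm) (thmZ_perfect hV hab)
    apply hM.not_le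
    intro x hx
    rw [← h1] at hx
    exact hx.2 M hM

/-- conjugating the kernel on `O`. -/
private theorem thmZ_cj_ker {T : Subgroup Γ} (hT : ∀ g, cj g T = T) (h : Γ)
    (O : Set (Subgroup Γ)) : cj h (kerO cjP T O) = kerO cjP T (cj h '' O) := by
  ext x
  rw [mem_cj, mem_kerO, mem_kerO]
  constructor
  · rintro ⟨h1, h2⟩
    refine ⟨?_, ?_⟩
    · rw [← hT h, mem_cj]; exact h1
    · rintro _ ⟨M, hM, rfl⟩
      have h3 := h2 M hM
      rw [cjP_apply, cj_mul, cj_mul] at h3
      rw [cjP_apply]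
      apply cj_inj (g := h⁻¹)
      rw [h3, cj_inv_cj]
  · rintro ⟨h1, h2⟩
    refine ⟨?_, ?_⟩
    · rw [← hT h, mem_cj] at h1; exact h1
    · intro M hM
      have h3 := h2 _ ⟨M, hM, rfl⟩
      rw [cjP_apply] at h3 ⊢
      rw [cj_mul, cj_mul, h3, cj_inv_cj]

/-- the element `q`. -/
private theorem thmZ_q [Finite Γ] {V : Subgroup Γ}
    (hcjV : ∀ g, cj g V = V) (hint : ∀ a ∈ V, (∀ M, NS V M → a ∈ M) → a = 1)
    (D X : Subgroup Γ) (hXD : X ≤ D) (g : Γ) (hgD : g ∈ D) (hgX : g ∉ X)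
    (i : Subgroup Γ) (hi : NS V i) (hDi : ∀ d ∈ D, d ≠ 1 → cj d i ≠ i) :
    ∃ q ∈ V, (∀ x ∈ X, q * x = x * q) ∧ q * g ≠ g * q := by
  classical
  obtain ⟨t, htV, hti⟩ : ∃ t ∈ V, t ∉ i := by
    by_contra hb
    push Not at hb
    exact hi.not_le hb
  have hfin : (Set.univ : Set (Subgroup Γ)).Finite := Set.toFinite _
  have hIf : {M | NS V M}.Finite := Set.toFinite _
  have huniq : ∀ x ∈ D, ∀ y ∈ D, cj x i = cj y i → x = y := by
    intro x hx y hy h
    by_contra hne
    apply hDi (y⁻¹ * x) (D.mul_mem (D.inv_mem hy) hx)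
    · intro hc
      apply hne
      rw [← mul_one y, ← hc, mul_inv_cancel_left]
    · rw [cj_mul, h, cj_inv_cj]
  have hNSc : ∀ x M, NS V M → NS V (cj x M) := by
    intro x M hM
    have := hM.cj x
    rwa [hcjV] at this
  let a : Subgroup Γ → Γ := fun M =>
    if h : ∃ x ∈ X, cj x i = M then h.choose * t * h.choose⁻¹ else 1
  have ha1 : ∀ x ∈ X, a (cj x i) = x * t * x⁻¹ := by
    intro x hx
    have h : ∃ y ∈ X, cj y i = cj x i := ⟨x, hx, rfl⟩
    have h1 : h.choose = x := huniq _ (hXD h.choose_spec.1) _ (hXD hx) h.choose_spec.2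
    change (if h : ∃ y ∈ X, cj y i = cj x i then h.choose * t * h.choose⁻¹ else 1) = _
    rw [dif_pos h, h1]
  have ha2 : ∀ M, (∀ x ∈ X, cj x i ≠ M) → a M = 1 := by
    intro M hM
    have h : ¬ ∃ x ∈ X, cj x i = M := by
      rintro ⟨x, hx, h⟩
      exact hM x hx h
    change (if h : ∃ y ∈ X, cj y i = M then h.choose * t * h.choose⁻¹ else 1) = _
    rw [dif_neg h]
  have ha3 : ∀ y ∈ X, ∀ M, a (cj y M) = y * a M * y⁻¹ := by
    intro y hy M
    by_cases h : ∃ x ∈ X, cj x i = M
    · obtain ⟨x, hx, rfl⟩ := h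
      rw [← cj_mul, ha1 _ (X.mul_mem hy hx), ha1 x hx]
      group
    · push Not at h
      rw [ha2 M h, ha2]
      · group
      · intro x hx hc
        apply h (y⁻¹ * x) (X.mul_mem (X.inv_mem hy) hx)
        rw [cj_mul, hc, cj_inv_cj]
  obtain ⟨q, hqV, hq⟩ := crt_fam (T := V) hIf.toFinset id
    (fun M hM => hIf.mem_toFinset.1 hM) (fun M _ N _ h => h) a (by
      intro M _
      by_cases h : ∃ x ∈ X, cj x i = M
      · obtain ⟨x, hx, rfl⟩ := h
        rw [ha1 x hx]
        exact thmZ_conj_mem hcjV htV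
      · push Not at h
        rw [ha2 M h]
        exact V.one_mem)
  have hq' : ∀ M, NS V M → q⁻¹ * a M ∈ M := fun M hM => hq M (hIf.mem_toFinset.2 hM)
  refine ⟨q, hqV, ?_, ?_⟩
  · intro y hy
    have h1 : (y * q * y⁻¹)⁻¹ * q = 1 := by
      apply hint
      · exact V.mul_mem (V.inv_mem (thmZ_conj_mem hcjV hqV)) hqV
      · intro M hM
        have h2 := hq' M hM
        have h3 := hq' _ (hNSc y⁻¹ M hM)
        rw [mem_cj, inv_inv, ha3 y⁻¹ (X.inv_mem hy) M] at h3
        have h4 : (y * q * y⁻¹)⁻¹ * q =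
          (y * (q⁻¹ * (y⁻¹ * a M * y⁻¹⁻¹)) * y⁻¹) * (q⁻¹ * a M)⁻¹ := by group
        rw [h4]
        exact M.mul_mem h3 (M.inv_mem h2)
    have h2 : q = y * q * y⁻¹ := by
      have := inv_mul_eq_one.1 h1
      exact this.symm
    calc q * y = (y * q * y⁻¹) * y := by rw [← h2]
      _ = y * q := by group
  · intro hc
    have hqi : q ∉ i := by
      intro hqi
      have h1 := hq' i hi
      have h2 := ha1 1 X.one_mem
      rw [cj_one] at h2
      rw [h2] at h1
      apply hti
      have h3 : t = q * (q⁻¹ * (1 * t * 1⁻¹)) := by group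
      rw [h3]
      exact i.mul_mem hqi h1
    apply hqi
    have h1 := hq' _ (hNSc g⁻¹ i hi)
    rw [ha2 _ (by
      intro x hx hc'
      have h2 := huniq _ (hXD hx) _ (D.inv_mem hgD) hc'
      apply hgX
      rw [← inv_inv g, ← h2]
      exact X.inv_mem hx), mul_one] at h1
    have h2 := Subgroup.inv_mem _ h1
    rw [inv_inv, mem_cj, inv_inv] at h2
    rwa [← hc, mul_inv_cancel_right] at h2

/-- the counting in case II. -/
private theorem thmZ_count [Finite Γ] (D : Subgroup Γ) (O : Set (Subgroup Γ)) (hO : O.Nonempty)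
    (h : ∀ f ∈ D, (orderOf f).Prime → {o ∈ O | cj f o = o}.ncard * (1 + Nat.card D) ≤ O.ncard) :
    ∃ i ∈ O, ∀ f ∈ D, (orderOf f).Prime → cj f i ≠ i := by
  classical
  have hfΓ := Fintype.ofFinite Γ
  by_contra hb
  push Not at hb
  let P : Finset Γ := Finset.univ.filter (fun f => f ∈ D ∧ (orderOf f).Prime)
  have hPc : P.card ≤ Nat.card D := by
    rw [← SetLike.coe_sort_coe, Nat.card_coe_set_eq, ← Set.ncard_coe_finset]
    apply Set.ncard_le_ncard _ (Set.toFinite _)
    intro x hx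
    simp only [P, Finset.coe_filter, Finset.mem_univ, true_and, Set.mem_ofPred_eq] at hx
    exact hx.1
  have h1 : O ⊆ ⋃ f ∈ P, {o ∈ O | cj f o = o} := by
    intro o ho
    obtain ⟨f, hf, hfp, hfo⟩ := hb o ho
    simp only [Set.mem_iUnion]
    exact ⟨f, by simp [P, hf, hfp], ho, hfo⟩
  have h2 : O.ncard ≤ ∑ f ∈ P, {o ∈ O | cj f o = o}.ncard := by
    refine le_trans (Set.ncard_le_ncard h1 (Set.toFinite _)) ?_
    exact Finset.set_ncard_biUnion_le P _
  have h3 : O.ncard * (1 + Nat.card D) ≤ Nat.card D * O.ncard := by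
    calc O.ncard * (1 + Nat.card D) ≤ (∑ f ∈ P, {o ∈ O | cj f o = o}.ncard) * (1 + Nat.card D) :=
          Nat.mul_le_mul_right _ h2
      _ = ∑ f ∈ P, {o ∈ O | cj f o = o}.ncard * (1 + Nat.card D) := Finset.sum_mul _ _ _
      _ ≤ ∑ _f ∈ P, O.ncard := Finset.sum_le_sum (fun f hf => by
          simp only [P, Finset.mem_filter, Finset.mem_univ, true_and] at hf
          exact h f hf.1 hf.2)
      _ = P.card * O.ncard := by rw [Finset.sum_const, smul_eq_mul]
      _ ≤ Nat.card D * O.ncard := Nat.mul_le_mul_right _ hPc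
  have h4 : 0 < O.ncard := (Set.ncard_pos (Set.toFinite _)).2 hO
  nlinarith

private theorem thmZ_pow {d : Γ} {i : Subgroup Γ} (h : cj d i = i) (k : ℕ) : cj (d ^ k) i = i := by
  induction k with
  | zero => rw [pow_zero, cj_one]
  | succ k ih => rw [pow_succ, cj_mul, h, ih]

/-- powers of prime order. -/
private theorem thmZ_prime [Finite Γ] (D : Subgroup Γ) (i : Subgroup Γ)
    (h : ∀ f ∈ D, (orderOf f).Prime → cj f i ≠ i) : ∀ d ∈ D, d ≠ 1 → cj d i ≠ i := by
  intro d hd hd1 hc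
  have h1 : orderOf d ≠ 1 := fun h => hd1 (orderOf_eq_one_iff.1 h)
  obtain ⟨p, hp, hpd⟩ := Nat.exists_prime_and_dvd h1
  have h2 : orderOf (d ^ (orderOf d / p)) = p :=
    orderOf_pow_orderOf_div (orderOf_pos d).ne' hpd
  exact h (d ^ (orderOf d / p)) (D.pow_mem hd _) (by rw [h2]; exact hp) (thmZ_pow hc _)

end thmZ_aux

theorem thmZ {Γ : Type u} [Group Γ] [Finite Γ] (hSch : SchG Γ) (T L : Subgroup Γ)
    (hT : ∀ g, cj g T = T) (hL : NS T L)
    (hab : ∀ N : Subgroup Γ, N ≤ T → (∀ g, cj g N = N) → (∀ a ∈ N, ∀ b ∈ N, a * b = b * a) →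
      N = ⊥)
    (D X : Subgroup Γ) (hXD : X ≤ D) (g : Γ) (hgD : g ∈ D) (hgX : g ∉ X)
    (hpos : ∀ J : Set (Subgroup Γ), J.Nonempty → (∀ ω ∈ J, ∃ h, cj h L = ω) →
      ∃ h : Γ, ∀ d ∈ D, d ≠ 1 → (cj d '' (cj h '' J) ≠ cj h '' J ∨
        40 * Nat.card D ^ 2 ≤ {ω ∈ cj h '' J | cj d ω ≠ ω}.ncard)) :
    ∃ q ∈ T, (∀ x ∈ X, q * x = x * q) ∧ q * g ≠ g * q := by
  classical
  obtain ⟨V, hV, hVL⟩ := thmZ_exists_V T L hT hL hab
  have hint := thmZ_inter hV hab
  have hDpos : 0 < Nat.card D := Nat.card_pos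
  suffices hi : ∃ i, NS V i ∧ ∀ d ∈ D, d ≠ 1 → cj d i ≠ i by
    obtain ⟨i, hi, hDi⟩ := hi
    obtain ⟨q, hq, h1, h2⟩ := thmZ_q hV.cj hint D X hXD g hgD hgX i hi hDi
    exact ⟨q, hV.le hq, h1, h2⟩
  have hVn : Nrm T V := thmZ_nrm hV.cj
  have hNSc : ∀ x M, NS V M → NS V (cj x M) := by
    intro x M hM
    have := hM.cj x
    rwa [hV.cj] at this
  by_cases hker : kerO cjP T {M | NS V M} ≤ L
  swap
  · -- Case I
    have hVL' : ¬ V ≤ L := by
      intro hle
      apply hker
      exact sch_step hSch hV.le hVn (thmZ_nrm_bot T) {M | NS V M} (fun M hM => hM)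
        (fun t _ M hM => hNSc t M hM) (fun a ha h => Subgroup.mem_bot.2 (hint a ha h)) hL hle hVL
    obtain ⟨h, hh⟩ := hpos {L} ⟨L, rfl⟩ (by
      rintro ω rfl
      exact ⟨1, cj_one _⟩)
    have hcj : NS T (cj h L) := by
      have := hL.cj h
      rwa [hT] at this
    have hVw : ¬ V ≤ cj h L := by
      intro hle
      apply hVL'
      rw [← hV.cj h] at hle
      exact cj_le_cj.1 hle
    refine ⟨cj h L ⊓ V, hcj.restrict_normal hV.le hVn hVw, ?_⟩
    intro d hd hd1 hc
    have hcj' : NS T (cj d (cj h L)) := by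
      have := hcj.cj d
      rwa [hT] at this
    rw [cj_inf, hV.cj] at hc
    have h1 : cj d (cj h L) = cj h L := by
      apply hcj'.inj_normal hcj hV.le hVn hVw
      rw [hc]
      exact inf_le_left
    rcases hh d hd hd1 with h2 | h2
    · apply h2
      rw [Set.image_singleton, Set.image_singleton, h1]
    · have h3 : {ω ∈ cj h '' {L} | cj d ω ≠ ω} = ∅ := by
        ext ω
        constructor
        · rintro ⟨h4, h5⟩
          rw [Set.image_singleton, Set.mem_singleton_iff] at h4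
          rw [h4] at h5
          exact h5 h1
        · intro h4
          exact h4.elim
      rw [h3, Set.ncard_empty] at h2
      have : 0 < Nat.card D ^ 2 := by positivity
      omega
  · -- Case II
    have hIf : {M | NS V M}.Finite := Set.toFinite _
    obtain ⟨i₀, hi₀, hi₀L⟩ := hL.prime_fam hIf.toFinset (fun i => kerO cjP T (blk cjP T i))
      (fun i _ => kerO_le _ _ _)
      (fun i _ => kerO_nrm (Nrm.self T) (isOrb_blk cjP T i).inv) (by
        intro a ha hb
        apply hker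
        refine ⟨ha, ?_⟩
        intro M hM
        exact (hb M (hIf.mem_toFinset.2 hM)).2 M (self_mem_blk _ _ _))
    have hi₀I : NS V i₀ := hIf.mem_toFinset.1 hi₀
    obtain ⟨h, hh⟩ := hpos {w | (∃ k, cj k L = w) ∧ kerO cjP T (blk cjP T i₀) ≤ w}
      ⟨L, ⟨1, cj_one _⟩, hi₀L⟩ (fun ω hω => hω.1)
    have hO' : cj h '' (blk cjP T i₀) = blk cjP T (cj h i₀) := imP_blk (ρ := cjP) (hT h) i₀
    have hJ' : cj h '' {w | (∃ k, cj k L = w) ∧ kerO cjP T (blk cjP T i₀) ≤ w} =
        {w | (∃ k, cj k L = w) ∧ kerO cjP T (blk cjP T (cj h i₀)) ≤ w} := by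
      rw [← hO', ← thmZ_cj_ker hT]
      ext w
      constructor
      · rintro ⟨w', ⟨⟨k, rfl⟩, h1⟩, rfl⟩
        exact ⟨⟨h * k, cj_mul h k L⟩, cj_mono h1⟩
      · rintro ⟨⟨k, rfl⟩, h1⟩
        refine ⟨cj h⁻¹ (cj k L), ⟨⟨h⁻¹ * k, cj_mul _ _ _⟩, ?_⟩, cj_cj_inv _ _⟩
        rw [← cj_le_cj (g := h), cj_cj_inv]
        exact h1
    have hOrb : isOrb cjP T (blk cjP T (cj h i₀)) := isOrb_blk cjP T _
    have hOI : ∀ i ∈ blk cjP T (cj h i₀), NS V i := by
      rintro _ ⟨t, ht, rfl⟩
      exact hNSc _ _ (hNSc _ _ hi₀I)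
    obtain ⟨i, hiO, hi⟩ := thmZ_count D (blk cjP T (cj h i₀)) hOrb.ne (by
      intro f hf hfp
      rcases Set.eq_empty_or_nonempty {o ∈ blk cjP T (cj h i₀) | cj f o = o} with he | ⟨o, ho, hfo⟩
      · rw [he, Set.ncard_empty, zero_mul]; exact Nat.zero_le _
      have hfO : cj f '' (blk cjP T (cj h i₀)) = blk cjP T (cj h i₀) := by
        rw [hOrb.eq_blk ho]
        have h1 : cj f '' (blk cjP T o) = blk cjP T (cj f o) := imP_blk (ρ := cjP) (hT f) o
        rw [h1, hfo]
      have hf1 : f ≠ 1 := by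
        intro h1
        rw [h1, orderOf_one] at hfp
        exact Nat.not_prime_one hfp
      have hStb : Stb cjP f T (blk cjP T (cj h i₀)) := by
        refine ⟨hT f, fun M => ?_⟩
        rw [cjP_apply]
        conv_lhs => rw [← hfO]
        constructor
        · rintro ⟨M', hM', h1⟩
          rwa [← cj_inj h1]
        · intro hM
          exact ⟨M, hM, rfl⟩
      have hm : 40 * Nat.card D ^ 2 ≤
          {L' ∈ LL cjP T (blk cjP T (cj h i₀)) | cj f L' ≠ L'}.ncard := by
        rcases hh f hf hf1 with h1 | h1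
        · exfalso
          apply h1
          rw [hJ']
          ext w
          constructor
          · rintro ⟨w', ⟨⟨k, rfl⟩, h2⟩, rfl⟩
            refine ⟨⟨f * k, cj_mul f k L⟩, ?_⟩
            have h3 := cj_mono (g := f) h2
            rwa [thmZ_cj_ker hT, hfO] at h3
          · rintro ⟨⟨k, rfl⟩, h2⟩
            refine ⟨cj f⁻¹ (cj k L), ⟨⟨f⁻¹ * k, cj_mul _ _ _⟩, ?_⟩, cj_cj_inv _ _⟩
            rw [← cj_le_cj (g := f), cj_cj_inv, thmZ_cj_ker hT, hfO]
            exact h2
        · refine le_trans h1 ?_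
          rw [hJ']
          apply Set.ncard_le_ncard _ (Set.toFinite _)
          rintro w ⟨⟨⟨k, rfl⟩, h2⟩, h3⟩
          refine ⟨⟨?_, h2⟩, h3⟩
          have := hL.cj k
          rwa [hT] at this
      have hq := QSL hSch f (orderOf f) hfp (pow_orderOf_eq_one f) _ (Subgroup Γ) cjP T
        (blk cjP T (cj h i₀)) le_rfl hOrb hStb
      have hq' : {o ∈ blk cjP T (cj h i₀) | cj f o = o}.ncard *
          (40 * orderOf f + {L' ∈ LL cjP T (blk cjP T (cj h i₀)) | cj f L' ≠ L'}.ncard) ≤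
          40 * orderOf f * (blk cjP T (cj h i₀)).ncard := hq
      have hpD : orderOf f ≤ Nat.card D := by
        have h1 : orderOf (⟨f, hf⟩ : D) = orderOf f := by
          rw [← Subgroup.orderOf_coe]
        rw [← h1]
        exact Nat.le_of_dvd hDpos (orderOf_dvd_natCard _)
      have hp0 : 0 < orderOf f := hfp.pos
      generalize {o ∈ blk cjP T (cj h i₀) | cj f o = o}.ncard = F at hq' ⊢
      generalize (blk cjP T (cj h i₀)).ncard = B at hq' ⊢
      generalize {L' ∈ LL cjP T (blk cjP T (cj h i₀)) | cj f L' ≠ L'}.ncard = m at hq' hm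
      generalize Nat.card D = c at *
      generalize orderOf f = p at *
      have h1 : F * (40 * p + 40 * c ^ 2) ≤ 40 * p * B :=
        le_trans (Nat.mul_le_mul_left _ (by omega)) hq'
      have h2 : 40 * p * (F * (1 + c)) ≤ 40 * p * B := by
        refine le_trans ?_ h1
        have h3 : F * (p * c) ≤ F * c ^ 2 := Nat.mul_le_mul_left _ (by nlinarith)
        nlinarith
      exact Nat.le_of_mul_le_mul_left h2 (by omega))
    exact ⟨i, hOI i hiO, thmZ_prime D i hi⟩

end Pool.Agent.LFS
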