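import Mathlib
import Pool.Agent.LFS.Core
import Pool.Agent.LFS.Orb

set_option autoImplicit false

/-!
Auxiliary lemmas for the module Top: subgroups of small index of alternating groups and lifting.
-/

namespace Pool.Agent.LFS

open Equiv

universe u v w

/-- an alternating group has no proper subgroup of index smaller than the degree. -/
theorem alt_eq_top {α : Type v} [Fintype α] [DecidableEq α] (h5 : 5 ≤ Fintype.card α)
    (S : Subgroup (alternatingGroup α)) (h : S.index < Fintype.card α) : S = ⊤ := by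
  classical
  have hsimple : IsSimpleGroup (alternatingGroup α) := alternatingGroup.isSimpleGroup (by
    rw [Nat.card_eq_fintype_card]; exact h5)
  let φ : alternatingGroup α →* Perm (alternatingGroup α ⧸ S) := MulAction.toPermHom _ _
  rcases hsimple.eq_bot_or_eq_top_of_normal φ.ker inferInstance with hb | ht
  · exfalso
    have hinj : Function.Injective φ := (MonoidHom.ker_eq_bot_iff φ).1 hb
    have h1 := Nat.card_le_card_of_injective φ hinj
    have h2 : Nontrivial α := by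
      rw [← Fintype.one_lt_card_iff_nontrivial]; omega
    have h3 : 2 * Nat.card (alternatingGroup α) = Nat.card (Perm α) :=
      two_mul_nat_card_alternatingGroup
    have h4 : Nat.card (Perm α) = (Fintype.card α).factorial := by
      rw [Nat.card_eq_fintype_card, Fintype.card_perm]
    have h5' : Nat.card (Perm (alternatingGroup α ⧸ S)) = S.index.factorial := by
      rw [Nat.card_perm]; rfl
    rw [h5'] at h1
    obtain ⟨k, hk⟩ : ∃ k, Fintype.card α = k + 5 := ⟨Fintype.card α - 5, by omega⟩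
    have h6 : S.index.factorial ≤ (k + 4).factorial := Nat.factorial_le (by omega)
    have h7 : (k + 5).factorial = (k + 5) * (k + 4).factorial := Nat.factorial_succ _
    have h8 : 1 ≤ (k + 4).factorial := Nat.factorial_pos _
    rw [hk] at h4
    nlinarith
  · rw [eq_top_iff]
    intro σ _
    have h1 : σ ∈ φ.ker := by rw [ht]; exact Subgroup.mem_top σ
    rw [MonoidHom.mem_ker] at h1
    have h2 := congrArg (fun p : Perm (alternatingGroup α ⧸ S) => p (QuotientGroup.mk 1)) h1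
    change (QuotientGroup.mk (σ * 1) : alternatingGroup α ⧸ S) = QuotientGroup.mk 1 at h2
    rw [mul_one, eq_comm, QuotientGroup.eq] at h2
    simpa using h2

/-- lifting through the stabiliser of one subgroup of a small invariant family. -/
theorem lift_stab {Γ : Type u} [Group Γ] {n : ℕ} (ψ : Γ →* Perm (Fin n)) {α : Type v}
    [Fintype α] [DecidableEq α] (h5 : 5 ≤ Fintype.card α)
    (θ : alternatingGroup α →* Perm (Fin n)) (R : Subgroup Γ) (hθ : ∀ σ, ∃ h ∈ R, ψ h = θ σ)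
    (F : Set (Subgroup Γ)) (hfin : F.Finite) (hR : ∀ h ∈ R, ∀ L ∈ F, cj h L ∈ F)
    (hcard : F.ncard < Fintype.card α) (L : Subgroup Γ) (hL : L ∈ F) (σ : alternatingGroup α) :
    ∃ h, cj h L = L ∧ ψ h = θ σ := by
  classical
  choose l hl1 hl2 using hθ
  let S : Subgroup (alternatingGroup α) :=
    { carrier := {σ | ∃ h, cj h L = L ∧ ψ h = θ σ}
      one_mem' := ⟨1, cj_one L, by rw [map_one, map_one]⟩
      mul_mem' := by
        rintro σ τ ⟨h, h1, h2⟩ ⟨k, k1, k2⟩
        exact ⟨h * k, by rw [cj_mul, k1, h1], by rw [map_mul, map_mul, h2, k2]⟩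
      inv_mem' := by
        rintro σ ⟨h, h1, h2⟩
        exact ⟨h⁻¹, by conv_lhs => rw [← h1]
                       exact cj_inv_cj h L, by rw [map_inv, map_inv, h2]⟩ }
  have hidx : S.index ≤ F.ncard := by
    have hFf : Finite F := hfin
    rw [← Nat.card_coe_set_eq, Subgroup.index]
    apply Nat.card_le_card_of_injective
      (fun q : alternatingGroup α ⧸ S => (⟨cj (l q.out) L, hR _ (hl1 _) L hL⟩ : F))
    intro p q hpq
    have h1 : cj (l p.out) L = cj (l q.out) L := congrArg Subtype.val hpq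
    rw [← QuotientGroup.out_eq' p, ← QuotientGroup.out_eq' q, QuotientGroup.eq]
    refine ⟨(l p.out)⁻¹ * l q.out, ?_, ?_⟩
    · rw [cj_mul, ← h1, cj_inv_cj]
    · rw [map_mul, map_inv, hl2, hl2, map_mul, map_inv]
  have htop := alt_eq_top h5 S (lt_of_le_of_lt hidx hcard)
  have : σ ∈ S := by rw [htop]; exact Subgroup.mem_top σ
  exact this

/-- a group with a large alternating quotient is sent to the image of the kernel by every
homomorphism to a small group. -/
theorem small_hom {Γ : Type u} [Group Γ] {n : ℕ} (ψ : Γ →* Perm (Fin n)) {α : Type v}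
    [Fintype α] [DecidableEq α] (h5 : 5 ≤ Fintype.card α)
    (θ : alternatingGroup α →* Perm (Fin n)) (Y R : Subgroup Γ) (hRY : R ≤ Y)
    (hRθ : ∀ h ∈ R, ∃ σ, ψ h = θ σ) (hθ : ∀ σ, ∃ h ∈ R, ψ h = θ σ) (hMR : ψ.ker ≤ R)
    {Q : Type w} [Group Q] [Finite Q] (f : Y →* Q) (hQ : Nat.card Q < Nat.card (alternatingGroup α))
    (h : Γ) (hh : h ∈ R) : ∃ m, ∃ hm : m ∈ ψ.ker, f ⟨h, hRY hh⟩ = f ⟨m, hRY (hMR hm)⟩ := by
  classical
  choose l hl1 hl2 using hθ
  let S : Subgroup (alternatingGroup α) :=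
    { carrier := {σ | ∃ h, ∃ hh : h ∈ R, ψ h = θ σ ∧ f ⟨h, hRY hh⟩ = 1}
      one_mem' := ⟨1, R.one_mem, by rw [map_one, map_one], map_one f⟩
      mul_mem' := by
        rintro σ τ ⟨h, hh, h1, h2⟩ ⟨k, hk, k1, k2⟩
        refine ⟨h * k, R.mul_mem hh hk, by rw [map_mul, map_mul, h1, k1], ?_⟩
        have h3 : (⟨h * k, hRY (R.mul_mem hh hk)⟩ : Y) = ⟨h, hRY hh⟩ * ⟨k, hRY hk⟩ := rfl
        rw [h3, map_mul, h2, k2, one_mul]
      inv_mem' := by
        rintro σ ⟨h, hh, h1, h2⟩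
        refine ⟨h⁻¹, R.inv_mem hh, by rw [map_inv, map_inv, h1], ?_⟩
        have h3 : (⟨h⁻¹, hRY (R.inv_mem hh)⟩ : Y) = ⟨h, hRY hh⟩⁻¹ := rfl
        rw [h3, map_inv, h2, inv_one] }
  have hSn : S.Normal := by
    refine ⟨?_⟩
    rintro σ ⟨h, hh, h1, h2⟩ τ
    refine ⟨l τ * h * (l τ)⁻¹, R.mul_mem (R.mul_mem (hl1 τ) hh) (R.inv_mem (hl1 τ)), ?_, ?_⟩
    · rw [map_mul, map_mul, map_inv, h1, hl2, map_mul, map_mul, map_inv]
    · have h3 : (⟨l τ * h * (l τ)⁻¹, hRY (R.mul_mem (R.mul_mem (hl1 τ) hh) (R.inv_mem (hl1 τ)))⟩ : Y)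
          = ⟨l τ, hRY (hl1 τ)⟩ * ⟨h, hRY hh⟩ * ⟨l τ, hRY (hl1 τ)⟩⁻¹ := rfl
      rw [h3, map_mul, map_mul, h2, map_inv]
      group
  have hsimple : IsSimpleGroup (alternatingGroup α) := alternatingGroup.isSimpleGroup (by
    rw [Nat.card_eq_fintype_card]; exact h5)
  rcases hsimple.eq_bot_or_eq_top_of_normal S hSn with hb | ht
  · exfalso
    have hinj : Function.Injective (fun σ : alternatingGroup α => f ⟨l σ, hRY (hl1 σ)⟩) := by
      intro σ τ hστ
      have hστ' : f ⟨l σ, hRY (hl1 σ)⟩ = f ⟨l τ, hRY (hl1 τ)⟩ := hστ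
      have h1 : σ * τ⁻¹ ∈ S := by
        refine ⟨l σ * (l τ)⁻¹, R.mul_mem (hl1 σ) (R.inv_mem (hl1 τ)), ?_, ?_⟩
        · rw [map_mul, map_inv, hl2, hl2, map_mul, map_inv]
        · have h3 : (⟨l σ * (l τ)⁻¹, hRY (R.mul_mem (hl1 σ) (R.inv_mem (hl1 τ)))⟩ : Y) =
              ⟨l σ, hRY (hl1 σ)⟩ * ⟨l τ, hRY (hl1 τ)⟩⁻¹ := rfl
          rw [h3, map_mul, map_inv, hστ', mul_inv_cancel]
      rw [hb, Subgroup.mem_bot, mul_inv_eq_one] at h1
      exact h1
    have h6 := Nat.card_le_card_of_injective _ hinj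
    omega
  · obtain ⟨σ, hσ⟩ := hRθ h hh
    have h1 : σ ∈ S := by rw [ht]; exact Subgroup.mem_top σ
    obtain ⟨k, hk, k1, k2⟩ := h1
    have hm : h * k⁻¹ ∈ ψ.ker := by
      rw [MonoidHom.mem_ker, map_mul, map_inv, hσ, k1, mul_inv_cancel]
    refine ⟨h * k⁻¹, hm, ?_⟩
    have h3 : (⟨h * k⁻¹, hRY (hMR hm)⟩ : Y) = ⟨h, hRY hh⟩ * ⟨k, hRY hk⟩⁻¹ := rfl
    rw [h3, map_mul, map_inv, k2, inv_one, mul_one]

/-- the permutations of the second coordinate. -/
noncomputable def theta2 {n a₀ : ℕ} {I : Type} [Fintype I] (e : I × Fin a₀ ↪ Fin n) :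
    alternatingGroup (Fin a₀) →* Perm (Fin n) :=
  (Perm.viaEmbeddingHom e).comp (MonoidHom.mk' (fun τ : alternatingGroup (Fin a₀) =>
    Equiv.prodCongrRight (fun _ : I => (τ : Perm (Fin a₀)))) (by
      intro σ τ
      apply Equiv.ext
      rintro ⟨i, k⟩
      rfl))

theorem theta2_apply {n a₀ : ℕ} {I : Type} [Fintype I] (e : I × Fin a₀ ↪ Fin n)
    (τ : alternatingGroup (Fin a₀)) (i : I) (k : Fin a₀) :
    theta2 e τ (e (i, k)) = e (i, (τ : Perm (Fin a₀)) k) := by
  change (Perm.viaEmbedding (Equiv.prodCongrRight (fun _ : I => (τ : Perm (Fin a₀)))) e) _ = _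
  rw [Perm.viaEmbedding_apply]
  rfl

theorem theta2_mem {n a₀ : ℕ} {I : Type} [Fintype I] (e : I × Fin a₀ ↪ Fin n)
    (τ : alternatingGroup (Fin a₀)) : theta2 e τ ∈ alternatingGroup (Fin n) := by
  classical
  rw [Perm.mem_alternatingGroup]
  change Perm.sign (Perm.viaEmbedding (Equiv.prodCongrRight (fun _ : I => (τ : Perm (Fin a₀)))) e)
    = 1
  rw [Perm.viaEmbedding, Perm.sign_extendDomain, Perm.sign_prodCongrRight]
  apply Finset.prod_eq_one
  intro _ _
  exact Perm.mem_alternatingGroup.1 τ.2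

/-- the even permutations of the complement of `C`. -/
noncomputable def theta1 {n : ℕ} (C : Finset (Fin n)) :
    alternatingGroup (Cᶜ : Finset (Fin n)) →* Perm (Fin n) :=
  (alternatingGroup (Fin n)).subtype.comp (alternatingGroup.ofSubtype Cᶜ)

theorem theta1_mem {n : ℕ} (C : Finset (Fin n)) (σ : alternatingGroup (Cᶜ : Finset (Fin n))) :
    theta1 C σ ∈ alternatingGroup (Fin n) := (alternatingGroup.ofSubtype Cᶜ σ).2

theorem theta1_iff {n : ℕ} (C : Finset (Fin n)) (π : Perm (Fin n))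
    (hπ : π ∈ alternatingGroup (Fin n)) : (∃ σ, π = theta1 C σ) ↔ ∀ p ∈ C, π p = p := by
  have h1 := alternatingGroup.mem_range_ofSubtype_iff (Cᶜ : Finset (Fin n)) ⟨π, hπ⟩
  constructor
  · rintro ⟨σ, hσ⟩ p hp
    have h2 : (⟨π, hπ⟩ : alternatingGroup (Fin n)) ∈ (alternatingGroup.ofSubtype Cᶜ).range :=
      ⟨σ, Subtype.ext hσ.symm⟩
    rw [h1] at h2
    by_contra hne
    have h3 : p ∈ Cᶜ := h2 (Perm.mem_support.2 hne)
    exact (Finset.mem_compl.1 h3) hp
  · intro h
    have h2 : (⟨π, hπ⟩ : alternatingGroup (Fin n)) ∈ (alternatingGroup.ofSubtype Cᶜ).range := by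
      rw [h1]
      intro p hp
      rw [Finset.mem_compl]
      intro hpC
      exact (Perm.mem_support.1 hp) (h p hpC)
    obtain ⟨σ, hσ⟩ := h2
    exact ⟨σ, (congrArg Subtype.val hσ).symm⟩

end Pool.Agent.LFS
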