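import Mathlib
import Pool.Agent.LFS.Cfg2
import Pool.Agent.LFS.Delta
import Pool.Agent.LFS.Cnt
import Pool.Agent.LFS.Tight
import Pool.Agent.LFS.TopAux
import Pool.Agent.LFS.Sch

set_option autoImplicit false

/-!
MODULE Top (helper34, MP_cbf6a9).

PROOF. From HasCfg2: I, e : I x Fin a0 -> Fin n, a, w. C = image of e (card <= s a0). By exists_even (LFS/Core.lean;
use the permutation (i,k) -> (w i, k) of I x Fin a0) there is c in Gamma with psi c (e (i,k)) = e (w i, k).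
K0 = closure (a '' X u {w}) in Perm I; a g not in K0 (notMem_closure, LFS/Grp.lean). Y = {h : exists y in K0,
exists tau in Alt(Fin a0), forall i k, psi h (e (i,k)) = e (y i, tau k)}. X <= Y, c in Y, g not in Y (a0 >= 1).
R = {h : psi h fixes all e (i,k)} normal in Y. By htight there is f : Y -> Q with f(Y) covered by X, f.range not
SecIn empty. |f(Y)| <= |X|. As in LFS/Core.lean (theorem core) or LFS/CoreAbs.lean:
 (1) f(Y)/f(R P~) where P~ = the elements of Y acting as (1, tau): f(x) commutes with f(c x' c^-1) modulo f(R).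
     So f(Y)/f(R) is abelian (the image of Y is covered by X; q0 = c q c^-1 ...): this uses only
     x (c x' c^-1) x^-1 (c x' c^-1)^-1 in R.
 (2) f(R)/f(ker psi) is a quotient of psi(R) = Alt of the complement of C, simple of order > |X| (card_alt_gt), so trivial
     (see hST in LFS/Core.lean).
 Hence f(ker psi) is not SecIn empty (SecIn.ext, SecIn.of_comm).
Let M = ker psi, T from exists_resid M (LFS/Cnt.lean): cj g T = T for all g as M is normal. f restricted to M is not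
trivial on T (otherwise SecIn empty). So K = T meet ker f is normal in T, not T, and by exists_NS (perfectness from exists_resid)
there is L with NS T L, K <= L. Let LF = {L : NS T L, K <= L}: a finite set, at most 2^|X| elements (L is determined by
f(L) <= Q, subsets of f(Y)), and permuted by Y under conjugation (K is normalised by Y).
Let S = image under psi of {h : cj h L = L}, a subgroup of Alt(n).
 (3) S contains every even permutation sigma fixing C pointwise: the subgroup R0 = psi(R) = all even permutations fixing C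
     pointwise, isomorphic to Alt(m), m = n - |C|; R acts on LF; the stabiliser of L in R has index <= 2^|X| in R, so its
     image in Alt(m) has index <= 2^|X| < m; a proper subgroup of Alt(m) of index k gives an injective homomorphism Alt(m) -> S_k,
     so m!/2 <= k! - impossible for k < m, m >= 5. (Simple group: the kernel of the action on cosets is trivial.)
 (4) In the same way with P~ = {h : psi h fixes everything outside C and psi h (e (i,k)) = e (i, tau k), tau in Alt(Fin a0)}: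
     for every tau in Alt(Fin a0) the permutation e(i,k) -> e(i, tau k) (identity outside C; it is even, see
     below) is in S. (even: a product of |I| copies of tau; or: Alt(Fin a0) -> units has trivial image as
     Alt(a0) is simple nonabelian / perfect.)
Take Delta from exists_delta (LFS/Delta.lean) for C and S. Delta <= C so card <= s a0. If Delta is not empty, e (i,k) in Delta,
then by (4) all e (i,k') are in Delta (Alt(Fin a0) is transitive), so a0 <= card. If h normalises L then psi h in S.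
If Delta is empty then S = Alt(n), so Gamma = M {h : cj h L = L}; every conjugate of L in Gamma is an M-conjugate of L, hence in
LF. R1 = intersection of all conjugates cj h L: normal in Gamma, K <= R1 <= L, |T / R1| <= |f(T)| <= |X|. Gamma acts by
conjugation on T / R1: a homomorphism from Gamma to Perm (T / R1), of order <= |X|!. By hkill X acts trivially:
x t x^-1 t^-1 in R1 <= L for x in X, t in T. For t1, t2 in T there is x in X with f x = f t1; [t1, t2] and [x, t2] have the same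
image under f and [x,t2] in L, both in T, so [t1,t2] in L K = L. So T/L is abelian, contradicting NS T L.
-/

namespace Pool.Agent.LFS

open Equiv

universe u v

theorem top_L {Γ : Type u} [Group Γ] [Finite Γ] {n : ℕ} (ψ : Γ →* Perm (Fin n))
    (hψ : ψ.range = alternatingGroup (Fin n)) (D X : Subgroup Γ) (hXD : X ≤ D) (g : Γ)
    (hgD : g ∈ D) (hgX : g ∉ X) (s a₀ : ℕ) (hcfg : HasCfg2 (ψ.comp D.subtype) s a₀)
    (ha₀ : 2 ^ Nat.card X + 5 ≤ a₀) (hn : 2 * (s * a₀) + 10 + 2 ^ Nat.card X ≤ n)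
    (htight : ∀ Y : Subgroup Γ, Tight ∅ X Y → g ∈ Y)
    (hkill : ∀ (A : Type u) [Group A] [Finite A], Nat.card A ≤ (Nat.card X).factorial →
      ∀ f : Γ →* A, ∀ x ∈ X, f x = 1) :
    ∃ T L : Subgroup Γ, T ≤ ψ.ker ∧ (∀ g, cj g T = T) ∧ NS T L ∧ ∃ Δ : Finset (Fin n),
      a₀ ≤ Δ.card ∧ Δ.card ≤ s * a₀ ∧ ∀ h, cj h L = L → ∀ p, ψ h p ∈ Δ ↔ p ∈ Δ := by
  classical
  have h2pos : 0 < 2 ^ Nat.card X := by positivity
  obtain ⟨I, _, e, a, w, hea, hw, hcomm, hdis, hwa, hI⟩ := hcfg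
  have hcardIa : Fintype.card (I × Fin a₀) ≤ s * a₀ := by
    rw [Fintype.card_prod, Fintype.card_fin]
    exact Nat.mul_le_mul_right _ hI
  obtain ⟨c₀, hc₀, hc₀w⟩ := exists_even e (Equiv.prodCongrLeft (fun _ : Fin a₀ => w)) (by omega)
  have hc₀w' : ∀ i k, c₀ (e (i, k)) = e (w i, k) := fun i k => hc₀w (i, k)
  obtain ⟨c, hc⟩ : ∃ c : Γ, ψ c = c₀ := by
    have : c₀ ∈ ψ.range := by rw [hψ]; exact hc₀
    exact this
  let K0 : Subgroup (Perm I) :=
    Subgroup.closure (a '' ((X.subgroupOf D : Subgroup D) : Set D) ∪ {w})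
  have hgK : a ⟨g, hgD⟩ ∉ K0 :=
    notMem_closure a w hw hcomm hdis hwa (X.subgroupOf D) ⟨g, hgD⟩
      (fun h => hgX (Subgroup.mem_subgroupOf.1 h))
  have k₀ : Fin a₀ := ⟨0, by omega⟩
  have hinvact : ∀ (h : Γ) (y : Perm I) (τ : Perm (Fin a₀)),
      (∀ i k, ψ h (e (i, k)) = e (y i, τ k)) → ∀ i k, ψ h⁻¹ (e (i, k)) = e (y⁻¹ i, τ⁻¹ k) := by
    intro h y τ hy i k
    have h0 : y (y⁻¹ i) = i := by simp
    have h1 : τ (τ⁻¹ k) = k := by simp
    rw [map_inv, Perm.inv_eq_iff_eq, hy, h0, h1]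
  let Y : Subgroup Γ :=
    { carrier := {h | ∃ y ∈ K0, ∃ τ ∈ alternatingGroup (Fin a₀),
        ∀ i k, ψ h (e (i, k)) = e (y i, τ k)}
      one_mem' := ⟨1, K0.one_mem, 1, (alternatingGroup (Fin a₀)).one_mem,
        fun i k => by rw [map_one]; rfl⟩
      mul_mem' := by
        rintro h h' ⟨y, hy, τ, hτ, hy1⟩ ⟨y', hy', τ', hτ', hy1'⟩
        refine ⟨y * y', K0.mul_mem hy hy', τ * τ', (alternatingGroup (Fin a₀)).mul_mem hτ hτ',
          fun i k => ?_⟩
        rw [map_mul, Perm.mul_apply, hy1', hy1, Perm.mul_apply, Perm.mul_apply]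
      inv_mem' := by
        rintro h ⟨y, hy, τ, hτ, hy1⟩
        exact ⟨y⁻¹, K0.inv_mem hy, τ⁻¹, (alternatingGroup (Fin a₀)).inv_mem hτ,
          hinvact h y τ hy1⟩ }
  let R : Subgroup Γ :=
    { carrier := {h | ∀ i k, ψ h (e (i, k)) = e (i, k)}
      one_mem' := fun i k => by rw [map_one]; rfl
      mul_mem' := by
        intro h h' h1 h2 i k
        rw [map_mul, Perm.mul_apply, h2, h1]
      inv_mem' := by
        intro h h1 i k
        rw [map_inv, Perm.inv_eq_iff_eq, h1] }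
  have hRmem : ∀ h, h ∈ R ↔ ∀ i k, ψ h (e (i, k)) = e (i, k) := fun h => Iff.rfl
  have hRY : R ≤ Y := fun h hh => ⟨1, K0.one_mem, 1, (alternatingGroup (Fin a₀)).one_mem, hh⟩
  have hMR : ψ.ker ≤ R := by
    intro h hh i k
    rw [MonoidHom.mem_ker.1 hh]; rfl
  have hMY : ψ.ker ≤ Y := hMR.trans hRY
  have hxact : ∀ x (hx : x ∈ D) i k, ψ x (e (i, k)) = e (a ⟨x, hx⟩ i, k) :=
    fun x hx i k => hea ⟨x, hx⟩ i k
  have hXY : X ≤ Y := by
    intro x hx
    refine ⟨a ⟨x, hXD hx⟩, Subgroup.subset_closure (Or.inl ⟨⟨x, hXD hx⟩, hx, rfl⟩), 1,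
      (alternatingGroup (Fin a₀)).one_mem, ?_⟩
    exact hxact x (hXD hx)
  have hgY : g ∉ Y := by
    rintro ⟨y, hy, τ, hτ, hy1⟩
    apply hgK
    have : a ⟨g, hgD⟩ = y := by
      ext i
      have h1 : e (a ⟨g, hgD⟩ i, k₀) = e (y i, τ k₀) := by rw [← hy1, ← hxact g hgD]
      exact congrArg Prod.fst (e.injective h1)
    rwa [this]
  have hcY : c ∈ Y := by
    refine ⟨w, Subgroup.subset_closure (Or.inr rfl), 1, (alternatingGroup (Fin a₀)).one_mem,
      fun i k => ?_⟩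
    rw [hc, hc₀w']
    rfl
  -- the homomorphism
  have hnt : ¬ Tight ∅ X Y := fun h => hgY (htight Y h)
  obtain ⟨Q, hQ, f, hf, hfs⟩ : ∃ (Q : Type u) (_ : Group Q) (f : Y →* Q),
      (∀ y : Y, ∃ x : Y, (x : Γ) ∈ X ∧ f x = f y) ∧ ¬ SecIn ∅ f.range := by
    by_contra hcon
    apply hnt
    refine ⟨hXY, ?_⟩
    intro Q hQ f hf
    by_contra hns
    exact hcon ⟨Q, hQ, f, hf, hns⟩
  let F := f.range
  let f' : Y →* F := f.rangeRestrict
  have hf's : Function.Surjective f' := f.rangeRestrict_surjective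
  have hf'cov : ∀ y : Y, ∃ x : Y, (x : Γ) ∈ X ∧ f' x = f' y := by
    intro y
    obtain ⟨x, hx, hxy⟩ := hf y
    exact ⟨x, hx, Subtype.ext hxy⟩
  have hFfin : Finite F := Finite.of_surjective f' hf's
  have hFcard : Nat.card F ≤ Nat.card X := by
    have : Function.Surjective (fun x : X => f' ⟨x, hXY x.2⟩) := by
      intro t
      obtain ⟨y, rfl⟩ := hf's t
      obtain ⟨x, hx, hxy⟩ := hf'cov y
      exact ⟨⟨x, hx⟩, hxy⟩
    exact Nat.card_le_card_of_surjective _ this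
  have hXpos : 0 < Nat.card X := Nat.card_pos
  have hXlt : Nat.card X < 2 ^ Nat.card X := Nat.lt_two_pow_self
  -- the set `C`
  let C : Finset (Fin n) := Finset.univ.map e
  have hCmem : ∀ p, p ∈ C ↔ ∃ i k, e (i, k) = p := by
    intro p
    rw [Finset.mem_map]
    constructor
    · rintro ⟨⟨i, k⟩, -, hi⟩; exact ⟨i, k, hi⟩
    · rintro ⟨i, k, hi⟩; exact ⟨(i, k), Finset.mem_univ _, hi⟩
  have hCcard : C.card = Fintype.card (I × Fin a₀) := by rw [Finset.card_map, Finset.card_univ]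
  have hCcard' : C.card ≤ s * a₀ := by rw [hCcard]; exact hcardIa
  have hcompl : Fintype.card (Cᶜ : Finset (Fin n)) = n - C.card := by
    rw [Fintype.card_coe, Finset.card_compl, Fintype.card_fin]
  have hψmem : ∀ h, ψ h ∈ alternatingGroup (Fin n) := fun h => by rw [← hψ]; exact ⟨h, rfl⟩
  have hlift : ∀ π ∈ alternatingGroup (Fin n), ∃ h, ψ h = π := by
    intro π hπ
    rw [← hψ] at hπ
    exact hπ
  have hRC : ∀ h, h ∈ R ↔ ∀ p ∈ C, ψ h p = p := by
    intro h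
    rw [hRmem]
    constructor
    · intro h1 p hp
      obtain ⟨i, k, rfl⟩ := (hCmem p).1 hp
      exact h1 i k
    · intro h1 i k
      exact h1 _ ((hCmem _).2 ⟨i, k, rfl⟩)
  have hRθ : ∀ h ∈ R, ∃ σ, ψ h = theta1 C σ := fun h hh =>
    (theta1_iff C (ψ h) (hψmem h)).2 ((hRC h).1 hh)
  have hθR : ∀ σ, ∃ h ∈ R, ψ h = theta1 C σ := by
    intro σ
    obtain ⟨h, hh⟩ := hlift _ (theta1_mem C σ)
    refine ⟨h, (hRC h).2 ?_, hh⟩
    exact (theta1_iff C (ψ h) (hψmem h)).1 ⟨σ, hh⟩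
  have hR2 : ∀ h (hh : h ∈ R), ∃ m, ∃ hm : m ∈ ψ.ker,
      f' ⟨h, hRY hh⟩ = f' ⟨m, hRY (hMR hm)⟩ := by
    intro h hh
    exact small_hom ψ (by rw [hcompl]; omega) (theta1 C) Y R hRY hRθ hθR hMR f' (by
      refine lt_of_le_of_lt hFcard ?_
      exact card_alt_gt (k := n - C.card) (by omega) (by omega) hcompl) h hh
  -- commutators of `F` come from `R`, hence from the kernel
  have hcommF : ∀ p q : F, ∃ m, ∃ hm : m ∈ ψ.ker, p * q * p⁻¹ * q⁻¹ = f' ⟨m, hMY hm⟩ := by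
    intro p q
    obtain ⟨p0, rfl⟩ := hf's p
    obtain ⟨q0, rfl⟩ := hf's q
    obtain ⟨x, hx, hxp⟩ := hf'cov p0
    obtain ⟨x', hx', hxq⟩ := hf'cov ((⟨c, hcY⟩ : Y)⁻¹ * q0 * ⟨c, hcY⟩)
    have hq1 : f' q0 = f' (⟨c, hcY⟩ * x' * (⟨c, hcY⟩ : Y)⁻¹) := by
      rw [map_mul, map_mul, hxq, ← map_mul, ← map_mul]
      congr 1
      group
    rw [← hxp, hq1, ← map_inv, ← map_inv, ← map_mul, ← map_mul, ← map_mul]
    have hax : ∀ i k, ψ (x : Γ) (e (i, k)) = e (a ⟨x, hXD hx⟩ i, (1 : Perm (Fin a₀)) k) :=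
      hxact _ (hXD hx)
    have hax' : ∀ i k, ψ (x' : Γ) (e (i, k)) = e (a ⟨x', hXD hx'⟩ i, k) := hxact _ (hXD hx')
    have hcact : ∀ i k, ψ c (e (i, k)) = e (w i, (1 : Perm (Fin a₀)) k) := fun i k => by
      rw [hc, hc₀w']; rfl
    have hwi : w⁻¹ = w := by rw [inv_eq_iff_mul_eq_one, hw]
    have hcact' : ∀ i k, ψ c⁻¹ (e (i, k)) = e (w i, k) := fun i k => by
      rw [hinvact c w 1 hcact, hwi]; rfl
    have hz : ∀ i k, ψ (c * (x' : Γ) * c⁻¹) (e (i, k)) =
        e ((w * a ⟨x', hXD hx'⟩ * w) i, (1 : Perm (Fin a₀)) k) := by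
      intro i k
      rw [map_mul, map_mul, Perm.mul_apply, Perm.mul_apply, hcact', hax', hcact]
      rfl
    have hz' : ∀ i k, ψ (c * (x' : Γ) * c⁻¹)⁻¹ (e (i, k)) =
        e ((w * a ⟨x', hXD hx'⟩ * w)⁻¹ i, k) := fun i k => by rw [hinvact _ _ _ hz]; rfl
    have hax'' : ∀ i k, ψ (x : Γ)⁻¹ (e (i, k)) = e ((a ⟨x, hXD hx⟩)⁻¹ i, k) := fun i k => by
      rw [hinvact _ _ _ hax]; rfl
    have hmem : (x : Γ) * (c * (x' : Γ) * c⁻¹) * (x : Γ)⁻¹ * (c * (x' : Γ) * c⁻¹)⁻¹ ∈ R := by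
      intro i k
      rw [map_mul, map_mul, map_mul, Perm.mul_apply, Perm.mul_apply, Perm.mul_apply, hz', hax'',
        hz, hax]
      congr 1
      have h1 := hcomm ⟨x, hXD hx⟩ ⟨x', hXD hx'⟩
      have h2 : a ⟨x, hXD hx⟩ * (w * a ⟨x', hXD hx'⟩ * w) * (a ⟨x, hXD hx⟩)⁻¹ *
          (w * a ⟨x', hXD hx'⟩ * w)⁻¹ = 1 := by
        rw [h1]; group
      exact Prod.ext (congrArg (fun σ : Perm I => σ i) h2) rfl
    obtain ⟨m, hm, hfm⟩ := hR2 _ hmem
    exact ⟨m, hm, hfm⟩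
  -- the restriction to the kernel
  let fM : ψ.ker →* F := f'.comp (Subgroup.inclusion hMY)
  have hfM : ¬ SecIn ∅ fM.range := by
    intro h1
    apply hfs
    have hn1 : fM.range.Normal := by
      refine ⟨?_⟩
      rintro _ ⟨m, rfl⟩ q
      obtain ⟨y, rfl⟩ := hf's q
      refine ⟨⟨(y : Γ) * m * (y : Γ)⁻¹, (inferInstance : ψ.ker.Normal).conj_mem _ m.2 _⟩, ?_⟩
      rw [← map_inv]
      change f' _ = f' y * f' _ * f' y⁻¹
      rw [← map_mul, ← map_mul]
      rfl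
    refine SecIn.ext fM.range h1 (SecIn.of_comm ?_)
    intro p q
    induction p using QuotientGroup.induction_on with
    | H p =>
      induction q using QuotientGroup.induction_on with
      | H q =>
        rw [← QuotientGroup.mk_mul, ← QuotientGroup.mk_mul, QuotientGroup.eq]
        obtain ⟨m, hm, h3⟩ := hcommF q⁻¹ p⁻¹
        have h2 : (p * q)⁻¹ * (q * p) = q⁻¹ * p⁻¹ * q⁻¹⁻¹ * p⁻¹⁻¹ := by group
        rw [h2, h3]
        exact ⟨⟨m, hm⟩, rfl⟩
  obtain ⟨T, hTM, hTcj, hTperf, hTres⟩ := exists_resid ψ.ker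
  have hMcj : ∀ g, cj g ψ.ker = ψ.ker := by
    intro g
    have h1 : Nrm ⊤ ψ.ker := fun t _ n hn => (inferInstance : ψ.ker.Normal).conj_mem n hn t
    exact h1.cj_eq (Subgroup.mem_top g)
  have hT : ∀ g, cj g T = T := fun g => hTcj g (hMcj g)
  have hTY : T ≤ Y := hTM.trans hMY
  -- the kernel on `T`
  let K : Subgroup Γ :=
    { carrier := {t | ∃ ht : t ∈ T, f' ⟨t, hTY ht⟩ = 1}
      one_mem' := ⟨T.one_mem, map_one f'⟩
      mul_mem' := by
        rintro t t' ⟨ht, h1⟩ ⟨ht', h1'⟩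
        refine ⟨T.mul_mem ht ht', ?_⟩
        have h3 : (⟨t * t', hTY (T.mul_mem ht ht')⟩ : Y) = ⟨t, hTY ht⟩ * ⟨t', hTY ht'⟩ := rfl
        rw [h3, map_mul, h1, h1', one_mul]
      inv_mem' := by
        rintro t ⟨ht, h1⟩
        refine ⟨T.inv_mem ht, ?_⟩
        have h3 : (⟨t⁻¹, hTY (T.inv_mem ht)⟩ : Y) = ⟨t, hTY ht⟩⁻¹ := rfl
        rw [h3, map_inv, h1, inv_one] }
  have hKmem : ∀ t, t ∈ K ↔ ∃ ht : t ∈ T, f' ⟨t, hTY ht⟩ = 1 := fun t => Iff.rfl
  have hKT : K ≤ T := fun t ht => ht.1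
  have hTconj : ∀ (y : Γ) (t : Γ), t ∈ T → y * t * y⁻¹ ∈ T := by
    intro y t ht
    have h1 := hT y
    rw [← h1]
    exact conj_mem_cj.2 ht
  have hYK : Nrm Y K := by
    rintro y hy t ⟨ht, h1⟩
    refine ⟨hTconj y t ht, ?_⟩
    have h3 : (⟨y * t * y⁻¹, hTY (hTconj y t ht)⟩ : Y) = ⟨y, hy⟩ * ⟨t, hTY ht⟩ * ⟨y, hy⟩⁻¹ := rfl
    rw [h3, map_mul, map_mul, h1, map_inv]
    group
  have hKne : K ≠ T := by
    intro he
    apply hfM
    apply hTres
    intro m hm
    have h1 : (m : Γ) ∈ K := by rw [he]; exact hm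
    exact h1.2
  obtain ⟨L, hL, hKL⟩ := exists_NS hKT (hYK.mono hTY) hKne (fun M h1 h2 h3 => hTperf M h2 h1 h3)
  -- the family
  let LF : Set (Subgroup Γ) := {L | NS T L ∧ K ≤ L}
  have hLF : L ∈ LF := ⟨hL, hKL⟩
  have hLFY : ∀ h ∈ Y, ∀ L ∈ LF, cj h L ∈ LF := by
    rintro h hh L ⟨h1, h2⟩
    refine ⟨?_, ?_⟩
    · have h3 := h1.cj h
      rwa [hT h] at h3
    · have h3 := cj_mono (g := h) h2
      rwa [hYK.cj_eq hh] at h3
  have hLFfin : LF.Finite := Set.toFinite LF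
  have hLFcard : LF.ncard ≤ 2 ^ Nat.card X := by
    have hFft : Fintype F := Fintype.ofFinite F
    have h1 : Nat.card (Set F) ≤ 2 ^ Nat.card X := by
      rw [Nat.card_eq_fintype_card, Fintype.card_set]
      apply Nat.pow_le_pow_right (by norm_num)
      rw [← Nat.card_eq_fintype_card]
      exact hFcard
    refine le_trans ?_ h1
    rw [← Nat.card_coe_set_eq]
    apply Nat.card_le_card_of_injective
      (fun L : LF => {q : F | ∃ t, ∃ ht : t ∈ T, t ∈ (L : Subgroup Γ) ∧ f' ⟨t, hTY ht⟩ = q})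
    have key : ∀ L L' : LF, {q : F | ∃ t, ∃ ht : t ∈ T, t ∈ (L : Subgroup Γ) ∧
        f' ⟨t, hTY ht⟩ = q} = {q : F | ∃ t, ∃ ht : t ∈ T, t ∈ (L' : Subgroup Γ) ∧
        f' ⟨t, hTY ht⟩ = q} → (L : Subgroup Γ) ≤ L' := by
      intro L L' h t ht
      have htT : t ∈ T := L.2.1.le ht
      have h2 : f' ⟨t, hTY htT⟩ ∈ {q : F | ∃ t, ∃ ht : t ∈ T, t ∈ (L' : Subgroup Γ) ∧
        f' ⟨t, hTY ht⟩ = q} := by
        rw [← h]
        exact ⟨t, htT, ht, rfl⟩
      obtain ⟨t', ht', htL', h3⟩ := h2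
      have h4 : t * t'⁻¹ ∈ K := by
        refine ⟨T.mul_mem htT (T.inv_mem ht'), ?_⟩
        have h5 : (⟨t * t'⁻¹, hTY (T.mul_mem htT (T.inv_mem ht'))⟩ : Y) =
            ⟨t, hTY htT⟩ * ⟨t', hTY ht'⟩⁻¹ := rfl
        rw [h5, map_mul, map_inv, h3, mul_inv_cancel]
      have h5 := (L' : Subgroup Γ).mul_mem (L'.2.2 h4) htL'
      rwa [inv_mul_cancel_right] at h5
    intro L L' h
    exact Subtype.ext (le_antisymm (key L L' h) (key L' L h.symm))
  -- the stabiliser
  let Sb : Subgroup Γ :=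
    { carrier := {h | cj h L = L}
      one_mem' := cj_one L
      mul_mem' := by
        intro h k h1 k1
        change cj (h * k) L = L
        rw [cj_mul, show cj k L = L from k1, show cj h L = L from h1]
      inv_mem' := by
        intro h h1
        change cj h⁻¹ L = L
        conv_lhs => rw [← show cj h L = L from h1]
        exact cj_inv_cj h L }
  let S : Subgroup (Perm (Fin n)) := Sb.map ψ
  have hSalt : S ≤ alternatingGroup (Fin n) := by
    rintro _ ⟨h, -, rfl⟩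
    exact hψmem h
  have hS1 : ∀ σ ∈ alternatingGroup (Fin n), (∀ p ∈ C, σ p = p) → σ ∈ S := by
    intro σ hσ hσC
    obtain ⟨σ', rfl⟩ := (theta1_iff C σ hσ).2 hσC
    obtain ⟨h, h1, h2⟩ := lift_stab ψ (by rw [hcompl]; omega) (theta1 C) R hθR LF hLFfin
      (fun h hh => hLFY h (hRY hh)) (by rw [hcompl]; omega) L hLF σ'
    exact ⟨h, h1, h2⟩
  have hθ2Y : ∀ τ, ∃ h ∈ Y, ψ h = theta2 e τ := by
    intro τ
    obtain ⟨h, hh⟩ := hlift _ (theta2_mem e τ)
    refine ⟨h, ⟨1, K0.one_mem, τ, τ.2, fun i k => ?_⟩, hh⟩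
    rw [hh, theta2_apply]
    rfl
  have hS2 : ∀ τ, theta2 e τ ∈ S := by
    intro τ
    obtain ⟨h, h1, h2⟩ := lift_stab ψ (by rw [Fintype.card_fin]; omega) (theta2 e) Y hθ2Y LF hLFfin
      hLFY (by rw [Fintype.card_fin]; omega) L hLF τ
    exact ⟨h, h1, h2⟩
  obtain ⟨Δ, hΔC, hΔS, hΔe⟩ := exists_delta C (by omega) S hSalt hS1
  refine ⟨T, L, hTM, hT, hL, Δ, ?_, (Finset.card_le_card hΔC).trans hCcard',
    fun h hh p => hΔS (ψ h) ⟨h, hh, rfl⟩ p⟩
  rcases Finset.eq_empty_or_nonempty Δ with he | ⟨p, hp⟩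
  · -- the empty case is impossible
    exfalso
    have hStop := hΔe he
    have hcjLF : ∀ g, cj g L ∈ LF := by
      intro g
      have h1 : ψ g ∈ S := by rw [hStop]; exact hψmem g
      obtain ⟨h, h2, h3⟩ := h1
      have h4 : g * h⁻¹ ∈ ψ.ker := by
        rw [MonoidHom.mem_ker, map_mul, map_inv, h3, mul_inv_cancel]
      have h5 : cj g L = cj (g * h⁻¹) L := by
        conv_rhs => rw [← show cj h L = L from h2]
        rw [← cj_mul, inv_mul_cancel_right]
      rw [h5]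
      exact hLFY _ (hMY h4) L hLF
    let R1 : Subgroup Γ :=
      { carrier := {t | ∀ g, t ∈ cj g L}
        one_mem' := fun g => (cj g L).one_mem
        mul_mem' := fun {t t'} h h' g => (cj g L).mul_mem (h g) (h' g)
        inv_mem' := fun {t} h g => (cj g L).inv_mem (h g) }
    have hKR1 : K ≤ R1 := fun t ht g => (hcjLF g).2 ht
    have hR1L : R1 ≤ L := by
      intro t ht
      have := ht 1
      rwa [cj_one] at this
    have hR1T : R1 ≤ T := hR1L.trans hL.le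
    have hR1n : Nrm ⊤ R1 := by
      intro h _ t ht g
      have h1 := ht (h⁻¹ * g)
      rw [cj_mul] at h1
      have h2 := (conj_mem_cj (g := h)).2 h1
      rwa [cj_cj_inv] at h2
    have hTn : Nrm ⊤ T := fun h _ t ht => hTconj h t ht
    have hnR : (R1.subgroupOf T).Normal := by
      refine ⟨fun l hl t => ?_⟩
      exact hR1n t (Subgroup.mem_top _) _ hl
    let φ : Γ →* Perm (T ⧸ R1.subgroupOf T) :=
      (MulAut.toPerm (T ⧸ R1.subgroupOf T)).comp
        ((Sch.th hTn hR1n).comp (Subgroup.topEquiv (G := Γ)).symm.toMonoidHom)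
    have hcardT : Nat.card (T ⧸ R1.subgroupOf T) ≤ Nat.card X := by
      refine le_trans ?_ hFcard
      apply Nat.card_le_card_of_injective
        (fun q : T ⧸ R1.subgroupOf T => f' ⟨(q.out : T), hTY (q.out : T).2⟩)
      intro p q hpq
      rw [← QuotientGroup.out_eq' p, ← QuotientGroup.out_eq' q, QuotientGroup.eq]
      apply hKR1
      refine ⟨T.mul_mem (T.inv_mem (p.out).2) (q.out).2, ?_⟩
      change f' (⟨(p.out : T), hTY (p.out : T).2⟩⁻¹ * ⟨(q.out : T), hTY (q.out : T).2⟩) = 1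
      rw [map_mul, map_inv, inv_mul_eq_one]
      exact hpq
    have hXtriv : ∀ x ∈ X, ∀ t ∈ T, x * t * x⁻¹ * t⁻¹ ∈ R1 := by
      intro x hx t ht
      have h1 := hkill (Perm (T ⧸ R1.subgroupOf T)) (by
        rw [Nat.card_perm]
        exact Nat.factorial_le hcardT) φ x hx
      have h2 := congrArg (fun π : Perm (T ⧸ R1.subgroupOf T) =>
        π (QuotientGroup.mk (⟨t, ht⟩ : T))) h1
      have h3 : (QuotientGroup.mk (⟨x * t * x⁻¹, hTconj x t ht⟩ : T) : T ⧸ R1.subgroupOf T) =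
          QuotientGroup.mk (⟨t, ht⟩ : T) := h2
      rw [QuotientGroup.eq, Subgroup.mem_subgroupOf] at h3
      change (x * t * x⁻¹)⁻¹ * t ∈ R1 at h3
      have h4 := hR1n (x * t * x⁻¹) (Subgroup.mem_top _) _ (R1.inv_mem h3)
      have h5 : x * t * x⁻¹ * ((x * t * x⁻¹)⁻¹ * t)⁻¹ * (x * t * x⁻¹)⁻¹ =
          x * t * x⁻¹ * t⁻¹ := by group
      rwa [h5] at h4
    apply hL.nab
    intro t₁ ht₁ t₂ ht₂
    obtain ⟨x, hx, hxt⟩ := hf'cov ⟨t₁, hTY ht₁⟩
    have h1 := hXtriv x hx t₂ ht₂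
    have h2 : (t₁ * t₂ * t₁⁻¹ * t₂⁻¹) * ((x : Γ) * t₂ * (x : Γ)⁻¹ * t₂⁻¹)⁻¹ ∈ K := by
      have hm1 : t₁ * t₂ * t₁⁻¹ * t₂⁻¹ ∈ T := T.mul_mem (hTconj _ _ ht₂) (T.inv_mem ht₂)
      have hm2 : (x : Γ) * t₂ * (x : Γ)⁻¹ * t₂⁻¹ ∈ T := T.mul_mem (hTconj _ _ ht₂) (T.inv_mem ht₂)
      refine ⟨T.mul_mem hm1 (T.inv_mem hm2), ?_⟩
      have h5 : (⟨(t₁ * t₂ * t₁⁻¹ * t₂⁻¹) * ((x : Γ) * t₂ * (x : Γ)⁻¹ * t₂⁻¹)⁻¹,
          hTY (T.mul_mem hm1 (T.inv_mem hm2))⟩ : Y) =
          (⟨t₁, hTY ht₁⟩ * ⟨t₂, hTY ht₂⟩ * ⟨t₁, hTY ht₁⟩⁻¹ * ⟨t₂, hTY ht₂⟩⁻¹) *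
          (x * ⟨t₂, hTY ht₂⟩ * x⁻¹ * ⟨t₂, hTY ht₂⟩⁻¹)⁻¹ := rfl
      rw [h5]
      simp only [map_mul, map_inv]
      rw [hxt]
      group
    have h3 := L.mul_mem (hKL h2) (hR1L h1)
    rwa [inv_mul_cancel_right] at h3
  · -- a whole fibre
    obtain ⟨i, k, rfl⟩ := (hCmem p).1 (hΔC hp)
    have h1 : (Finset.univ.image (fun k' : Fin a₀ => e (i, k'))).card = a₀ := by
      rw [Finset.card_image_of_injective, Finset.card_univ, Fintype.card_fin]
      intro k1 k2 h
      exact congrArg Prod.snd (e.injective h)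
    rw [← h1]
    apply Finset.card_le_card
    intro q hq
    obtain ⟨k', -, rfl⟩ := Finset.mem_image.1 hq
    -- an even permutation mapping `k` to `k'`
    obtain ⟨τ, hτ⟩ : ∃ τ : alternatingGroup (Fin a₀), (τ : Perm (Fin a₀)) k = k' := by
      by_cases hkk : k = k'
      · exact ⟨1, hkk⟩
      · have h2 : 1 < ((Finset.univ \ {k, k'} : Finset (Fin a₀))).card := by
          have h3 := Finset.card_le_card_sdiff_add_card (t := ({k, k'} : Finset (Fin a₀)))
            (s := (Finset.univ : Finset (Fin a₀)))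
          have h4 : ({k, k'} : Finset (Fin a₀)).card ≤ 2 := Finset.card_le_two
          rw [Finset.card_univ, Fintype.card_fin] at h3
          omega
        obtain ⟨u, hu, v, hv, huv⟩ := Finset.one_lt_card.1 h2
        simp only [Finset.mem_sdiff, Finset.mem_univ, true_and, Finset.mem_insert,
          Finset.mem_singleton, not_or] at hu hv
        refine ⟨⟨swap k k' * swap u v, ?_⟩, ?_⟩
        · rw [Perm.mem_alternatingGroup, Perm.sign_mul, Perm.sign_swap hkk, Perm.sign_swap huv]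
          rfl
        · change (swap k k' * swap u v) k = k'
          rw [Perm.mul_apply, swap_apply_of_ne_of_ne (Ne.symm hu.1) (Ne.symm hv.1),
            swap_apply_left]
    have h2 := (hΔS _ (hS2 τ) (e (i, k))).2 hp
    rw [theta2_apply, hτ] at h2
    exact h2

end Pool.Agent.LFS
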