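import Mathlib
import Pool.Agent.LFS.ThmZ
import Pool.Agent.LFS.Top
import Pool.Agent.LFS.Pos

set_option autoImplicit false

/-!
The core for finite groups.
-/

namespace Pool.Agent.LFS

open Equiv

universe u v

def cA (d : ℕ) : ℕ := 2 ^ d + 5 + 40 * d ^ 3

def cN (d e : ℕ) : ℕ := e * (d ^ 4 * cA d) + d * (40 * d ^ 2 * d)

def cM (d : ℕ) : ℕ := (40 * d ^ 2 + 2) * (d ^ 4 * cA d) + d * (40 * d ^ 2 * d) + 12 + 2 ^ d

/-- an element of the kernel commuting with `X` commutes with `g`. -/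
theorem commute_of_tight {Γ : Type u} [Group Γ] [Finite Γ] {n : ℕ} (ψ : Γ →* Perm (Fin n))
    (X Y₁ : Subgroup Γ) (hXY : X ≤ Y₁) (g : Γ) (hgY : g ∈ Y₁)
    (hY₁ : ∀ y ∈ Y₁, ψ y = 1 → y = 1)
    (hkill : ∀ (A : Type u) [Group A] [Finite A], Nat.card A ≤ (Nat.card X).factorial →
      ∀ (f : Y₁ →* A) (x : Y₁), (x : Γ) ∈ X → f x = 1)
    (htight : ∀ Y : Subgroup Γ, Tight ∅ X Y → g ∈ Y) (q : Γ) (hq : ψ q = 1)
    (hqX : ∀ x ∈ X, q * x = x * q) : q * g = g * q := by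
  have hXcj : ∀ x ∈ X, q * x * q⁻¹ = x := by
    intro x hx
    rw [hqX x hx, mul_inv_cancel_right]
  have hXq : X ≤ cj q Y₁ := by
    intro x hx
    have h1 : q * x * q⁻¹ ∈ cj q Y₁ := conj_mem_cj.2 (hXY hx)
    rwa [hXcj x hx] at h1
  have ht : Tight ∅ X (cj q Y₁) := by
    refine ⟨hXq, ?_⟩
    intro Q _ f hf
    -- the image is finite of order at most `|X|`
    have hfin : Finite f.range := Finite.of_surjective f.rangeRestrict f.rangeRestrict_surjective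
    have hcard : Nat.card f.range ≤ Nat.card X := by
      have hs : Function.Surjective (fun x : X => f.rangeRestrict ⟨x, hXq x.2⟩) := by
        rintro ⟨_, ⟨y, rfl⟩⟩
        obtain ⟨x, hx, hxy⟩ := hf y
        exact ⟨⟨x, hx⟩, Subtype.ext hxy⟩
      exact Nat.card_le_card_of_surjective _ hs
    let e : Y₁ →* cj q Y₁ := MonoidHom.mk' (fun y => ⟨q * y * q⁻¹, conj_mem_cj.2 y.2⟩) (by
      intro a b
      apply Subtype.ext
      change q * (a * b) * q⁻¹ = (q * a * q⁻¹) * (q * b * q⁻¹)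
      group)
    have hk := hkill f.range (hcard.trans (Nat.self_le_factorial _)) (f.rangeRestrict.comp e)
    have hfx : ∀ x (hx : x ∈ X), f ⟨x, hXq hx⟩ = 1 := by
      intro x hx
      have h1 := hk ⟨x, hXY hx⟩ hx
      have h2 : e ⟨x, hXY hx⟩ = ⟨x, hXq hx⟩ := Subtype.ext (hXcj x hx)
      have h3 : f.rangeRestrict (e ⟨x, hXY hx⟩) = 1 := h1
      rw [h2] at h3
      exact congrArg Subtype.val h3
    have hf1 : ∀ y, f y = 1 := by
      intro y
      obtain ⟨x, hx, hxy⟩ := hf y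
      rw [← hxy]
      exact hfx x hx
    apply SecIn.of_comm
    rintro ⟨_, ⟨a, rfl⟩⟩ ⟨_, ⟨b, rfl⟩⟩
    apply Subtype.ext
    change f a * f b = f b * f a
    rw [hf1, hf1]
  have h1 := htight _ ht
  rw [mem_cj] at h1
  have h2 : g⁻¹ * (q⁻¹ * g * q) = 1 := by
    apply hY₁ _ (Y₁.mul_mem (Y₁.inv_mem hgY) h1)
    rw [map_mul, map_mul, map_mul, map_inv, map_inv, hq]
    simp
  have h3 : q⁻¹ * g * q = g := by
    rw [inv_mul_eq_one] at h2
    exact h2.symm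
  calc q * g = q * (q⁻¹ * g * q) := by rw [h3]
    _ = g * q := by group

theorem fin_core {Γ : Type u} [Group Γ] [Finite Γ] (hSch : SchG Γ) {n : ℕ}
    (ψ : Γ →* Perm (Fin n)) (hψ : ψ.range = alternatingGroup (Fin n)) (D X Y₁ : Subgroup Γ)
    (hXD : X ≤ D) (hDY : D ≤ Y₁) (g : Γ) (hgD : g ∈ D) (hgX : g ∉ X)
    (hY₁ : ∀ y ∈ Y₁, ψ y = 1 → y = 1)
    (hkill : ∀ (A : Type u) [Group A] [Finite A], Nat.card A ≤ (Nat.card X).factorial →
      ∀ (f : Y₁ →* A) (x : Y₁), (x : Γ) ∈ X → f x = 1)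
    (hab : ∀ N : Subgroup Γ, N ≤ ψ.ker → (∀ g, cj g N = N) → (∀ a ∈ N, ∀ b ∈ N, a * b = b * a) →
      N = ⊥)
    (hmove : ∀ d ∈ D, d ≠ 1 → cN (Nat.card D) (Nat.card (Subgroup D)) ≤
      (Finset.univ.filter (fun p => ψ d p ≠ p)).card)
    (hn : cM (Nat.card D) ≤ n) : ∃ Y : Subgroup Γ, g ∉ Y ∧ Tight ∅ X Y := by
  classical
  by_contra hcon
  push Not at hcon
  have htight : ∀ Y : Subgroup Γ, Tight ∅ X Y → g ∈ Y := by
    intro Y hY
    by_contra hg
    exact hcon Y hg hY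
  have hDft : Fintype D := Fintype.ofFinite _
  have hDnt : Nontrivial D := by
    refine ⟨(⟨g, hgD⟩ : D), 1, fun h => hgX ?_⟩
    have : g = 1 := congrArg Subtype.val h
    rw [this]; exact X.one_mem
  obtain ⟨d, hd⟩ : ∃ d, d = Nat.card D := ⟨_, rfl⟩
  have hdF : Fintype.card D = d := by rw [hd, Nat.card_eq_fintype_card]
  have hXd : Nat.card X ≤ d := by rw [hd]; exact Subgroup.card_le_of_le hXD
  have hd1 : 1 ≤ d := by rw [hd]; exact Nat.card_pos
  rw [← hd] at hmove hn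
  have h2X : 2 ^ Nat.card X ≤ 2 ^ d := Nat.pow_le_pow_right (by norm_num) hXd
  obtain ⟨eX, heX⟩ : ∃ e, e = 2 ^ Nat.card X := ⟨_, rfl⟩
  obtain ⟨eD, heD⟩ : ∃ e, e = 2 ^ d := ⟨_, rfl⟩
  rw [← heX, ← heD] at h2X
  have hA1 : eD + 5 + 40 * d ^ 3 = cA d := by rw [heD]; rfl
  have hN1 : cN d (Nat.card (Subgroup D)) =
    Nat.card (Subgroup D) * (d ^ 4 * cA d) + d * (40 * d ^ 2 * d) := rfl
  have hM1 : cM d = (40 * d ^ 2 + 2) * (d ^ 4 * cA d) + d * (40 * d ^ 2 * d) + 12 + eD := by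
    rw [heD]; rfl
  have hM2 : (40 * d ^ 2 + 2) * (d ^ 4 * cA d) =
    40 * d ^ 2 * (d ^ 4 * cA d) + 2 * (d ^ 4 * cA d) := by ring
  have hcfg : HasCfg2 (ψ.comp D.subtype) (d ^ 4) (cA d) := by
    have h1 := cfg2 (ψ.comp D.subtype) (cA d) (by omega) (by
      intro x hx
      have h2 := hmove x x.2 (fun h => hx (Subtype.ext h))
      rw [hdF]
      refine le_trans ?_ h2
      omega)
    rwa [hdF] at h1
  obtain ⟨T, L, hTM, hT, hL, Δ, hΔ1, hΔ2, hΔ3⟩ := top_L ψ hψ D X hXD g hgD hgX (d ^ 4) (cA d) hcfg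
    (by rw [← heX]; omega) (by rw [← heX]; omega) htight (by
      intro A _ _ hA f x hx
      exact hkill A hA (f.comp Y₁.subtype) ⟨x, hDY (hXD hx)⟩ hx)
  obtain ⟨q, hqT, hqX, hqg⟩ := thmZ hSch T L hT hL (fun N hN h1 h2 => hab N (hN.trans hTM) h1 h2)
    D X hXD g hgD hgX (by
    intro J hJne hJ
    rw [← hd]
    choose! h hh using hJ
    have hJfin : J.Finite := Set.toFinite _
    obtain ⟨J₀, hJ₀, hJ₀c⟩ : ∃ J₀ ⊆ hJfin.toFinset, J₀.card = min J.ncard (40 * d ^ 2) := by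
      apply Finset.exists_subset_card_eq
      rw [← Set.ncard_eq_toFinset_card J hJfin]
      exact min_le_left _ _
    have hJ₀J : ∀ ω ∈ J₀, ω ∈ J := fun ω hω => hJfin.mem_toFinset.1 (hJ₀ hω)
    have hιc : Fintype.card J₀ ≤ 40 * d ^ 2 := by
      rw [Fintype.card_coe, hJ₀c]
      exact min_le_right _ _
    have hΔc : ∀ i : J₀, (Δ.image (ψ (h i))).card = Δ.card := fun i =>
      Finset.card_image_of_injective _ (ψ (h i)).injective
    obtain ⟨σ, hσ, hpos⟩ := positions (ψ.comp D.subtype) (ι := J₀)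
      (fun i => Δ.image (ψ (h i))) (d ^ 4 * cA d) (by
        intro i
        rw [hΔc, hdF]
        refine le_trans ?_ hΔ1
        have h1 : Fintype.card J₀ * d ≤ 40 * d ^ 2 * d := Nat.mul_le_mul_right _ hιc
        have h2 : 40 * d ^ 2 * d = 40 * d ^ 3 := by ring
        omega) (by
        intro i
        rw [hΔc]
        exact hΔ2) (by
        intro x hx
        have h2 := hmove x x.2 (fun h => hx (Subtype.ext h))
        rw [hdF]
        refine le_trans ?_ h2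
        have h3 : d * (Fintype.card J₀ * d) ≤ d * (40 * d ^ 2 * d) :=
          Nat.mul_le_mul_left _ (Nat.mul_le_mul_right _ hιc)
        omega) (by
        rw [hdF]
        have h3 : d * (Fintype.card J₀ * d) ≤ d * (40 * d ^ 2 * d) :=
          Nat.mul_le_mul_left _ (Nat.mul_le_mul_right _ hιc)
        have h4 : Fintype.card J₀ * (d ^ 4 * cA d) ≤ 40 * d ^ 2 * (d ^ 4 * cA d) :=
          Nat.mul_le_mul_right _ hιc
        omega)
    obtain ⟨k, hk⟩ : ∃ k : Γ, ψ k = σ := by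
      have : σ ∈ ψ.range := by rw [hψ]; exact hσ
      exact this
    refine ⟨k, ?_⟩
    intro x hxD hx1
    have hxne : (⟨x, hxD⟩ : D) ≠ 1 := fun h => hx1 (congrArg Subtype.val h)
    have key : ∀ i ∈ J₀, ∀ j ∈ J₀, cj x (cj k i) ≠ cj k j := by
      intro i hi j hj heq
      rw [← hh i (hJ₀J i hi), ← hh j (hJ₀J j hj), ← cj_mul, ← cj_mul, ← cj_mul] at heq
      have h1 : cj ((k * h j)⁻¹ * (x * k * h i)) L = L := by
        rw [cj_mul, heq, cj_inv_cj]
      obtain ⟨p, hp, hpq⟩ := hpos ⟨x, hxD⟩ hxne ⟨i, hi⟩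
      obtain ⟨p₀, hp₀, rfl⟩ := Finset.mem_image.1 hp
      have h2 := (hΔ3 _ h1 p₀).2 hp₀
      apply hpq ⟨j, hj⟩ _ (Finset.mem_image_of_mem _ h2)
      change ψ x (σ (ψ (h i) p₀)) = σ (ψ (h j) (ψ ((k * h j)⁻¹ * (x * k * h i)) p₀))
      rw [← hk]
      simp only [← Perm.mul_apply, ← map_mul]
      congr 2
      group
    rcases Nat.lt_or_ge J.ncard (40 * d ^ 2) with hlt | hge
    · left
      have hJ₀eq : J₀ = hJfin.toFinset := by
        apply Finset.eq_of_subset_of_card_le hJ₀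
        rw [hJ₀c, ← Set.ncard_eq_toFinset_card J hJfin]
        exact le_min le_rfl hlt.le
      intro heq
      obtain ⟨i, hi⟩ := hJne
      have hi0 : i ∈ J₀ := by rw [hJ₀eq]; exact hJfin.mem_toFinset.2 hi
      have h1 : cj x (cj k i) ∈ cj x '' (cj k '' J) := ⟨cj k i, ⟨i, hi, rfl⟩, rfl⟩
      rw [heq] at h1
      obtain ⟨j, hj, h2⟩ := h1
      have hj0 : j ∈ J₀ := by rw [hJ₀eq]; exact hJfin.mem_toFinset.2 hj
      exact key i hi0 j hj0 h2.symm
    · right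
      have h1 : J₀.card = 40 * d ^ 2 := by rw [hJ₀c]; exact min_eq_right hge
      have h2 : (J₀.image (cj k)).card = J₀.card :=
        Finset.card_image_of_injective _ (fun a b hab => cj_inj hab)
      rw [← h1, ← h2, ← Set.ncard_coe_finset]
      apply Set.ncard_le_ncard _ (Set.toFinite _)
      intro ω hω
      obtain ⟨i, hi, rfl⟩ := Finset.mem_image.1 (Finset.mem_coe.1 hω)
      exact ⟨⟨i, hJ₀J i hi, rfl⟩, key i hi i hi⟩)
  exact hqg (commute_of_tight ψ X Y₁ (hXD.trans hDY) g (hDY hgD) hY₁ hkill htight q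
    (MonoidHom.mem_ker.1 (hTM hqT)) hqX)

end Pool.Agent.LFS
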