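import Mathlib

set_option autoImplicit false

/-!
An infinite simple group of finitary permutations has a proper subgroup which is not
residually finite.
-/

namespace Pool.Agent.LFS

open MulAction
open scoped Pointwise

universe u v

section

variable {G : Type u} [Group G] {Λ : Type v} [MulAction G Λ]

theorem orbit_finite_iff (H : Subgroup G) (y : Λ) :
    (orbit H y).Finite ↔ (stabilizer G y).relIndex H ≠ 0 := by
  have h1 : (stabilizer G y).subgroupOf H = stabilizer H y := by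
    ext h
    rw [Subgroup.mem_subgroupOf, mem_stabilizer_iff, mem_stabilizer_iff]
    rfl
  rw [Subgroup.relIndex, h1, Subgroup.index, Nat.card_congr (orbitEquivQuotientStabilizer H y).symm,
    ← Set.finite_coe_iff]
  constructor
  · intro h
    exact Nat.card_ne_zero.2 ⟨⟨⟨y, mem_orbit_self y⟩⟩, h⟩
  · intro h
    exact (Nat.card_ne_zero.1 h).2

theorem orbit_finite_of_le {K A : Subgroup G} (hKA : K ≤ A) (hK : K.relIndex A ≠ 0) (y : Λ)
    (h : (orbit K y).Finite) : (orbit A y).Finite := by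
  rw [orbit_finite_iff] at h ⊢
  have h1 : (stabilizer G y ⊓ K).relIndex A ≠ 0 := by
    rw [← Subgroup.relIndex_mul_relIndex (stabilizer G y ⊓ K) K A inf_le_right hKA,
      Subgroup.inf_relIndex_right]
    exact Nat.mul_ne_zero h hK
  intro h0
  apply h1
  have := Subgroup.relIndex_dvd_of_le_left A (inf_le_left : stabilizer G y ⊓ K ≤ stabilizer G y)
  rw [h0] at this
  exact zero_dvd_iff.1 this

/-- Neumann separation. -/
theorem sep (N : Subgroup G) {A B : Set Λ} (hA : A.Finite) (hB : B.Finite)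
    (h : ∀ a ∈ A, (orbit N a).Infinite) : ∃ n ∈ N, ∀ a ∈ A, n • a ∉ B := by
  classical
  by_contra hcon
  push Not at hcon
  let s : Finset (Λ × Λ) := (hA.toFinset ×ˢ hB.toFinset).filter (fun z => ∃ n : N, n • z.1 = z.2)
  let g : Λ × Λ → N := fun z => if hz : ∃ n : N, n • z.1 = z.2 then hz.choose else 1
  have hg : ∀ z ∈ s, g z • z.1 = z.2 := by
    intro z hz
    have hz' := (Finset.mem_filter.1 hz).2
    simp only [g, dif_pos hz']
    exact hz'.choose_spec
  have hcov : ⋃ i ∈ s, (g i) • ((stabilizer N i.1 : Subgroup N) : Set N) = Set.univ := by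
    ext n
    simp only [Set.mem_univ, iff_true, Set.mem_iUnion]
    obtain ⟨a, ha, hab⟩ := hcon n n.2
    have hs : (a, (n : G) • a) ∈ s := Finset.mem_filter.2
      ⟨Finset.mem_product.2 ⟨hA.mem_toFinset.2 ha, hB.mem_toFinset.2 hab⟩, ⟨n, rfl⟩⟩
    refine ⟨(a, (n : G) • a), hs, ?_⟩
    rw [Set.mem_smul_set_iff_inv_smul_mem]
    change _ ∈ stabilizer N a
    rw [mem_stabilizer_iff, smul_eq_mul, mul_smul, inv_smul_eq_iff]
    exact (hg _ hs).symm
  obtain ⟨k, hk, hfin⟩ := Subgroup.exists_finiteIndex_of_leftCoset_cover hcov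
  have hkA : k.1 ∈ A :=
    hA.mem_toFinset.1 (Finset.mem_product.1 (Finset.mem_filter.1 hk).1).1
  apply h k.1 hkA
  rw [← Set.finite_coe_iff]
  have : Finite (N ⧸ stabilizer N k.1) := Subgroup.finite_quotient_of_finiteIndex
  exact Finite.of_equiv _ (orbitEquivQuotientStabilizer N k.1).symm

end

section trans

variable {G : Type u} [Group G] {Λ : Type v} [MulAction G Λ]

/-- a finitary group is locally finite. -/
theorem finitary_lf [FaithfulSMul G Λ] (hfin : ∀ g : G, {y : Λ | g • y ≠ y}.Finite)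
    (s : Finset G) : Finite (Subgroup.closure (s : Set G)) := by
  classical
  let Δ : Set Λ := ⋃ g ∈ s, {y : Λ | g • y ≠ y}
  have hΔ : Δ.Finite := s.finite_toSet.biUnion (fun g _ => hfin g)
  have hΔf : Finite Δ := hΔ
  have hout : ∀ g ∈ Subgroup.closure (s : Set G), ∀ y, y ∉ Δ → g • y = y := by
    intro g hg
    induction hg using Subgroup.closure_induction with
    | mem g hg =>
      intro y hy
      by_contra hne
      exact hy (Set.mem_biUnion hg hne)
    | one => intro y _; exact one_smul _ _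
    | mul a b _ _ ha hb =>
      intro y hy
      rw [mul_smul, hb y hy, ha y hy]
    | inv a _ ha =>
      intro y hy
      rw [inv_smul_eq_iff, ha y hy]
  have hin : ∀ g ∈ Subgroup.closure (s : Set G), ∀ y ∈ Δ, g • y ∈ Δ := by
    intro g hg y hy
    by_contra hne
    have h1 := hout g⁻¹ (Subgroup.inv_mem _ hg) _ hne
    rw [inv_smul_smul] at h1
    rw [← h1] at hne
    exact hne hy
  apply Finite.of_injective (fun g : Subgroup.closure (s : Set G) =>
    (fun y : Δ => (⟨(g : G) • (y : Λ), hin g g.2 y y.2⟩ : Δ)))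
  intro a b hab
  apply Subtype.ext
  apply eq_of_smul_eq_smul (α := Λ)
  intro y
  by_cases hy : y ∈ Δ
  · exact congrArg Subtype.val (congrFun hab ⟨y, hy⟩)
  · rw [hout a a.2 y hy, hout b b.2 y hy]

/-- finite blocks containing a given finite invariant set. -/
theorem exists_block [IsPretransitive G Λ]
    (hlf : ∀ s : Finset G, Finite (Subgroup.closure (s : Set G))) (x : Λ)
    {Ψ : Set Λ} (hΨ : Ψ.Finite) (hinv : ∀ u ∈ stabilizer G x, ∀ y ∈ Ψ, u • y ∈ Ψ) :
    ∃ H : Subgroup G, stabilizer G x ≤ H ∧ (orbit H x).Finite ∧ Ψ ⊆ orbit H x := by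
  classical
  choose t ht using fun y : Λ => exists_smul_eq G x y
  let s : Finset G := hΨ.toFinset.image t
  let F := Subgroup.closure (s : Set G)
  have hF : Finite F := hlf s
  have hmem : ∀ y ∈ Ψ, t y ∈ F := fun y hy =>
    Subgroup.subset_closure (Finset.mem_coe.2 (Finset.mem_image_of_mem t (hΨ.mem_toFinset.2 hy)))
  -- the property
  let P : G → Prop := fun f => f ∈ F ∧ ∀ u ∈ stabilizer G x, ∃ f' ∈ F, f'⁻¹ * u * f ∈ stabilizer G x
  have hPone : P 1 := ⟨F.one_mem, fun u hu => ⟨1, F.one_mem, by simpa using hu⟩⟩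
  have hPmul : ∀ a b, P a → P b → P (a * b) := by
    rintro a b ⟨ha, ha'⟩ ⟨hb, hb'⟩
    refine ⟨F.mul_mem ha hb, fun u hu => ?_⟩
    obtain ⟨a', ha1, ha2⟩ := ha' u hu
    obtain ⟨b', hb1, hb2⟩ := hb' _ ha2
    refine ⟨a' * b', F.mul_mem ha1 hb1, ?_⟩
    have : (a' * b')⁻¹ * u * (a * b) = b'⁻¹ * (a'⁻¹ * u * a) * b := by group
    rw [this]
    exact hb2
  have hPpow : ∀ a, P a → ∀ k : ℕ, P (a ^ k) := by
    intro a ha k
    induction k with
    | zero => rw [pow_zero]; exact hPone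
    | succ k ih => rw [pow_succ]; exact hPmul _ _ ih ha
  have hPinv : ∀ a, P a → P a⁻¹ := by
    intro a ha
    have h1 : IsOfFinOrder (⟨a, ha.1⟩ : F) := isOfFinOrder_of_finite _
    obtain ⟨k, hk, hk1⟩ := isOfFinOrder_iff_pow_eq_one.1 h1
    have h2 : a ^ k = 1 := congrArg Subtype.val hk1
    have h3 : a⁻¹ = a ^ (k - 1) := by
      rw [inv_eq_iff_mul_eq_one, ← pow_succ', Nat.sub_add_cancel hk, h2]
    rw [h3]
    exact hPpow a ha _
  have hPall : ∀ f ∈ F, P f := by
    intro f hf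
    induction hf using Subgroup.closure_induction with
    | mem f hf =>
      obtain ⟨y, hy, rfl⟩ := Finset.mem_image.1 (Finset.mem_coe.1 hf)
      rw [hΨ.mem_toFinset] at hy
      refine ⟨hmem y hy, fun u hu => ⟨t (u • y), hmem _ (hinv u hu y hy), ?_⟩⟩
      rw [mem_stabilizer_iff, mul_smul, mul_smul, ht y, inv_smul_eq_iff, ht]
    | one => exact hPone
    | mul a b _ _ ha hb => exact hPmul a b ha hb
    | inv a _ ha => exact hPinv a ha
  let H : Subgroup G :=
    { carrier := {h | ∃ f ∈ F, f⁻¹ * h ∈ stabilizer G x}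
      one_mem' := ⟨1, F.one_mem, by simp⟩
      mul_mem' := by
        rintro a b ⟨f, hf, hfa⟩ ⟨f', hf', hfb⟩
        obtain ⟨f₂, hf₂, h⟩ := (hPall f' hf').2 _ hfa
        refine ⟨f * f₂, F.mul_mem hf hf₂, ?_⟩
        have : (f * f₂)⁻¹ * (a * b) = (f₂⁻¹ * (f⁻¹ * a) * f') * (f'⁻¹ * b) := by group
        rw [this]
        exact (stabilizer G x).mul_mem h hfb
      inv_mem' := by
        rintro a ⟨f, hf, hfa⟩
        obtain ⟨f₂, hf₂, h⟩ := (hPall f⁻¹ (F.inv_mem hf)).2 _ ((stabilizer G x).inv_mem hfa)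
        refine ⟨f₂, hf₂, ?_⟩
        have : f₂⁻¹ * a⁻¹ = f₂⁻¹ * (f⁻¹ * a)⁻¹ * f⁻¹ := by group
        rw [this]
        exact h }
  refine ⟨H, fun u hu => ⟨1, F.one_mem, by simpa using hu⟩, ?_, ?_⟩
  · apply Set.Finite.subset (Set.toFinite (Set.range (fun f : F => (f : G) • x)))
    rintro _ ⟨⟨h, f, hf, hfh⟩, rfl⟩
    refine ⟨⟨f, hf⟩, ?_⟩
    rw [mem_stabilizer_iff, mul_smul, inv_smul_eq_iff] at hfh
    exact hfh.symm
  · intro y hy
    refine ⟨⟨t y, t y, hmem y hy, by simp⟩, ?_⟩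
    exact ht y

variable [IsPretransitive G Λ] [FaithfulSMul G Λ] [IsSimpleGroup G] [Infinite Λ]

/-- the points with finite suborbit are finitely many. -/
theorem suborbits_finite (hfin : ∀ g : G, {y : Λ | g • y ≠ y}.Finite) (x : Λ) :
    {y : Λ | (orbit (stabilizer G x) y).Finite}.Finite := by
  classical
  have hlf := finitary_lf (G := G) (Λ := Λ) hfin
  let S : Set Λ := {y : Λ | (orbit (stabilizer G x) y).Finite}
  have hSsub : ∀ H : Subgroup G, stabilizer G x ≤ H → (orbit H x).Finite → orbit H x ⊆ S := by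
    intro H hH hf y hy
    apply hf.subset
    rintro _ ⟨u, rfl⟩
    obtain ⟨h, rfl⟩ := hy
    exact ⟨⟨(u : G), hH u.2⟩ * h, mul_smul (⟨(u : G), hH u.2⟩ : H) h x⟩
  by_contra hinf
  by_cases hall : ∀ z, z ∈ S
  · -- totally imprimitive
    obtain ⟨g₀, hg₀⟩ := exists_ne (1 : G)
    let Ψ : Set Λ := ⋃ y ∈ {y : Λ | g₀ • y ≠ y}, orbit (stabilizer G x) y
    have hΨ : Ψ.Finite := (hfin g₀).biUnion (fun y _ => hall y)
    obtain ⟨H, hH1, hH2, hH3⟩ := exists_block hlf x hΨ (by
      intro u hu y hy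
      obtain ⟨z, hz, hyz⟩ := Set.mem_iUnion₂.1 hy
      refine Set.mem_iUnion₂.2 ⟨z, hz, ?_⟩
      obtain ⟨w, rfl⟩ := hyz
      exact ⟨⟨u, hu⟩ * w, mul_smul (⟨u, hu⟩ : stabilizer G x) w z⟩)
    have hsupp : ∀ y, g₀ • y ≠ y → y ∈ orbit H x := fun y hy =>
      hH3 (Set.mem_iUnion₂.2 ⟨y, hy, mem_orbit_self y⟩)
    have hmemH : ∀ h : G, h • x ∈ orbit H x → h ∈ H := by
      rintro h ⟨k, hk⟩
      have h1 : (k : G)⁻¹ * h ∈ stabilizer G x := by
        rw [mem_stabilizer_iff, mul_smul, inv_smul_eq_iff]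
        exact hk.symm
      have h2 := H.mul_mem k.2 (hH1 h1)
      rwa [mul_inv_cancel_left] at h2
    have hcore : g₀ ∈ H.normalCore := by
      intro t
      apply hmemH
      by_cases hmv : g₀ • (t⁻¹ • x) = t⁻¹ • x
      · rw [mul_smul, mul_smul, hmv, smul_inv_smul]
        exact mem_orbit_self x
      · -- `t⁻¹ x` and its image lie in the block, hence `t` preserves the block
        have h1 : t⁻¹ ∈ H := hmemH _ (hsupp _ hmv)
        have h2 : g₀ • (t⁻¹ • x) ∈ orbit H x := by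
          apply hsupp
          intro h3
          exact hmv (smul_left_cancel g₀ h3)
        obtain ⟨k, hk⟩ := h2
        rw [mul_smul, mul_smul, ← hk]
        exact ⟨⟨t, by simpa using H.inv_mem h1⟩ * k,
          mul_smul (⟨t, by simpa using H.inv_mem h1⟩ : H) k x⟩
    rcases H.normalCore_normal.eq_bot_or_eq_top with h | h
    · rw [h, Subgroup.mem_bot] at hcore
      exact hg₀ hcore
    · have hHtop : H = ⊤ := top_le_iff.1 (h ▸ H.normalCore_le)
      apply Set.infinite_univ (α := Λ)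
      apply hH2.subset
      intro y _
      obtain ⟨g, rfl⟩ := exists_smul_eq G x y
      exact ⟨⟨g, by rw [hHtop]; exact Subgroup.mem_top g⟩, rfl⟩
  · push Not at hall
    obtain ⟨z, hz⟩ := hall
    obtain ⟨t, rfl⟩ := exists_smul_eq G x z
    apply hinf
    apply (hfin t).subset
    intro y hy hty
    apply hz
    -- `t y = y ∈ S`
    let Ψ : Set Λ := orbit (stabilizer G x) y
    obtain ⟨H, hH1, hH2, hH3⟩ := exists_block hlf x (Ψ := Ψ) hy (by
      rintro u hu _ ⟨w, rfl⟩
      exact ⟨⟨u, hu⟩ * w, mul_smul (⟨u, hu⟩ : stabilizer G x) w y⟩)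
    apply hSsub H hH1 hH2
    obtain ⟨h, hh⟩ := hH3 (mem_orbit_self y)
    have hh' : (h : G) • x = y := hh
    have h1 : (h : G)⁻¹ * t * h ∈ stabilizer G x := by
      rw [mem_stabilizer_iff, mul_smul, mul_smul, hh', hty, inv_smul_eq_iff, hh']
    have h2 : t ∈ H := by
      have h3 := H.mul_mem (H.mul_mem h.2 (hH1 h1)) (H.inv_mem h.2)
      have h4 : (h : G) * ((h : G)⁻¹ * t * h) * (h : G)⁻¹ = t := by group
      rwa [h4] at h3
    exact ⟨⟨t, h2⟩, rfl⟩

theorem finitary_trans (hfin : ∀ g : G, {y : Λ | g • y ≠ y}.Finite) :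
    ∃ K : Subgroup G, K ≠ ⊤ ∧ ∃ k : K, k ≠ 1 ∧
      ∀ N : Subgroup K, N.Normal → N.FiniteIndex → k ∈ N := by
  classical
  obtain ⟨x⟩ := (inferInstance : Nonempty Λ)
  let S : Set Λ := {y : Λ | (orbit (stabilizer G x) y).Finite}
  have hS : S.Finite := suborbits_finite hfin x
  have hxS : x ∈ S := by
    apply (Set.finite_singleton x).subset
    rintro _ ⟨u, rfl⟩
    exact u.2
  let K : Subgroup G := fixingSubgroup G S
  have hKA : K ≤ stabilizer G x := by
    intro k hk
    exact (mem_fixingSubgroup_iff G).1 hk x hxS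
  have hSinv : ∀ u ∈ stabilizer G x, ∀ y ∈ S, u • y ∈ S := by
    intro u hu y hy
    apply Set.Finite.subset (hy : (orbit (stabilizer G x) y).Finite)
    rintro _ ⟨w, rfl⟩
    exact ⟨w * ⟨u, hu⟩, mul_smul w (⟨u, hu⟩ : stabilizer G x) y⟩
  have hKidx : K.relIndex (stabilizer G x) ≠ 0 := by
    have hSf : Finite S := hS
    let φ : stabilizer G x → (S → S) := fun u y => ⟨(u : G) • (y : Λ), hSinv u u.2 y y.2⟩
    rw [Subgroup.relIndex, Subgroup.index]
    apply Nat.card_ne_zero.2
    refine ⟨⟨QuotientGroup.mk 1⟩, ?_⟩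
    apply Finite.of_injective (fun q : stabilizer G x ⧸ K.subgroupOf (stabilizer G x) => φ q.out)
    intro p q hpq
    rw [← QuotientGroup.out_eq' p, ← QuotientGroup.out_eq' q, QuotientGroup.eq,
      Subgroup.mem_subgroupOf]
    rw [mem_fixingSubgroup_iff]
    intro y hy
    have h1 := congrArg Subtype.val (congrFun hpq ⟨y, hy⟩)
    change ((p.out : stabilizer G x) : G) • y = ((q.out : stabilizer G x) : G) • y at h1
    change (((p.out : stabilizer G x)⁻¹ * q.out : stabilizer G x) : G) • y = y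
    rw [Subgroup.coe_mul, mul_smul, ← h1, Subgroup.coe_inv, inv_smul_smul]
  have hKorb : ∀ y, y ∉ S → (orbit K y).Infinite := by
    intro y hy hf
    exact hy (orbit_finite_of_le hKA hKidx y hf)
  have hGinf : ∀ y : Λ, (orbit (⊤ : Subgroup G) y).Infinite := by
    intro y hf
    apply Set.infinite_univ (α := Λ)
    apply hf.subset
    intro z _
    obtain ⟨g, rfl⟩ := exists_smul_eq G y z
    exact ⟨⟨g, Subgroup.mem_top g⟩, rfl⟩
  -- two noncommuting elements
  obtain ⟨a₀, b₀, hab₀⟩ : ∃ a b : G, a * b ≠ b * a := by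
    by_contra hcon
    push Not at hcon
    obtain ⟨g₀, hg₀⟩ := exists_ne (1 : G)
    obtain ⟨y, hy⟩ : ∃ y : Λ, g₀ • y ≠ y := by
      by_contra hc
      push Not at hc
      apply hg₀
      apply eq_of_smul_eq_smul (α := Λ)
      intro y
      rw [hc y, one_smul]
    apply Set.infinite_univ (α := Λ)
    apply (hfin g₀).subset
    intro z _ hz
    obtain ⟨t, rfl⟩ := exists_smul_eq G y z
    apply hy
    rw [← mul_smul, hcon, mul_smul] at hz
    exact smul_left_cancel t hz
  obtain ⟨h, -, hh⟩ := sep (⊤ : Subgroup G) ((hfin a₀).union (hfin b₀)) hS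
    (fun y _ => hGinf y)
  have hconj : ∀ c : G, (∀ y, c • y ≠ y → h • y ∉ S) → h * c * h⁻¹ ∈ K := by
    intro c hc
    rw [mem_fixingSubgroup_iff]
    intro y hy
    rw [mul_smul, mul_smul]
    by_contra hne
    have h1 : c • (h⁻¹ • y) ≠ h⁻¹ • y := by
      intro h2
      apply hne
      rw [h2, smul_inv_smul]
    have h2 := hc _ h1
    rw [smul_inv_smul] at h2
    exact h2 hy
  have haK : h * a₀ * h⁻¹ ∈ K := hconj a₀ (fun y hy => hh y (Or.inl hy))
  have hbK : h * b₀ * h⁻¹ ∈ K := hconj b₀ (fun y hy => hh y (Or.inr hy))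
  set a : G := h * a₀ * h⁻¹ with ha
  set b : G := h * b₀ * h⁻¹ with hb
  have hab : a * b ≠ b * a := by
    intro h1
    apply hab₀
    rw [ha, hb] at h1
    have h2 : h * (a₀ * b₀) * h⁻¹ = h * (b₀ * a₀) * h⁻¹ := by
      calc h * (a₀ * b₀) * h⁻¹ = h * a₀ * h⁻¹ * (h * b₀ * h⁻¹) := by group
        _ = h * b₀ * h⁻¹ * (h * a₀ * h⁻¹) := h1
        _ = h * (b₀ * a₀) * h⁻¹ := by group
    exact mul_left_cancel (mul_right_cancel h2)
  refine ⟨K, ?_, ⟨a, haK⟩ * ⟨b, hbK⟩ * ⟨a, haK⟩⁻¹ * ⟨b, hbK⟩⁻¹, ?_, ?_⟩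
  · intro htop
    apply hGinf x
    apply (Set.finite_singleton x).subset
    rintro _ ⟨u, rfl⟩
    have h1 : (u : G) ∈ K := by rw [htop]; exact Subgroup.mem_top _
    exact hKA h1
  · intro h1
    apply hab
    have h2 := congrArg (fun z : K => (z : G)) h1
    change a * b * a⁻¹ * b⁻¹ = 1 at h2
    rw [mul_inv_eq_one, mul_inv_eq_iff_eq_mul] at h2
    exact h2
  · intro N hN hNf
    let N' : Subgroup G := N.map K.subtype
    have hN'K : N' ≤ K := Subgroup.map_subtype_le N
    have hN'idx : N'.relIndex K ≠ 0 := by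
      have h1 : N'.subgroupOf K = N := by
        rw [Subgroup.subgroupOf, Subgroup.comap_map_eq_self_of_injective K.subtype_injective]
      rw [Subgroup.relIndex, h1]
      exact hNf.index_ne_zero
    have hsup : ∀ c ∈ K, ∀ y, c • y ≠ y → y ∉ S := fun c hc y hy hyS =>
      hy ((mem_fixingSubgroup_iff G).1 hc y hyS)
    obtain ⟨n, hn, hn2⟩ := sep N' (hfin a) (hfin b) (by
      intro y hy hf
      exact hKorb y (hsup a haK y hy) (orbit_finite_of_le hN'K hN'idx y hf))
    obtain ⟨n, hn1, rfl⟩ := hn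
    have hcomm : ((n : G) * a * (n : G)⁻¹) * b = b * ((n : G) * a * (n : G)⁻¹) := by
      have key : ∀ y : Λ, b • y = y ∨ ((n : G) * a * (n : G)⁻¹) • y = y := by
        intro y
        by_contra hcon
        push Not at hcon
        obtain ⟨h1, h2⟩ := hcon
        have h3 : a • ((n : G)⁻¹ • y) ≠ (n : G)⁻¹ • y := by
          intro h4
          apply h2
          rw [mul_smul, mul_smul, h4, smul_inv_smul]
        have h4 := hn2 _ h3
        change (n : G) • ((n : G)⁻¹ • y) ∉ _ at h4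
        rw [smul_inv_smul] at h4
        exact h4 h1
      set a' : G := (n : G) * a * (n : G)⁻¹ with ha'
      apply eq_of_smul_eq_smul (α := Λ)
      intro y
      rw [mul_smul a' b y, mul_smul b a' y]
      rcases key y with h1 | h1
      · rw [h1]
        rcases key (a' • y) with h2 | h2
        · rw [h2]
        · have h3 : a' • y = y := smul_left_cancel a' h2
          rw [h3, h1]
      · rw [h1]
        rcases key (b • y) with h2 | h2
        · have h3 : b • y = y := smul_left_cancel b h2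
          rw [h3, h1]
        · exact h2
    have hcommK : (n * ⟨a, haK⟩ * n⁻¹) * (⟨b, hbK⟩ : K) = ⟨b, hbK⟩ * (n * ⟨a, haK⟩ * n⁻¹) :=
      Subtype.ext hcomm
    have hm : (n * (⟨a, haK⟩ * n⁻¹ * (⟨a, haK⟩ : K)⁻¹)) ∈ N :=
      N.mul_mem hn1 (hN.conj_mem _ (N.inv_mem hn1) _)
    generalize (⟨a, haK⟩ : K) = A at *
    generalize (⟨b, hbK⟩ : K) = B at *
    have hm2 := N.inv_mem hm
    have h1 : A * B * A⁻¹ * B⁻¹ =
        (n * (A * n⁻¹ * A⁻¹))⁻¹ * (B * (n * (A * n⁻¹ * A⁻¹)) * B⁻¹) := by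
      have h2 : (n * (A * n⁻¹ * A⁻¹))⁻¹ * (B * (n * (A * n⁻¹ * A⁻¹)) * B⁻¹) =
          (n * (A * n⁻¹ * A⁻¹))⁻¹ * (B * (n * A * n⁻¹)) * A⁻¹ * B⁻¹ := by group
      rw [h2, ← hcommK]
      group
    rw [h1]
    exact N.mul_mem hm2 (hN.conj_mem _ hm _)

end trans

/-- an infinite simple group with a faithful action by finitary permutations has a proper
subgroup which is not residually finite. -/
theorem finitary_not_rf {G : Type u} [Group G] [Infinite G] [IsSimpleGroup G] {Λ : Type v}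
    (ρ : G →* Equiv.Perm Λ) (hinj : Function.Injective ρ)
    (hfin : ∀ g : G, {y : Λ | ρ g y ≠ y}.Finite) :
    ∃ K : Subgroup G, K ≠ ⊤ ∧ ∃ k : K, k ≠ 1 ∧
      ∀ N : Subgroup K, N.Normal → N.FiniteIndex → k ∈ N := by
  classical
  let act : MulAction G Λ := MulAction.compHom Λ ρ
  have hact : ∀ (g : G) (y : Λ), g • y = ρ g y := fun _ _ => rfl
  obtain ⟨g₀, hg₀⟩ := exists_ne (1 : G)
  obtain ⟨x, hx⟩ : ∃ x : Λ, ρ g₀ x ≠ x := by
    by_contra hc
    push Not at hc
    apply hg₀
    apply hinj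
    rw [map_one]
    exact Equiv.ext hc
  -- the action on the orbit of `x`
  let φ : G →* Equiv.Perm (orbit G x) := MulAction.toPermHom G (orbit G x)
  have hφ : Function.Injective φ := by
    rw [← MonoidHom.ker_eq_bot_iff]
    rcases (inferInstance : φ.ker.Normal).eq_bot_or_eq_top with h | h
    · exact h
    · exfalso
      have h1 : g₀ ∈ φ.ker := by rw [h]; exact Subgroup.mem_top _
      rw [MonoidHom.mem_ker] at h1
      have h2 := congrArg (fun σ : Equiv.Perm (orbit G x) => σ ⟨x, mem_orbit_self x⟩) h1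
      exact hx (congrArg Subtype.val h2)
  have hfaith : FaithfulSMul G (orbit G x) := by
    refine ⟨fun {a b} h => hφ (Equiv.ext fun y => ?_)⟩
    exact h y
  have hinf : Infinite (orbit G x) := by
    by_contra hc
    rw [not_infinite_iff_finite] at hc
    have : Finite G := Finite.of_injective φ hφ
    exact not_finite G
  apply finitary_trans (G := G) (Λ := orbit G x)
  intro g
  have h1 : Set.InjOn (Subtype.val : orbit G x → Λ) {y : orbit G x | g • y ≠ y} :=
    Subtype.val_injective.injOn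
  apply Set.Finite.of_finite_image _ h1
  apply (hfin g).subset
  rintro _ ⟨y, hy, rfl⟩ h2
  exact hy (Subtype.ext h2)

end Pool.Agent.LFS
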