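import Mathlib
import Pool.Agent.LFS.Cfg

set_option autoImplicit false

/-!
The main theorem.
-/

namespace Pool.Agent.LFS

open Equiv

universe u

variable {G : Type u} [Group G]

/-- a finite subgroup containing `F` with an alternating quotient. -/
structure Cov (P : Set ℕ) (F : Finset G) (s : ℕ) where
  H : Subgroup G
  fin : Finite H
  mem : ∀ g ∈ F, g ∈ H
  n : ℕ
  ψ : H →* Perm (Fin n)
  range : ψ.range = alternatingGroup (Fin n)
  ker : ∀ h, ψ h = 1 → (h : G) ∈ F → h = 1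
  few : ∀ (L : Subgroup ψ.ker) [L.Normal], Nat.card (ψ.ker ⧸ L) ≤ s → ¬ SecIn P (ψ.ker ⧸ L) →
    n ^ s < (Subgroup.normalizer ((L.map ψ.ker.subtype : Subgroup H) : Set H)).index

/-- number of points moved. -/
noncomputable def mv {n : ℕ} (σ : Perm (Fin n)) : ℕ := (Finset.univ.filter (fun p => σ p ≠ p)).card

theorem few_mono {P : Set ℕ} {F : Finset G} {s : ℕ} (C : Cov P F s) (hn : 1 ≤ C.n) (s' t : ℕ)
    (h1 : s' ≤ s) (h2 : t ≤ s) (L : Subgroup C.ψ.ker) [L.Normal]
    (hL : Nat.card (C.ψ.ker ⧸ L) ≤ s') (hns : ¬ SecIn P (C.ψ.ker ⧸ L)) :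
    C.n ^ t < (Subgroup.normalizer ((L.map C.ψ.ker.subtype : Subgroup C.H) : Set C.H)).index :=
  (Nat.pow_le_pow_right hn h2).trans_lt (C.few L (hL.trans h1) hns)

def Cov.mono {P : Set ℕ} {F F' : Finset G} {s s' : ℕ} (C : Cov P F s) (hn : 1 ≤ C.n)
    (hF : F' ⊆ F) (hs : s' ≤ s) : Cov P F' s' where
  H := C.H
  fin := C.fin
  mem := fun g hg => C.mem g (hF hg)
  n := C.n
  ψ := C.ψ
  range := C.range
  ker := fun h h1 h2 => C.ker h h1 (hF h2)
  few := fun L _ hL hns => few_mono C hn s' s' hs hs L hL hns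

theorem exists_large [Infinite G] (P : Set ℕ) (B : ℕ) :
    ∃ F : Finset G, ∀ s (C : Cov P F s), B ≤ C.n := by
  classical
  obtain ⟨F0, hF0⟩ := Infinite.exists_subset_card_eq G (B.factorial + 1)
  refine ⟨F0 ∪ (F0 ×ˢ F0).image (fun z => z.1⁻¹ * z.2), ?_⟩
  intro s C
  by_contra hlt
  push Not at hlt
  have hinj : Function.Injective
      (fun x : F0 => C.ψ ⟨(x : G), C.mem _ (Finset.mem_union_left _ x.2)⟩) := by
    intro x y hxy
    have h1 := C.ker (⟨(x : G), C.mem _ (Finset.mem_union_left _ x.2)⟩⁻¹ *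
      ⟨(y : G), C.mem _ (Finset.mem_union_left _ y.2)⟩) (by
        rw [map_mul, map_inv, inv_mul_eq_one]
        exact hxy) (by
        change (x : G)⁻¹ * (y : G) ∈ _
        exact Finset.mem_union_right _ (Finset.mem_image.2
          ⟨((x : G), (y : G)), Finset.mem_product.2 ⟨x.2, y.2⟩, rfl⟩))
    rw [inv_mul_eq_one] at h1
    exact Subtype.ext (congrArg (fun z : C.H => (z : G)) h1)
  have h2 := Fintype.card_le_of_injective _ hinj
  rw [Fintype.card_coe, hF0, Fintype.card_perm, Fintype.card_fin] at h2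
  have h3 : C.n.factorial ≤ B.factorial := Nat.factorial_le hlt.le
  omega

theorem tight_map {P : Set ℕ} {H : Subgroup G} {X Y : Subgroup H} (h : Tight P X Y) :
    Tight P (X.map H.subtype) (Y.map H.subtype) := by
  refine ⟨Subgroup.map_mono h.1, ?_⟩
  intro Q _ f hf
  let e : Y ≃* (Y.map H.subtype) := Y.equivMapOfInjective H.subtype H.subtype_injective
  have he : ∀ y : Y, ((e y : Y.map H.subtype) : G) = ((y : H) : G) := fun y => rfl
  have h1 := h.2 Q (f.comp e.toMonoidHom) (by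
    intro y
    obtain ⟨x, hx, hxy⟩ := hf (e y)
    obtain ⟨x', rfl⟩ := e.surjective x
    refine ⟨x', ?_, hxy⟩
    rw [he] at hx
    obtain ⟨z, hz, hzx⟩ := hx
    have : z = (x' : H) := Subtype.ext hzx
    rwa [← this])
  have h2 : (f.comp e.toMonoidHom).range = f.range := by
    ext q
    constructor
    · rintro ⟨y, rfl⟩
      exact ⟨e y, rfl⟩
    · rintro ⟨y, rfl⟩
      obtain ⟨y', rfl⟩ := e.surjective y
      exact ⟨y', rfl⟩
  rwa [h2] at h1

/-- the step inside a cover. -/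
theorem step_in_cover {P : Set ℕ} {F : Finset G} {s : ℕ} (C : Cov P F s) (D X : Subgroup G)
    (hXD : X ≤ D) (g : G) (hgD : g ∈ D) (hgX : g ∉ X) (hDH : D ≤ C.H) (t : ℕ)
    (hcfg : HasCfg (C.ψ.comp (Subgroup.inclusion hDH)) t) (hts : t ≤ s) (hXs : Nat.card X ≤ s)
    (hn : t + 5 + Nat.card X ≤ C.n) :
    ∃ Y : Subgroup G, Finite Y ∧ g ∉ Y ∧ Tight P X Y := by
  have hfin : Finite C.H := C.fin
  have hXH : X ≤ C.H := hXD.trans hDH
  let D' := D.subgroupOf C.H
  let X' := X.subgroupOf C.H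
  have hcardX : Nat.card X' = Nat.card X :=
    Nat.card_congr (Subgroup.subgroupOfEquivOfLe hXH).toEquiv
  have hcfg' : HasCfg (C.ψ.comp D'.subtype) t := by
    obtain ⟨I, hI, e, a, w, h1, h2, h3, h4, h5, h6⟩ := hcfg
    let eq1 : D' ≃* D := Subgroup.subgroupOfEquivOfLe hDH
    refine ⟨I, hI, e, a.comp eq1.toMonoidHom, w, ?_, h2, ?_, ?_, ?_, h6⟩
    · intro d i
      have h7 := h1 (eq1 d) i
      exact h7
    · intro d d'
      exact h3 (eq1 d) (eq1 d')
    · intro d d' h
      have h7 := h4 (eq1 d) (eq1 d') h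
      exact (MulEquiv.map_eq_one_iff eq1).1 h7
    · intro d
      exact h5 (eq1 d)
  obtain ⟨Y, hgY, hY⟩ := core (P := P) C.ψ C.range D' X'
    (fun x hx => hXD hx) ⟨g, hDH hgD⟩ hgD hgX t hcfg'
    (by rw [hcardX]; exact hn)
    (fun L _ hL hns => few_mono C (by omega) (Nat.card X) t hXs hts L (by rwa [hcardX] at hL) hns)
  have hYfin : Finite (Y.map C.H.subtype) :=
    Finite.of_injective _ (Subgroup.inclusion_injective (Subgroup.map_subtype_le Y))
  refine ⟨Y.map C.H.subtype, hYfin, ?_, ?_⟩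
  · rintro ⟨y, hy, hyg⟩
    apply hgY
    have : y = ⟨g, hDH hgD⟩ := Subtype.ext hyg
    rwa [← this]
  · have h1 := tight_map hY
    have h2 : X'.map C.H.subtype = X := by
      rw [Subgroup.subgroupOf_map_subtype]
      exact inf_eq_left.2 hXH
    rwa [h2] at h1

/-- the elements moving boundedly many points whenever `κ` does. -/
def bdd (κ : G) (N0 : ℕ) : Subgroup G where
  carrier := {d | ∃ (F : Finset G) (m : ℕ), ∀ (H : Subgroup G) (n : ℕ) (ψ : H →* Perm (Fin n))
    (hκ : κ ∈ H), (∀ f ∈ F, f ∈ H) → mv (ψ ⟨κ, hκ⟩) ≤ N0 → ∀ hd : d ∈ H, mv (ψ ⟨d, hd⟩) ≤ m}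
  one_mem' := by
    refine ⟨∅, 0, ?_⟩
    intro H n ψ hκ _ _ hd
    have h1 : (⟨1, hd⟩ : H) = 1 := rfl
    rw [h1, map_one]
    simp [mv]
  mul_mem' := by
    classical
    rintro d e ⟨F, m, h⟩ ⟨F', m', h'⟩
    refine ⟨F ∪ F' ∪ {d, e}, m + m', ?_⟩
    intro H n ψ hκ hF hN hde
    have hd : d ∈ H := hF d (by simp)
    have he : e ∈ H := hF e (by simp)
    have h1 := h H n ψ hκ (fun f hf => hF f (by simp [hf])) hN hd
    have h2 := h' H n ψ hκ (fun f hf => hF f (by simp [hf])) hN he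
    have h3 : (⟨d * e, hde⟩ : H) = ⟨d, hd⟩ * ⟨e, he⟩ := rfl
    rw [h3, map_mul]
    refine le_trans ?_ (Nat.add_le_add h1 h2)
    refine le_trans (Finset.card_le_card ?_) (Finset.card_union_le _ _)
    intro p hp
    rw [Finset.mem_filter] at hp
    by_contra hq
    rw [Finset.mem_union, Finset.mem_filter, Finset.mem_filter] at hq
    push Not at hq
    have hq1 := hq.1 (Finset.mem_univ p)
    have hq2 := hq.2 (Finset.mem_univ p)
    apply hp.2
    rw [Perm.mul_apply, hq2, hq1]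
  inv_mem' := by
    rintro d ⟨F, m, h⟩
    refine ⟨F, m, ?_⟩
    intro H n ψ hκ hF hN hd
    have hd' : d ∈ H := by simpa using hd
    have h1 := h H n ψ hκ hF hN hd'
    have h3 : (⟨d⁻¹, hd⟩ : H) = ⟨d, hd'⟩⁻¹ := rfl
    rw [h3, map_inv]
    refine le_trans (Finset.card_le_card ?_) h1
    intro p hp
    rw [Finset.mem_filter] at hp ⊢
    refine ⟨hp.1, fun hq => hp.2 ?_⟩
    rw [Perm.inv_eq_iff_eq, hq]

theorem bdd_normal (κ : G) (N0 : ℕ) : (bdd κ N0).Normal := by
  classical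
  refine ⟨?_⟩
  rintro d ⟨F, m, h⟩ c
  refine ⟨F ∪ {c, d}, m, ?_⟩
  intro H n ψ hκ hF hN hcd
  have hc : c ∈ H := hF c (by simp)
  have hd : d ∈ H := hF d (by simp)
  have h1 := h H n ψ hκ (fun f hf => hF f (by simp [hf])) hN hd
  have h3 : (⟨c * d * c⁻¹, hcd⟩ : H) = ⟨c, hc⟩ * ⟨d, hd⟩ * ⟨c, hc⟩⁻¹ := rfl
  rw [h3, map_mul, map_mul, map_inv]
  refine le_trans ?_ h1
  refine Finset.card_le_card_of_injOn (fun p => (ψ ⟨c, hc⟩)⁻¹ p) ?_ ?_
  · intro p hp
    have hp' := (Finset.mem_filter.1 hp).2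
    refine Finset.mem_filter.2 ⟨Finset.mem_univ _, fun hq => hp' ?_⟩
    rw [Perm.mul_apply, Perm.mul_apply, hq]
    simp
  · intro p _ q _ hpq
    exact (ψ ⟨c, hc⟩)⁻¹.injective hpq

theorem self_mem_bdd (κ : G) (N0 : ℕ) : κ ∈ bdd κ N0 :=
  ⟨∅, N0, fun _ _ _ _ _ hN _ => hN⟩

theorem step [Infinite G] [IsSimpleGroup G] {P : Set ℕ}
    (hcov : ∀ (F : Finset G) (s : ℕ), Nonempty (Cov P F s)) (X : Subgroup G) [Finite X] (g : G)
    (hgX : g ∉ X) : ∃ Y : Subgroup G, Finite Y ∧ g ∉ Y ∧ Tight P X Y := by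
  classical
  let D : Subgroup G := Subgroup.closure ((X : Set G) ∪ {g})
  have hXD : X ≤ D := fun x hx => Subgroup.subset_closure (Or.inl hx)
  have hgD : g ∈ D := Subgroup.subset_closure (Or.inr rfl)
  have hXfin : (X : Set G).Finite := Set.toFinite _
  have hDfin : Finite D := by
    obtain ⟨C⟩ := hcov (insert g hXfin.toFinset) 0
    have hfinH : Finite C.H := C.fin
    have hle : D ≤ C.H := by
      rw [Subgroup.closure_le]
      rintro y (hy | rfl)
      · exact C.mem y (by simp [hy])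
      · exact C.mem _ (by simp)
    exact Finite.of_injective _ (Subgroup.inclusion_injective hle)
  have hDft : Fintype D := Fintype.ofFinite _
  have hDnt : Nontrivial D := by
    refine ⟨(⟨g, hgD⟩ : D), 1, fun h => hgX ?_⟩
    have : g = 1 := congrArg Subtype.val h
    rw [this]; exact X.one_mem
  let FD : Finset G := Finset.image (fun d : D => (d : G)) Finset.univ
  have hFD : ∀ d ∈ D, d ∈ FD := fun d hd =>
    Finset.mem_image.2 ⟨(⟨d, hd⟩ : D), Finset.mem_univ _, rfl⟩
  by_cases hfin : ∃ κ : G, κ ≠ 1 ∧ ∃ N0 : ℕ, ∀ (F : Finset G) (s : ℕ), ∃ C : Cov P F s,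
      ∃ hκ : κ ∈ C.H, mv (C.ψ ⟨κ, hκ⟩) ≤ N0
  · obtain ⟨κ, hκ1, N0, hκ⟩ := hfin
    have htop : bdd κ N0 = ⊤ := by
      rcases (bdd_normal κ N0).eq_bot_or_eq_top with h | h
      · exfalso
        have h1 := self_mem_bdd κ N0
        rw [h, Subgroup.mem_bot] at h1
        exact hκ1 h1
      · exact h
    have hall : ∀ d : D, ∃ (F : Finset G) (m : ℕ), ∀ (H : Subgroup G) (n : ℕ)
        (ψ : H →* Perm (Fin n)) (hκ : κ ∈ H), (∀ f ∈ F, f ∈ H) → mv (ψ ⟨κ, hκ⟩) ≤ N0 →
        ∀ hd : (d : G) ∈ H, mv (ψ ⟨d, hd⟩) ≤ m := by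
      intro d
      have h1 : (d : G) ∈ bdd κ N0 := by rw [htop]; exact Subgroup.mem_top _
      exact h1
    choose Fd md hd using hall
    let m : ℕ := ∑ d : D, md d
    let s : ℕ := 2 * m + Nat.card X
    obtain ⟨FL, hFL⟩ := exists_large (G := G) P (2 * m + 5 + Nat.card X)
    obtain ⟨C, hκC, hC⟩ := hκ (FD ∪ Finset.univ.biUnion Fd ∪ FL) s
    have hnC : 2 * m + 5 + Nat.card X ≤ C.n := by
      by_cases h0 : 1 ≤ C.n
      · exact hFL s (C.mono h0 (by intro x hx; simp [hx]) le_rfl)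
      · exfalso
        -- with no points the two elements `1, g` of `D` would coincide
        have hn0 : C.n = 0 := by omega
        have hgC : g ∈ C.H := C.mem g (by simp [hFD g hgD])
        have h1 : C.ψ ⟨g, hgC⟩ = 1 := by
          apply Equiv.ext
          intro p
          exact (Fin.elim0 (hn0 ▸ p))
        have h2 := C.ker _ h1 (by simp [hFD g hgD])
        apply hgX
        have h3 : g = 1 := congrArg Subtype.val h2
        rw [h3]; exact X.one_mem
    have hDH : D ≤ C.H := fun d hd => C.mem d (by simp [hFD d hd])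
    let ρ : D →* Perm (Fin C.n) := C.ψ.comp (Subgroup.inclusion hDH)
    have hρinj : Function.Injective ρ := by
      rw [injective_iff_map_eq_one]
      intro d hd1
      have h1 := C.ker (Subgroup.inclusion hDH d) hd1 (by
        change (d : G) ∈ _
        simp [hFD d d.2])
      exact Subtype.ext (congrArg (fun z : C.H => (z : G)) h1)
    let S : Finset (Fin C.n) := Finset.univ.biUnion
      (fun d : D => Finset.univ.filter (fun p => ρ d p ≠ p))
    have hScard : S.card ≤ m := by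
      refine Finset.card_biUnion_le.trans (Finset.sum_le_sum ?_)
      intro d _
      exact hd d C.H C.n C.ψ hκC (fun f hf => C.mem f (by
        simp only [Finset.mem_union, Finset.mem_biUnion, Finset.mem_univ, true_and]
        exact Or.inl (Or.inr ⟨d, hf⟩))) hC (hDH d.2)
    have hSout : ∀ d p, p ∉ S → ρ d p = p := by
      intro d p hp
      by_contra hne
      exact hp (Finset.mem_biUnion.2 ⟨d, Finset.mem_univ _, Finset.mem_filter.2
        ⟨Finset.mem_univ _, hne⟩⟩)
    have hcfg := cfg_finitary ρ hρinj S hSout (by omega)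
    have hcfg' : HasCfg ρ (2 * m) := by
      obtain ⟨I, hI, e, a, w, h1, h2, h3, h4, h5, h6⟩ := hcfg
      exact ⟨I, hI, e, a, w, h1, h2, h3, h4, h5, h6.trans (by omega)⟩
    exact step_in_cover C D X hXD g hgD hgX hDH (2 * m) hcfg' (by omega) (by omega) hnC
  · push Not at hfin
    let N0 : ℕ := Nat.card (Subgroup D) * Fintype.card D ^ 4
    have hall : ∀ d : D, ∃ (F : Finset G) (s : ℕ), d ≠ 1 → ∀ (C : Cov P F s)
        (hd : (d : G) ∈ C.H), N0 < mv (C.ψ ⟨d, hd⟩) := by
      intro d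
      by_cases hd1 : d = 1
      · exact ⟨∅, 0, fun h => absurd hd1 h⟩
      · have hd1' : (d : G) ≠ 1 := fun h => hd1 (Subtype.ext h)
        obtain ⟨F, s, h⟩ := hfin d hd1' N0
        exact ⟨F, s, fun _ => h⟩
    choose Fd sd hd using hall
    let m : ℕ := Fintype.card D ^ 4
    let s : ℕ := (∑ d : D, sd d) + m + Nat.card X
    obtain ⟨FL, hFL⟩ := exists_large (G := G) P (m + 5 + Nat.card X)
    obtain ⟨C⟩ := hcov (FD ∪ Finset.univ.biUnion Fd ∪ FL) s
    have h0 : 1 ≤ C.n := by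
      by_contra h0
      have hn0 : C.n = 0 := by omega
      have hgC : g ∈ C.H := C.mem g (by simp [hFD g hgD])
      have h1 : C.ψ ⟨g, hgC⟩ = 1 := by
        apply Equiv.ext
        intro p
        exact (Fin.elim0 (hn0 ▸ p))
      have h2 := C.ker _ h1 (by simp [hFD g hgD])
      apply hgX
      have h3 : g = 1 := congrArg Subtype.val h2
      rw [h3]; exact X.one_mem
    have hnC : m + 5 + Nat.card X ≤ C.n :=
      hFL s (C.mono h0 (by intro x hx; simp [hx]) le_rfl)
    have hDH : D ≤ C.H := fun d hd => C.mem d (by simp [hFD d hd])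
    let ρ : D →* Perm (Fin C.n) := C.ψ.comp (Subgroup.inclusion hDH)
    have hcfg : HasCfg ρ m := by
      apply cfg_nonfinitary ρ
      intro d hd1
      have hsd : sd d ≤ s := by
        have := Finset.single_le_sum (f := sd) (fun i _ => Nat.zero_le _) (Finset.mem_univ d)
        omega
      have h1 := hd d hd1 (C.mono h0 (F' := Fd d) (by
        intro x hx
        simp only [Finset.mem_union, Finset.mem_biUnion, Finset.mem_univ, true_and]
        exact Or.inl (Or.inr ⟨d, hx⟩)) hsd) (hDH d.2)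
      exact h1.le
    exact step_in_cover C D X hXD g hgD hgX hDH m hcfg (by omega) (by omega) hnC

theorem not_secIn_alt {P : Set ℕ} {n₀ n : ℕ} (h5 : 5 ≤ n₀) (hP : n₀.factorial / 2 ∉ P)
    (hn : n₀ ≤ n) : ¬ SecIn P (alternatingGroup (Fin n)) := by
  classical
  intro h
  obtain ⟨S, hS⟩ : ∃ S : Finset (Fin n), S.card = n₀ := by
    obtain ⟨S, -, hS⟩ := Finset.exists_subset_card_eq
      (s := (Finset.univ : Finset (Fin n))) (n := n₀) (by simpa using hn)
    exact ⟨S, hS⟩
  have h1 : SecIn P (alternatingGroup S) :=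
    h.of_injective (alternatingGroup.ofSubtype S) alternatingGroup.ofSubtype_injective
  have hcard : Nat.card S = n₀ := by rw [Nat.card_eq_fintype_card, Fintype.card_coe, hS]
  have hsimple : IsSimpleGroup (alternatingGroup S) :=
    alternatingGroup.isSimpleGroup (by rw [hcard]; exact h5)
  have h2 := h1.hom ⊤ hsimple (Subgroup.topEquiv (G := alternatingGroup S)).toMonoidHom
    (Subgroup.topEquiv (G := alternatingGroup S)).surjective (by
    by_contra hb
    push Not at hb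
    have h3 : Subgroup.center (alternatingGroup S) = ⊥ :=
      alternatingGroup.center_eq_bot (by rw [hcard]; omega)
    obtain ⟨x, hx⟩ := exists_ne (1 : alternatingGroup S)
    apply hx
    rw [← Subgroup.mem_bot, ← h3, Subgroup.mem_center_iff]
    intro y
    exact hb y x)
  have hnt : Nontrivial S := by
    rw [← Fintype.one_lt_card_iff_nontrivial, Fintype.card_coe, hS]; omega
  have h4 : Nat.card (alternatingGroup S) = n₀.factorial / 2 := by
    rw [nat_card_alternatingGroup, hcard]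
  rw [h4] at h2
  exact hP h2

theorem main [Infinite G] [IsSimpleGroup G] {P : Set ℕ} {n₀ : ℕ} (h5 : 5 ≤ n₀)
    (hP : n₀.factorial / 2 ∉ P) (hcov : ∀ (F : Finset G) (s : ℕ), Nonempty (Cov P F s)) :
    ∃ K : Subgroup G, K ≠ ⊤ ∧ ∃ k : K, k ≠ 1 ∧
      ∀ N : Subgroup K, N.Normal → N.FiniteIndex → k ∈ N := by
  classical
  obtain ⟨FL, hFL⟩ := exists_large (G := G) P n₀
  obtain ⟨C⟩ := hcov FL 0
  have hCn : n₀ ≤ C.n := hFL 0 C
  have hfinH : Finite C.H := C.fin
  have hH : ¬ SecIn P C.H := by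
    intro h
    have h1 : SecIn P C.ψ.range := h.of_surjective C.ψ.rangeRestrict C.ψ.rangeRestrict_surjective
    rw [C.range] at h1
    exact not_secIn_alt h5 hP hCn h1
  obtain ⟨g, hg⟩ : ∃ g : G, g ∉ C.H := by
    by_contra hb
    push Not at hb
    have : Finite G := Finite.of_injective (fun x : G => (⟨x, hb x⟩ : C.H)) (by
      intro x y h
      exact congrArg Subtype.val h)
    exact not_finite G
  let T := {X : Subgroup G // Finite X ∧ g ∉ X}
  have hstep : ∀ X : T, ∃ Y : T, Tight P (X : Subgroup G) (Y : Subgroup G) := by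
    intro X
    have := X.2.1
    obtain ⟨Y, hY1, hY2, hY3⟩ := step hcov (X : Subgroup G) g X.2.2
    exact ⟨⟨Y, hY1, hY2⟩, hY3⟩
  choose nxt hnxt using hstep
  let X : ℕ → T := fun j => Nat.rec (motive := fun _ => T) ⟨C.H, hfinH, hg⟩ (fun _ Y => nxt Y) j
  have hX0 : (X 0 : Subgroup G) = C.H := rfl
  have hXs : ∀ j, Tight P (X j : Subgroup G) (X (j + 1) : Subgroup G) := fun j => hnxt (X j)
  have h0fin : Finite (X 0 : Subgroup G) := (X 0).2.1
  obtain ⟨k, hk1, hk2⟩ := chain_not_rf (fun j => (X j : Subgroup G)) hXs hH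
  refine ⟨⨆ j, (X j : Subgroup G), ?_, k, hk1, hk2⟩
  intro htop
  have hmono : Monotone (fun j => (X j : Subgroup G)) := monotone_nat_of_le_succ (fun j => (hXs j).1)
  have hgm : g ∈ ⨆ j, (X j : Subgroup G) := by rw [htop]; exact Subgroup.mem_top g
  obtain ⟨j, hj⟩ := (Subgroup.mem_iSup_of_directed hmono.directed_le).1 hgm
  exact (X j).2.2 hj

end Pool.Agent.LFS
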