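import Mathlib
import Pool.Agent.LFS.Main
import Pool.Agent.LFS.Finitary

set_option autoImplicit false

/-!
If one nontrivial element moves boundedly many points in arbitrarily large covers, then the
group acts faithfully by finitary permutations (on an ultraproduct).
-/

namespace Pool.Agent.LFS

open Equiv Filter

universe u

variable {G : Type u} [Group G]

theorem not_rf_of_bdd [Infinite G] [IsSimpleGroup G] (κ : G) (hκ1 : κ ≠ 1) (N0 : ℕ)
    (hcov : ∀ F : Finset G, ∃ (H : Subgroup G) (n : ℕ) (ψ : H →* Perm (Fin n)),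
      (∀ g ∈ F, g ∈ H) ∧ (∀ h : H, ψ h = 1 → (h : G) ∈ F → h = 1) ∧
        ∃ hκ : κ ∈ H, mv (ψ ⟨κ, hκ⟩) ≤ N0) :
    ∃ K : Subgroup G, K ≠ ⊤ ∧ ∃ k : K, k ≠ 1 ∧
      ∀ N : Subgroup K, N.Normal → N.FiniteIndex → k ∈ N := by
  classical
  have htop : bdd κ N0 = ⊤ := by
    rcases (bdd_normal κ N0).eq_bot_or_eq_top with h | h
    · exfalso
      have h1 := self_mem_bdd κ N0
      rw [h, Subgroup.mem_bot] at h1
      exact hκ1 h1
    · exact h
  have hcov' : ∀ F : Finset G, ∃ (H : Subgroup G) (n : ℕ) (ψ : H →* Perm (Fin n)),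
      (∀ g ∈ F, g ∈ H) ∧ (∀ h : H, ψ h = 1 → (h : G) ∈ F → h = 1) ∧
        (∃ hκ : κ ∈ H, mv (ψ ⟨κ, hκ⟩) ≤ N0) ∧ 0 < n := by
    intro F
    obtain ⟨H, n, ψ, h1, h2, hκ, h3⟩ := hcov (insert κ F)
    refine ⟨H, n, ψ, fun g hg => h1 g (Finset.mem_insert_of_mem hg),
      fun h hh hF => h2 h hh (Finset.mem_insert_of_mem hF), ⟨hκ, h3⟩, ?_⟩
    by_contra h0
    have h0' : n = 0 := by omega
    have h4 : ψ ⟨κ, hκ⟩ = 1 := by
      apply Equiv.ext
      intro p
      exact Fin.elim0 (h0' ▸ p)
    exact hκ1 (congrArg Subtype.val (h2 _ h4 (Finset.mem_insert_self _ _)))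
  choose H n ψ hmem hker hκ' hn0 using hcov'
  choose hκH hκN using hκ'
  -- the ultrafilter
  let U : Ultrafilter (Finset G) := Ultrafilter.of atTop
  have hU : ∀ F₀ : Finset G, ∀ᶠ F in (U : Filter (Finset G)), F₀ ⊆ F := fun F₀ =>
    (Ultrafilter.of_le atTop) (mem_atTop F₀)
  -- the permutation of `Fin (n F)` induced by `g`
  let σ : ∀ F : Finset G, G → Perm (Fin (n F)) := fun F g =>
    if hg : g ∈ H F then ψ F ⟨g, hg⟩ else 1
  have hσ : ∀ F g (hg : g ∈ H F), σ F g = ψ F ⟨g, hg⟩ := fun F g hg => dif_pos hg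
  have hσmul : ∀ F, ∀ a b : G, a ∈ F → b ∈ F → σ F (a * b) = σ F a * σ F b := by
    intro F a b ha hb
    rw [hσ F a (hmem F a ha), hσ F b (hmem F b hb),
      hσ F (a * b) ((H F).mul_mem (hmem F a ha) (hmem F b hb)), ← map_mul]
    rfl
  let Rel : Setoid (∀ F : Finset G, Fin (n F)) :=
    { r := fun x y => ∀ᶠ F in (U : Filter (Finset G)), x F = y F
      iseqv := ⟨fun x => Eventually.of_forall fun F => rfl,
        fun h => h.mono fun F hF => hF.symm,
        fun h1 h2 => (h1.and h2).mono fun F hF => hF.1.trans hF.2⟩ }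
  let Λ := Quotient Rel
  have hone : ∀ F, σ F 1 = 1 := by
    intro F
    rw [hσ F 1 (H F).one_mem]
    exact map_one (ψ F)
  let φ : G → Λ → Λ := fun g => Quotient.map (fun x F => σ F g (x F)) (by
    intro x y hxy
    exact hxy.mono fun F hF => by change σ F g (x F) = σ F g (y F); rw [hF])
  have hφone : ∀ y, φ 1 y = y := by
    intro y
    induction y using Quotient.inductionOn with
    | h x =>
      apply Quotient.sound
      exact Eventually.of_forall fun F => by
        change σ F 1 (x F) = x F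
        rw [hone]; rfl
  have hφmul : ∀ a b y, φ (a * b) y = φ a (φ b y) := by
    intro a b y
    induction y using Quotient.inductionOn with
    | h x =>
      apply Quotient.sound
      refine (hU {a, b}).mono fun F hF => ?_
      change σ F (a * b) (x F) = σ F a (σ F b (x F))
      rw [hσmul F a b (hF (by simp)) (hF (by simp))]
      rfl
  let ρ : G →* Perm Λ := MonoidHom.mk' (fun g =>
    { toFun := φ g
      invFun := φ g⁻¹
      left_inv := fun y => by rw [← hφmul, inv_mul_cancel, hφone]
      right_inv := fun y => by rw [← hφmul, mul_inv_cancel, hφone] }) (by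
    intro a b
    apply Equiv.ext
    intro y
    exact hφmul a b y)
  have hρ : ∀ g (x : ∀ F : Finset G, Fin (n F)),
      ρ g (Quotient.mk Rel x) = Quotient.mk Rel (fun F => σ F g (x F)) := fun _ _ => rfl
  apply finitary_not_rf ρ
  · rw [injective_iff_map_eq_one]
    intro g hg
    by_contra hg1
    -- choose a moved point in each cover
    have h1 : ∀ F : Finset G, g ∈ F → ∃ p, σ F g p ≠ p := by
      intro F hF
      by_contra hcon
      push Not at hcon
      apply hg1
      have h2 : ψ F ⟨g, hmem F g hF⟩ = 1 := by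
        apply Equiv.ext
        intro p
        rw [← hσ F g (hmem F g hF), hcon p]
        rfl
      exact congrArg Subtype.val (hker F _ h2 hF)
    let x : ∀ F : Finset G, Fin (n F) := fun F =>
      if h : ∃ p, σ F g p ≠ p then h.choose else ⟨0, hn0 F⟩
    have h2 := congrArg (fun τ : Perm Λ => τ (Quotient.mk Rel x)) hg
    have h3 : Quotient.mk Rel (fun F => σ F g (x F)) = Quotient.mk Rel x := h2
    have h4 : ∀ᶠ F in (U : Filter (Finset G)), σ F g (x F) = x F := Quotient.exact h3
    obtain ⟨F, hF1, hF2⟩ := (h4.and (hU {g})).exists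
    have h5 := h1 F (hF2 (by simp))
    have h6 : x F = h5.choose := dif_pos h5
    rw [h6] at hF1
    exact h5.choose_spec hF1
  · intro g
    have hgb : g ∈ bdd κ N0 := by rw [htop]; exact Subgroup.mem_top g
    obtain ⟨Fg, m, hm⟩ := hgb
    by_contra hinf
    obtain ⟨t, ht1, ht2⟩ := (show Set.Infinite {y : Λ | ρ g y ≠ y} from hinf).exists_subset_card_eq
      (m + 1)
    have ht3 : ∀ y ∈ t, ρ g y ≠ y := fun y hy => ht1 (Finset.mem_coe.2 hy)
    let rep : Λ → ∀ F : Finset G, Fin (n F) := fun y => y.out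
    have hrep : ∀ y, Quotient.mk Rel (rep y) = y := fun y => Quotient.out_eq y
    have hdis : ∀ᶠ F in (U : Filter (Finset G)), ∀ y ∈ t, ∀ z ∈ t, y ≠ z → rep y F ≠ rep z F := by
      rw [Filter.eventually_all_finset]
      intro y hy
      rw [Filter.eventually_all_finset]
      intro z hz
      by_cases hyz : y = z
      · exact Eventually.of_forall fun F h => absurd hyz h
      · have h1 : ¬ ∀ᶠ F in (U : Filter (Finset G)), rep y F = rep z F := by
          intro h
          apply hyz
          rw [← hrep y, ← hrep z]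
          exact Quotient.sound h
        rw [← Ultrafilter.eventually_not] at h1
        exact h1.mono fun F hF _ => hF
    have hmv : ∀ᶠ F in (U : Filter (Finset G)), ∀ y ∈ t, σ F g (rep y F) ≠ rep y F := by
      rw [Filter.eventually_all_finset]
      intro y hy
      have h1 : ¬ ∀ᶠ F in (U : Filter (Finset G)), σ F g (rep y F) = rep y F := by
        intro h
        apply ht3 y hy
        have h2 : Quotient.mk Rel (fun F => σ F g (rep y F)) = Quotient.mk Rel (rep y) :=
          Quotient.sound h
        rw [← hrep y, hρ, h2]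
      rw [← Ultrafilter.eventually_not] at h1
      exact h1
    obtain ⟨F, ⟨hF1, hF2⟩, hF3⟩ := ((hdis.and hmv).and (hU (insert g Fg))).exists
    have hgF : g ∈ H F := hmem F g (hF3 (Finset.mem_insert_self _ _))
    have h1 := hm (H F) (n F) (ψ F) (hκH F)
      (fun f hf => hmem F f (hF3 (Finset.mem_insert_of_mem hf))) (hκN F) hgF
    have h2 : m + 1 ≤ mv (ψ F ⟨g, hgF⟩) := by
      rw [← ht2, mv]
      apply Finset.card_le_card_of_injOn (fun y => rep y F)
      · intro y hy
        refine Finset.mem_coe.2 (Finset.mem_filter.2 ⟨Finset.mem_univ _, ?_⟩)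
        rw [← hσ F g hgF]
        exact hF2 y (Finset.mem_coe.1 hy)
      · intro y hy z hz hyz
        by_contra hne
        exact hF1 y (Finset.mem_coe.1 hy) z (Finset.mem_coe.1 hz) hne hyz
    omega

end Pool.Agent.LFS
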