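import Mathlib
import Pool.Agent.LFS.Core

set_option autoImplicit false

/-!
Small quotients of the group of matrices of determinant one that act as scalars on a small
subspace.
-/

namespace Pool.Agent.LFS

open Matrix Equiv

universe u v

section stab

variable {n I : Type*} [Fintype n] [DecidableEq n] {K : Type*} [Field K]

/-- the matrices acting as scalars on the columns of `e`. -/
def stabE (e : Matrix n I K) : Subgroup (SpecialLinearGroup n K) where
  carrier := {A | ∃ μ : Kˣ, (A : Matrix n n K) * e = (μ : K) • e}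
  one_mem' := ⟨1, by simp⟩
  mul_mem' := by
    rintro A B ⟨μ, hA⟩ ⟨ν, hB⟩
    refine ⟨μ * ν, ?_⟩
    change A.1 * B.1 * e = _
    rw [Matrix.mul_assoc, hB, Matrix.mul_smul, hA, smul_smul, Units.val_mul, mul_comm]
  inv_mem' := by
    rintro A ⟨μ, hA⟩
    refine ⟨μ⁻¹, ?_⟩
    have h0 : ((A⁻¹ : SpecialLinearGroup n K) : Matrix n n K) * (A : Matrix n n K) = 1 :=
      congrArg Subtype.val (inv_mul_cancel A)
    have h1 : ((A⁻¹ : SpecialLinearGroup n K) : Matrix n n K) * ((A : Matrix n n K) * e) = e := by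
      rw [← Matrix.mul_assoc, h0, Matrix.one_mul]
    rw [hA, Matrix.mul_smul] at h1
    have h2 := congrArg (fun M => ((μ⁻¹ : Kˣ) : K) • M) h1
    simp only [smul_smul] at h2
    rwa [← Units.val_mul, inv_mul_cancel, Units.val_one, one_smul] at h2

theorem mem_stabE {e : Matrix n I K} {A : SpecialLinearGroup n K} :
    A ∈ stabE e ↔ ∃ μ : Kˣ, (A : Matrix n n K) * e = (μ : K) • e := Iff.rfl

end stab

section perm

variable {J : Type*} [Fintype J] [DecidableEq J] {K : Type*} [Field K]

/-- permutation matrices. -/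
def pm (K : Type*) [Field K] (σ : Perm J) : Matrix J J K := fun a b => if a = σ b then 1 else 0

theorem pm_mul (σ τ : Perm J) : pm K (σ * τ) = pm K σ * pm K τ := by
  ext a b
  rw [Matrix.mul_apply, Finset.sum_eq_single (τ b)]
  · change (if a = σ (τ b) then (1 : K) else 0) =
      (if a = σ (τ b) then 1 else 0) * (if τ b = τ b then 1 else 0)
    rw [if_pos (rfl : τ b = τ b), mul_one]
  · intro c _ hc
    simp only [pm, if_neg hc, mul_zero]
  · intro h
    exact absurd (Finset.mem_univ _) h

theorem pm_det (σ : Perm J) : (pm K σ).det = ((Perm.sign σ : ℤ) : K) := by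
  have h1 : pm K σ = (1 : Matrix J J K).submatrix σ.symm id := by
    ext a b
    simp only [pm, Matrix.submatrix_apply, Matrix.one_apply, id_eq, Equiv.symm_apply_eq]
  rw [h1, Matrix.det_permute, Matrix.det_one, mul_one, Perm.sign_symm]

theorem pm_transvection (σ : Perm J) (a b : J) (c : K) :
    pm K σ * transvection a b c = transvection (σ a) (σ b) c * pm K σ := by
  rw [transvection, transvection, Matrix.mul_add, Matrix.add_mul, Matrix.mul_one, Matrix.one_mul]
  congr 1
  ext x y
  rw [Matrix.mul_apply, Matrix.mul_apply, Finset.sum_eq_single a, Finset.sum_eq_single (σ b)]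
  · simp only [pm, Matrix.single_apply, true_and, and_true, EmbeddingLike.apply_eq_iff_eq]
    by_cases h1 : x = σ a
    · by_cases h2 : b = y
      · simp [h1, h2]
      · simp [h1, h2]
    · have h3 : ¬ σ a = x := fun h => h1 h.symm
      simp [h1, h3]
  · intro z _ hz
    rw [Matrix.single_apply, if_neg (fun h => hz h.2.symm), zero_mul]
  · intro h
    exact absurd (Finset.mem_univ _) h
  · intro z _ hz
    rw [Matrix.single_apply, if_neg (fun h => hz h.1.symm), mul_zero]
  · intro h
    exact absurd (Finset.mem_univ _) h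

theorem transvection_comm (a b a' b' : J) (c d : K) (h1 : b ≠ a') (h2 : b' ≠ a) :
    transvection a b c * transvection a' b' d = transvection a' b' d * transvection a b c := by
  simp only [transvection, Matrix.mul_add, Matrix.add_mul, Matrix.mul_one, Matrix.one_mul]
  rw [Matrix.single_mul_single_of_ne _ _ _ _ h1, Matrix.single_mul_single_of_ne _ _ _ _ h2]
  abel

theorem transvection_rel (a b l : J) (c : K) (hal : l ≠ a) (hbl : l ≠ b) :
    transvection a b c * transvection b l 1 =
      transvection a l c * transvection b l 1 * transvection a b c := by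
  simp only [transvection, Matrix.mul_add, Matrix.add_mul, Matrix.mul_one, Matrix.one_mul]
  rw [Matrix.single_mul_single_same, Matrix.single_mul_single_of_ne _ _ _ _ hbl,
    Matrix.single_mul_single_of_ne _ _ _ _ hal, Matrix.single_mul_single_of_ne _ _ _ _ hal]
  simp only [mul_one, Matrix.zero_mul]
  abel

end perm

section block

variable {I : Type} [Fintype I] [DecidableEq I] {k : ℕ} {K : Type} [Field K]

/-- the inclusion of the first block. -/
def incl (I : Type) [DecidableEq I] (k : ℕ) (K : Type) [Field K] :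
    Matrix (I ⊕ Fin k) I K := Matrix.fromRows 1 0

theorem trans_mem (a : I ⊕ Fin k) (j : Fin k) (h : a ≠ Sum.inr j) (c : K) :
    (⟨transvection a (Sum.inr j) c, det_transvection_of_ne _ _ h c⟩ :
      SpecialLinearGroup (I ⊕ Fin k) K) ∈ stabE (incl I k K) := by
  refine ⟨1, ?_⟩
  change (transvection a (Sum.inr j) c : Matrix (I ⊕ Fin k) (I ⊕ Fin k) K) * incl I k K = _
  rw [Units.val_one, one_smul, transvection, Matrix.add_mul, Matrix.one_mul]
  have : (Matrix.single a (Sum.inr j) c : Matrix (I ⊕ Fin k) (I ⊕ Fin k) K) * incl I k K = 0 := by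
    ext x y
    rw [Matrix.mul_apply]
    apply Finset.sum_eq_zero
    intro z _
    rw [Matrix.single_apply]
    split_ifs with h1
    · rw [← h1.2]
      simp [incl]
    · exact zero_mul _
  rw [this, add_zero]

/-- a transvection. -/
def tr (a : I ⊕ Fin k) (j : Fin k) (h : a ≠ Sum.inr j) (c : K) : stabE (incl I k K) :=
  ⟨_, trans_mem a j h c⟩

theorem tr_val (a : I ⊕ Fin k) (j : Fin k) (h : a ≠ Sum.inr j) (c : K) :
    (((tr a j h c : stabE (incl I k K)) : SpecialLinearGroup (I ⊕ Fin k) K) :
      Matrix (I ⊕ Fin k) (I ⊕ Fin k) K) = transvection a (Sum.inr j) c := rfl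

theorem ext_val {x y : stabE (incl I k K)}
    (h : (((x : SpecialLinearGroup (I ⊕ Fin k) K)) : Matrix (I ⊕ Fin k) (I ⊕ Fin k) K) =
      ((y : SpecialLinearGroup (I ⊕ Fin k) K))) : x = y := by
  apply Subtype.ext
  exact Subtype.ext h

theorem mul_val (x y : stabE (incl I k K)) :
    (((x * y : stabE (incl I k K)) : SpecialLinearGroup (I ⊕ Fin k) K) :
      Matrix (I ⊕ Fin k) (I ⊕ Fin k) K) =
    ((x : SpecialLinearGroup (I ⊕ Fin k) K) : Matrix (I ⊕ Fin k) (I ⊕ Fin k) K) *
      ((y : SpecialLinearGroup (I ⊕ Fin k) K) : Matrix (I ⊕ Fin k) (I ⊕ Fin k) K) := rfl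

/-- an even permutation. -/
def sg (σ : alternatingGroup (Fin k)) : SpecialLinearGroup (I ⊕ Fin k) K :=
  ⟨pm K (Perm.sumCongr (1 : Perm I) (σ : Perm (Fin k))), by
    rw [pm_det, Perm.sign_sumCongr, Perm.sign_one, one_mul, Perm.mem_alternatingGroup.1 σ.2]
    simp⟩

theorem sg_mem (σ : alternatingGroup (Fin k)) :
    (sg σ : SpecialLinearGroup (I ⊕ Fin k) K) ∈ stabE (incl I k K) := by
  refine ⟨1, ?_⟩
  change pm K (Perm.sumCongr (1 : Perm I) (σ : Perm (Fin k))) * incl I k K = _
  rw [Units.val_one, one_smul]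
  ext x y
  rw [Matrix.mul_apply]
  rcases x with x | x
  · rw [Fintype.sum_sum_type]
    simp [pm, incl, Matrix.one_apply]
  · rw [Fintype.sum_sum_type]
    simp [pm, incl, Matrix.one_apply]

/-- the even permutations as a homomorphism. -/
def sgHom : alternatingGroup (Fin k) →* stabE (incl I k K) :=
  MonoidHom.mk' (fun σ => ⟨sg σ, sg_mem σ⟩) (by
    intro σ τ
    apply ext_val
    rw [mul_val]
    change pm K _ = pm K _ * pm K _
    rw [← pm_mul]
    congr 1
    ext x
    rcases x with x | x <;> simp)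

theorem sgHom_tr (σ : alternatingGroup (Fin k)) (a : I ⊕ Fin k) (j : Fin k)
    (h : a ≠ Sum.inr j) (c : K)
    (h' : Perm.sumCongr (1 : Perm I) (σ : Perm (Fin k)) a ≠ Sum.inr ((σ : Perm (Fin k)) j)) :
    sgHom σ * tr a j h c = tr (Perm.sumCongr (1 : Perm I) (σ : Perm (Fin k)) a)
      ((σ : Perm (Fin k)) j) h' c * sgHom σ := by
  apply ext_val
  rw [mul_val, mul_val]
  change pm K _ * transvection _ _ _ = transvection _ _ _ * pm K _
  rw [pm_transvection]
  congr 1

variable {Q : Type v} [Group Q] [Finite Q]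

theorem f_sg (f : stabE (incl I k K) →* Q) (hk : 5 ≤ k) (hQ : Nat.card Q ≤ k)
    (σ : alternatingGroup (Fin k)) : f (sgHom σ) = 1 := by
  classical
  have hsimple : IsSimpleGroup (alternatingGroup (Fin k)) :=
    alternatingGroup.isSimpleGroup (by rwa [Nat.card_eq_fintype_card, Fintype.card_fin])
  let g : alternatingGroup (Fin k) →* Q := f.comp sgHom
  rcases hsimple.eq_bot_or_eq_top_of_normal g.ker inferInstance with hb | ht
  · exfalso
    have hinj : Function.Injective g := (MonoidHom.ker_eq_bot_iff g).1 hb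
    have h1 : Nat.card (alternatingGroup (Fin k)) ≤ Nat.card Q :=
      Nat.card_le_card_of_injective _ hinj
    have h2 : Nat.card Q < Nat.card (alternatingGroup (Fin k)) :=
      card_alt_gt hk hQ (Fintype.card_fin k)
    omega
  · have : σ ∈ g.ker := by rw [ht]; exact Subgroup.mem_top σ
    exact MonoidHom.mem_ker.1 this

theorem exists_three (hk : 5 ≤ k) (i l : Fin k) :
    ∃ j j' m : Fin k, j ≠ i ∧ j ≠ l ∧ j' ≠ i ∧ j' ≠ l ∧ m ≠ i ∧ m ≠ l ∧ j ≠ j' ∧ j ≠ m ∧ j' ≠ m := by
  classical
  have hcard : 3 ≤ (({i, l} : Finset (Fin k))ᶜ).card := by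
    rw [Finset.card_compl, Fintype.card_fin]
    have := Finset.card_le_two (a := i) (b := l)
    omega
  obtain ⟨T, hT, hT3⟩ := Finset.exists_subset_card_eq hcard
  obtain ⟨j, j', m, h1, h2, h3, rfl⟩ := Finset.card_eq_three.1 hT3
  have hj : j ∈ ({i, l} : Finset (Fin k))ᶜ := hT (by simp)
  have hj' : j' ∈ ({i, l} : Finset (Fin k))ᶜ := hT (by simp)
  have hm : m ∈ ({i, l} : Finset (Fin k))ᶜ := hT (by simp)
  simp only [Finset.mem_compl, Finset.mem_insert, Finset.mem_singleton, not_or] at hj hj' hm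
  exact ⟨j, j', m, hj.1, hj.2, hj'.1, hj'.2, hm.1, hm.2, h1, h2, h3⟩

theorem f_tr (f : stabE (incl I k K) →* Q) (hk : 5 ≤ k) (hQ : Nat.card Q ≤ k)
    (a : I ⊕ Fin k) (l : Fin k) (h : a ≠ Sum.inr l) (c : K) : f (tr a l h c) = 1 := by
  classical
  -- an index which stands for `a`
  obtain ⟨i, hi⟩ : ∃ i : Fin k, ∀ x : Fin k, x ≠ i → a ≠ Sum.inr x := by
    rcases a with a | a
    · exact ⟨l, fun x _ => by simp⟩
    · exact ⟨a, fun x hx he => hx (Sum.inr.inj he).symm⟩
  obtain ⟨j, j', m, hji, hjl, hj'i, hj'l, hmi, hml, hjj', hjm, hj'm⟩ := exists_three hk i l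
  let σ0 : Perm (Fin k) := swap j j' * swap j' m
  have hσ0 : σ0 ∈ alternatingGroup (Fin k) := by
    rw [Perm.mem_alternatingGroup, map_mul, Perm.sign_swap hjj', Perm.sign_swap hj'm]
    rfl
  let σ : alternatingGroup (Fin k) := ⟨σ0, hσ0⟩
  have hσj : (σ : Perm (Fin k)) j = j' := by
    change swap j j' (swap j' m j) = j'
    rw [swap_apply_of_ne_of_ne hjj' hjm, swap_apply_left]
  have hσa : Perm.sumCongr (1 : Perm I) (σ : Perm (Fin k)) a = a := by
    rcases a with a | a
    · simp
    · have hai : a = i := by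
        by_contra hne
        exact hi a hne rfl
      subst hai
      change Sum.inr (swap j j' (swap j' m a)) = Sum.inr a
      rw [swap_apply_of_ne_of_ne hj'i.symm hmi.symm, swap_apply_of_ne_of_ne hji.symm hj'i.symm]
  have haj : a ≠ Sum.inr j := hi j hji
  have haj' : a ≠ Sum.inr j' := hi j' hj'i
  have h1 : f (tr a j haj c) = f (tr a j' haj' c) := by
    have h2 := sgHom_tr σ a j haj c (by rw [hσa, hσj]; exact haj')
    have h3 : tr (Perm.sumCongr (1 : Perm I) (σ : Perm (Fin k)) a) ((σ : Perm (Fin k)) j)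
        (by rw [hσa, hσj]; exact haj') c = tr a j' haj' c := by
      congr 1
    rw [h3] at h2
    have h4 := congrArg f h2
    rwa [map_mul, map_mul, f_sg f hk hQ, one_mul, mul_one] at h4
  have hjl' : (Sum.inr j : I ⊕ Fin k) ≠ Sum.inr l := fun he => hjl (Sum.inr.inj he)
  have h5 : f (tr a j haj c) * f (tr (Sum.inr j) l hjl' 1) =
      f (tr (Sum.inr j) l hjl' 1) * f (tr a j haj c) := by
    rw [h1, ← map_mul, ← map_mul]
    congr 1
    apply ext_val
    rw [mul_val, mul_val, tr_val, tr_val]
    exact transvection_comm _ _ _ _ _ _ (fun he => hjj' (Sum.inr.inj he).symm) h.symm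
  have h6 : tr a j haj c * tr (Sum.inr j) l hjl' 1 =
      tr a l h c * tr (Sum.inr j) l hjl' 1 * tr a j haj c := by
    apply ext_val
    rw [mul_val, mul_val, mul_val, tr_val, tr_val, tr_val]
    exact transvection_rel _ _ _ _ h.symm hjl'.symm
  have h7 := congrArg f h6
  rw [map_mul, map_mul, map_mul, h5, mul_assoc] at h7
  exact (mul_eq_right.1 h7.symm)

theorem stab_of_blocks (M : Matrix (I ⊕ Fin k) (I ⊕ Fin k) K) (μ : Kˣ)
    (h1 : M.toBlocks₁₁ = (μ : K) • 1) (h2 : M.toBlocks₂₁ = 0) :
    M * incl I k K = (μ : K) • incl I k K := by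
  ext y x
  have h3 : (M * incl I k K) y x = M y (Sum.inl x) := by
    rw [Matrix.mul_apply, Fintype.sum_sum_type]
    simp [incl, Matrix.one_apply]
  rw [h3]
  rcases y with y | y
  · have h4 := congrFun (congrFun h1 y) x
    change M (Sum.inl y) (Sum.inl x) = _ at h4
    rw [h4]
    rfl
  · have h4 := congrFun (congrFun h2 y) x
    change M (Sum.inr y) (Sum.inl x) = _ at h4
    rw [h4]
    simp [incl]

theorem blocks_of_stab (M : Matrix (I ⊕ Fin k) (I ⊕ Fin k) K) (μ : Kˣ)
    (h : M * incl I k K = (μ : K) • incl I k K) :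
    M.toBlocks₁₁ = (μ : K) • 1 ∧ M.toBlocks₂₁ = 0 := by
  have h3 : ∀ y x, (M * incl I k K) y x = M y (Sum.inl x) := by
    intro y x
    rw [Matrix.mul_apply, Fintype.sum_sum_type]
    simp [incl, Matrix.one_apply]
  constructor
  · ext y x
    have h4 := congrFun (congrFun h (Sum.inl y)) x
    rw [h3] at h4
    exact h4
  · ext y x
    have h4 := congrFun (congrFun h (Sum.inr y)) x
    rw [h3] at h4
    change M (Sum.inr y) (Sum.inl x) = 0
    rw [h4]
    simp [incl]

/-- a block diagonal element. -/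
def bd (M : Matrix (Fin k) (Fin k) K) (h : M.det = 1) : stabE (incl I k K) :=
  ⟨⟨Matrix.fromBlocks 1 0 0 M, by rw [Matrix.det_fromBlocks_zero₂₁, Matrix.det_one, one_mul, h]⟩,
    1, stab_of_blocks _ 1 (by simp) (by simp)⟩

/-- an upper unitriangular element. -/
def ut (N : Matrix I (Fin k) K) : stabE (incl I k K) :=
  ⟨⟨Matrix.fromBlocks 1 N 0 1, by
    rw [Matrix.det_fromBlocks_zero₂₁, Matrix.det_one, one_mul, Matrix.det_one]⟩,
    1, stab_of_blocks _ 1 (by simp) (by simp)⟩

/-- a diagonal element. -/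
def dg (μ : Kˣ) (D : Fin k → K)
    (h : (((μ : K) • (1 : Matrix I I K)).det * (Matrix.diagonal D).det) = 1) :
    stabE (incl I k K) :=
  ⟨⟨Matrix.fromBlocks ((μ : K) • 1) 0 0 (Matrix.diagonal D), by
    rw [Matrix.det_fromBlocks_zero₂₁, h]⟩,
    μ, stab_of_blocks _ μ (by simp) (by simp)⟩

theorem f_bd (f : stabE (incl I k K) →* Q) (hk : 5 ≤ k) (hQ : Nat.card Q ≤ k)
    (L : List (TransvectionStruct (Fin k) K)) :
    f (bd (L.map TransvectionStruct.toMatrix).prod
      (TransvectionStruct.det_toMatrix_prod L)) = 1 := by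
  induction L with
  | nil =>
    have : (bd (([] : List (TransvectionStruct (Fin k) K)).map TransvectionStruct.toMatrix).prod
        (TransvectionStruct.det_toMatrix_prod []) : stabE (incl I k K)) = 1 := by
      apply ext_val
      change Matrix.fromBlocks 1 0 0 1 = 1
      exact Matrix.fromBlocks_one
    rw [this, map_one]
  | cons t L ih =>
    have hne : (Sum.inr t.i : I ⊕ Fin k) ≠ Sum.inr t.j := fun h => t.hij (Sum.inr.inj h)
    have : (bd ((t :: L).map TransvectionStruct.toMatrix).prod
        (TransvectionStruct.det_toMatrix_prod (t :: L)) : stabE (incl I k K)) =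
        tr (Sum.inr t.i) t.j hne t.c * bd (L.map TransvectionStruct.toMatrix).prod
          (TransvectionStruct.det_toMatrix_prod L) := by
      apply ext_val
      rw [mul_val, tr_val]
      change Matrix.fromBlocks 1 0 0 _ = _ * Matrix.fromBlocks 1 0 0 _
      have h1 : (transvection (Sum.inr t.i) (Sum.inr t.j) t.c :
          Matrix (I ⊕ Fin k) (I ⊕ Fin k) K) = Matrix.fromBlocks 1 0 0 t.toMatrix := by
        ext x y
        rcases x with x | x <;> rcases y with y | y <;>
          simp [transvection, TransvectionStruct.toMatrix, Matrix.single_apply, Matrix.one_apply]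
      rw [h1, Matrix.fromBlocks_multiply]
      simp
    rw [this, map_mul, ih, mul_one, f_tr f hk hQ]

theorem f_ut (f : stabE (incl I k K) →* Q) (hk : 5 ≤ k) (hQ : Nat.card Q ≤ k)
    (N : Matrix I (Fin k) K) : f (ut N) = 1 := by
  induction N using Matrix.induction_on' with
  | h_zero =>
    have : (ut 0 : stabE (incl I k K)) = 1 := by
      apply ext_val
      change Matrix.fromBlocks 1 0 0 1 = 1
      exact Matrix.fromBlocks_one
    rw [this, map_one]
  | h_add p q hp hq =>
    have : (ut (p + q) : stabE (incl I k K)) = ut p * ut q := by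
      apply ext_val
      rw [mul_val]
      change Matrix.fromBlocks 1 _ 0 1 = Matrix.fromBlocks 1 _ 0 1 * Matrix.fromBlocks 1 _ 0 1
      rw [Matrix.fromBlocks_multiply]
      simp [add_comm]
    rw [this, map_mul, hp, hq, one_mul]
  | h_std_basis i j c =>
    have hne : (Sum.inl i : I ⊕ Fin k) ≠ Sum.inr j := by simp
    have : (ut (Matrix.single i j c) : stabE (incl I k K)) = tr (Sum.inl i) j hne c := by
      apply ext_val
      rw [tr_val]
      change Matrix.fromBlocks 1 _ 0 1 = _
      ext x y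
      rcases x with x | x <;> rcases y with y | y <;>
        simp [transvection, Matrix.single_apply, Matrix.one_apply]
    rw [this, f_tr f hk hQ]

theorem f_eq_dg (f : stabE (incl I k K) →* Q) (hk : 5 ≤ k) (hQ : Nat.card Q ≤ k)
    (x : stabE (incl I k K)) : ∃ μ D h, f x = f (dg μ D h) := by
  obtain ⟨A, μ, hA⟩ := x
  obtain ⟨h11, h21⟩ := blocks_of_stab A.1 μ hA
  have hAb : A.1 = Matrix.fromBlocks ((μ : K) • 1) A.1.toBlocks₁₂ 0 A.1.toBlocks₂₂ := by
    conv_lhs => rw [← Matrix.fromBlocks_toBlocks A.1]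
    rw [h11, h21]
  have hdet : ((μ : K) • (1 : Matrix I I K)).det * (A.1.toBlocks₂₂).det = 1 := by
    rw [← Matrix.det_fromBlocks_zero₂₁ _ A.1.toBlocks₁₂, ← hAb]
    exact A.2
  obtain ⟨L, L', D, hC⟩ := Matrix.Pivot.exists_list_transvec_mul_diagonal_mul_list_transvec
    A.1.toBlocks₂₂
  have hdetC : (A.1.toBlocks₂₂).det = (Matrix.diagonal D).det := by
    rw [hC, Matrix.det_mul, Matrix.det_mul, TransvectionStruct.det_toMatrix_prod,
      TransvectionStruct.det_toMatrix_prod, one_mul, mul_one]
  have hdet' : ((μ : K) • (1 : Matrix I I K)).det * (Matrix.diagonal D).det = 1 := by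
    rw [← hdetC]; exact hdet
  refine ⟨μ, D, hdet', ?_⟩
  let W : Matrix (Fin k) (Fin k) K := Matrix.diagonal D * (L'.map TransvectionStruct.toMatrix).prod
  have hW : IsUnit W.det := by
    rw [Matrix.det_mul, TransvectionStruct.det_toMatrix_prod, mul_one]
    exact isUnit_iff_ne_zero.2 (right_ne_zero_of_mul_eq_one hdet')
  let N : Matrix I (Fin k) K := A.1.toBlocks₁₂ * W⁻¹
  have hN : N * W = A.1.toBlocks₁₂ := by
    rw [Matrix.mul_assoc, Matrix.nonsing_inv_mul _ hW, Matrix.mul_one]
  have hx : (⟨A, μ, hA⟩ : stabE (incl I k K)) =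
      bd (L.map TransvectionStruct.toMatrix).prod (TransvectionStruct.det_toMatrix_prod L) *
        ut N * dg μ D hdet' *
        bd (L'.map TransvectionStruct.toMatrix).prod (TransvectionStruct.det_toMatrix_prod L') := by
    apply ext_val
    rw [mul_val, mul_val, mul_val]
    change A.1 = Matrix.fromBlocks 1 0 0 _ * Matrix.fromBlocks 1 N 0 1 *
      Matrix.fromBlocks ((μ : K) • 1) 0 0 (Matrix.diagonal D) * Matrix.fromBlocks 1 0 0 _
    rw [Matrix.fromBlocks_multiply, Matrix.fromBlocks_multiply, Matrix.fromBlocks_multiply]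
    conv_lhs => rw [hAb]
    congr 1
    · simp
    · simp only [Matrix.mul_zero, Matrix.one_mul, Matrix.mul_one, add_zero, zero_add]
      rw [Matrix.mul_assoc]
      exact hN.symm
    · simp
    · simp only [Matrix.mul_zero, Matrix.zero_mul, Matrix.mul_one, add_zero, zero_add]
      exact hC
  rw [hx, map_mul, map_mul, map_mul, f_bd f hk hQ, f_bd f hk hQ, f_ut f hk hQ, one_mul, one_mul,
    mul_one]

/-- all small quotients are commutative. -/
theorem f_comm (f : stabE (incl I k K) →* Q) (hk : 5 ≤ k) (hQ : Nat.card Q ≤ k)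
    (x y : stabE (incl I k K)) : f x * f y = f y * f x := by
  obtain ⟨μ, D, h, hx⟩ := f_eq_dg f hk hQ x
  obtain ⟨ν, E, h', hy⟩ := f_eq_dg f hk hQ y
  rw [hx, hy, ← map_mul, ← map_mul]
  congr 1
  apply ext_val
  rw [mul_val, mul_val]
  change Matrix.fromBlocks _ 0 0 _ * Matrix.fromBlocks _ 0 0 _ =
    Matrix.fromBlocks _ 0 0 _ * Matrix.fromBlocks _ 0 0 _
  rw [Matrix.fromBlocks_multiply, Matrix.fromBlocks_multiply]
  congr 1
  · simp [smul_smul, mul_comm]
  · simp
  · simp
  · simp only [Matrix.mul_zero, zero_add, Matrix.diagonal_mul_diagonal]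
    congr 1
    ext i
    exact mul_comm _ _

end block

end Pool.Agent.LFS
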