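import Mathlib
import Pool.Agent.LFS.Trans

set_option autoImplicit false

/-!
Adapted frames.
-/

namespace Pool.Agent.LFS

open Matrix Equiv

universe u v

variable {I : Type} [Fintype I] [DecidableEq I] {n : ℕ} {K : Type} [Field K]

theorem conj_mul {m n' : Type} [Fintype m] [Fintype n'] [DecidableEq m] [DecidableEq n']
    (A : Matrix n' m K) (B : Matrix m n' K) (M N : Matrix m m K) (hBA : B * A = 1) :
    A * (M * N) * B = (A * M * B) * (A * N * B) := by
  have h : (A * M * B) * (A * N * B) = A * M * (B * A) * (N * B) := by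
    simp only [Matrix.mul_assoc]
  rw [h, hBA, Matrix.mul_one]
  simp only [Matrix.mul_assoc]

theorem conj_conj {m n' : Type} [Fintype m] [Fintype n'] [DecidableEq m] [DecidableEq n']
    (A : Matrix n' m K) (B : Matrix m n' K) (M : Matrix n' n' K) (hAB : A * B = 1) :
    A * (B * M * A) * B = M := by
  have h : A * (B * M * A) * B = (A * B) * M * (A * B) := by
    simp only [Matrix.mul_assoc]
  rw [h, hAB, Matrix.one_mul, Matrix.mul_one]

theorem exists_frame (e : Matrix (Fin n) I K) (he : Function.Injective e.mulVec) :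
    ∃ k : ℕ, Fintype.card I + k = n ∧ ∃ (A : Matrix (Fin n) (I ⊕ Fin k) K)
      (B : Matrix (I ⊕ Fin k) (Fin n) K), A * B = 1 ∧ B * A = 1 ∧ A * incl I k K = e := by
  classical
  let f : (I → K) →ₗ[K] (Fin n → K) := e.mulVecLin
  have hf : Function.Injective f := he
  let W : Submodule K (Fin n → K) := LinearMap.range f
  obtain ⟨W', hW'⟩ := Submodule.exists_isCompl W
  have hrank : Fintype.card I + Module.finrank K W' = n := by
    have h1 := Submodule.finrank_add_eq_of_isCompl hW'
    have h2 : Module.finrank K W = Fintype.card I := by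
      rw [LinearMap.finrank_range_of_inj hf, Module.finrank_fintype_fun_eq_card]
    rw [h2, Module.finrank_fintype_fun_eq_card, Fintype.card_fin] at h1
    exact h1
  let k := Module.finrank K W'
  let b' : Module.Basis (Fin k) K W' := Module.finBasis K W'
  let e1 : (I ⊕ Fin k → K) ≃ₗ[K] (I → K) × (Fin k → K) :=
    LinearEquiv.sumArrowLequivProdArrow I (Fin k) K K
  let e2 : ((I → K) × (Fin k → K)) ≃ₗ[K] (W × W') :=
    (LinearEquiv.ofInjective f hf).prodCongr b'.equivFun.symm
  let e3 : (W × W') ≃ₗ[K] (Fin n → K) := Submodule.prodEquivOfIsCompl W W' hW'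
  let Φ : (I ⊕ Fin k → K) ≃ₗ[K] (Fin n → K) := e1.trans (e2.trans e3)
  refine ⟨k, hrank, LinearMap.toMatrix' Φ.toLinearMap, LinearMap.toMatrix' Φ.symm.toLinearMap,
    ?_, ?_, ?_⟩
  · rw [← LinearMap.toMatrix'_comp]
    have : Φ.toLinearMap.comp Φ.symm.toLinearMap = LinearMap.id := by
      ext x
      simp
    rw [this, LinearMap.toMatrix'_id]
  · rw [← LinearMap.toMatrix'_comp]
    have : Φ.symm.toLinearMap.comp Φ.toLinearMap = LinearMap.id := by
      apply LinearMap.ext
      intro x
      simp
    rw [this, LinearMap.toMatrix'_id]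
  · apply Matrix.ext_of_mulVec_single
    intro i
    rw [← Matrix.mulVec_mulVec, LinearMap.toMatrix'_mulVec]
    have h1 : e1 ((incl I k K).mulVec (Pi.single i 1)) = (Pi.single i 1, 0) := by
      ext x
      · simp [e1, incl, Matrix.one_apply, Pi.single_apply]
      · simp [e1, incl]
    change e3 (e2 (e1 _)) = _
    rw [h1]
    change e3 (LinearEquiv.ofInjective f hf (Pi.single i 1), b'.equivFun.symm 0) = _
    rw [map_zero]
    simp only [e3, Submodule.coe_prodEquivOfIsCompl']
    simp [f]

variable {Q : Type v} [Group Q] [Finite Q]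

theorem frame_comm (e : Matrix (Fin n) I K) (he : Function.Injective e.mulVec)
    (hn : Fintype.card I + 5 + Nat.card Q ≤ n) (f : stabE e →* Q) (x y : stabE e) :
    f x * f y = f y * f x := by
  obtain ⟨k, hk, A, B, hAB, hBA, hAe⟩ := exists_frame e he
  have hBe : B * e = incl I k K := by rw [← hAe, ← Matrix.mul_assoc, hBA, Matrix.one_mul]
  let g : stabE (incl I k K) →* stabE e := MonoidHom.mk' (fun T =>
    (⟨⟨A * T.1.1 * B, by rw [Matrix.det_conj_of_mul_eq_one hAB hBA]; exact T.1.2⟩, by
      obtain ⟨μ, hμ⟩ := T.2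
      refine ⟨μ, ?_⟩
      change A * T.1.1 * B * e = _
      have hμ' : T.1.1 * incl I k K = (μ : K) • incl I k K := hμ
      rw [Matrix.mul_assoc, hBe, Matrix.mul_assoc, hμ', Matrix.mul_smul, hAe]⟩ : stabE e)) (by
      intro S T
      apply Subtype.ext
      apply Subtype.ext
      change A * (S.1.1 * T.1.1) * B = (A * S.1.1 * B) * (A * T.1.1 * B)
      exact conj_mul A B _ _ hBA)
  have hg : Function.Surjective g := by
    intro S
    obtain ⟨μ, hμ⟩ := S.2
    refine ⟨⟨⟨B * S.1.1 * A, by rw [Matrix.det_conj_of_mul_eq_one hBA hAB]; exact S.1.2⟩, ?_⟩, ?_⟩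
    · refine ⟨μ, ?_⟩
      change B * S.1.1 * A * incl I k K = _
      have hμ' : S.1.1 * e = (μ : K) • e := hμ
      rw [Matrix.mul_assoc, hAe, Matrix.mul_assoc, hμ', Matrix.mul_smul, hBe]
    · apply Subtype.ext
      apply Subtype.ext
      change A * (B * S.1.1 * A) * B = S.1.1
      exact conj_conj A B _ hAB
  obtain ⟨x', rfl⟩ := hg x
  obtain ⟨y', rfl⟩ := hg y
  exact f_comm (f.comp g) (by omega) (by omega) x' y'

/-- an element of determinant one with a given action on the columns of `e`. -/
theorem exists_ext (e : Matrix (Fin n) I K) (he : Function.Injective e.mulVec)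
    (hn : Fintype.card I + 1 ≤ n) (w : GL I K) :
    ∃ S : SpecialLinearGroup (Fin n) K, (S : Matrix (Fin n) (Fin n) K) * e = e * (w : Matrix I I K)
      := by
  classical
  obtain ⟨k, hk, A, B, hAB, hBA, hAe⟩ := exists_frame e he
  have hBe : B * e = incl I k K := by rw [← hAe, ← Matrix.mul_assoc, hBA, Matrix.one_mul]
  have hk0 : 0 < k := by omega
  let D : Matrix (Fin k) (Fin k) K :=
    Matrix.diagonal (Function.update (fun _ => 1) ⟨0, hk0⟩ ((w : Matrix I I K).det)⁻¹)
  have hwdet : (w : Matrix I I K).det ≠ 0 := by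
    have := (Matrix.isUnit_iff_isUnit_det (w : Matrix I I K)).1 w.isUnit
    exact this.ne_zero
  have hD : D.det = ((w : Matrix I I K).det)⁻¹ := by
    rw [Matrix.det_diagonal, Finset.prod_update_of_mem (Finset.mem_univ _)]
    simp
  let T : Matrix (I ⊕ Fin k) (I ⊕ Fin k) K := Matrix.fromBlocks (w : Matrix I I K) 0 0 D
  have hT : T.det = 1 := by
    rw [Matrix.det_fromBlocks_zero₂₁, hD, mul_inv_cancel₀ hwdet]
  refine ⟨⟨A * T * B, by rw [Matrix.det_conj_of_mul_eq_one hAB hBA]; exact hT⟩, ?_⟩
  change A * T * B * e = _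
  have hTi : T * incl I k K = incl I k K * (w : Matrix I I K) := by
    ext x y
    rw [Matrix.mul_apply, Matrix.mul_apply, Fintype.sum_sum_type]
    rcases x with x | x
    · simp [T, incl, Matrix.one_apply]
    · simp [T, incl]
  rw [Matrix.mul_assoc, hBe, Matrix.mul_assoc, hTi, ← Matrix.mul_assoc, hAe]

end Pool.Agent.LFS
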