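import Mathlib
import Pool.Agent.LFS.CoreAbs
import Pool.Agent.LFS.Cnt
import Pool.Agent.LFS.Sch

set_option autoImplicit false

/-!
The kernel of a cover: small simple quotients of its solvable residual which are normal, or which
have many conjugates.
-/

namespace Pool.Agent.LFS

open Equiv

universe u v

/-- the kernel `M` is mapped to a solvable group by a covered homomorphism of `Y`, if every small
simple quotient of the solvable residual of `M` is given by a subgroup normal in the whole group or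
with many conjugates. -/
theorem ker_sec {Γ : Type u} [Group Γ] [Finite Γ] (M X Y R : Subgroup Γ)
    (hMcj : ∀ g, cj g M = M) (hMR : M ≤ R) (hRY : R ≤ Y) (F : Type u) [Group F] [Finite F]
    (f' : Y →* F) (hf'cov : ∀ y : Y, ∃ x : Y, (x : Γ) ∈ X ∧ f' x = f' y)
    (hFcard : Nat.card F ≤ Nat.card X)
    (hM : ∀ T L : Subgroup Γ, T ≤ M → (∀ g, cj g T = T) →
      (∀ N : Subgroup Γ, N ≤ T → Nrm T N → (∀ x ∈ T, ∀ y ∈ T, x * y * x⁻¹ * y⁻¹ ∈ N) → N = T) →
      NS T L → (L.subgroupOf T).index ≤ Nat.card X → (∀ g, cj g L = L) ∨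
        2 ^ Nat.card X * R.index < (Subgroup.normalizer (L : Set Γ)).index)
    (hkill : ∀ (A : Type u) [Group A] [Finite A], Nat.card A ≤ (Nat.card X).factorial →
      ∀ f : Γ →* A, ∀ x ∈ X, f x = 1) :
    SecIn ∅ (f'.comp (Subgroup.inclusion (hMR.trans hRY))).range := by
  classical
  by_contra hfM
  have hMY : M ≤ Y := hMR.trans hRY
  obtain ⟨T, hTM, hTcj, hTperf, hTres⟩ := exists_resid M
  have hT : ∀ g, cj g T = T := fun g => hTcj g (hMcj g)
  have hTY : T ≤ Y := hTM.trans hMY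
  let K : Subgroup Γ :=
    { carrier := {t | ∃ ht : t ∈ T, f' ⟨t, hTY ht⟩ = 1}
      one_mem' := ⟨T.one_mem, map_one f'⟩
      mul_mem' := by
        rintro t t' ⟨ht, h1⟩ ⟨ht', h1'⟩
        refine ⟨T.mul_mem ht ht', ?_⟩
        have h3 : (⟨t * t', hTY (T.mul_mem ht ht')⟩ : Y) = ⟨t, hTY ht⟩ * ⟨t', hTY ht'⟩ := rfl
        rw [h3, map_mul, h1, h1', one_mul]
      inv_mem' := by
        rintro t ⟨ht, h1⟩
        refine ⟨T.inv_mem ht, ?_⟩
        have h3 : (⟨t⁻¹, hTY (T.inv_mem ht)⟩ : Y) = ⟨t, hTY ht⟩⁻¹ := rfl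
        rw [h3, map_inv, h1, inv_one] }
  have hKT : K ≤ T := fun t ht => ht.1
  have hTconj : ∀ (y : Γ) (t : Γ), t ∈ T → y * t * y⁻¹ ∈ T := by
    intro y t ht
    have h1 := hT y
    rw [← h1]
    exact conj_mem_cj.2 ht
  have hYK : Nrm Y K := by
    rintro y hy t ⟨ht, h1⟩
    refine ⟨hTconj y t ht, ?_⟩
    have h3 : (⟨y * t * y⁻¹, hTY (hTconj y t ht)⟩ : Y) = ⟨y, hy⟩ * ⟨t, hTY ht⟩ * ⟨y, hy⟩⁻¹ := rfl
    rw [h3, map_mul, map_mul, h1, map_inv]
    group
  have hKne : K ≠ T := by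
    intro he
    apply hfM
    apply hTres
    intro m hm
    have h1 : (m : Γ) ∈ K := by rw [he]; exact hm
    exact h1.2
  obtain ⟨L, hL, hKL⟩ := exists_NS hKT (hYK.mono hTY) hKne (fun M h1 h2 h3 => hTperf M h2 h1 h3)
  have hLn : (L.subgroupOf T).Normal := ⟨fun l hl t => hL.nrm t t.2 _ hl⟩
  have hcardT : Nat.card (T ⧸ L.subgroupOf T) ≤ Nat.card X := by
    refine le_trans ?_ hFcard
    apply Nat.card_le_card_of_injective
      (fun q : T ⧸ L.subgroupOf T => f' ⟨(q.out : T), hTY (q.out : T).2⟩)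
    intro p q hpq
    rw [← QuotientGroup.out_eq' p, ← QuotientGroup.out_eq' q, QuotientGroup.eq]
    apply hKL
    refine ⟨T.mul_mem (T.inv_mem (p.out).2) (q.out).2, ?_⟩
    change f' (⟨(p.out : T), hTY (p.out : T).2⟩⁻¹ * ⟨(q.out : T), hTY (q.out : T).2⟩) = 1
    rw [map_mul, map_inv, inv_mul_eq_one]
    exact hpq
  rcases hM T L hTM hT hTperf hL hcardT with hLcj | hbig
  · -- the normal case
    have hLn : Nrm ⊤ L := nrm_of_cj_eq fun t _ => hLcj t
    have hTn : Nrm ⊤ T := fun h _ t ht => hTconj h t ht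
    let φ : Γ →* Perm (T ⧸ L.subgroupOf T) :=
      (MulAut.toPerm (T ⧸ L.subgroupOf T)).comp
        ((Sch.th hTn hLn).comp (Subgroup.topEquiv (G := Γ)).symm.toMonoidHom)
    have hXtriv : ∀ x ∈ X, ∀ t ∈ T, x * t * x⁻¹ * t⁻¹ ∈ L := by
      intro x hx t ht
      have h1 := hkill (Perm (T ⧸ L.subgroupOf T)) (by
        rw [Nat.card_perm]
        exact Nat.factorial_le hcardT) φ x hx
      have h2 := congrArg (fun π : Perm (T ⧸ L.subgroupOf T) =>
        π (QuotientGroup.mk (⟨t, ht⟩ : T))) h1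
      have h3 : (QuotientGroup.mk (⟨x * t * x⁻¹, hTconj x t ht⟩ : T) : T ⧸ L.subgroupOf T) =
          QuotientGroup.mk (⟨t, ht⟩ : T) := h2
      rw [QuotientGroup.eq, Subgroup.mem_subgroupOf] at h3
      change (x * t * x⁻¹)⁻¹ * t ∈ L at h3
      have h4 := hLn (x * t * x⁻¹) (Subgroup.mem_top _) _ (L.inv_mem h3)
      have h5 : x * t * x⁻¹ * ((x * t * x⁻¹)⁻¹ * t)⁻¹ * (x * t * x⁻¹)⁻¹ =
          x * t * x⁻¹ * t⁻¹ := by group
      rwa [h5] at h4
    apply hL.nab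
    intro t₁ ht₁ t₂ ht₂
    obtain ⟨x, hx, hxt⟩ := hf'cov ⟨t₁, hTY ht₁⟩
    have h1 := hXtriv x hx t₂ ht₂
    have h2 : (t₁ * t₂ * t₁⁻¹ * t₂⁻¹) * ((x : Γ) * t₂ * (x : Γ)⁻¹ * t₂⁻¹)⁻¹ ∈ K := by
      have hm1 : t₁ * t₂ * t₁⁻¹ * t₂⁻¹ ∈ T := T.mul_mem (hTconj _ _ ht₂) (T.inv_mem ht₂)
      have hm2 : (x : Γ) * t₂ * (x : Γ)⁻¹ * t₂⁻¹ ∈ T := T.mul_mem (hTconj _ _ ht₂) (T.inv_mem ht₂)
      refine ⟨T.mul_mem hm1 (T.inv_mem hm2), ?_⟩
      have h5 : (⟨(t₁ * t₂ * t₁⁻¹ * t₂⁻¹) * ((x : Γ) * t₂ * (x : Γ)⁻¹ * t₂⁻¹)⁻¹,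
          hTY (T.mul_mem hm1 (T.inv_mem hm2))⟩ : Y) =
          (⟨t₁, hTY ht₁⟩ * ⟨t₂, hTY ht₂⟩ * ⟨t₁, hTY ht₁⟩⁻¹ * ⟨t₂, hTY ht₂⟩⁻¹) *
          (x * ⟨t₂, hTY ht₂⟩ * x⁻¹ * ⟨t₂, hTY ht₂⟩⁻¹)⁻¹ := rfl
      rw [h5]
      simp only [map_mul, map_inv]
      rw [hxt]
      group
    have h3 := L.mul_mem (hKL h2) h1
    rwa [inv_mul_cancel_right] at h3
  · -- counting conjugates
    let LF : Set (Subgroup Γ) := {L | NS T L ∧ K ≤ L}
    have hLF : L ∈ LF := ⟨hL, hKL⟩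
    have hLFY : ∀ h ∈ Y, ∀ L ∈ LF, cj h L ∈ LF := by
      rintro h hh L ⟨h1, h2⟩
      refine ⟨?_, ?_⟩
      · have h3 := h1.cj h
        rwa [hT h] at h3
      · have h3 := cj_mono (g := h) h2
        rwa [hYK.cj_eq hh] at h3
    have hLFcard : Nat.card LF ≤ 2 ^ Nat.card X := by
      have hFft : Fintype F := Fintype.ofFinite F
      have h1 : Nat.card (Set F) ≤ 2 ^ Nat.card X := by
        rw [Nat.card_eq_fintype_card, Fintype.card_set]
        apply Nat.pow_le_pow_right (by norm_num)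
        rw [← Nat.card_eq_fintype_card]
        exact hFcard
      refine le_trans ?_ h1
      apply Nat.card_le_card_of_injective
        (fun L : LF => {q : F | ∃ t, ∃ ht : t ∈ T, t ∈ (L : Subgroup Γ) ∧ f' ⟨t, hTY ht⟩ = q})
      have key : ∀ L L' : LF, {q : F | ∃ t, ∃ ht : t ∈ T, t ∈ (L : Subgroup Γ) ∧
          f' ⟨t, hTY ht⟩ = q} = {q : F | ∃ t, ∃ ht : t ∈ T, t ∈ (L' : Subgroup Γ) ∧
          f' ⟨t, hTY ht⟩ = q} → (L : Subgroup Γ) ≤ L' := by
        intro L L' h t ht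
        have htT : t ∈ T := L.2.1.le ht
        have h2 : f' ⟨t, hTY htT⟩ ∈ {q : F | ∃ t, ∃ ht : t ∈ T, t ∈ (L' : Subgroup Γ) ∧
          f' ⟨t, hTY ht⟩ = q} := by
          rw [← h]
          exact ⟨t, htT, ht, rfl⟩
        obtain ⟨t', ht', htL', h3⟩ := h2
        have h4 : t * t'⁻¹ ∈ K := by
          refine ⟨T.mul_mem htT (T.inv_mem ht'), ?_⟩
          have h5 : (⟨t * t'⁻¹, hTY (T.mul_mem htT (T.inv_mem ht'))⟩ : Y) =
            ⟨t, hTY htT⟩ * ⟨t', hTY ht'⟩⁻¹ := rfl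
          rw [h5, map_mul, map_inv, h3, mul_inv_cancel]
        have h5 := (L' : Subgroup Γ).mul_mem (L'.2.2 h4) htL'
        rwa [inv_mul_cancel_right] at h5
      intro L L' h
      exact Subtype.ext (le_antisymm (key L L' h) (key L' L h.symm))
    obtain ⟨N, hN⟩ : ∃ N, N = Subgroup.normalizer (L : Set Γ) := ⟨_, rfl⟩
    have hNmem : ∀ h, cj h L = L → h ∈ N := by
      intro h hh
      rw [hN, Subgroup.mem_normalizer_iff]
      intro z
      constructor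
      · intro hz
        have h1 := (conj_mem_cj (g := h)).2 hz
        rwa [hh] at h1
      · intro hz
        rw [← hh] at hz
        exact conj_mem_cj.1 hz
    have h1 : N.relIndex R ≤ Nat.card LF := by
      rw [Subgroup.relIndex, Subgroup.index]
      apply Nat.card_le_card_of_injective
        (fun q : R ⧸ N.subgroupOf R => (⟨cj ((q.out : R) : Γ) L,
          hLFY _ (hRY (q.out : R).2) L hLF⟩ : LF))
      intro p q hpq
      have h2 : cj ((p.out : R) : Γ) L = cj ((q.out : R) : Γ) L := congrArg Subtype.val hpq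
      rw [← QuotientGroup.out_eq' p, ← QuotientGroup.out_eq' q, QuotientGroup.eq]
      apply hNmem
      change cj (((p.out : R) : Γ)⁻¹ * ((q.out : R) : Γ)) L = L
      rw [cj_mul, ← h2, cj_inv_cj]
    have h2 : N.index ≤ N.relIndex R * R.index := by
      have h3 : (N ⊓ R).relIndex R * R.index = (N ⊓ R).index :=
        Subgroup.relIndex_mul_index inf_le_right
      rw [Subgroup.inf_relIndex_right] at h3
      rw [h3]
      exact Subgroup.index_antitone inf_le_left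
    rw [← hN] at hbig
    have h4 : N.relIndex R * R.index ≤ 2 ^ Nat.card X * R.index :=
      Nat.mul_le_mul_right _ (h1.trans hLFcard)
    omega

end Pool.Agent.LFS
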