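import Mathlib
import Pool.Agent.LFS.Tight

set_option autoImplicit false

/-!
MODULE Kill (helper34, MP_cbf6a9; proofs by helper51).

exists_kill PROOF. Choose F1 in G with more than B elements (G infinite). For a <> b in F1 and x in X:
x lies in the normal closure of a^-1 b (= G as G is simple), so x is a product of conjugates of
(a^-1 b)^(+-1); collect all conjugating elements for the finitely many (a, b, x), together with F1,
in F2. If Y contains F2 and f : Y -> A with |A| <= B then f a = f b for some a <> b in F1, so f kills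
a^-1 b, its conjugates by elements of Y, hence x.

exists_star PROOF. Among the normal subgroups K of H contained in M with KB B K take one of maximal
order (bot is one). If N/K is abelian, N normal in H, N <= M, then KB B N: for f : N -> Q with
|f(N)| <= B, f(K) has order <= B so is SecIn empty, f(N)/f(K) is abelian, SecIn.ext (Sec.lean).

tight_pull PROOF. Let Y' be the preimage of Y, f : Y' -> Q covered by X (every f y is f x with x in X).
Let R = f.range (order <= |X|), S = image of K in it (normal). SecIn empty S by hK. R/S is a quotient of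
Y covered by the image of X, so SecIn empty (R/S) by h. SecIn.ext.
-/

namespace Pool.Agent.LFS

universe u v

/-- `x` is killed by every homomorphism killing `d` from a subgroup containing `d` and a certain
finite set. -/
private def KillP {G : Type u} [Group G] (d x : G) : Prop :=
  ∃ C : Finset G, ∀ Y : Subgroup G, (∀ c ∈ C, c ∈ Y) → ∀ hd : d ∈ Y, ∃ hx : x ∈ Y,
    ∀ (A : Type u) [Group A] (f : Y →* A), f ⟨d, hd⟩ = 1 → f ⟨x, hx⟩ = 1

private theorem killP_all {G : Type u} [Group G] [IsSimpleGroup G] (d : G) (hd1 : d ≠ 1) (x : G) :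
    KillP d x := by
  classical
  let K : Subgroup G :=
    { carrier := {x | KillP d x}
      one_mem' := by
        refine ⟨∅, fun Y _ hd => ⟨Y.one_mem, ?_⟩⟩
        intro A _ f _
        exact map_one f
      mul_mem' := by
        rintro a b ⟨C₁, h₁⟩ ⟨C₂, h₂⟩
        refine ⟨C₁ ∪ C₂, fun Y hY hd => ?_⟩
        obtain ⟨ha, ha'⟩ := h₁ Y (fun c hc => hY c (Finset.mem_union_left _ hc)) hd
        obtain ⟨hb, hb'⟩ := h₂ Y (fun c hc => hY c (Finset.mem_union_right _ hc)) hd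
        refine ⟨Y.mul_mem ha hb, ?_⟩
        intro A _ f hf
        have h3 : (⟨a * b, Y.mul_mem ha hb⟩ : Y) = ⟨a, ha⟩ * ⟨b, hb⟩ := rfl
        rw [h3, map_mul, ha' A f hf, hb' A f hf, one_mul]
      inv_mem' := by
        rintro a ⟨C₁, h₁⟩
        refine ⟨C₁, fun Y hY hd => ?_⟩
        obtain ⟨ha, ha'⟩ := h₁ Y hY hd
        refine ⟨Y.inv_mem ha, ?_⟩
        intro A _ f hf
        have h3 : (⟨a⁻¹, Y.inv_mem ha⟩ : Y) = (⟨a, ha⟩ : Y)⁻¹ := rfl
        rw [h3, map_inv, ha' A f hf, inv_one] }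
  have hKn : K.Normal := by
    refine ⟨?_⟩
    rintro a ⟨C₁, h₁⟩ g
    refine ⟨insert g C₁, fun Y hY hd => ?_⟩
    obtain ⟨ha, ha'⟩ := h₁ Y (fun c hc => hY c (Finset.mem_insert_of_mem hc)) hd
    have hg : g ∈ Y := hY g (Finset.mem_insert_self _ _)
    refine ⟨Y.mul_mem (Y.mul_mem hg ha) (Y.inv_mem hg), ?_⟩
    intro A _ f hf
    have h3 : (⟨g * a * g⁻¹, Y.mul_mem (Y.mul_mem hg ha) (Y.inv_mem hg)⟩ : Y) =
        ⟨g, hg⟩ * ⟨a, ha⟩ * (⟨g, hg⟩ : Y)⁻¹ := rfl
    rw [h3, map_mul, map_mul, map_inv, ha' A f hf, mul_one, mul_inv_cancel]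
  have hdK : d ∈ K := ⟨∅, fun Y _ hd => ⟨hd, fun A _ f hf => hf⟩⟩
  rcases hKn.eq_bot_or_eq_top with hb | ht
  · rw [hb, Subgroup.mem_bot] at hdK
    exact absurd hdK hd1
  · have : x ∈ K := by rw [ht]; exact Subgroup.mem_top x
    exact this

theorem exists_kill {G : Type u} [Group G] [Infinite G] [IsSimpleGroup G] (X : Finset G) (B : ℕ) :
    ∃ F₂ : Finset G, ∀ Y : Subgroup G, (∀ f ∈ F₂, f ∈ Y) →
      ∀ (A : Type u) [Group A] [Finite A], Nat.card A ≤ B → ∀ (f : Y →* A) (x : Y),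
        (x : G) ∈ X → f x = 1 := by
  classical
  obtain ⟨F₁, hF₁⟩ := Infinite.exists_subset_card_eq G (B + 1)
  have hC : ∀ d x : G, ∃ C : Finset G, d ≠ 1 → ∀ Y : Subgroup G, (∀ c ∈ C, c ∈ Y) →
      ∀ hd : d ∈ Y, ∃ hx : x ∈ Y,
        ∀ (A : Type u) [Group A] (f : Y →* A), f ⟨d, hd⟩ = 1 → f ⟨x, hx⟩ = 1 := by
    intro d x
    by_cases hd : d = 1
    · exact ⟨∅, fun h => absurd hd h⟩
    · obtain ⟨C, h⟩ := killP_all d hd x
      exact ⟨C, fun _ => h⟩
  choose C hC using hC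
  refine ⟨F₁ ∪ (F₁ ×ˢ F₁).biUnion (fun p => X.biUnion (fun x => C (p.1⁻¹ * p.2) x)), ?_⟩
  intro Y hY A _ _ hA f x hx
  have hF : ∀ a ∈ F₁, a ∈ Y := fun a ha => hY a (Finset.mem_union_left _ ha)
  have : Fintype A := Fintype.ofFinite A
  obtain ⟨a, b, hab, hfab⟩ : ∃ a b : F₁, a ≠ b ∧ f ⟨a, hF a a.2⟩ = f ⟨b, hF b b.2⟩ := by
    refine Fintype.exists_ne_map_eq_of_card_lt (fun a : F₁ => f ⟨a, hF a a.2⟩) ?_
    rw [Fintype.card_coe, hF₁, ← Nat.card_eq_fintype_card]
    omega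
  have hd1 : (a : G)⁻¹ * (b : G) ≠ 1 := by
    intro h
    apply hab
    exact Subtype.ext (inv_mul_eq_one.1 h)
  have hdY : (a : G)⁻¹ * (b : G) ∈ Y := Y.mul_mem (Y.inv_mem (hF a a.2)) (hF b b.2)
  have hCY : ∀ c ∈ C ((a : G)⁻¹ * (b : G)) x, c ∈ Y := by
    intro c hc
    apply hY
    refine Finset.mem_union_right _ ?_
    refine Finset.mem_biUnion.2 ⟨((a : G), (b : G)), Finset.mem_product.2 ⟨a.2, b.2⟩, ?_⟩
    exact Finset.mem_biUnion.2 ⟨x, hx, hc⟩
  obtain ⟨hx', h⟩ := hC _ x hd1 Y hCY hdY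
  refine h A f ?_
  have h3 : (⟨(a : G)⁻¹ * (b : G), hdY⟩ : Y) = (⟨a, hF a a.2⟩ : Y)⁻¹ * ⟨b, hF b b.2⟩ := rfl
  rw [h3, map_mul, map_inv, hfab, inv_mul_cancel]

/-- every image of order at most `B` is solvable. -/
def KB (B : ℕ) (K : Type u) [Group K] : Prop :=
  ∀ (Q : Type u) [Group Q] (f : K →* Q), Nat.card f.range ≤ B → SecIn ∅ f.range

private theorem kill_kb_bot {H : Type u} [Group H] (B : ℕ) : KB B (⊥ : Subgroup H) := by
  intro Q _ f _
  apply SecIn.of_comm
  rintro ⟨_, ⟨a, rfl⟩⟩ ⟨_, ⟨b, rfl⟩⟩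
  have ha : a = 1 := Subtype.ext (Subgroup.mem_bot.1 a.2)
  have hb : b = 1 := Subtype.ext (Subgroup.mem_bot.1 b.2)
  subst ha
  subst hb
  rfl

private theorem kill_kb_ext {H : Type u} [Group H] [Finite H] (B : ℕ) (K N : Subgroup H)
    (hKn : K.Normal) (hKN : K ≤ N) (hK : KB B K)
    (hc : ∀ a ∈ N, ∀ b ∈ N, a * b * a⁻¹ * b⁻¹ ∈ K) : KB B N := by
  intro Q _ f hB
  have hfr : Finite f.range := Finite.of_surjective f.rangeRestrict f.rangeRestrict_surjective
  let f' : N →* f.range := f.rangeRestrict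
  have hf' : Function.Surjective f' := f.rangeRestrict_surjective
  let g : K →* f.range := f'.comp (Subgroup.inclusion hKN)
  let L : Subgroup f.range := g.range
  have hL : L = (K.subgroupOf N).map f' := by
    ext y
    constructor
    · rintro ⟨k, rfl⟩
      exact ⟨Subgroup.inclusion hKN k, Subgroup.mem_subgroupOf.2 k.2, rfl⟩
    · rintro ⟨k, hk, rfl⟩
      exact ⟨⟨k, Subgroup.mem_subgroupOf.1 hk⟩, rfl⟩
  have hLn : L.Normal := by
    rw [hL]
    exact Subgroup.Normal.map inferInstance f' hf'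
  have h1 : SecIn ∅ L := by
    apply hK
    exact (Nat.card_le_card_of_injective _ g.range.subtype_injective).trans hB
  refine SecIn.ext L h1 ?_
  apply SecIn.of_comm
  intro a b
  obtain ⟨a, rfl⟩ := QuotientGroup.mk'_surjective L a
  obtain ⟨b, rfl⟩ := QuotientGroup.mk'_surjective L b
  obtain ⟨a, rfl⟩ := hf' a
  obtain ⟨b, rfl⟩ := hf' b
  rw [← map_mul, ← map_mul, ← map_mul, ← map_mul, QuotientGroup.mk'_apply, QuotientGroup.mk'_apply,
    eq_comm, QuotientGroup.eq, ← map_inv, ← map_mul]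
  refine ⟨⟨(b * a)⁻¹ * (a * b), ?_⟩, rfl⟩
  have h := hc (a : H)⁻¹ (N.inv_mem a.2) (b : H)⁻¹ (N.inv_mem b.2)
  have h2 : (((b * a)⁻¹ * (a * b) : N) : H) = (a : H)⁻¹ * (b : H)⁻¹ * (a : H)⁻¹⁻¹ * (b : H)⁻¹⁻¹ := by
    simp [mul_assoc]
  exact (congrArg (fun z => z ∈ K) h2).mpr h

theorem exists_star {H : Type u} [Group H] [Finite H] (M : Subgroup H) (B : ℕ) :
    ∃ K : Subgroup H, K.Normal ∧ K ≤ M ∧ KB B K ∧ ∀ N : Subgroup H, K ≤ N → N ≤ M → N.Normal →
      (∀ a ∈ N, ∀ b ∈ N, a * b * a⁻¹ * b⁻¹ ∈ K) → N = K := by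
  classical
  let S : Set (Subgroup H) := {K | K.Normal ∧ K ≤ M ∧ KB B K}
  have hSf : S.Finite := Set.toFinite S
  have hSn : S.Nonempty := ⟨⊥, inferInstance, bot_le, kill_kb_bot B⟩
  obtain ⟨K, hK⟩ := hSf.exists_maximal hSn
  refine ⟨K, hK.1.1, hK.1.2.1, hK.1.2.2, ?_⟩
  intro N hKN hNM hNn hc
  have hN : N ∈ S := ⟨hNn, hNM, kill_kb_ext B K N hK.1.1 hKN hK.1.2.2 hc⟩
  exact le_antisymm (hK.2 hN hKN) hKN

theorem tight_pull {H : Type u} [Group H] [Finite H] (K : Subgroup H) [K.Normal] (X : Subgroup H)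
    (hK : KB (Nat.card X) K) (Y : Subgroup (H ⧸ K))
    (h : Tight ∅ (X.map (QuotientGroup.mk' K)) Y) :
    Tight ∅ X (Y.comap (QuotientGroup.mk' K)) := by
  classical
  have hXY : X ≤ Y.comap (QuotientGroup.mk' K) := Subgroup.map_le_iff_le_comap.1 h.1
  refine ⟨hXY, ?_⟩
  intro Q _ f hcov
  let Y' : Subgroup H := Y.comap (QuotientGroup.mk' K)
  have hKY : K ≤ Y' := by
    intro k hk
    have h1 : (QuotientGroup.mk' K) k = 1 := by
      rw [QuotientGroup.mk'_apply, QuotientGroup.eq_one_iff]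
      exact hk
    change (QuotientGroup.mk' K) k ∈ Y
    rw [h1]
    exact Y.one_mem
  let f' : Y' →* f.range := f.rangeRestrict
  have hf' : Function.Surjective f' := f.rangeRestrict_surjective
  have hcard : Nat.card f.range ≤ Nat.card X := by
    refine Nat.card_le_card_of_surjective (fun x : X => f' ⟨x, hXY x.2⟩) ?_
    intro r
    obtain ⟨y, rfl⟩ := hf' r
    obtain ⟨x, hx, hxy⟩ := hcov y
    exact ⟨⟨x, hx⟩, Subtype.ext hxy⟩
  have hfr : Finite f.range := Finite.of_surjective f' hf'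
  let g : K →* f.range := f'.comp (Subgroup.inclusion hKY)
  let L : Subgroup f.range := g.range
  have hL : L = (K.subgroupOf Y').map f' := by
    ext y
    constructor
    · rintro ⟨k, rfl⟩
      exact ⟨Subgroup.inclusion hKY k, Subgroup.mem_subgroupOf.2 k.2, rfl⟩
    · rintro ⟨k, hk, rfl⟩
      exact ⟨⟨k, Subgroup.mem_subgroupOf.1 hk⟩, rfl⟩
  have hLn : L.Normal := by
    rw [hL]
    exact Subgroup.Normal.map inferInstance f' hf'
  have h1 : SecIn ∅ L := by
    apply hK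
    exact (Nat.card_le_card_of_injective _ g.range.subtype_injective).trans hcard
  refine SecIn.ext L h1 ?_
  -- the induced homomorphism
  let p : Y' →* Y := (QuotientGroup.mk' K).subgroupComap Y
  have hp : Function.Surjective p :=
    (QuotientGroup.mk' K).subgroupComap_surjective_of_surjective Y (QuotientGroup.mk'_surjective K)
  let q : Y' →* f.range ⧸ L := (QuotientGroup.mk' L).comp f'
  have hker : p.ker ≤ q.ker := by
    intro y hy
    have h2 : (QuotientGroup.mk' K) (y : H) = 1 := congrArg Subtype.val (MonoidHom.mem_ker.1 hy)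
    have h3 : (y : H) ∈ K := by
      rwa [QuotientGroup.mk'_apply, QuotientGroup.eq_one_iff] at h2
    have h4 : f' y ∈ L := ⟨⟨y, h3⟩, rfl⟩
    rw [MonoidHom.mem_ker]
    change (QuotientGroup.mk' L) (f' y) = 1
    rw [QuotientGroup.mk'_apply, QuotientGroup.eq_one_iff]
    exact h4
  let F : Y →* f.range ⧸ L := p.liftOfSurjective hp ⟨q, hker⟩
  have hF : ∀ a, F (p a) = q a := fun a => MonoidHom.liftOfRightInverse_comp_apply _ _ _ _ _
  have hFs : Function.Surjective F := by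
    intro s
    obtain ⟨r, rfl⟩ := QuotientGroup.mk'_surjective L s
    obtain ⟨y, rfl⟩ := hf' r
    exact ⟨p y, hF y⟩
  have h5 : SecIn ∅ F.range := by
    refine h.2 (f.range ⧸ L) F ?_
    intro y
    obtain ⟨y, rfl⟩ := hp y
    obtain ⟨x, hx, hxy⟩ := hcov y
    refine ⟨p x, ⟨x, hx, rfl⟩, ?_⟩
    rw [hF, hF]
    change (QuotientGroup.mk' L) (f' x) = (QuotientGroup.mk' L) (f' y)
    congr 1
    exact Subtype.ext hxy
  refine h5.of_surjective F.range.subtype ?_
  intro s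
  obtain ⟨y, rfl⟩ := hFs s
  exact ⟨⟨F y, ⟨y, rfl⟩⟩, rfl⟩

end Pool.Agent.LFS
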