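import Mathlib

set_option autoImplicit false

/-!
Linear algebra: ranks, spans of matrices of small rank, choice of vectors.
-/

namespace Pool.Agent.LFS

open Matrix Module

variable {n : ℕ} {K : Type} [Field K]

theorem rank_add_le' (A B : Matrix (Fin n) (Fin n) K) : (A + B).rank ≤ A.rank + B.rank := by
  have h : LinearMap.range (A + B).mulVecLin ≤
      LinearMap.range A.mulVecLin ⊔ LinearMap.range B.mulVecLin := by
    rintro _ ⟨x, rfl⟩
    rw [Matrix.mulVecLin_apply, Matrix.add_mulVec]
    exact Submodule.add_mem_sup ⟨x, rfl⟩ ⟨x, rfl⟩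
  exact (Submodule.finrank_mono h).trans (Submodule.finrank_add_le_finrank_add_finrank _ _)

theorem rank_smul_le' (c : K) (A : Matrix (Fin n) (Fin n) K) : (c • A).rank ≤ A.rank := by
  apply Submodule.finrank_mono
  rintro _ ⟨x, rfl⟩
  rw [Matrix.mulVecLin_apply, Matrix.smul_mulVec]
  exact Submodule.smul_mem _ c ⟨x, rfl⟩

theorem rank_neg' (A : Matrix (Fin n) (Fin n) K) : (-A).rank ≤ A.rank := by
  have := rank_smul_le' (-1 : K) A
  rwa [neg_one_smul] at this

theorem rank_sum_le {ι : Type*} (s : Finset ι) (M : ι → Matrix (Fin n) (Fin n) K) :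
    (∑ i ∈ s, M i).rank ≤ ∑ i ∈ s, (M i).rank := by
  classical
  induction s using Finset.induction_on with
  | empty => simp
  | insert a s ha ih =>
    rw [Finset.sum_insert ha, Finset.sum_insert ha]
    exact (rank_add_le' _ _).trans (Nat.add_le_add le_rfl ih)

theorem rank_ker (A : Matrix (Fin n) (Fin n) K) :
    A.rank + finrank K (LinearMap.ker A.mulVecLin) = n := by
  have h := LinearMap.finrank_range_add_finrank_ker A.mulVecLin
  rwa [Module.finrank_fintype_fun_eq_card, Fintype.card_fin] at h

/-- counting: few proper subspaces do not cover. -/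
theorem exists_notMem_ker [Finite K] {X Z : Type*} [AddCommGroup X] [Module K X]
    [FiniteDimensional K X] [AddCommGroup Z] [Module K Z] {C : Type*} [Fintype C]
    (Φ : C → X →ₗ[K] Z) (k : ℕ) (hC : Fintype.card C < Nat.card K ^ k)
    (hΦ : ∀ c, finrank K (LinearMap.ker (Φ c)) + k ≤ finrank K X) :
    ∃ x, ∀ c, Φ c x ≠ 0 := by
  classical
  by_contra hb
  push Not at hb
  have hXfin : Finite X := Module.finite_of_finite K
  have hXft : Fintype X := Fintype.ofFinite X
  have hq : 0 < Nat.card K := Nat.card_pos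
  rcases isEmpty_or_nonempty C with hE | hE
  · obtain ⟨c, -⟩ := hb 0
    exact hE.elim c
  have h1 : (Finset.univ : Finset X) ⊆ Finset.univ.biUnion
      (fun c => Finset.univ.filter (fun x => Φ c x = 0)) := by
    intro x _
    obtain ⟨c, hc⟩ := hb x
    exact Finset.mem_biUnion.2 ⟨c, Finset.mem_univ _, Finset.mem_filter.2 ⟨Finset.mem_univ _, hc⟩⟩
  have h2 := (Finset.card_le_card h1).trans Finset.card_biUnion_le
  have h3 : ∀ c, (Finset.univ.filter (fun x => Φ c x = 0)).card * Nat.card K ^ k ≤
      Nat.card K ^ finrank K X := by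
    intro c
    have h4 : (Finset.univ.filter (fun x => Φ c x = 0)).card =
        Nat.card K ^ finrank K (LinearMap.ker (Φ c)) := by
      rw [← Module.natCard_eq_pow_finrank (K := K) (V := LinearMap.ker (Φ c)),
        ← Fintype.card_subtype, ← Nat.card_eq_fintype_card]
      rfl
    rw [h4, ← pow_add]
    exact Nat.pow_le_pow_right hq (hΦ c)
  have h5 : Fintype.card X = Nat.card K ^ finrank K X := by
    rw [← Nat.card_eq_fintype_card, Module.natCard_eq_pow_finrank (K := K)]
  rw [Finset.card_univ, h5] at h2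
  have h6 : Nat.card K ^ finrank K X * Nat.card K ^ k ≤
      Fintype.card C * Nat.card K ^ finrank K X := by
    calc Nat.card K ^ finrank K X * Nat.card K ^ k
        ≤ (∑ c : C, (Finset.univ.filter (fun x => Φ c x = 0)).card) * Nat.card K ^ k :=
          Nat.mul_le_mul h2 le_rfl
      _ = ∑ c : C, (Finset.univ.filter (fun x => Φ c x = 0)).card * Nat.card K ^ k :=
          Finset.sum_mul _ _ _
      _ ≤ ∑ _c : C, Nat.card K ^ finrank K X := Finset.sum_le_sum (fun c _ => h3 c)
      _ = _ := by rw [Finset.sum_const, Finset.card_univ, smul_eq_mul]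
  have h7 : 0 < Nat.card K ^ finrank K X := pow_pos hq _
  rw [mul_comm] at h6
  have := Nat.le_of_mul_le_mul_right h6 h7
  omega

theorem exists_vecs [Finite K] {m : ℕ} (V : Submodule K (Fin n → K))
    (ε : Fin m → Matrix (Fin n) (Fin n) K) (r : ℕ)
    (hr : ∀ c : Fin m → K, c ≠ 0 → r ≤ (∑ i, c i • ε i).rank)
    (hV : m * m + n ≤ r + finrank K V) :
    ∃ v : Fin m → (Fin n → K), (∀ j, v j ∈ V) ∧
      ∀ c : Fin m × Fin m → K, ∑ x, c x • (ε x.1).mulVec (v x.2) = 0 → c = 0 := by
  classical
  have hKft : Fintype K := Fintype.ofFinite K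
  let C := {c : Fin m × Fin m → K // c ≠ 0}
  let Φ : C → (Fin m → V) →ₗ[K] (Fin n → K) := fun c =>
    ∑ x, c.1 x • ((ε x.1).mulVecLin ∘ₗ V.subtype ∘ₗ LinearMap.proj x.2)
  have hΦ : ∀ c v, Φ c v = ∑ x, c.1 x • (ε x.1).mulVec (v x.2 : Fin n → K) := by
    intro c v
    simp [Φ, LinearMap.sum_apply]
  obtain ⟨v, hv⟩ := exists_notMem_ker Φ (m * m) (by
    have h1 : Fintype.card C < Fintype.card (Fin m × Fin m → K) := by
      apply Fintype.card_subtype_lt (x := 0)
      simp
    rw [Fintype.card_fun, Fintype.card_prod, Fintype.card_fin] at h1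
    rwa [Nat.card_eq_fintype_card]) (by
    intro c
    obtain ⟨⟨i0, j0⟩, hij⟩ : ∃ x, c.1 x ≠ 0 := by
      by_contra hb
      push Not at hb
      exact c.2 (funext hb)
    let b : Matrix (Fin n) (Fin n) K := ∑ i, c.1 (i, j0) • ε i
    have hb : r ≤ b.rank := hr (fun i => c.1 (i, j0)) (fun h => hij (congrFun h i0))
    have h1 := LinearMap.finrank_range_add_finrank_ker (Φ c)
    let L : V →ₗ[K] (Fin n → K) := b.mulVecLin ∘ₗ V.subtype
    have h2 : LinearMap.range L ≤ LinearMap.range (Φ c) := by
      rintro _ ⟨x, rfl⟩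
      refine ⟨Pi.single j0 x, ?_⟩
      rw [hΦ, Fintype.sum_prod_type]
      change _ = b.mulVec (x : Fin n → K)
      rw [Matrix.sum_mulVec]
      apply Finset.sum_congr rfl
      intro i _
      rw [Finset.sum_eq_single j0]
      · rw [Pi.single_eq_same, Matrix.smul_mulVec]
      · intro j _ hj
        rw [Pi.single_eq_of_ne hj]
        simp
      · intro h
        exact absurd (Finset.mem_univ _) h
    have h3 := Submodule.finrank_mono h2
    have h4 := LinearMap.finrank_range_add_finrank_ker L
    have h5 : finrank K (LinearMap.ker L) ≤ finrank K (LinearMap.ker b.mulVecLin) := by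
      let f : LinearMap.ker L →ₗ[K] LinearMap.ker b.mulVecLin :=
        { toFun := fun x => ⟨((x : V) : Fin n → K), by
            have := x.2
            exact this⟩
          map_add' := fun _ _ => rfl
          map_smul' := fun _ _ => rfl }
      refine LinearMap.finrank_le_finrank_of_injective (f := f) ?_
      intro x y h
      have h6 := congrArg Subtype.val h
      exact Subtype.ext (Subtype.ext h6)
    have h6 := rank_ker b
    omega)
  refine ⟨fun j => (v j : Fin n → K), fun j => (v j).2, ?_⟩
  intro c hc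
  by_contra hne
  apply hv ⟨c, hne⟩
  rw [hΦ]
  exact hc

/-- a monotone bounded sequence stabilises once, along a sequence of indices. -/
theorem exists_stable (f : ℕ → ℕ) (hf : ∀ i, f i ≤ f (i + 1)) (δ : ℕ) (hδ : ∀ i, f i ≤ δ) :
    ∃ i, i ≤ δ ∧ f i = f (i + 1) := by
  by_contra hb
  push Not at hb
  have : ∀ i, i ≤ δ + 1 → i ≤ f i := by
    intro i
    induction i with
    | zero => intro _; exact Nat.zero_le _
    | succ i ih =>
      intro hi
      have h1 := ih (by omega)
      have h2 := hf i
      have h3 := hb i (by omega)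
      omega
  have h1 := this (δ + 1) le_rfl
  have h2 := hδ (δ + 1)
  omega

/-- a span has a small spanning subset. -/
theorem exists_small_span {V : Type*} [AddCommGroup V] [Module K V] [FiniteDimensional K V]
    (S : Set V) : ∃ b : Finset V, (b : Set V) ⊆ S ∧ Submodule.span K (b : Set V) =
      Submodule.span K S ∧ b.card = finrank K (Submodule.span K S) := by
  classical
  obtain ⟨b, hbS, hspan, hli⟩ := exists_linearIndependent K S
  have hfin : b.Finite := by
    exact hli.setFinite
  refine ⟨hfin.toFinset, by simpa using hbS, by simpa using hspan, ?_⟩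
  have hft : Fintype b := hfin.fintype
  have h1 := finrank_span_set_eq_card (s := b) hli
  rw [← hspan, h1, ← hfin.toFinset_eq_toFinset]

end Pool.Agent.LFS
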