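import Mathlib
import Pool.Agent.LFS.CoreAbs
import Pool.Agent.LFS.Frame

set_option autoImplicit false

/-!
The core construction for linear factor groups.
-/

namespace Pool.Agent.LFS

open Matrix

universe u v

/-- a configuration: a small subspace (spanned by the columns of `e`) on which a lift of every
element of `D` acts, with an involution `w` moving the action to a commuting one. -/
def HasCfgL {D : Type u} [Group D] {n : ℕ} {K : Type} [Field K]
    (φ : D →* ProjGenLinGroup (Fin n) K) (s : ℕ) : Prop :=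
  ∃ (I : Type) (_ : Fintype I) (_ : DecidableEq I) (e : Matrix (Fin n) I K)
    (A : D → GL (Fin n) K) (a : D → GL I K) (w : GL I K),
    Function.Injective e.mulVec ∧ (∀ d, ProjGenLinGroup.mk (A d) = φ d) ∧
      (∀ d, (A d : Matrix (Fin n) (Fin n) K) * e = e * (a d : Matrix I I K)) ∧ w * w = 1 ∧
      (∀ d d', a d * (w * a d' * w) = (w * a d' * w) * a d) ∧
      (∀ d d', ProjGenLinGroup.mk (a d) = ProjGenLinGroup.mk (w * a d' * w) → d = 1) ∧
      (∀ d, ProjGenLinGroup.mk w ≠ ProjGenLinGroup.mk (a d)) ∧ Fintype.card I ≤ s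

section aux

variable {n I : Type*} [Fintype n] [DecidableEq n] [Fintype I] [DecidableEq I] {K : Type*} [Field K]

theorem mul_e_inv (e : Matrix n I K) (B : GL n K) (u : GL I K)
    (h : (B : Matrix n n K) * e = e * (u : Matrix I I K)) :
    ((B⁻¹ : GL n K) : Matrix n n K) * e = e * ((u⁻¹ : GL I K) : Matrix I I K) := by
  have h1 : ((B⁻¹ : GL n K) : Matrix n n K) * (B : Matrix n n K) = 1 := by
    rw [← Units.val_mul, inv_mul_cancel, Units.val_one]
  have h2 : (u : Matrix I I K) * ((u⁻¹ : GL I K) : Matrix I I K) = 1 := by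
    rw [← Units.val_mul, mul_inv_cancel, Units.val_one]
  calc ((B⁻¹ : GL n K) : Matrix n n K) * e
      = ((B⁻¹ : GL n K) : Matrix n n K) * (e * ((u : Matrix I I K) *
          ((u⁻¹ : GL I K) : Matrix I I K))) := by rw [h2, Matrix.mul_one]
    _ = ((B⁻¹ : GL n K) : Matrix n n K) * ((B : Matrix n n K) * e) *
          ((u⁻¹ : GL I K) : Matrix I I K) := by rw [h]; simp only [Matrix.mul_assoc]
    _ = _ := by rw [← Matrix.mul_assoc, h1, Matrix.one_mul]

theorem mul_e_mul (e : Matrix n I K) (B C : GL n K) (u v : GL I K)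
    (h : (B : Matrix n n K) * e = e * (u : Matrix I I K))
    (h' : (C : Matrix n n K) * e = e * (v : Matrix I I K)) :
    ((B * C : GL n K) : Matrix n n K) * e = e * ((u * v : GL I K) : Matrix I I K) := by
  rw [Units.val_mul, Units.val_mul, Matrix.mul_assoc, h', ← Matrix.mul_assoc, h, Matrix.mul_assoc]

omit [Fintype n] [DecidableEq n] in
theorem e_inj (e : Matrix n I K) (he : Function.Injective e.mulVec) (U V : Matrix I I K)
    (h : e * U = e * V) : U = V := by
  apply Matrix.ext_of_mulVec_single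
  intro i
  apply he
  rw [Matrix.mulVec_mulVec, Matrix.mulVec_mulVec, h]

/-- two matrices with the same image and compatible with `e` induce the same projective
matrix. -/
theorem mk_eq_of_e (e : Matrix n I K) (he : Function.Injective e.mulVec) (B C : GL n K)
    (u v : GL I K) (h : (B : Matrix n n K) * e = e * (u : Matrix I I K))
    (h' : (C : Matrix n n K) * e = e * (v : Matrix I I K))
    (hBC : ProjGenLinGroup.mk B = ProjGenLinGroup.mk C) :
    ProjGenLinGroup.mk u = ProjGenLinGroup.mk v := by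
  rw [ProjGenLinGroup.mk_eq_mk_iff] at hBC ⊢
  obtain ⟨z, hz⟩ := hBC
  refine ⟨z, ?_⟩
  apply Units.ext
  apply e_inj e he
  rw [← h', ← hz, Units.val_mul, Units.val_mul]
  have h1 : ((GeneralLinearGroup.scalar n z : GL n K) : Matrix n n K) = (z : K) • 1 := by
    rw [GeneralLinearGroup.coe_scalar]
    exact (Matrix.smul_one_eq_diagonal _).symm
  have h2 : ((GeneralLinearGroup.scalar I z : GL I K) : Matrix I I K) = (z : K) • 1 := by
    rw [GeneralLinearGroup.coe_scalar]
    exact (Matrix.smul_one_eq_diagonal _).symm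
  have h3 : e * ((u : Matrix I I K) * ((z : K) • (1 : Matrix I I K))) =
      (z : K) • (e * (u : Matrix I I K)) := by
    rw [Matrix.mul_smul, Matrix.mul_one, Matrix.mul_smul]
  have h4 : (B : Matrix n n K) * ((z : K) • (1 : Matrix n n K)) * e =
      (z : K) • ((B : Matrix n n K) * e) := by
    rw [Matrix.mul_smul, Matrix.mul_one, Matrix.smul_mul]
  rw [h1, h2, h3, h4, h]

end aux

theorem core_lin {P : Set ℕ} {H : Type u} [Group H] [Finite H] {n : ℕ} {K : Type} [Field K]
    [Finite K] (ψ : H →* ProjGenLinGroup (Fin n) K)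
    (hψ : ψ.range = (SpecialLinearGroup.toPGL (n := Fin n) (R := K)).range)
    (D X : Subgroup H) (hXD : X ≤ D) (g : H) (hgD : g ∈ D) (hgX : g ∉ X) (s : ℕ)
    (hcfg : HasCfgL (ψ.comp D.subtype) s) (hn : s + 5 + Nat.card X ≤ n)
    (hM : ∀ (L : Subgroup ψ.ker) [L.Normal], Nat.card (ψ.ker ⧸ L) ≤ Nat.card X →
      ¬ SecIn P (ψ.ker ⧸ L) → Nat.card K ^ (n * s) <
        (Subgroup.normalizer ((L.map ψ.ker.subtype : Subgroup H) : Set H)).index) :
    ∃ Y : Subgroup H, g ∉ Y ∧ Tight P X Y := by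
  classical
  obtain ⟨I, _, _, e, A, a, w, he, hA, hAe, hw, hcomm, hdis, hwa, hI⟩ := hcfg
  have hKft : Fintype K := Fintype.ofFinite K
  -- the projective representation on the small space
  let ā : D →* ProjGenLinGroup I K := MonoidHom.mk' (fun d => ProjGenLinGroup.mk (a d)) (by
    intro d d'
    rw [← map_mul]
    apply mk_eq_of_e e he (A (d * d')) (A d * A d') _ _ (hAe _)
      (mul_e_mul e _ _ _ _ (hAe d) (hAe d'))
    rw [hA, map_mul, map_mul, hA, hA])
  have hā : ∀ d, ā d = ProjGenLinGroup.mk (a d) := fun d => rfl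
  let w' : ProjGenLinGroup I K := ProjGenLinGroup.mk w
  let XD : Subgroup D := X.subgroupOf D
  let K0 : Subgroup (ProjGenLinGroup I K) := Subgroup.closure (ā '' (XD : Set D) ∪ {w'})
  have hgK0 : ā ⟨g, hgD⟩ ∉ K0 := by
    refine notMem_closure ā w' ?_ ?_ ?_ ?_ XD ⟨g, hgD⟩ (fun h => hgX (Subgroup.mem_subgroupOf.1 h))
    · change ProjGenLinGroup.mk w * ProjGenLinGroup.mk w = 1
      rw [← map_mul, hw, map_one]
    · intro d d'
      change ProjGenLinGroup.mk (a d) * (ProjGenLinGroup.mk w * ProjGenLinGroup.mk (a d') *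
        ProjGenLinGroup.mk w) = (ProjGenLinGroup.mk w * ProjGenLinGroup.mk (a d') *
        ProjGenLinGroup.mk w) * ProjGenLinGroup.mk (a d)
      rw [← map_mul, ← map_mul, ← map_mul, ← map_mul, hcomm]
    · intro d d' h
      apply hdis d d'
      rw [map_mul, map_mul]
      exact h
    · intro d
      exact hwa d
  let Y : Subgroup H :=
    { carrier := {h | ∃ (B : GL (Fin n) K) (u : GL I K), ProjGenLinGroup.mk B = ψ h ∧
        ProjGenLinGroup.mk u ∈ K0 ∧ (B : Matrix (Fin n) (Fin n) K) * e = e * (u : Matrix I I K)}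
      one_mem' := ⟨1, 1, by rw [map_one, map_one], by rw [map_one]; exact K0.one_mem, by
        rw [Units.val_one, Units.val_one, Matrix.one_mul, Matrix.mul_one]⟩
      mul_mem' := by
        rintro x y ⟨B, u, h1, h2, h3⟩ ⟨C, v, h4, h5, h6⟩
        refine ⟨B * C, u * v, ?_, ?_, mul_e_mul e _ _ _ _ h3 h6⟩
        · rw [map_mul, map_mul, h1, h4]
        · rw [map_mul]
          exact K0.mul_mem h2 h5
      inv_mem' := by
        rintro x ⟨B, u, h1, h2, h3⟩
        refine ⟨B⁻¹, u⁻¹, ?_, ?_, mul_e_inv e _ _ h3⟩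
        · rw [map_inv, map_inv, h1]
        · rw [map_inv]
          exact K0.inv_mem h2 }
  let R : Subgroup H :=
    { carrier := {h | ∃ (B : GL (Fin n) K), ProjGenLinGroup.mk B = ψ h ∧
        (B : Matrix (Fin n) (Fin n) K) * e = e}
      one_mem' := ⟨1, by rw [map_one, map_one], by rw [Units.val_one, Matrix.one_mul]⟩
      mul_mem' := by
        rintro x y ⟨B, h1, h3⟩ ⟨C, h4, h6⟩
        refine ⟨B * C, ?_, ?_⟩
        · rw [map_mul, map_mul, h1, h4]
        · rw [Units.val_mul, Matrix.mul_assoc, h6, h3]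
      inv_mem' := by
        rintro x ⟨B, h1, h3⟩
        refine ⟨B⁻¹, ?_, ?_⟩
        · rw [map_inv, map_inv, h1]
        · have := mul_e_inv e B 1 (by rw [h3, Units.val_one, Matrix.mul_one])
          rwa [inv_one, Units.val_one, Matrix.mul_one] at this }
  have hmemR : ∀ h, h ∈ R ↔ ∃ (B : GL (Fin n) K), ProjGenLinGroup.mk B = ψ h ∧
        (B : Matrix (Fin n) (Fin n) K) * e = e := fun h => Iff.rfl
  have hmemY : ∀ h, h ∈ Y ↔ ∃ (B : GL (Fin n) K) (u : GL I K), ProjGenLinGroup.mk B = ψ h ∧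
        ProjGenLinGroup.mk u ∈ K0 ∧ (B : Matrix (Fin n) (Fin n) K) * e = e * (u : Matrix I I K) :=
    fun h => Iff.rfl
  have hXY : X ≤ Y := by
    intro x hx
    refine ⟨A ⟨x, hXD hx⟩, a ⟨x, hXD hx⟩, hA _, ?_, hAe _⟩
    exact Subgroup.subset_closure (Or.inl ⟨⟨x, hXD hx⟩, Subgroup.mem_subgroupOf.2 hx, rfl⟩)
  have hRY : R ≤ Y := by
    rintro x ⟨B, h1, h3⟩
    exact ⟨B, 1, h1, by rw [map_one]; exact K0.one_mem, by rw [h3, Units.val_one, Matrix.mul_one]⟩
  have hMR : ψ.ker ≤ R := by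
    intro x hx
    exact ⟨1, by rw [map_one, MonoidHom.mem_ker.1 hx], by rw [Units.val_one, Matrix.one_mul]⟩
  have hRn : ∀ y ∈ Y, ∀ r ∈ R, y * r * y⁻¹ ∈ R := by
    rintro y ⟨B, u, h1, h2, h3⟩ r ⟨C, h4, h6⟩
    refine ⟨B * C * B⁻¹, ?_, ?_⟩
    · rw [map_mul, map_mul, map_inv, map_mul, map_mul, map_inv, h1, h4]
    · have h7 := mul_e_mul e (B * C) B⁻¹ (u * 1) u⁻¹ (mul_e_mul e B C u 1 h3
        (by rw [h6, Units.val_one, Matrix.mul_one])) (mul_e_inv e _ _ h3)
      rwa [mul_one, mul_inv_cancel, Units.val_one, Matrix.mul_one] at h7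
  have hgY : g ∉ Y := by
    rintro ⟨B, u, h1, h2, h3⟩
    apply hgK0
    rw [hā]
    have h4 := mk_eq_of_e e he (A ⟨g, hgD⟩) B _ _ (hAe _) h3 (by rw [hA, h1]; rfl)
    rwa [h4]
  obtain ⟨S, hS⟩ := exists_ext e he (by omega) w
  obtain ⟨c, hc⟩ : ∃ c : H, ψ c = SpecialLinearGroup.toPGL S := by
    have : SpecialLinearGroup.toPGL S ∈ ψ.range := by rw [hψ]; exact ⟨S, rfl⟩
    exact this
  let SG : GL (Fin n) K := SpecialLinearGroup.toGL S
  have hSG : (SG : Matrix (Fin n) (Fin n) K) * e = e * (w : Matrix I I K) := hS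
  have hcS : ProjGenLinGroup.mk SG = ψ c := hc.symm
  have hcY : c ∈ Y := ⟨SG, w, hcS, Subgroup.subset_closure (Or.inr rfl), hSG⟩
  have hcommR : ∀ x ∈ X, ∀ x' ∈ X,
      x * (c * x' * c⁻¹) * x⁻¹ * (c * x' * c⁻¹)⁻¹ ∈ R := by
    intro x hx x' hx'
    let p : D := ⟨x, hXD hx⟩
    let q : D := ⟨x', hXD hx'⟩
    have hwi : w⁻¹ = w := by rw [inv_eq_iff_mul_eq_one, hw]
    have h1 := mul_e_mul e (SG * A q) SG⁻¹ (w * a q) w⁻¹ (mul_e_mul e SG (A q) w (a q) hSG (hAe q))
      (mul_e_inv e _ _ hSG)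
    rw [hwi] at h1
    have h2 := mul_e_mul e _ _ _ _ (mul_e_mul e _ _ _ _ (mul_e_mul e (A p) (SG * A q * SG⁻¹)
      (a p) (w * a q * w) (hAe p) h1) (mul_e_inv e _ _ (hAe p))) (mul_e_inv e _ _ h1)
    refine ⟨A p * (SG * A q * SG⁻¹) * (A p)⁻¹ * (SG * A q * SG⁻¹)⁻¹, ?_, ?_⟩
    · simp only [map_mul, map_inv, hcS]
      rw [hA, hA]
      rfl
    · rw [h2, hcomm]
      rw [mul_inv_cancel_right, mul_inv_cancel, Units.val_one, Matrix.mul_one]
  have hRcard : R.index ≤ Nat.card K ^ (n * s) := by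
    have hrep : ∀ h : H, ∃ B : GL (Fin n) K, ProjGenLinGroup.mk B = ψ h :=
      fun h => ProjGenLinGroup.mk_surjective (ψ h)
    choose B hB using hrep
    have hinj : Function.Injective (fun q : H ⧸ R =>
        (B q.out : Matrix (Fin n) (Fin n) K) * e) := by
      intro q q' h
      have h' : (B q.out : Matrix (Fin n) (Fin n) K) * e =
        (B q'.out : Matrix (Fin n) (Fin n) K) * e := h
      have h1 : q.out⁻¹ * q'.out ∈ R := by
        refine ⟨(B q.out)⁻¹ * B q'.out, ?_, ?_⟩
        · rw [map_mul, map_inv, hB, hB, map_mul, map_inv]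
        · rw [Units.val_mul, Matrix.mul_assoc, ← h', ← Matrix.mul_assoc, ← Units.val_mul,
            inv_mul_cancel, Units.val_one, Matrix.one_mul]
      have h2 := QuotientGroup.eq.2 h1
      rwa [QuotientGroup.out_eq', QuotientGroup.out_eq'] at h2
    have h1 : Nat.card (H ⧸ R) ≤ Nat.card (Matrix (Fin n) I K) :=
      Nat.card_le_card_of_injective _ hinj
    have h2 : Nat.card (Matrix (Fin n) I K) = Nat.card K ^ (n * Fintype.card I) := by
      change Nat.card (Fin n → I → K) = _
      rw [Nat.card_fun, Nat.card_fun, Nat.card_eq_fintype_card (α := I),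
        Nat.card_eq_fintype_card (α := Fin n), Fintype.card_fin, ← pow_mul, mul_comm n]
    rw [h2] at h1
    refine h1.trans (Nat.pow_le_pow_right ?_ (Nat.mul_le_mul le_rfl hI))
    exact Nat.card_pos
  refine ⟨Y, hgY, core_abs ψ X Y R hXY hMR hRY hRn c hcY hcommR ?_ ?_⟩
  · intro Q _ f hQ hQfin hf
    apply SecIn.of_comm
    -- lifts to elements of determinant one
    have hr : ∀ T : stabE e, ∃ r : R, ψ r = SpecialLinearGroup.toPGL (T : SpecialLinearGroup (Fin n) K)
        := by
      intro T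
      obtain ⟨r, hr⟩ : ∃ r : H, ψ r = SpecialLinearGroup.toPGL (T : SpecialLinearGroup (Fin n) K) := by
        have : SpecialLinearGroup.toPGL (T : SpecialLinearGroup (Fin n) K) ∈ ψ.range := by
          rw [hψ]; exact ⟨T, rfl⟩
        exact this
      obtain ⟨μ, hμ⟩ := T.2
      refine ⟨⟨r, ?_⟩, hr⟩
      refine ⟨SpecialLinearGroup.toGL (T : SpecialLinearGroup (Fin n) K) *
        (GeneralLinearGroup.scalar (Fin n) μ⁻¹), ?_, ?_⟩
      · rw [map_mul, ProjGenLinGroup.mk_scalar, mul_one, hr]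
        rfl
      · have h1 : ((GeneralLinearGroup.scalar (Fin n) μ⁻¹ : GL (Fin n) K) :
            Matrix (Fin n) (Fin n) K) = ((μ⁻¹ : Kˣ) : K) • 1 := by
          rw [GeneralLinearGroup.coe_scalar]
          exact (Matrix.smul_one_eq_diagonal _).symm
        rw [Units.val_mul, h1, Matrix.mul_smul, Matrix.mul_one, Matrix.smul_mul]
        change ((μ⁻¹ : Kˣ) : K) • (((T : SpecialLinearGroup (Fin n) K) : Matrix (Fin n) (Fin n) K) * e)
          = e
        rw [hμ, smul_smul, ← Units.val_mul, inv_mul_cancel, Units.val_one, one_smul]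
    choose r hr using hr
    have hfeq : ∀ x y : R, ψ x = ψ y → f x = f y := by
      intro x y h
      have h1 := hf (x⁻¹ * y) (by
        change ψ ((x : H)⁻¹ * (y : H)) = 1
        rw [map_mul, map_inv, h, inv_mul_cancel])
      rw [map_mul, map_inv, inv_mul_eq_one] at h1
      exact h1
    let G : stabE e →* Q := MonoidHom.mk' (fun T => f (r T)) (by
      intro S T
      change f (r (S * T)) = f (r S) * f (r T)
      rw [← map_mul]
      apply hfeq
      rw [hr]
      change SpecialLinearGroup.toPGL ((S : SpecialLinearGroup (Fin n) K) *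
        (T : SpecialLinearGroup (Fin n) K)) = ψ ((r S : H) * (r T : H))
      rw [map_mul, map_mul, hr, hr])
    have hGc := frame_comm e he (Q := Q) (by omega) G
    have hGs : ∀ x : R, ∃ T, f x = G T := by
      intro x
      obtain ⟨B, hB, hBe⟩ := x.2
      obtain ⟨T, hT⟩ : ∃ T : SpecialLinearGroup (Fin n) K, SpecialLinearGroup.toPGL T = ψ x := by
        have : ψ x ∈ ψ.range := ⟨x, rfl⟩
        rw [hψ] at this
        exact this
      have h1 : ProjGenLinGroup.mk B = ProjGenLinGroup.mk (SpecialLinearGroup.toGL T) := by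
        rw [hB]; exact hT.symm
      rw [ProjGenLinGroup.mk_eq_mk_iff] at h1
      obtain ⟨μ, hμ⟩ := h1
      have h2 : T ∈ stabE e := by
        refine ⟨μ, ?_⟩
        have h3 : (T : Matrix (Fin n) (Fin n) K) =
            (B : Matrix (Fin n) (Fin n) K) * ((μ : K) • 1) := by
          have h4 := congrArg (fun z : GL (Fin n) K => (z : Matrix (Fin n) (Fin n) K)) hμ
          have h5 : ((GeneralLinearGroup.scalar (Fin n) μ : GL (Fin n) K) :
              Matrix (Fin n) (Fin n) K) = (μ : K) • 1 := by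
            rw [GeneralLinearGroup.coe_scalar]
            exact (Matrix.smul_one_eq_diagonal _).symm
          simp only [Units.val_mul, h5] at h4
          exact h4.symm
        rw [h3, Matrix.mul_smul, Matrix.mul_one, Matrix.smul_mul, hBe]
      refine ⟨⟨T, h2⟩, ?_⟩
      change f x = f (r ⟨T, h2⟩)
      apply hfeq
      rw [hr, ← hT]
    rintro ⟨_, x, rfl⟩ ⟨_, y, rfl⟩
    apply Subtype.ext
    change f x * f y = f y * f x
    obtain ⟨S, hS⟩ := hGs x
    obtain ⟨T, hT⟩ := hGs y
    rw [hS, hT]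
    exact hGc S T
  · intro L _ hL hns
    exact hRcard.trans_lt (hM L hL hns)

end Pool.Agent.LFS
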