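import Mathlib
import Pool.Agent.LFS.LinCore
import Pool.Agent.LFS.LinAlg

set_option autoImplicit false

/-!
The two linear configurations.
-/

namespace Pool.Agent.LFS

open Matrix Module Equiv

universe u v

variable {n : ℕ} {K : Type} [Field K]

theorem coe_scalar_eq {I : Type*} [Fintype I] [DecidableEq I] (z : Kˣ) :
    ((GeneralLinearGroup.scalar I z : GL I K) : Matrix I I K) = (z : K) • 1 := by
  rw [GeneralLinearGroup.coe_scalar]
  exact (Matrix.smul_one_eq_diagonal _).symm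

theorem hasCfgL_of {D : Type u} [Group D] (φ : D →* ProjGenLinGroup (Fin n) K) (s : ℕ)
    (I : Type) [Fintype I] [DecidableEq I] (e : Matrix (Fin n) I K)
    (he : Function.Injective e.mulVec) (A : D → GL (Fin n) K)
    (hA : ∀ d, ProjGenLinGroup.mk (A d) = φ d) (a : D → Matrix I I K)
    (hAe : ∀ d, (A d : Matrix (Fin n) (Fin n) K) * e = e * a d) (w : Matrix I I K)
    (hw : w * w = 1) (hcomm : ∀ d d', a d * (w * a d' * w) = (w * a d' * w) * a d)
    (hdis : ∀ d d' (u : K), u ≠ 0 → a d = u • (w * a d' * w) → d = 1)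
    (hwa : ∀ d (u : K), u ≠ 0 → w ≠ u • a d) (hI : Fintype.card I ≤ s) : HasCfgL φ s := by
  have hunit : ∀ d, IsUnit (a d) := by
    intro d
    rw [← Matrix.mulVec_injective_iff_isUnit]
    intro x y hxy
    have h1 : Function.Injective (A d : Matrix (Fin n) (Fin n) K).mulVec := by
      rw [Matrix.mulVec_injective_iff_isUnit]
      exact (A d).isUnit
    apply he
    apply h1
    rw [Matrix.mulVec_mulVec, Matrix.mulVec_mulVec, hAe, ← Matrix.mulVec_mulVec,
      ← Matrix.mulVec_mulVec, hxy]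
  let a' : D → GL I K := fun d => (hunit d).unit
  have ha' : ∀ d, ((a' d : GL I K) : Matrix I I K) = a d := fun d => (hunit d).unit_spec
  let w' : GL I K := ⟨w, w, hw, hw⟩
  have hw' : ((w' : GL I K) : Matrix I I K) = w := rfl
  refine ⟨I, inferInstance, inferInstance, e, A, a', w', he, hA, ?_, ?_, ?_, ?_, ?_, hI⟩
  · intro d
    rw [ha', hAe]
  · apply Units.ext
    rw [Units.val_mul, hw', hw, Units.val_one]
  · intro d d'
    apply Units.ext
    simp only [Units.val_mul, hw', ha']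
    exact hcomm d d'
  · intro d d' h
    rw [ProjGenLinGroup.mk_eq_mk_iff] at h
    obtain ⟨z, hz⟩ := h
    have h1 := congrArg (fun x : GL I K => (x : Matrix I I K)) hz
    simp only [Units.val_mul, hw', ha', coe_scalar_eq, Matrix.mul_smul, Matrix.mul_one] at h1
    refine hdis d d' ((z⁻¹ : Kˣ) : K) (Units.ne_zero _) ?_
    rw [← h1, smul_smul, ← Units.val_mul, inv_mul_cancel, Units.val_one, one_smul]
  · intro d h
    rw [ProjGenLinGroup.mk_eq_mk_iff] at h
    obtain ⟨z, hz⟩ := h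
    have h1 := congrArg (fun x : GL I K => (x : Matrix I I K)) hz
    simp only [Units.val_mul, hw', ha', coe_scalar_eq, Matrix.mul_smul, Matrix.mul_one] at h1
    refine hwa d ((z⁻¹ : Kˣ) : K) (Units.ne_zero _) ?_
    rw [← h1, smul_smul, ← Units.val_mul, inv_mul_cancel, Units.val_one, one_smul]

section perm

variable {J : Type*} [Fintype J] [DecidableEq J]

theorem pm_mul_apply (σ : Perm J) (M : Matrix J J K) (x y : J) :
    (pm K σ * M) (σ x) y = M x y := by
  rw [Matrix.mul_apply, Finset.sum_eq_single x]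
  · simp [pm]
  · intro z _ hz
    have : ¬ σ x = σ z := fun h => hz (σ.injective h).symm
    simp only [pm, if_neg this, zero_mul]
  · intro h
    exact absurd (Finset.mem_univ _) h

theorem mul_pm_apply (σ : Perm J) (M : Matrix J J K) (x y : J) :
    (M * pm K σ) x y = M x (σ y) := by
  rw [Matrix.mul_apply, Finset.sum_eq_single (σ y)]
  · simp [pm]
  · intro z _ hz
    simp only [pm, if_neg hz, mul_zero]
  · intro h
    exact absurd (Finset.mem_univ _) h

theorem pm_conj_apply (σ : Perm J) (hσ : ∀ x, σ (σ x) = x) (M : Matrix J J K) (x y : J) :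
    (pm K σ * M * pm K σ) x y = M (σ x) (σ y) := by
  rw [mul_pm_apply]
  have := pm_mul_apply σ M (σ x) (σ y)
  rwa [hσ] at this

theorem pm_sq (σ : Perm J) (hσ : ∀ x, σ (σ x) = x) : pm K σ * pm K σ = 1 := by
  rw [← pm_mul]
  have : σ * σ = 1 := Equiv.ext hσ
  rw [this]
  ext x y
  by_cases h : x = y
  · subst h
    rw [Matrix.one_apply_eq]
    exact if_pos rfl
  · rw [Matrix.one_apply_ne h]
    exact if_neg h

end perm

/-- thresholds. -/
def thr (δ : ℕ) : ℕ → ℕ
  | 0 => 0
  | i + 1 => δ * thr δ i + δ * δ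

theorem thr_mono (δ : ℕ) (hδ : 1 ≤ δ) : Monotone (thr δ) := by
  apply monotone_nat_of_le_succ
  intro i
  change thr δ i ≤ δ * thr δ i + δ * δ
  have : thr δ i ≤ δ * thr δ i := Nat.le_mul_of_pos_left _ hδ
  omega

theorem cfgL_nonfinitary [Finite K] {D : Type u} [Group D] [Fintype D] [Nontrivial D]
    (φ : D →* ProjGenLinGroup (Fin n) K)
    (hmove : ∀ d : D, d ≠ 1 → ∀ B : GL (Fin n) K, ProjGenLinGroup.mk B = φ d →
      Fintype.card D * thr (Fintype.card D) (Fintype.card D) <
        ((B : Matrix (Fin n) (Fin n) K) - 1).rank) :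
    HasCfgL φ (Fintype.card D * Fintype.card D) := by
  classical
  let δ := Fintype.card D
  have hδ : 1 ≤ δ := Fintype.card_pos
  have hlift : ∀ d, ∃ B : GL (Fin n) K, ProjGenLinGroup.mk B = φ d :=
    fun d => ProjGenLinGroup.mk_surjective (φ d)
  choose A hA using hlift
  have hmulA : ∀ d d', ∃ c : K, (A d : Matrix (Fin n) (Fin n) K) * (A d' : Matrix _ _ K) =
      c • (A (d * d') : Matrix (Fin n) (Fin n) K) := by
    intro d d'
    have h1 : ProjGenLinGroup.mk (A (d * d')) = ProjGenLinGroup.mk (A d * A d') := by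
      rw [hA, map_mul, map_mul, hA, hA]
    rw [ProjGenLinGroup.mk_eq_mk_iff] at h1
    obtain ⟨z, hz⟩ := h1
    refine ⟨z, ?_⟩
    rw [← Units.val_mul, ← hz, Units.val_mul, coe_scalar_eq, Matrix.mul_smul, Matrix.mul_one]
  let 𝒜 : Submodule K (Matrix (Fin n) (Fin n) K) :=
    Submodule.span K (Set.range (fun d => (A d : Matrix (Fin n) (Fin n) K)))
  have hA𝒜 : ∀ d, (A d : Matrix (Fin n) (Fin n) K) ∈ 𝒜 := fun d => Submodule.subset_span ⟨d, rfl⟩
  have hmul𝒜 : ∀ d, ∀ x ∈ 𝒜, (A d : Matrix (Fin n) (Fin n) K) * x ∈ 𝒜 := by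
    intro d x hx
    induction hx using Submodule.span_induction with
    | mem x hx =>
      obtain ⟨d', rfl⟩ := hx
      obtain ⟨c, hc⟩ := hmulA d d'
      change (A d : Matrix (Fin n) (Fin n) K) * (A d' : Matrix _ _ K) ∈ 𝒜
      rw [hc]
      exact 𝒜.smul_mem _ (hA𝒜 _)
    | zero => rw [Matrix.mul_zero]; exact 𝒜.zero_mem
    | add x y _ _ hx hy => rw [Matrix.mul_add]; exact 𝒜.add_mem hx hy
    | smul c x _ hx => rw [Matrix.mul_smul]; exact 𝒜.smul_mem _ hx
  have hone : (1 : Matrix (Fin n) (Fin n) K) ∈ 𝒜 := by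
    have h1 : ProjGenLinGroup.mk (A 1) = ProjGenLinGroup.mk (1 : GL (Fin n) K) := by
      rw [hA, map_one, map_one]
    rw [ProjGenLinGroup.mk_eq_mk_iff] at h1
    obtain ⟨z, hz⟩ := h1
    have h2 := congrArg (fun x : GL (Fin n) K => (x : Matrix (Fin n) (Fin n) K)) hz
    simp only [Units.val_mul, coe_scalar_eq, Matrix.mul_smul, Matrix.mul_one, Units.val_one] at h2
    rw [← h2]
    exact 𝒜.smul_mem _ (hA𝒜 1)
  have h𝒜dim : finrank K 𝒜 ≤ δ := finrank_range_le_card _
  let J : ℕ → Submodule K (Matrix (Fin n) (Fin n) K) := fun t =>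
    Submodule.span K {a | a ∈ 𝒜 ∧ a.rank ≤ t}
  have hJ𝒜 : ∀ t, J t ≤ 𝒜 := fun t => Submodule.span_le.2 (fun a ha => ha.1)
  have hJmono : ∀ t t', t ≤ t' → J t ≤ J t' := fun t t' h =>
    Submodule.span_mono (fun a ha => ⟨ha.1, ha.2.trans h⟩)
  have hJmul : ∀ t d, ∀ x ∈ J t, (A d : Matrix (Fin n) (Fin n) K) * x ∈ J t := by
    intro t d x hx
    induction hx using Submodule.span_induction with
    | mem x hx =>
      exact Submodule.subset_span ⟨hmul𝒜 d x hx.1, (Matrix.rank_mul_le_right _ _).trans hx.2⟩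
    | zero => rw [Matrix.mul_zero]; exact (J t).zero_mem
    | add x y _ _ hx hy => rw [Matrix.mul_add]; exact (J t).add_mem hx hy
    | smul c x _ hx => rw [Matrix.mul_smul]; exact (J t).smul_mem _ hx
  obtain ⟨i, hi, hiJ⟩ := exists_stable (fun i => finrank K (J (thr δ i)))
    (fun i => Submodule.finrank_mono (hJmono _ _ (thr_mono δ hδ (Nat.le_succ i)))) δ
    (fun i => (Submodule.finrank_mono (hJ𝒜 _)).trans h𝒜dim)
  obtain ⟨t, ht⟩ : ∃ t, t = thr δ i := ⟨_, rfl⟩
  have hT : thr δ (i + 1) = δ * t + δ * δ := by rw [ht]; rfl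
  have hJeq : J t = J (δ * t + δ * δ) := by
    rw [← hT, ht]
    exact Submodule.eq_of_le_of_finrank_eq (hJmono _ _ (thr_mono δ hδ (Nat.le_succ i))) hiJ
  have htN : δ * t ≤ δ * thr δ δ := by
    rw [ht]
    exact Nat.mul_le_mul le_rfl (thr_mono δ hδ hi)
  obtain ⟨b, hb1, hb2, hb3⟩ := exists_small_span (K := K)
    {a : Matrix (Fin n) (Fin n) K | a ∈ 𝒜 ∧ a.rank ≤ t}
  have hbcard : b.card ≤ δ := by
    rw [hb3]
    exact (Submodule.finrank_mono (hJ𝒜 t)).trans h𝒜dim
  have hbJ : Submodule.span K (b : Set (Matrix (Fin n) (Fin n) K)) = J t := hb2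
  have hJrank : ∀ a ∈ J t, a.rank ≤ δ * t := by
    intro a ha
    rw [← hbJ, Submodule.mem_span_finset] at ha
    obtain ⟨c, -, hc⟩ := ha
    rw [← hc]
    refine (rank_sum_le _ _).trans ?_
    calc ∑ x ∈ b, (c x • x).rank ≤ ∑ _x ∈ b, t := Finset.sum_le_sum (fun x hx =>
          (rank_smul_le' _ _).trans (hb1 hx).2)
      _ = b.card * t := by rw [Finset.sum_const, smul_eq_mul]
      _ ≤ δ * t := Nat.mul_le_mul hbcard le_rfl
  have hout : ∀ a ∈ 𝒜, a ∉ J t → δ * t + δ * δ ≤ a.rank := by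
    intro a ha haJ
    by_contra hlt
    push Not at hlt
    apply haJ
    rw [hJeq]
    exact Submodule.subset_span ⟨ha, hlt.le⟩
  -- the common kernel
  let Ψ : (Fin n → K) →ₗ[K] (∀ a : b, LinearMap.range (a : Matrix (Fin n) (Fin n) K).mulVecLin) :=
    LinearMap.pi (fun a => (a : Matrix (Fin n) (Fin n) K).mulVecLin.rangeRestrict)
  let V : Submodule K (Fin n → K) := LinearMap.ker Ψ
  have hVmem : ∀ v ∈ V, ∀ a ∈ J t, a.mulVec v = 0 := by
    intro v hv a ha
    rw [← hbJ, Submodule.mem_span_finset] at ha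
    obtain ⟨c, -, hc⟩ := ha
    rw [← hc, Matrix.sum_mulVec]
    apply Finset.sum_eq_zero
    intro x hx
    rw [Matrix.smul_mulVec]
    have h1 : Ψ v = 0 := hv
    have h2 := congrArg Subtype.val (congrFun h1 ⟨x, hx⟩)
    have h3 : x.mulVec v = 0 := h2
    rw [h3, smul_zero]
  have hVdim : n ≤ finrank K V + δ * t := by
    have h1 := LinearMap.finrank_range_add_finrank_ker Ψ
    rw [Module.finrank_fintype_fun_eq_card, Fintype.card_fin] at h1
    have h2 : finrank K (LinearMap.range Ψ) ≤ δ * t := by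
      refine (Submodule.finrank_le _).trans ?_
      rw [Module.finrank_pi_fintype]
      calc ∑ a : b, finrank K (LinearMap.range (a : Matrix (Fin n) (Fin n) K).mulVecLin)
          ≤ ∑ _a : b, t := Finset.sum_le_sum (fun a _ => (hb1 a.2).2)
        _ = b.card * t := by rw [Finset.sum_const, smul_eq_mul, Finset.card_univ, Fintype.card_coe]
        _ ≤ δ * t := Nat.mul_le_mul hbcard le_rfl
    have h3 : finrank K V = finrank K (LinearMap.ker Ψ) := rfl
    omega
  -- the quotient
  let J' : Submodule K 𝒜 := (J t).comap 𝒜.subtype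
  obtain ⟨m, hm⟩ : ∃ m, m = finrank K (𝒜 ⧸ J') := ⟨_, rfl⟩
  have hmδ : m ≤ δ := by
    rw [hm]
    exact (Submodule.finrank_quotient_le J').trans h𝒜dim
  let bq : Basis (Fin m) K (𝒜 ⧸ J') := Module.finBasisOfFinrankEq K _ hm.symm
  have hε' : ∀ k, ∃ x : 𝒜, J'.mkQ x = bq k := fun k => J'.mkQ_surjective (bq k)
  choose ε' hε' using hε'
  let ε : Fin m → Matrix (Fin n) (Fin n) K := fun k => (ε' k : Matrix (Fin n) (Fin n) K)
  have hε𝒜 : ∀ k, ε k ∈ 𝒜 := fun k => (ε' k).2
  have hcoef : ∀ x ∈ 𝒜, ∃ c : Fin m → K, x - ∑ k, c k • ε k ∈ J t := by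
    intro x hx
    refine ⟨fun k => bq.repr (J'.mkQ ⟨x, hx⟩) k, ?_⟩
    have h1 : J'.mkQ (⟨x, hx⟩ - ∑ k, bq.repr (J'.mkQ ⟨x, hx⟩) k • ε' k) = 0 := by
      rw [map_sub, map_sum]
      simp only [map_smul, hε']
      rw [bq.sum_repr, sub_self]
    rw [Submodule.mkQ_apply, Submodule.Quotient.mk_eq_zero] at h1
    have h2 : 𝒜.subtype (⟨x, hx⟩ - ∑ k, bq.repr (J'.mkQ ⟨x, hx⟩) k • ε' k) ∈ J t := h1
    rw [map_sub, map_sum] at h2
    simpa using h2
  have hind : ∀ c : Fin m → K, ∑ k, c k • ε k ∈ J t → c = 0 := by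
    intro c hc
    have h1 : (∑ k, c k • ε' k) ∈ J' := by
      change 𝒜.subtype (∑ k, c k • ε' k) ∈ J t
      rw [map_sum]
      simpa using hc
    have h2 : J'.mkQ (∑ k, c k • ε' k) = 0 := by
      rw [Submodule.mkQ_apply, Submodule.Quotient.mk_eq_zero]; exact h1
    rw [map_sum] at h2
    simp only [map_smul, hε'] at h2
    have h3 := Fintype.linearIndependent_iff.1 bq.linearIndependent c h2
    exact funext h3
  have hsum𝒜 : ∀ c : Fin m → K, ∑ k, c k • ε k ∈ 𝒜 := fun c =>
    𝒜.sum_mem (fun k _ => 𝒜.smul_mem _ (hε𝒜 k))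
  obtain ⟨v, hvV, hvind⟩ := exists_vecs V ε (δ * t + δ * δ) (by
    intro c hc
    exact hout _ (hsum𝒜 c) (fun h => hc (hind c h))) (by
    have := Nat.mul_le_mul hmδ hmδ
    omega)
  have hα : ∀ d i, ∃ c : Fin m → K,
      (A d : Matrix (Fin n) (Fin n) K) * ε i - ∑ k, c k • ε k ∈ J t :=
    fun d i => hcoef _ (hmul𝒜 d _ (hε𝒜 i))
  choose α' hα' using hα
  let α : D → Matrix (Fin m) (Fin m) K := fun d => Matrix.of (fun k i => α' d i k)
  have hα : ∀ d i, (A d : Matrix (Fin n) (Fin n) K) * ε i - ∑ k, α d k i • ε k ∈ J t :=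
    fun d i => hα' d i
  obtain ⟨d0, hd0⟩ := exists_ne (1 : D)
  have hnJ : δ * t < n := by
    have h1 := hmove d0 hd0 (A d0) (hA d0)
    have h2 := Matrix.rank_le_width ((A d0 : Matrix (Fin n) (Fin n) K) - 1)
    exact lt_of_le_of_lt htN (lt_of_lt_of_le h1 h2)
  have hmpos : 0 < m := by
    by_contra h0
    obtain ⟨c, hc⟩ := hcoef 1 hone
    have h1 : ∑ k, c k • ε k = 0 := by
      apply Finset.sum_eq_zero
      intro k _
      exact absurd k.2 (by omega)
    rw [h1, sub_zero] at hc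
    have h2 := hJrank 1 hc
    rw [Matrix.rank_one, Fintype.card_fin] at h2
    omega
  have hns : ∀ d, d ≠ 1 → ∀ l : K, ¬ ∀ k i, α d k i = if k = i then l else 0 := by
    intro d hd l hl
    have h1 : ∀ i, (A d : Matrix (Fin n) (Fin n) K) * ε i - l • ε i ∈ J t := by
      intro i
      have h2 := hα d i
      have h3 : ∑ k, α d k i • ε k = l • ε i := by
        rw [Finset.sum_eq_single i]
        · rw [hl, if_pos rfl]
        · intro k _ hk
          rw [hl, if_neg hk, zero_smul]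
        · intro h
          exact absurd (Finset.mem_univ _) h
      rwa [h3] at h2
    have h2 : (A d : Matrix (Fin n) (Fin n) K) - l • 1 ∈ J t := by
      obtain ⟨c, hc⟩ := hcoef 1 hone
      have h3 : (A d : Matrix (Fin n) (Fin n) K) - l • 1 =
          ((A d : Matrix (Fin n) (Fin n) K) * (1 - ∑ k, c k • ε k) - l • (1 - ∑ k, c k • ε k)) +
          ∑ k, c k • ((A d : Matrix (Fin n) (Fin n) K) * ε k - l • ε k) := by
        have h4 : ∑ k, c k • ((A d : Matrix (Fin n) (Fin n) K) * ε k - l • ε k) =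
            (A d : Matrix (Fin n) (Fin n) K) * ∑ k, c k • ε k - l • ∑ k, c k • ε k := by
          rw [Finset.mul_sum, Finset.smul_sum, ← Finset.sum_sub_distrib]
          apply Finset.sum_congr rfl
          intro k _
          rw [smul_sub, Matrix.mul_smul, smul_comm l (c k)]
        rw [h4, Matrix.mul_sub, Matrix.mul_one, smul_sub]
        abel
      rw [h3]
      refine (J t).add_mem ((J t).sub_mem (hJmul t d _ hc) ((J t).smul_mem _ hc))
        ((J t).sum_mem (fun k _ => (J t).smul_mem _ (h1 k)))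
    have h3 := hJrank _ h2
    by_cases hl0 : l = 0
    · rw [hl0, zero_smul, sub_zero] at h3
      rw [Matrix.rank_unit, Fintype.card_fin] at h3
      omega
    · let z : Kˣ := (Units.mk0 l hl0)⁻¹
      have h4 := hmove d hd (A d * GeneralLinearGroup.scalar (Fin n) z) (by
        rw [map_mul, ProjGenLinGroup.mk_scalar, mul_one, hA])
      have h5 : ((A d * GeneralLinearGroup.scalar (Fin n) z : GL (Fin n) K) :
          Matrix (Fin n) (Fin n) K) - 1 = l⁻¹ • ((A d : Matrix (Fin n) (Fin n) K) - l • 1) := by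
        rw [Units.val_mul, coe_scalar_eq, Matrix.mul_smul, Matrix.mul_one, smul_sub, smul_smul,
          inv_mul_cancel₀ hl0, one_smul]
        rfl
      rw [h5] at h4
      have h6 := (rank_smul_le' l⁻¹ ((A d : Matrix (Fin n) (Fin n) K) - l • 1)).trans h3
      exact absurd h4 (not_lt.2 (h6.trans htN))
  have hm2 : 2 ≤ m := by
    by_contra hlt
    have hm1 : m = 1 := by omega
    subst hm1
    apply hns d0 hd0 (α d0 0 0)
    intro k i
    have hk : k = 0 := Subsingleton.elim _ _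
    have hi' : i = 0 := Subsingleton.elim _ _
    rw [hk, hi', if_pos rfl]
  -- the frame
  let e : Matrix (Fin n) (Fin m × Fin m) K := Matrix.of (fun p x => (ε x.1).mulVec (v x.2) p)
  have hemul : ∀ c, e.mulVec c = ∑ x, c x • (ε x.1).mulVec (v x.2) := by
    intro c
    ext p
    rw [Finset.sum_apply]
    change ∑ x, e p x * c x = _
    apply Finset.sum_congr rfl
    intro x _
    rw [Pi.smul_apply, smul_eq_mul, mul_comm]
    rfl
  have he : Function.Injective e.mulVec := by
    intro x y hxy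
    have h1 : e.mulVec (x - y) = 0 := by rw [Matrix.mulVec_sub, hxy, sub_self]
    rw [hemul] at h1
    exact sub_eq_zero.1 (hvind _ h1)
  let σ : Perm (Fin m × Fin m) := Equiv.prodComm (Fin m) (Fin m)
  have hσ : ∀ x, σ (σ x) = x := fun x => rfl
  let a : D → Matrix (Fin m × Fin m) (Fin m × Fin m) K := fun d =>
    Matrix.kroneckerMap (· * ·) (α d) 1
  have ha : ∀ d k j i l, a d (k, j) (i, l) = α d k i * (1 : Matrix (Fin m) (Fin m) K) j l :=
    fun d k j i l => rfl
  have hconj : ∀ d, pm K σ * a d * pm K σ = Matrix.kroneckerMap (· * ·) 1 (α d) := by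
    intro d
    ext ⟨k, j⟩ ⟨i, l⟩
    rw [pm_conj_apply σ hσ]
    change α d j l * (1 : Matrix (Fin m) (Fin m) K) k i =
      (1 : Matrix (Fin m) (Fin m) K) k i * α d j l
    exact mul_comm _ _
  refine hasCfgL_of φ _ (Fin m × Fin m) e he A hA a ?_ (pm K σ) (pm_sq σ hσ) ?_ ?_ ?_ ?_
  · intro d
    ext p ⟨i, j⟩
    have h1 : (A d : Matrix (Fin n) (Fin n) K).mulVec ((ε i).mulVec (v j)) =
        ∑ k, α d k i • (ε k).mulVec (v j) := by
      have h2 := hVmem (v j) (hvV j) _ (hα d i)
      rw [Matrix.sub_mulVec, sub_eq_zero, ← Matrix.mulVec_mulVec, Matrix.sum_mulVec] at h2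
      rw [h2]
      apply Finset.sum_congr rfl
      intro k _
      rw [Matrix.smul_mulVec]
    have h2 := congrFun h1 p
    have h3 : ((A d : Matrix (Fin n) (Fin n) K) * e) p (i, j) =
        (A d : Matrix (Fin n) (Fin n) K).mulVec ((ε i).mulVec (v j)) p := rfl
    rw [h3, h2, Matrix.mul_apply, Fintype.sum_prod_type, Finset.sum_apply]
    apply Finset.sum_congr rfl
    intro k _
    rw [Finset.sum_eq_single j]
    · rw [ha, Matrix.one_apply_eq, mul_one, Pi.smul_apply, smul_eq_mul, mul_comm]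
      rfl
    · intro l _ hl
      rw [ha, Matrix.one_apply_ne hl, mul_zero, mul_zero]
    · intro h
      exact absurd (Finset.mem_univ _) h
  · intro d d'
    rw [hconj]
    change Matrix.kroneckerMap (· * ·) (α d) 1 * Matrix.kroneckerMap (· * ·) 1 (α d') =
      Matrix.kroneckerMap (· * ·) 1 (α d') * Matrix.kroneckerMap (· * ·) (α d) 1
    rw [← Matrix.mul_kronecker_mul, ← Matrix.mul_kronecker_mul, Matrix.mul_one, Matrix.one_mul,
      Matrix.mul_one, Matrix.one_mul]
  · intro d d' u hu h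
    by_contra hd
    rw [hconj] at h
    let j0 : Fin m := ⟨0, hmpos⟩
    apply hns d hd (u * α d' j0 j0)
    intro k i
    have h1 := congrFun (congrFun h (k, j0)) (i, j0)
    rw [ha, Matrix.one_apply_eq, mul_one] at h1
    rw [h1]
    change u * ((1 : Matrix (Fin m) (Fin m) K) k i * α d' j0 j0) = _
    rw [Matrix.one_apply]
    split_ifs
    · rw [one_mul]
    · rw [zero_mul, mul_zero]
  · intro d u hu h
    let i0 : Fin m := ⟨0, by omega⟩
    let j0 : Fin m := ⟨1, by omega⟩
    have hne : i0 ≠ j0 := by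
      intro h
      exact absurd (congrArg Fin.val h) (by simp [i0, j0])
    have h1 := congrFun (congrFun h (j0, i0)) (i0, j0)
    have h2 : pm K σ (j0, i0) (i0, j0) = 1 := by
      change (if (j0, i0) = σ (i0, j0) then (1 : K) else 0) = 1
      exact if_pos rfl
    rw [h2] at h1
    change (1 : K) = u * (α d j0 i0 * (1 : Matrix (Fin m) (Fin m) K) i0 j0) at h1
    rw [Matrix.one_apply_ne hne, mul_zero, mul_zero] at h1
    exact one_ne_zero h1
  · rw [Fintype.card_prod, Fintype.card_fin]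
    exact Nat.mul_le_mul hmδ hmδ

end Pool.Agent.LFS
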