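import Mathlib
import Pool.Agent.LFS.LinCfg

set_option autoImplicit false

/-!
The finitary linear configuration.
-/

namespace Pool.Agent.LFS

open Matrix Module

universe u v

variable {n : ℕ} {K : Type} [Field K]

theorem cfgL_finitary {D : Type u} [Group D] [Fintype D]
    (φ : D →* ProjGenLinGroup (Fin n) K) (hφ : Function.Injective φ) (r : ℕ)
    (hr : ∀ d : D, ∃ B : GL (Fin n) K, ProjGenLinGroup.mk B = φ d ∧
      ((B : Matrix (Fin n) (Fin n) K) - 1).rank ≤ r)
    (hn : Fintype.card D * r + 2 * (Fintype.card D * r + Fintype.card D + 1) ≤ n) :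
    HasCfgL φ (2 * (Fintype.card D * r + Fintype.card D + 1)) := by
  classical
  obtain ⟨δ, hδ⟩ : ∃ δ, δ = Fintype.card D := ⟨_, rfl⟩
  rw [← hδ] at hn ⊢
  choose A hA hAr using hr
  -- the common fixed space
  let Ψ : (Fin n → K) →ₗ[K]
      (∀ d : D, LinearMap.range ((A d : Matrix (Fin n) (Fin n) K) - 1).mulVecLin) :=
    LinearMap.pi (fun d => ((A d : Matrix (Fin n) (Fin n) K) - 1).mulVecLin.rangeRestrict)
  let F : Submodule K (Fin n → K) := LinearMap.ker Ψ
  have hsub : ∀ (d : D) (v : Fin n → K), ((A d : Matrix (Fin n) (Fin n) K) - 1).mulVec v =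
      (A d : Matrix (Fin n) (Fin n) K).mulVec v - v := by
    intro d v
    rw [Matrix.sub_mulVec, Matrix.one_mulVec]
  have hF : ∀ v ∈ F, ∀ d, (A d : Matrix (Fin n) (Fin n) K).mulVec v = v := by
    intro v hv d
    have h1 : Ψ v = 0 := hv
    have h2 := congrArg Subtype.val (congrFun h1 d)
    have h3 : ((A d : Matrix (Fin n) (Fin n) K) - 1).mulVec v = 0 := h2
    rw [hsub] at h3
    exact sub_eq_zero.1 h3
  have hFdim : n ≤ finrank K F + δ * r := by
    have h1 := LinearMap.finrank_range_add_finrank_ker Ψ
    rw [Module.finrank_fintype_fun_eq_card, Fintype.card_fin] at h1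
    have h2 : finrank K (LinearMap.range Ψ) ≤ δ * r := by
      refine (Submodule.finrank_le _).trans ?_
      rw [Module.finrank_pi_fintype]
      calc ∑ d : D, finrank K (LinearMap.range ((A d : Matrix (Fin n) (Fin n) K) - 1).mulVecLin)
          ≤ ∑ _d : D, r := Finset.sum_le_sum (fun d _ => hAr d)
        _ = δ * r := by rw [Finset.sum_const, smul_eq_mul, Finset.card_univ, hδ]
    have h3 : finrank K F = finrank K (LinearMap.ker Ψ) := rfl
    omega
  obtain ⟨f, hfF, hf0⟩ : ∃ f ∈ F, f ≠ 0 := by
    have h1 : F ≠ ⊥ := by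
      intro h
      rw [h, finrank_bot] at hFdim
      omega
    exact F.exists_mem_ne_zero_of_ne_bot h1
  -- witnesses
  have hw : ∀ d : D, ∃ v : Fin n → K, d ≠ 1 → (A d : Matrix (Fin n) (Fin n) K).mulVec v ≠ v := by
    intro d
    by_cases hd : d = 1
    · exact ⟨0, fun h => absurd hd h⟩
    · by_contra hb
      push Not at hb
      have h1 : A d = 1 := by
        apply Units.ext
        rw [Units.val_one]
        apply Matrix.ext_of_mulVec_single
        intro i
        rw [(hb _).2, Matrix.one_mulVec]
      apply hd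
      apply hφ
      rw [← hA, h1, map_one, map_one]
  choose wv hwv using hw
  let U : Submodule K (Fin n → K) :=
    (⨆ d : D, LinearMap.range ((A d : Matrix (Fin n) (Fin n) K) - 1).mulVecLin) ⊔
      (Submodule.span K (Set.range wv) ⊔ Submodule.span K {f})
  have hUr : ∀ d v, (A d : Matrix (Fin n) (Fin n) K).mulVec v - v ∈ U := by
    intro d v
    apply Submodule.mem_sup_left
    apply Submodule.mem_iSup_of_mem d
    rw [← hsub]
    exact ⟨v, rfl⟩
  have hUw : ∀ d, wv d ∈ U := fun d =>
    Submodule.mem_sup_right (Submodule.mem_sup_left (Submodule.subset_span ⟨d, rfl⟩))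
  have hUf : f ∈ U :=
    Submodule.mem_sup_right (Submodule.mem_sup_right (Submodule.subset_span rfl))
  have hUA : ∀ d, ∀ u ∈ U, (A d : Matrix (Fin n) (Fin n) K).mulVec u ∈ U := by
    intro d u hu
    have h1 := U.add_mem (hUr d u) hu
    rwa [sub_add_cancel] at h1
  have hUdim : finrank K U ≤ δ * r + δ + 1 := by
    have h1 : finrank K (⨆ d : D, LinearMap.range
        ((A d : Matrix (Fin n) (Fin n) K) - 1).mulVecLin : Submodule K (Fin n → K)) ≤ δ * r := by
      have h2 : ∀ s : Finset D, finrank K (s.sup (fun d => LinearMap.range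
          ((A d : Matrix (Fin n) (Fin n) K) - 1).mulVecLin) : Submodule K (Fin n → K)) ≤
          s.card * r := by
        intro s
        induction s using Finset.induction_on with
        | empty => simp
        | insert a s ha ih =>
          rw [Finset.sup_insert, Finset.card_insert_of_notMem ha, add_mul, one_mul, add_comm]
          exact (Submodule.finrank_add_le_finrank_add_finrank _ _).trans
            (Nat.add_le_add (hAr a) ih)
      have h3 := h2 Finset.univ
      rwa [Finset.sup_univ_eq_iSup, Finset.card_univ, ← hδ] at h3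
    have h2 : finrank K (Submodule.span K (Set.range wv)) ≤ δ := by
      rw [hδ]
      exact finrank_range_le_card _
    have h3 : finrank K (Submodule.span K {f}) ≤ 1 := by
      have h7 := finrank_span_le_card (R := K) ({f} : Set (Fin n → K))
      simpa using h7
    have h4 := Submodule.finrank_add_le_finrank_add_finrank
      (⨆ d : D, LinearMap.range ((A d : Matrix (Fin n) (Fin n) K) - 1).mulVecLin)
      (Submodule.span K (Set.range wv) ⊔ Submodule.span K {f})
    have h5 := Submodule.finrank_add_le_finrank_add_finrank (Submodule.span K (Set.range wv))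
      (Submodule.span K {f})
    have h6 : finrank K U = finrank K ((⨆ d : D, LinearMap.range
      ((A d : Matrix (Fin n) (Fin n) K) - 1).mulVecLin) ⊔
      (Submodule.span K (Set.range wv) ⊔ Submodule.span K {f}) : Submodule K (Fin n → K)) := rfl
    omega
  obtain ⟨m, hm⟩ : ∃ m, m = finrank K U := ⟨_, rfl⟩
  let bU : Basis (Fin m) K U := Module.finBasisOfFinrankEq K _ hm.symm
  have hmpos : 0 < m := by
    rw [hm, Module.finrank_pos_iff_exists_ne_zero]
    refine ⟨⟨f, hUf⟩, fun h => hf0 (congrArg Subtype.val h)⟩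
  -- the second block
  let F' : Submodule K ((Fin n → K) ⧸ U) := F.map U.mkQ
  have hF'dim : m ≤ finrank K F' := by
    let L : F →ₗ[K] ((Fin n → K) ⧸ U) := U.mkQ ∘ₗ F.subtype
    have h1 := LinearMap.finrank_range_add_finrank_ker L
    have h2 : LinearMap.range L = F' := by
      rw [LinearMap.range_comp, Submodule.range_subtype]
    have h3 : finrank K (LinearMap.ker L) ≤ finrank K U := by
      let g : LinearMap.ker L →ₗ[K] U :=
        { toFun := fun x => ⟨((x : F) : Fin n → K), by
            have h4 : L x = 0 := x.2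
            have h5 : U.mkQ ((x : F) : Fin n → K) = 0 := h4
            rwa [Submodule.mkQ_apply, Submodule.Quotient.mk_eq_zero] at h5⟩
          map_add' := fun _ _ => rfl
          map_smul' := fun _ _ => rfl }
      refine LinearMap.finrank_le_finrank_of_injective (f := g) ?_
      intro x y h
      have h6 := congrArg Subtype.val h
      exact Subtype.ext (Subtype.ext h6)
    rw [h2] at h1
    omega
  let bF : Basis (Fin (finrank K F')) K F' := Module.finBasis K F'
  have hu2 : ∀ j : Fin m, ∃ x ∈ F, U.mkQ x = (bF (Fin.castLE hF'dim j) : (Fin n → K) ⧸ U) :=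
    fun j => (bF (Fin.castLE hF'dim j)).2
  choose u₂ hu₂F hu₂ using hu2
  have hind2 : ∀ c : Fin m → K, ∑ j, c j • U.mkQ (u₂ j) = 0 → c = 0 := by
    intro c hc
    have h1 : LinearIndependent K (fun j : Fin m =>
        (bF (Fin.castLE hF'dim j) : (Fin n → K) ⧸ U)) := by
      have h2 := bF.linearIndependent.comp (Fin.castLE hF'dim) (Fin.castLE_injective hF'dim)
      exact h2.map' F'.subtype (Submodule.ker_subtype _)
    have h2 := Fintype.linearIndependent_iff.1 h1 c (by simpa only [hu₂] using hc)
    exact funext h2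
  let e : Matrix (Fin n) (Fin m ⊕ Fin m) K :=
    Matrix.of (fun p x => Sum.elim (fun i => (bU i : Fin n → K)) u₂ x p)
  have hemul : ∀ c, e.mulVec c = ∑ i, c (Sum.inl i) • (bU i : Fin n → K) +
      ∑ j, c (Sum.inr j) • u₂ j := by
    intro c
    ext p
    change ∑ x, e p x * c x = _
    rw [Fintype.sum_sum_type, Pi.add_apply, Finset.sum_apply, Finset.sum_apply]
    congr 1
    · apply Finset.sum_congr rfl
      intro x _
      rw [Pi.smul_apply, smul_eq_mul, mul_comm]
      rfl
    · apply Finset.sum_congr rfl
      intro x _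
      rw [Pi.smul_apply, smul_eq_mul, mul_comm]
      rfl
  have he : Function.Injective e.mulVec := by
    intro x y hxy
    have h1 : e.mulVec (x - y) = 0 := by rw [Matrix.mulVec_sub, hxy, sub_self]
    rw [hemul] at h1
    have h2 : (fun j => (x - y) (Sum.inr j)) = 0 := by
      apply hind2
      have h3 := congrArg U.mkQ h1
      rw [map_add, map_sum, map_sum, map_zero] at h3
      have h4 : ∑ i, U.mkQ ((x - y) (Sum.inl i) • (bU i : Fin n → K)) = 0 := by
        apply Finset.sum_eq_zero
        intro i _
        rw [Submodule.mkQ_apply, Submodule.Quotient.mk_eq_zero]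
        exact U.smul_mem _ (bU i).2
      rw [h4, zero_add] at h3
      simpa only [map_smul] using h3
    have h3 : ∑ j, (x - y) (Sum.inr j) • u₂ j = 0 := by
      apply Finset.sum_eq_zero
      intro j _
      rw [congrFun h2 j]
      exact zero_smul _ _
    rw [h3, add_zero] at h1
    have h4 : ∑ i, (x - y) (Sum.inl i) • bU i = 0 := by
      apply Subtype.ext
      rw [Submodule.coe_sum]
      exact h1
    have h5 := Fintype.linearIndependent_iff.1 bU.linearIndependent _ h4
    apply sub_eq_zero.1
    funext z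
    rcases z with z | z
    · exact h5 z
    · exact congrFun h2 z
  let β : D → Matrix (Fin m) (Fin m) K := fun d =>
    Matrix.of (fun k i => bU.repr ⟨(A d : Matrix (Fin n) (Fin n) K).mulVec (bU i : Fin n → K),
      hUA d _ (bU i).2⟩ k)
  have hβ : ∀ d i, (A d : Matrix (Fin n) (Fin n) K).mulVec (bU i : Fin n → K) =
      ∑ k, β d k i • (bU k : Fin n → K) := by
    intro d i
    have h1 := congrArg Subtype.val (bU.sum_repr ⟨(A d : Matrix (Fin n) (Fin n) K).mulVec
      (bU i : Fin n → K), hUA d _ (bU i).2⟩)
    rw [Submodule.coe_sum] at h1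
    exact h1.symm
  let a : D → Matrix (Fin m ⊕ Fin m) (Fin m ⊕ Fin m) K := fun d => Matrix.fromBlocks (β d) 0 0 1
  let w : Matrix (Fin m ⊕ Fin m) (Fin m ⊕ Fin m) K := Matrix.fromBlocks 0 1 1 0
  have hww : w * w = 1 := by
    change Matrix.fromBlocks 0 1 1 0 * Matrix.fromBlocks 0 1 1 0 = (1 : Matrix _ _ K)
    rw [Matrix.fromBlocks_multiply]
    simp
  have hconj : ∀ d, w * a d * w = Matrix.fromBlocks 1 0 0 (β d) := by
    intro d
    change Matrix.fromBlocks 0 1 1 0 * Matrix.fromBlocks (β d) 0 0 1 *
      Matrix.fromBlocks 0 1 1 0 = _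
    rw [Matrix.fromBlocks_multiply, Matrix.fromBlocks_multiply]
    simp
  refine hasCfgL_of φ _ (Fin m ⊕ Fin m) e he A hA a ?_ w hww ?_ ?_ ?_ ?_
  · intro d
    ext p x
    rw [Matrix.mul_apply' (M := e) (N := a d)]
    have h3 : ((A d : Matrix (Fin n) (Fin n) K) * e) p x =
        (A d : Matrix (Fin n) (Fin n) K).mulVec (fun q => e q x) p := rfl
    rw [h3]
    change _ = ∑ y, e p y * a d y x
    rw [Fintype.sum_sum_type]
    rcases x with i | j
    · have h1 := congrFun (hβ d i) p
      change (A d : Matrix (Fin n) (Fin n) K).mulVec (bU i : Fin n → K) p = _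
      rw [h1, Finset.sum_apply]
      have h2 : ∑ y : Fin m, e p (Sum.inr y) * a d (Sum.inr y) (Sum.inl i) = 0 := by
        apply Finset.sum_eq_zero
        intro y _
        change _ * (0 : K) = 0
        exact mul_zero _
      rw [h2, add_zero]
      apply Finset.sum_congr rfl
      intro k _
      rw [Pi.smul_apply, smul_eq_mul, mul_comm]
      rfl
    · have h1 := congrFun (hF _ (hu₂F j) d) p
      change (A d : Matrix (Fin n) (Fin n) K).mulVec (u₂ j) p = _
      rw [h1]
      have h2 : ∑ y : Fin m, e p (Sum.inl y) * a d (Sum.inl y) (Sum.inr j) = 0 := by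
        apply Finset.sum_eq_zero
        intro y _
        change _ * (0 : K) = 0
        exact mul_zero _
      rw [h2, zero_add, Finset.sum_eq_single j]
      · change _ = u₂ j p * (1 : Matrix (Fin m) (Fin m) K) j j
        rw [Matrix.one_apply_eq, mul_one]
      · intro k _ hk
        change _ * (1 : Matrix (Fin m) (Fin m) K) k j = 0
        rw [Matrix.one_apply_ne hk, mul_zero]
      · intro h
        exact absurd (Finset.mem_univ _) h
  · intro d d'
    rw [hconj]
    change Matrix.fromBlocks (β d) 0 0 1 * Matrix.fromBlocks 1 0 0 (β d') =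
      Matrix.fromBlocks 1 0 0 (β d') * Matrix.fromBlocks (β d) 0 0 1
    rw [Matrix.fromBlocks_multiply, Matrix.fromBlocks_multiply]
    simp
  · intro d d' u hu h
    by_contra hd
    rw [hconj, Matrix.fromBlocks_smul] at h
    have h' : Matrix.fromBlocks (β d) 0 0 1 = Matrix.fromBlocks (u • (1 : Matrix (Fin m) (Fin m) K))
      (u • 0) (u • 0) (u • β d') := h
    rw [Matrix.fromBlocks_inj] at h'
    have hb : β d = u • 1 := h'.1
    have h1 : ∀ i, (A d : Matrix (Fin n) (Fin n) K).mulVec (bU i : Fin n → K) =
        u • (bU i : Fin n → K) := by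
      intro i
      rw [hβ, Finset.sum_eq_single i]
      · rw [hb, Matrix.smul_apply, Matrix.one_apply_eq, smul_eq_mul, mul_one]
      · intro k _ hk
        rw [hb, Matrix.smul_apply, Matrix.one_apply_ne hk, smul_zero, zero_smul]
      · intro h
        exact absurd (Finset.mem_univ _) h
    have h2 : ∀ x ∈ U, (A d : Matrix (Fin n) (Fin n) K).mulVec x = u • x := by
      intro x hx
      have h3 := congrArg Subtype.val (bU.sum_repr ⟨x, hx⟩)
      rw [Submodule.coe_sum] at h3
      have h4 : ∑ k, bU.repr ⟨x, hx⟩ k • (bU k : Fin n → K) = x := h3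
      rw [← h4, Matrix.mulVec_sum, Finset.smul_sum]
      apply Finset.sum_congr rfl
      intro k _
      rw [Matrix.mulVec_smul, h1, smul_comm]
    have hu1 : u = 1 := by
      have h3 := h2 f hUf
      rw [hF f hfF d] at h3
      have h4 : (u - 1) • f = 0 := by rw [sub_smul, one_smul, ← h3, sub_self]
      rcases smul_eq_zero.1 h4 with h5 | h5
      · exact sub_eq_zero.1 h5
      · exact absurd h5 hf0
    apply hwv d hd
    rw [h2 _ (hUw d), hu1, one_smul]
  · intro d u hu h
    have h' : Matrix.fromBlocks 0 1 1 0 = u • Matrix.fromBlocks (β d) 0 0 1 := h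
    rw [Matrix.fromBlocks_smul, Matrix.fromBlocks_inj] at h'
    have h1 := congrFun (congrFun h'.2.2.2 ⟨0, hmpos⟩) ⟨0, hmpos⟩
    rw [Matrix.smul_apply, Matrix.one_apply_eq, smul_eq_mul, mul_one] at h1
    exact hu h1.symm
  · rw [Fintype.card_sum, Fintype.card_fin]
    omega

end Pool.Agent.LFS
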