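import Mathlib
import Pool.Agent.LFS.LinFin
import Pool.Agent.LFS.Main

set_option autoImplicit false

/-!
The main theorem for linear covers.
-/

namespace Pool.Agent.LFS

open Matrix

universe u

variable {G : Type u} [Group G]

/-- a finite subgroup containing `F` with a projective special linear quotient. -/
structure CovL (P : Set ℕ) (F : Finset G) (s : ℕ) where
  H : Subgroup G
  fin : Finite H
  mem : ∀ g ∈ F, g ∈ H
  n : ℕ
  hn : s ≤ n
  K : Type
  fld : Field K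
  finK : Finite K
  ψ : H →* ProjGenLinGroup (Fin n) K
  range : ψ.range = (SpecialLinearGroup.toPGL (n := Fin n) (R := K)).range
  ker : ∀ h, ψ h = 1 → (h : G) ∈ F → h = 1
  few : ∀ (L : Subgroup ψ.ker) [L.Normal], Nat.card (ψ.ker ⧸ L) ≤ s → ¬ SecIn P (ψ.ker ⧸ L) →
    Nat.card K ^ (n * s) <
      (Subgroup.normalizer ((L.map ψ.ker.subtype : Subgroup H) : Set H)).index

attribute [instance] CovL.fld CovL.finK

theorem fewL_mono {P : Set ℕ} {F : Finset G} {s : ℕ} (C : CovL P F s) (s' t : ℕ)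
    (h1 : s' ≤ s) (h2 : t ≤ s) (L : Subgroup C.ψ.ker) [L.Normal]
    (hL : Nat.card (C.ψ.ker ⧸ L) ≤ s') (hns : ¬ SecIn P (C.ψ.ker ⧸ L)) :
    Nat.card C.K ^ (C.n * t) <
      (Subgroup.normalizer ((L.map C.ψ.ker.subtype : Subgroup C.H) : Set C.H)).index :=
  (Nat.pow_le_pow_right Nat.card_pos (Nat.mul_le_mul le_rfl h2)).trans_lt
    (C.few L (hL.trans h1) hns)

def CovL.mono {P : Set ℕ} {F F' : Finset G} {s s' : ℕ} (C : CovL P F s)
    (hF : F' ⊆ F) (hs : s' ≤ s) : CovL P F' s' where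
  H := C.H
  fin := C.fin
  mem := fun g hg => C.mem g (hF hg)
  n := C.n
  hn := hs.trans C.hn
  K := C.K
  fld := C.fld
  finK := C.finK
  ψ := C.ψ
  range := C.range
  ker := fun h h1 h2 => C.ker h h1 (hF h2)
  few := fun L _ hL hns => fewL_mono C s' s' hs hs L hL hns

/-- a lift of the image of `h` differs from the identity by a matrix of rank at most `r`. -/
def Sm {H : Type u} [Group H] {n : ℕ} {K : Type} [Field K] (ψ : H →* ProjGenLinGroup (Fin n) K)
    (h : H) (r : ℕ) : Prop :=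
  ∃ B : GL (Fin n) K, ProjGenLinGroup.mk B = ψ h ∧ ((B : Matrix (Fin n) (Fin n) K) - 1).rank ≤ r

section sm

variable {H : Type u} [Group H] {n : ℕ} {K : Type} [Field K] (ψ : H →* ProjGenLinGroup (Fin n) K)

theorem Sm.mono {h : H} {r r' : ℕ} (hs : Sm ψ h r) (hr : r ≤ r') : Sm ψ h r' := by
  obtain ⟨B, h1, h2⟩ := hs
  exact ⟨B, h1, h2.trans hr⟩

theorem sm_one : Sm ψ 1 0 := by
  refine ⟨1, by rw [map_one, map_one], ?_⟩
  rw [Units.val_one, sub_self, Matrix.rank_zero]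

theorem Sm.mul {h h' : H} {r r' : ℕ} (hs : Sm ψ h r) (hs' : Sm ψ h' r') :
    Sm ψ (h * h') (r + r') := by
  obtain ⟨B, h1, h2⟩ := hs
  obtain ⟨C, h3, h4⟩ := hs'
  refine ⟨B * C, by rw [map_mul, map_mul, h1, h3], ?_⟩
  have h5 : ((B * C : GL (Fin n) K) : Matrix (Fin n) (Fin n) K) - 1 =
      ((B : Matrix (Fin n) (Fin n) K) - 1) +
        (B : Matrix (Fin n) (Fin n) K) * ((C : Matrix (Fin n) (Fin n) K) - 1) := by
    rw [Units.val_mul, Matrix.mul_sub, Matrix.mul_one]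
    abel
  rw [h5]
  exact (rank_add_le' _ _).trans (Nat.add_le_add h2 ((Matrix.rank_mul_le_right _ _).trans h4))

theorem Sm.inv {h : H} {r : ℕ} (hs : Sm ψ h r) : Sm ψ h⁻¹ r := by
  obtain ⟨B, h1, h2⟩ := hs
  refine ⟨B⁻¹, by rw [map_inv, map_inv, h1], ?_⟩
  have h0 : ((B⁻¹ : GL (Fin n) K) : Matrix (Fin n) (Fin n) K) *
      (B : Matrix (Fin n) (Fin n) K) = 1 := by
    rw [← Units.val_mul, inv_mul_cancel, Units.val_one]
  have h5 : ((B⁻¹ : GL (Fin n) K) : Matrix (Fin n) (Fin n) K) - 1 =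
      (-((B⁻¹ : GL (Fin n) K) : Matrix (Fin n) (Fin n) K)) *
        ((B : Matrix (Fin n) (Fin n) K) - 1) := by
    rw [Matrix.mul_sub, Matrix.mul_one, Matrix.neg_mul, h0]
    abel
  rw [h5]
  exact (Matrix.rank_mul_le_right _ _).trans h2

theorem Sm.conj {h : H} {r : ℕ} (hs : Sm ψ h r) (c : H) : Sm ψ (c * h * c⁻¹) r := by
  obtain ⟨B, h1, h2⟩ := hs
  obtain ⟨C, hC⟩ := ProjGenLinGroup.mk_surjective (ψ c)
  refine ⟨C * B * C⁻¹, by rw [map_mul, map_mul, map_inv, map_mul, map_mul, map_inv, h1, hC], ?_⟩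
  have h0 : (C : Matrix (Fin n) (Fin n) K) *
      ((C⁻¹ : GL (Fin n) K) : Matrix (Fin n) (Fin n) K) = 1 := by
    rw [← Units.val_mul, mul_inv_cancel, Units.val_one]
  have h5 : ((C * B * C⁻¹ : GL (Fin n) K) : Matrix (Fin n) (Fin n) K) - 1 =
      (C : Matrix (Fin n) (Fin n) K) * (((B : Matrix (Fin n) (Fin n) K) - 1) *
        ((C⁻¹ : GL (Fin n) K) : Matrix (Fin n) (Fin n) K)) := by
    rw [Units.val_mul, Units.val_mul, Matrix.sub_mul, Matrix.one_mul, Matrix.mul_sub, h0,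
      Matrix.mul_assoc]
  rw [h5]
  exact (Matrix.rank_mul_le_right _ _).trans ((Matrix.rank_mul_le_left _ _).trans h2)

end sm

/-- the step inside a cover. -/
theorem step_in_coverL {P : Set ℕ} {F : Finset G} {s : ℕ} (C : CovL P F s) (D X : Subgroup G)
    (hXD : X ≤ D) (g : G) (hgD : g ∈ D) (hgX : g ∉ X) (hDH : D ≤ C.H) (t : ℕ)
    (hcfg : HasCfgL (C.ψ.comp (Subgroup.inclusion hDH)) t) (hts : t ≤ s) (hXs : Nat.card X ≤ s)
    (hn : t + 5 + Nat.card X ≤ C.n) :
    ∃ Y : Subgroup G, Finite Y ∧ g ∉ Y ∧ Tight P X Y := by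
  have hfin : Finite C.H := C.fin
  have hXH : X ≤ C.H := hXD.trans hDH
  let D' := D.subgroupOf C.H
  let X' := X.subgroupOf C.H
  have hcardX : Nat.card X' = Nat.card X :=
    Nat.card_congr (Subgroup.subgroupOfEquivOfLe hXH).toEquiv
  have hcfg' : HasCfgL (C.ψ.comp D'.subtype) t := by
    obtain ⟨I, hI1, hI2, e, A, a, w, h1, h2, h3, h4, h5, h6, h7, h8⟩ := hcfg
    let eq1 : D' ≃* D := Subgroup.subgroupOfEquivOfLe hDH
    refine ⟨I, hI1, hI2, e, fun d => A (eq1 d), fun d => a (eq1 d), w, h1, ?_, ?_, h4, ?_, ?_, ?_,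
      h8⟩
    · intro d
      exact h2 (eq1 d)
    · intro d
      exact h3 (eq1 d)
    · intro d d'
      exact h5 (eq1 d) (eq1 d')
    · intro d d' h
      exact (MulEquiv.map_eq_one_iff eq1).1 (h6 (eq1 d) (eq1 d') h)
    · intro d
      exact h7 (eq1 d)
  obtain ⟨Y, hgY, hY⟩ := core_lin (P := P) C.ψ C.range D' X'
    (fun x hx => hXD hx) ⟨g, hDH hgD⟩ hgD hgX t hcfg'
    (by rw [hcardX]; exact hn)
    (fun L _ hL hns => fewL_mono C (Nat.card X) t hXs hts L (by rwa [hcardX] at hL) hns)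
  have hYfin : Finite (Y.map C.H.subtype) :=
    Finite.of_injective _ (Subgroup.inclusion_injective (Subgroup.map_subtype_le Y))
  refine ⟨Y.map C.H.subtype, hYfin, ?_, ?_⟩
  · rintro ⟨y, hy, hyg⟩
    apply hgY
    have : y = ⟨g, hDH hgD⟩ := Subtype.ext hyg
    rwa [← this]
  · have h1 := tight_map hY
    have h2 : X'.map C.H.subtype = X := by
      rw [Subgroup.subgroupOf_map_subtype]
      exact inf_eq_left.2 hXH
    rwa [h2] at h1

/-- the elements close to the identity whenever `κ` is. -/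
def bddL (κ : G) (N0 : ℕ) : Subgroup G where
  carrier := {d | ∃ (F : Finset G) (m : ℕ), ∀ (H : Subgroup G) (n : ℕ) (K : Type) (_ : Field K)
    (ψ : H →* ProjGenLinGroup (Fin n) K)
    (hκ : κ ∈ H), (∀ f ∈ F, f ∈ H) → Sm ψ ⟨κ, hκ⟩ N0 → ∀ hd : d ∈ H, Sm ψ ⟨d, hd⟩ m}
  one_mem' := by
    refine ⟨∅, 0, ?_⟩
    intro H n K _ ψ hκ _ _ hd
    exact sm_one ψ
  mul_mem' := by
    classical
    rintro d e ⟨F, m, h⟩ ⟨F', m', h'⟩
    refine ⟨F ∪ F' ∪ {d, e}, m + m', ?_⟩
    intro H n K _ ψ hκ hF hN hde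
    have hd : d ∈ H := hF d (by simp)
    have he : e ∈ H := hF e (by simp)
    have h1 := h H n K _ ψ hκ (fun f hf => hF f (by simp [hf])) hN hd
    have h2 := h' H n K _ ψ hκ (fun f hf => hF f (by simp [hf])) hN he
    exact h1.mul ψ h2
  inv_mem' := by
    rintro d ⟨F, m, h⟩
    refine ⟨F, m, ?_⟩
    intro H n K _ ψ hκ hF hN hd
    have hd' : d ∈ H := by simpa using hd
    exact (h H n K _ ψ hκ hF hN hd').inv ψ

theorem bddL_normal (κ : G) (N0 : ℕ) : (bddL κ N0).Normal := by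
  classical
  refine ⟨?_⟩
  rintro d ⟨F, m, h⟩ c
  refine ⟨F ∪ {c, d}, m, ?_⟩
  intro H n K _ ψ hκ hF hN hcd
  have hc : c ∈ H := hF c (by simp)
  have hd : d ∈ H := hF d (by simp)
  exact (h H n K _ ψ hκ (fun f hf => hF f (by simp [hf])) hN hd).conj ψ ⟨c, hc⟩

theorem self_mem_bddL (κ : G) (N0 : ℕ) : κ ∈ bddL κ N0 :=
  ⟨∅, N0, fun _ _ _ _ _ _ _ hN _ => hN⟩

theorem stepL [IsSimpleGroup G] {P : Set ℕ}
    (hcov : ∀ (F : Finset G) (s : ℕ), Nonempty (CovL P F s)) (X : Subgroup G) [Finite X] (g : G)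
    (hgX : g ∉ X) : ∃ Y : Subgroup G, Finite Y ∧ g ∉ Y ∧ Tight P X Y := by
  classical
  let D : Subgroup G := Subgroup.closure ((X : Set G) ∪ {g})
  have hXD : X ≤ D := fun x hx => Subgroup.subset_closure (Or.inl hx)
  have hgD : g ∈ D := Subgroup.subset_closure (Or.inr rfl)
  have hXfin : (X : Set G).Finite := Set.toFinite _
  have hDfin : Finite D := by
    obtain ⟨C⟩ := hcov (insert g hXfin.toFinset) 0
    have hfinH : Finite C.H := C.fin
    have hle : D ≤ C.H := by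
      rw [Subgroup.closure_le]
      rintro y (hy | rfl)
      · exact C.mem y (by simp [hy])
      · exact C.mem _ (by simp)
    exact Finite.of_injective _ (Subgroup.inclusion_injective hle)
  have hDft : Fintype D := Fintype.ofFinite _
  have hDnt : Nontrivial D := by
    refine ⟨(⟨g, hgD⟩ : D), 1, fun h => hgX ?_⟩
    have : g = 1 := congrArg Subtype.val h
    rw [this]; exact X.one_mem
  let FD : Finset G := Finset.image (fun d : D => (d : G)) Finset.univ
  have hFD : ∀ d ∈ D, d ∈ FD := fun d hd =>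
    Finset.mem_image.2 ⟨(⟨d, hd⟩ : D), Finset.mem_univ _, rfl⟩
  obtain ⟨δ, hδ⟩ : ∃ δ, δ = Fintype.card D := ⟨_, rfl⟩
  by_cases hfin : ∃ κ : G, κ ≠ 1 ∧ ∃ N0 : ℕ, ∀ (F : Finset G) (s : ℕ), ∃ C : CovL P F s,
      ∃ hκ : κ ∈ C.H, Sm C.ψ ⟨κ, hκ⟩ N0
  · obtain ⟨κ, hκ1, N0, hκ⟩ := hfin
    have htop : bddL κ N0 = ⊤ := by
      rcases (bddL_normal κ N0).eq_bot_or_eq_top with h | h
      · exfalso
        have h1 := self_mem_bddL κ N0
        rw [h, Subgroup.mem_bot] at h1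
        exact hκ1 h1
      · exact h
    have hall : ∀ d : D, ∃ (F : Finset G) (m : ℕ), ∀ (H : Subgroup G) (n : ℕ) (K : Type)
        (_ : Field K) (ψ : H →* ProjGenLinGroup (Fin n) K) (hκ : κ ∈ H), (∀ f ∈ F, f ∈ H) →
        Sm ψ ⟨κ, hκ⟩ N0 → ∀ hd : (d : G) ∈ H, Sm ψ ⟨d, hd⟩ m := by
      intro d
      have h1 : (d : G) ∈ bddL κ N0 := by rw [htop]; exact Subgroup.mem_top _
      exact h1
    choose Fd md hd using hall
    obtain ⟨r, hr⟩ : ∃ r, r = ∑ d : D, md d := ⟨_, rfl⟩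
    have hmd : ∀ d, md d ≤ r := by
      intro d
      rw [hr]
      exact Finset.single_le_sum (f := md) (fun i _ => Nat.zero_le _) (Finset.mem_univ d)
    obtain ⟨C, hκC, hC⟩ := hκ (FD ∪ Finset.univ.biUnion Fd)
      (δ * r + 2 * (δ * r + δ + 1) + 5 + Nat.card X)
    have hnC := C.hn
    have hDH : D ≤ C.H := fun d hd => C.mem d (by simp [hFD d hd])
    let ρ : D →* ProjGenLinGroup (Fin C.n) C.K := C.ψ.comp (Subgroup.inclusion hDH)
    have hρinj : Function.Injective ρ := by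
      rw [injective_iff_map_eq_one]
      intro d hd1
      have h1 := C.ker (Subgroup.inclusion hDH d) hd1 (by
        change (d : G) ∈ _
        simp [hFD d d.2])
      exact Subtype.ext (congrArg (fun z : C.H => (z : G)) h1)
    have hcfg : HasCfgL ρ (2 * (δ * r + δ + 1)) := by
      have hc := cfgL_finitary ρ hρinj r ?_ (by rw [← hδ]; omega)
      · rwa [← hδ] at hc
      intro d
      have h1 := hd d C.H C.n C.K _ C.ψ hκC (fun f hf => C.mem f (by
        simp only [Finset.mem_union, Finset.mem_biUnion, Finset.mem_univ, true_and]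
        exact Or.inr ⟨d, hf⟩)) hC (hDH d.2)
      exact h1.mono C.ψ (hmd d)
    exact step_in_coverL C D X hXD g hgD hgX hDH _ hcfg (by omega) (by omega) (by omega)
  · push Not at hfin
    have hall : ∀ d : D, ∃ (F : Finset G) (s : ℕ), d ≠ 1 → ∀ (C : CovL P F s)
        (hd : (d : G) ∈ C.H), ¬ Sm C.ψ ⟨d, hd⟩ (δ * thr δ δ) := by
      intro d
      by_cases hd1 : d = 1
      · exact ⟨∅, 0, fun h => absurd hd1 h⟩
      · have hd1' : (d : G) ≠ 1 := fun h => hd1 (Subtype.ext h)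
        obtain ⟨F, s, h⟩ := hfin d hd1' (δ * thr δ δ)
        exact ⟨F, s, fun _ => h⟩
    choose Fd sd hd using hall
    obtain ⟨C⟩ := hcov (FD ∪ Finset.univ.biUnion Fd) ((∑ d : D, sd d) + δ * δ + 5 + Nat.card X)
    have hnC := C.hn
    have hDH : D ≤ C.H := fun d hd => C.mem d (by simp [hFD d hd])
    let ρ : D →* ProjGenLinGroup (Fin C.n) C.K := C.ψ.comp (Subgroup.inclusion hDH)
    have hcfg : HasCfgL ρ (δ * δ) := by
      have hc := cfgL_nonfinitary ρ ?_
      · rwa [← hδ] at hc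
      intro d hd1 B hB
      have hsd : sd d ≤ (∑ d : D, sd d) + δ * δ + 5 + Nat.card X := by
        have := Finset.single_le_sum (f := sd) (fun i _ => Nat.zero_le _) (Finset.mem_univ d)
        omega
      have h1 := hd d hd1 (C.mono (F' := Fd d) (by
        intro x hx
        simp only [Finset.mem_union, Finset.mem_biUnion, Finset.mem_univ, true_and]
        exact Or.inr ⟨d, hx⟩) hsd) (hDH d.2)
      by_contra hlt
      push Not at hlt
      apply h1
      refine ⟨B, hB, ?_⟩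
      rwa [← hδ] at hlt
    exact step_in_coverL C D X hXD g hgD hgX hDH _ hcfg (by omega) (by omega) (by omega)

theorem not_secIn_lin {P : Set ℕ} {n₀ n : ℕ} (h5 : 5 ≤ n₀) (hP : n₀.factorial / 2 ∉ P)
    (hn : n₀ ≤ n) {K : Type} [Field K] :
    ¬ SecIn P (SpecialLinearGroup.toPGL (n := Fin n) (R := K)).range := by
  classical
  intro h
  apply not_secIn_alt h5 hP hn
  let τ : alternatingGroup (Fin n) →* SpecialLinearGroup (Fin n) K := MonoidHom.mk' (fun σ =>
    ⟨pm K (σ : Equiv.Perm (Fin n)), by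
      rw [pm_det, Equiv.Perm.mem_alternatingGroup.1 σ.2]; simp⟩) (by
    intro σ σ'
    apply Subtype.ext
    exact pm_mul _ _)
  refine h.of_injective ((SpecialLinearGroup.toPGL (n := Fin n) (R := K)).rangeRestrict.comp τ) ?_
  rw [injective_iff_map_eq_one]
  intro σ hσ
  have h1 : ProjGenLinGroup.mk (SpecialLinearGroup.toGL (τ σ)) =
      ProjGenLinGroup.mk (1 : GL (Fin n) K) := by
    rw [map_one]
    exact congrArg Subtype.val hσ
  rw [ProjGenLinGroup.mk_eq_mk_iff] at h1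
  obtain ⟨z, hz⟩ := h1
  have h2 := congrArg (fun x : GL (Fin n) K => (x : Matrix (Fin n) (Fin n) K)) hz
  simp only [Units.val_mul, coe_scalar_eq, Matrix.mul_smul, Matrix.mul_one, Units.val_one] at h2
  have h3 : (z : K) • pm K (σ : Equiv.Perm (Fin n)) = 1 := h2
  apply Subtype.ext
  apply Equiv.ext
  intro b
  by_contra hne
  have hne' : (σ : Equiv.Perm (Fin n)) b ≠ b := hne
  have h4 := congrFun (congrFun h3 ((σ : Equiv.Perm (Fin n)) b)) b
  have h6 : pm K (σ : Equiv.Perm (Fin n)) ((σ : Equiv.Perm (Fin n)) b) b = 1 := if_pos rfl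
  have h7 : (z : K) * pm K (σ : Equiv.Perm (Fin n)) ((σ : Equiv.Perm (Fin n)) b) b =
    (1 : Matrix (Fin n) (Fin n) K) ((σ : Equiv.Perm (Fin n)) b) b := h4
  rw [h6, mul_one, Matrix.one_apply_ne hne'] at h7
  exact z.ne_zero h7

theorem mainL [Infinite G] [IsSimpleGroup G] {P : Set ℕ} {n₀ : ℕ} (h5 : 5 ≤ n₀)
    (hP : n₀.factorial / 2 ∉ P) (hcov : ∀ (F : Finset G) (s : ℕ), Nonempty (CovL P F s)) :
    ∃ K : Subgroup G, K ≠ ⊤ ∧ ∃ k : K, k ≠ 1 ∧
      ∀ N : Subgroup K, N.Normal → N.FiniteIndex → k ∈ N := by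
  classical
  obtain ⟨C⟩ := hcov ∅ n₀
  have hCn : n₀ ≤ C.n := C.hn
  have hfinH : Finite C.H := C.fin
  have hH : ¬ SecIn P C.H := by
    intro h
    have h1 : SecIn P C.ψ.range := h.of_surjective C.ψ.rangeRestrict C.ψ.rangeRestrict_surjective
    rw [C.range] at h1
    exact not_secIn_lin h5 hP hCn h1
  obtain ⟨g, hg⟩ : ∃ g : G, g ∉ C.H := by
    by_contra hb
    push Not at hb
    have : Finite G := Finite.of_injective (fun x : G => (⟨x, hb x⟩ : C.H)) (by
      intro x y h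
      exact congrArg Subtype.val h)
    exact not_finite G
  let T := {X : Subgroup G // Finite X ∧ g ∉ X}
  have hstep : ∀ X : T, ∃ Y : T, Tight P (X : Subgroup G) (Y : Subgroup G) := by
    intro X
    have := X.2.1
    obtain ⟨Y, hY1, hY2, hY3⟩ := stepL hcov (X : Subgroup G) g X.2.2
    exact ⟨⟨Y, hY1, hY2⟩, hY3⟩
  choose nxt hnxt using hstep
  let X : ℕ → T := fun j => Nat.rec (motive := fun _ => T) ⟨C.H, hfinH, hg⟩ (fun _ Y => nxt Y) j
  have hXs : ∀ j, Tight P (X j : Subgroup G) (X (j + 1) : Subgroup G) := fun j => hnxt (X j)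
  have h0fin : Finite (X 0 : Subgroup G) := (X 0).2.1
  obtain ⟨k, hk1, hk2⟩ := chain_not_rf (fun j => (X j : Subgroup G)) hXs hH
  refine ⟨⨆ j, (X j : Subgroup G), ?_, k, hk1, hk2⟩
  intro htop
  have hmono : Monotone (fun j => (X j : Subgroup G)) := monotone_nat_of_le_succ (fun j => (hXs j).1)
  have hgm : g ∈ ⨆ j, (X j : Subgroup G) := by rw [htop]; exact Subgroup.mem_top g
  obtain ⟨j, hj⟩ := (Subgroup.mem_iSup_of_directed hmono.directed_le).1 hgm
  exact (X j).2.2 hj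

end Pool.Agent.LFS
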