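import Mathlib
import Pool.Agent.LFS.KerSec
import Pool.Agent.LFS.Kill
import Pool.Agent.LFS.LinMain

set_option autoImplicit false

/-!
Covers with projective special linear factors whose small kernel factors are normal.
-/

namespace Pool.Agent.LFS

open Matrix

universe u v

theorem core_abs2 {H : Type u} [Group H] [Finite H] {Γ : Type v} [Group Γ]
    (ψ : H →* Γ) (X Y R : Subgroup H) (hXY : X ≤ Y) (hMR : ψ.ker ≤ R) (hRY : R ≤ Y)
    (hRn : ∀ y ∈ Y, ∀ r ∈ R, y * r * y⁻¹ ∈ R) (c : H) (hc : c ∈ Y)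
    (hcomm : ∀ x ∈ X, ∀ x' ∈ X, x * (c * x' * c⁻¹) * x⁻¹ * (c * x' * c⁻¹)⁻¹ ∈ R)
    (hR : ∀ (Q : Type u) [Group Q] (f : R →* Q), Nat.card Q ≤ Nat.card X → Finite Q →
      (∀ r : R, ψ r = 1 → f r = 1) → SecIn ∅ f.range)
    (hM : ∀ T L : Subgroup H, T ≤ ψ.ker → (∀ g, cj g T = T) →
      (∀ N : Subgroup H, N ≤ T → Nrm T N → (∀ x ∈ T, ∀ y ∈ T, x * y * x⁻¹ * y⁻¹ ∈ N) → N = T) →
      NS T L → (L.subgroupOf T).index ≤ Nat.card X → (∀ g, cj g L = L) ∨
        2 ^ Nat.card X * R.index < (Subgroup.normalizer (L : Set H)).index)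
    (hkill : ∀ (A : Type u) [Group A] [Finite A], Nat.card A ≤ (Nat.card X).factorial →
      ∀ f : H →* A, ∀ x ∈ X, f x = 1) :
    Tight ∅ X Y := by
  classical
  refine ⟨hXY, ?_⟩
  intro Q _ f hf
  let F := f.range
  let f' : Y →* F := f.rangeRestrict
  have hf's : Function.Surjective f' := f.rangeRestrict_surjective
  have hf'cov : ∀ y : Y, ∃ x : Y, (x : H) ∈ X ∧ f' x = f' y := by
    intro y
    obtain ⟨x, hx, hxy⟩ := hf y
    exact ⟨x, hx, Subtype.ext hxy⟩
  have hFfin : Finite F := Finite.of_surjective f' hf's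
  have hFcard : Nat.card F ≤ Nat.card X := by
    have : Function.Surjective (fun x : X => f' ⟨x, hXY x.2⟩) := by
      intro t
      obtain ⟨y, rfl⟩ := hf's t
      obtain ⟨x, hx, hxy⟩ := hf'cov y
      exact ⟨⟨x, hx⟩, hxy⟩
    exact Nat.card_le_card_of_surjective _ this
  let RY : Subgroup Y := R.subgroupOf Y
  have hRYn : RY.Normal := ⟨fun r hr y => hRn y y.2 r hr⟩
  let S : Subgroup F := RY.map f'
  have hSn : S.Normal := hRYn.map f' hf's
  have hcommF : ∀ p q : F, p * q * p⁻¹ * q⁻¹ ∈ S := by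
    intro p q
    obtain ⟨p0, rfl⟩ := hf's p
    obtain ⟨q0, rfl⟩ := hf's q
    obtain ⟨x, hx, hxp⟩ := hf'cov p0
    obtain ⟨x', hx', hxq⟩ := hf'cov ((⟨c, hc⟩ : Y)⁻¹ * q0 * ⟨c, hc⟩)
    have hq1 : f' q0 = f' (⟨c, hc⟩ * x' * (⟨c, hc⟩ : Y)⁻¹) := by
      rw [map_mul, map_mul, hxq, ← map_mul, ← map_mul]
      congr 1
      group
    rw [← hxp, hq1, ← map_inv, ← map_inv, ← map_mul, ← map_mul, ← map_mul]
    refine ⟨_, ?_, rfl⟩
    exact hcomm x hx x' hx'
  let MY : Subgroup Y := ψ.ker.subgroupOf Y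
  let T : Subgroup F := MY.map f'
  have hTn : T.Normal := (inferInstance : MY.Normal).map f' hf's
  have hTS : T ≤ S := by
    rintro _ ⟨y, hy, rfl⟩
    exact ⟨y, hMR hy, rfl⟩
  have hTsec : SecIn ∅ T := by
    have hMcj : ∀ g, cj g ψ.ker = ψ.ker := by
      intro g
      have h1 : Nrm ⊤ ψ.ker := fun t _ n hn => (inferInstance : ψ.ker.Normal).conj_mem n hn t
      exact h1.cj_eq (Subgroup.mem_top g)
    have h6 := ker_sec ψ.ker X Y R hMcj hMR hRY F f' hf'cov hFcard hM hkill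
    have hrange : (f'.comp (Subgroup.inclusion (hMR.trans hRY))).range = T := by
      ext t
      constructor
      · rintro ⟨m, rfl⟩
        exact ⟨Subgroup.inclusion (hMR.trans hRY) m, m.2, rfl⟩
      · rintro ⟨y, hy, rfl⟩
        exact ⟨⟨(y : H), hy⟩, rfl⟩
    rwa [hrange] at h6
  -- the quotient `S ⧸ T`
  let TS : Subgroup S := T.subgroupOf S
  have hTSn : TS.Normal := inferInstance
  let r0 : R →* S := MonoidHom.mk' (fun r : R => (⟨f' ⟨r, hRY r.2⟩, ⟨⟨r, hRY r.2⟩, r.2, rfl⟩⟩ : S))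
    (by
      intro a b
      apply Subtype.ext
      change f' ⟨(a * b : R), _⟩ = f' ⟨a, _⟩ * f' ⟨b, _⟩
      rw [← map_mul]
      rfl)
  have hr0 : Function.Surjective r0 := by
    rintro ⟨_, ⟨y, hy, rfl⟩⟩
    exact ⟨⟨(y : H), hy⟩, rfl⟩
  let r1 : R →* S ⧸ TS := (QuotientGroup.mk' TS).comp r0
  have hr1 : Function.Surjective r1 := (QuotientGroup.mk'_surjective TS).comp hr0
  have hST : SecIn ∅ (S ⧸ TS) := by
    have h1 : SecIn ∅ r1.range := by
      refine hR (S ⧸ TS) r1 ?_ inferInstance ?_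
      · refine (Nat.card_le_card_of_surjective _ (QuotientGroup.mk'_surjective TS)).trans ?_
        exact (Subgroup.card_le_card_group _).trans hFcard
      · intro r hr
        change (QuotientGroup.mk' TS) (r0 r) = 1
        rw [QuotientGroup.mk'_apply, QuotientGroup.eq_one_iff]
        change ((r0 r : S) : F) ∈ T
        exact ⟨⟨r, hRY r.2⟩, MonoidHom.mem_ker.2 hr, rfl⟩
    refine h1.of_surjective r1.range.subtype ?_
    intro t
    obtain ⟨r, hr⟩ := hr1 t
    exact ⟨⟨t, ⟨r, hr⟩⟩, rfl⟩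
  have hTS' : SecIn ∅ TS := by
    refine hTsec.of_injective (MonoidHom.mk' (fun t : TS => (⟨((t : S) : F), t.2⟩ : T))
      (fun _ _ => rfl)) ?_
    intro a b hab
    have h1 := congrArg (fun t : T => (t : F)) hab
    exact Subtype.ext (Subtype.ext h1)
  have hSsec : SecIn ∅ S := SecIn.ext TS hTS' hST
  refine SecIn.ext S hSsec (SecIn.of_comm ?_)
  intro p q
  induction p using QuotientGroup.induction_on with
  | H p =>
    induction q using QuotientGroup.induction_on with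
    | H q =>
      rw [← QuotientGroup.mk_mul, ← QuotientGroup.mk_mul, QuotientGroup.eq]
      have h1 := hcommF q⁻¹ p⁻¹
      have h2 : (p * q)⁻¹ * (q * p) = q⁻¹ * p⁻¹ * q⁻¹⁻¹ * p⁻¹⁻¹ := by group
      rw [h2]
      exact h1


theorem core_lin2 {H : Type u} [Group H] [Finite H] {n : ℕ} {K : Type} [Field K]
    [Finite K] (ψ : H →* ProjGenLinGroup (Fin n) K)
    (hψ : ψ.range = (SpecialLinearGroup.toPGL (n := Fin n) (R := K)).range)
    (D X : Subgroup H) (hXD : X ≤ D) (g : H) (hgD : g ∈ D) (hgX : g ∉ X) (s : ℕ)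
    (hcfg : HasCfgL (ψ.comp D.subtype) s) (hn : s + 5 + Nat.card X ≤ n)
    (hM : ∀ T L : Subgroup H, T ≤ ψ.ker → (∀ g, cj g T = T) →
      (∀ N : Subgroup H, N ≤ T → Nrm T N → (∀ x ∈ T, ∀ y ∈ T, x * y * x⁻¹ * y⁻¹ ∈ N) → N = T) →
      NS T L → (L.subgroupOf T).index ≤ Nat.card X → (∀ g, cj g L = L) ∨
        2 ^ Nat.card X * Nat.card K ^ (n * s) < (Subgroup.normalizer (L : Set H)).index)
    (hkill : ∀ (A : Type u) [Group A] [Finite A], Nat.card A ≤ (Nat.card X).factorial →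
      ∀ f : H →* A, ∀ x ∈ X, f x = 1) :
    ∃ Y : Subgroup H, g ∉ Y ∧ Tight ∅ X Y := by
  classical
  obtain ⟨I, _, _, e, A, a, w, he, hA, hAe, hw, hcomm, hdis, hwa, hI⟩ := hcfg
  have hKft : Fintype K := Fintype.ofFinite K
  -- the projective representation on the small space
  let ā : D →* ProjGenLinGroup I K := MonoidHom.mk' (fun d => ProjGenLinGroup.mk (a d)) (by
    intro d d'
    rw [← map_mul]
    apply mk_eq_of_e e he (A (d * d')) (A d * A d') _ _ (hAe _)
      (mul_e_mul e _ _ _ _ (hAe d) (hAe d'))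
    rw [hA, map_mul, map_mul, hA, hA])
  have hā : ∀ d, ā d = ProjGenLinGroup.mk (a d) := fun d => rfl
  let w' : ProjGenLinGroup I K := ProjGenLinGroup.mk w
  let XD : Subgroup D := X.subgroupOf D
  let K0 : Subgroup (ProjGenLinGroup I K) := Subgroup.closure (ā '' (XD : Set D) ∪ {w'})
  have hgK0 : ā ⟨g, hgD⟩ ∉ K0 := by
    refine notMem_closure ā w' ?_ ?_ ?_ ?_ XD ⟨g, hgD⟩ (fun h => hgX (Subgroup.mem_subgroupOf.1 h))
    · change ProjGenLinGroup.mk w * ProjGenLinGroup.mk w = 1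
      rw [← map_mul, hw, map_one]
    · intro d d'
      change ProjGenLinGroup.mk (a d) * (ProjGenLinGroup.mk w * ProjGenLinGroup.mk (a d') *
        ProjGenLinGroup.mk w) = (ProjGenLinGroup.mk w * ProjGenLinGroup.mk (a d') *
        ProjGenLinGroup.mk w) * ProjGenLinGroup.mk (a d)
      rw [← map_mul, ← map_mul, ← map_mul, ← map_mul, hcomm]
    · intro d d' h
      apply hdis d d'
      rw [map_mul, map_mul]
      exact h
    · intro d
      exact hwa d
  let Y : Subgroup H :=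
    { carrier := {h | ∃ (B : GL (Fin n) K) (u : GL I K), ProjGenLinGroup.mk B = ψ h ∧
        ProjGenLinGroup.mk u ∈ K0 ∧ (B : Matrix (Fin n) (Fin n) K) * e = e * (u : Matrix I I K)}
      one_mem' := ⟨1, 1, by rw [map_one, map_one], by rw [map_one]; exact K0.one_mem, by
        rw [Units.val_one, Units.val_one, Matrix.one_mul, Matrix.mul_one]⟩
      mul_mem' := by
        rintro x y ⟨B, u, h1, h2, h3⟩ ⟨C, v, h4, h5, h6⟩
        refine ⟨B * C, u * v, ?_, ?_, mul_e_mul e _ _ _ _ h3 h6⟩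
        · rw [map_mul, map_mul, h1, h4]
        · rw [map_mul]
          exact K0.mul_mem h2 h5
      inv_mem' := by
        rintro x ⟨B, u, h1, h2, h3⟩
        refine ⟨B⁻¹, u⁻¹, ?_, ?_, mul_e_inv e _ _ h3⟩
        · rw [map_inv, map_inv, h1]
        · rw [map_inv]
          exact K0.inv_mem h2 }
  let R : Subgroup H :=
    { carrier := {h | ∃ (B : GL (Fin n) K), ProjGenLinGroup.mk B = ψ h ∧
        (B : Matrix (Fin n) (Fin n) K) * e = e}
      one_mem' := ⟨1, by rw [map_one, map_one], by rw [Units.val_one, Matrix.one_mul]⟩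
      mul_mem' := by
        rintro x y ⟨B, h1, h3⟩ ⟨C, h4, h6⟩
        refine ⟨B * C, ?_, ?_⟩
        · rw [map_mul, map_mul, h1, h4]
        · rw [Units.val_mul, Matrix.mul_assoc, h6, h3]
      inv_mem' := by
        rintro x ⟨B, h1, h3⟩
        refine ⟨B⁻¹, ?_, ?_⟩
        · rw [map_inv, map_inv, h1]
        · have := mul_e_inv e B 1 (by rw [h3, Units.val_one, Matrix.mul_one])
          rwa [inv_one, Units.val_one, Matrix.mul_one] at this }
  have hmemR : ∀ h, h ∈ R ↔ ∃ (B : GL (Fin n) K), ProjGenLinGroup.mk B = ψ h ∧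
        (B : Matrix (Fin n) (Fin n) K) * e = e := fun h => Iff.rfl
  have hmemY : ∀ h, h ∈ Y ↔ ∃ (B : GL (Fin n) K) (u : GL I K), ProjGenLinGroup.mk B = ψ h ∧
        ProjGenLinGroup.mk u ∈ K0 ∧ (B : Matrix (Fin n) (Fin n) K) * e = e * (u : Matrix I I K) :=
    fun h => Iff.rfl
  have hXY : X ≤ Y := by
    intro x hx
    refine ⟨A ⟨x, hXD hx⟩, a ⟨x, hXD hx⟩, hA _, ?_, hAe _⟩
    exact Subgroup.subset_closure (Or.inl ⟨⟨x, hXD hx⟩, Subgroup.mem_subgroupOf.2 hx, rfl⟩)
  have hRY : R ≤ Y := by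
    rintro x ⟨B, h1, h3⟩
    exact ⟨B, 1, h1, by rw [map_one]; exact K0.one_mem, by rw [h3, Units.val_one, Matrix.mul_one]⟩
  have hMR : ψ.ker ≤ R := by
    intro x hx
    exact ⟨1, by rw [map_one, MonoidHom.mem_ker.1 hx], by rw [Units.val_one, Matrix.one_mul]⟩
  have hRn : ∀ y ∈ Y, ∀ r ∈ R, y * r * y⁻¹ ∈ R := by
    rintro y ⟨B, u, h1, h2, h3⟩ r ⟨C, h4, h6⟩
    refine ⟨B * C * B⁻¹, ?_, ?_⟩
    · rw [map_mul, map_mul, map_inv, map_mul, map_mul, map_inv, h1, h4]
    · have h7 := mul_e_mul e (B * C) B⁻¹ (u * 1) u⁻¹ (mul_e_mul e B C u 1 h3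
        (by rw [h6, Units.val_one, Matrix.mul_one])) (mul_e_inv e _ _ h3)
      rwa [mul_one, mul_inv_cancel, Units.val_one, Matrix.mul_one] at h7
  have hgY : g ∉ Y := by
    rintro ⟨B, u, h1, h2, h3⟩
    apply hgK0
    rw [hā]
    have h4 := mk_eq_of_e e he (A ⟨g, hgD⟩) B _ _ (hAe _) h3 (by rw [hA, h1]; rfl)
    rwa [h4]
  obtain ⟨S, hS⟩ := exists_ext e he (by omega) w
  obtain ⟨c, hc⟩ : ∃ c : H, ψ c = SpecialLinearGroup.toPGL S := by
    have : SpecialLinearGroup.toPGL S ∈ ψ.range := by rw [hψ]; exact ⟨S, rfl⟩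
    exact this
  let SG : GL (Fin n) K := SpecialLinearGroup.toGL S
  have hSG : (SG : Matrix (Fin n) (Fin n) K) * e = e * (w : Matrix I I K) := hS
  have hcS : ProjGenLinGroup.mk SG = ψ c := hc.symm
  have hcY : c ∈ Y := ⟨SG, w, hcS, Subgroup.subset_closure (Or.inr rfl), hSG⟩
  have hcommR : ∀ x ∈ X, ∀ x' ∈ X,
      x * (c * x' * c⁻¹) * x⁻¹ * (c * x' * c⁻¹)⁻¹ ∈ R := by
    intro x hx x' hx'
    let p : D := ⟨x, hXD hx⟩
    let q : D := ⟨x', hXD hx'⟩
    have hwi : w⁻¹ = w := by rw [inv_eq_iff_mul_eq_one, hw]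
    have h1 := mul_e_mul e (SG * A q) SG⁻¹ (w * a q) w⁻¹ (mul_e_mul e SG (A q) w (a q) hSG (hAe q))
      (mul_e_inv e _ _ hSG)
    rw [hwi] at h1
    have h2 := mul_e_mul e _ _ _ _ (mul_e_mul e _ _ _ _ (mul_e_mul e (A p) (SG * A q * SG⁻¹)
      (a p) (w * a q * w) (hAe p) h1) (mul_e_inv e _ _ (hAe p))) (mul_e_inv e _ _ h1)
    refine ⟨A p * (SG * A q * SG⁻¹) * (A p)⁻¹ * (SG * A q * SG⁻¹)⁻¹, ?_, ?_⟩
    · simp only [map_mul, map_inv, hcS]
      rw [hA, hA]
      rfl
    · rw [h2, hcomm]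
      rw [mul_inv_cancel_right, mul_inv_cancel, Units.val_one, Matrix.mul_one]
  have hRcard : R.index ≤ Nat.card K ^ (n * s) := by
    have hrep : ∀ h : H, ∃ B : GL (Fin n) K, ProjGenLinGroup.mk B = ψ h :=
      fun h => ProjGenLinGroup.mk_surjective (ψ h)
    choose B hB using hrep
    have hinj : Function.Injective (fun q : H ⧸ R =>
        (B q.out : Matrix (Fin n) (Fin n) K) * e) := by
      intro q q' h
      have h' : (B q.out : Matrix (Fin n) (Fin n) K) * e =
        (B q'.out : Matrix (Fin n) (Fin n) K) * e := h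
      have h1 : q.out⁻¹ * q'.out ∈ R := by
        refine ⟨(B q.out)⁻¹ * B q'.out, ?_, ?_⟩
        · rw [map_mul, map_inv, hB, hB, map_mul, map_inv]
        · rw [Units.val_mul, Matrix.mul_assoc, ← h', ← Matrix.mul_assoc, ← Units.val_mul,
            inv_mul_cancel, Units.val_one, Matrix.one_mul]
      have h2 := QuotientGroup.eq.2 h1
      rwa [QuotientGroup.out_eq', QuotientGroup.out_eq'] at h2
    have h1 : Nat.card (H ⧸ R) ≤ Nat.card (Matrix (Fin n) I K) :=
      Nat.card_le_card_of_injective _ hinj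
    have h2 : Nat.card (Matrix (Fin n) I K) = Nat.card K ^ (n * Fintype.card I) := by
      change Nat.card (Fin n → I → K) = _
      rw [Nat.card_fun, Nat.card_fun, Nat.card_eq_fintype_card (α := I),
        Nat.card_eq_fintype_card (α := Fin n), Fintype.card_fin, ← pow_mul, mul_comm n]
    rw [h2] at h1
    refine h1.trans (Nat.pow_le_pow_right ?_ (Nat.mul_le_mul le_rfl hI))
    exact Nat.card_pos
  refine ⟨Y, hgY, core_abs2 ψ X Y R hXY hMR hRY hRn c hcY hcommR ?_ ?_ hkill⟩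
  · intro Q _ f hQ hQfin hf
    apply SecIn.of_comm
    -- lifts to elements of determinant one
    have hr : ∀ T : stabE e, ∃ r : R, ψ r = SpecialLinearGroup.toPGL (T : SpecialLinearGroup (Fin n) K)
        := by
      intro T
      obtain ⟨r, hr⟩ : ∃ r : H, ψ r = SpecialLinearGroup.toPGL (T : SpecialLinearGroup (Fin n) K) := by
        have : SpecialLinearGroup.toPGL (T : SpecialLinearGroup (Fin n) K) ∈ ψ.range := by
          rw [hψ]; exact ⟨T, rfl⟩
        exact this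
      obtain ⟨μ, hμ⟩ := T.2
      refine ⟨⟨r, ?_⟩, hr⟩
      refine ⟨SpecialLinearGroup.toGL (T : SpecialLinearGroup (Fin n) K) *
        (GeneralLinearGroup.scalar (Fin n) μ⁻¹), ?_, ?_⟩
      · rw [map_mul, ProjGenLinGroup.mk_scalar, mul_one, hr]
        rfl
      · have h1 : ((GeneralLinearGroup.scalar (Fin n) μ⁻¹ : GL (Fin n) K) :
            Matrix (Fin n) (Fin n) K) = ((μ⁻¹ : Kˣ) : K) • 1 := by
          rw [GeneralLinearGroup.coe_scalar]
          exact (Matrix.smul_one_eq_diagonal _).symm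
        rw [Units.val_mul, h1, Matrix.mul_smul, Matrix.mul_one, Matrix.smul_mul]
        change ((μ⁻¹ : Kˣ) : K) • (((T : SpecialLinearGroup (Fin n) K) : Matrix (Fin n) (Fin n) K) * e)
          = e
        rw [hμ, smul_smul, ← Units.val_mul, inv_mul_cancel, Units.val_one, one_smul]
    choose r hr using hr
    have hfeq : ∀ x y : R, ψ x = ψ y → f x = f y := by
      intro x y h
      have h1 := hf (x⁻¹ * y) (by
        change ψ ((x : H)⁻¹ * (y : H)) = 1
        rw [map_mul, map_inv, h, inv_mul_cancel])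
      rw [map_mul, map_inv, inv_mul_eq_one] at h1
      exact h1
    let G : stabE e →* Q := MonoidHom.mk' (fun T => f (r T)) (by
      intro S T
      change f (r (S * T)) = f (r S) * f (r T)
      rw [← map_mul]
      apply hfeq
      rw [hr]
      change SpecialLinearGroup.toPGL ((S : SpecialLinearGroup (Fin n) K) *
        (T : SpecialLinearGroup (Fin n) K)) = ψ ((r S : H) * (r T : H))
      rw [map_mul, map_mul, hr, hr])
    have hGc := frame_comm e he (Q := Q) (by omega) G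
    have hGs : ∀ x : R, ∃ T, f x = G T := by
      intro x
      obtain ⟨B, hB, hBe⟩ := x.2
      obtain ⟨T, hT⟩ : ∃ T : SpecialLinearGroup (Fin n) K, SpecialLinearGroup.toPGL T = ψ x := by
        have : ψ x ∈ ψ.range := ⟨x, rfl⟩
        rw [hψ] at this
        exact this
      have h1 : ProjGenLinGroup.mk B = ProjGenLinGroup.mk (SpecialLinearGroup.toGL T) := by
        rw [hB]; exact hT.symm
      rw [ProjGenLinGroup.mk_eq_mk_iff] at h1
      obtain ⟨μ, hμ⟩ := h1
      have h2 : T ∈ stabE e := by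
        refine ⟨μ, ?_⟩
        have h3 : (T : Matrix (Fin n) (Fin n) K) =
            (B : Matrix (Fin n) (Fin n) K) * ((μ : K) • 1) := by
          have h4 := congrArg (fun z : GL (Fin n) K => (z : Matrix (Fin n) (Fin n) K)) hμ
          have h5 : ((GeneralLinearGroup.scalar (Fin n) μ : GL (Fin n) K) :
              Matrix (Fin n) (Fin n) K) = (μ : K) • 1 := by
            rw [GeneralLinearGroup.coe_scalar]
            exact (Matrix.smul_one_eq_diagonal _).symm
          simp only [Units.val_mul, h5] at h4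
          exact h4.symm
        rw [h3, Matrix.mul_smul, Matrix.mul_one, Matrix.smul_mul, hBe]
      refine ⟨⟨T, h2⟩, ?_⟩
      change f x = f (r ⟨T, h2⟩)
      apply hfeq
      rw [hr, ← hT]
    rintro ⟨_, x, rfl⟩ ⟨_, y, rfl⟩
    apply Subtype.ext
    change f x * f y = f y * f x
    obtain ⟨S, hS⟩ := hGs x
    obtain ⟨T, hT⟩ := hGs y
    rw [hS, hT]
    exact hGc S T
  · intro T L h1 h2 h3 h4 h5
    rcases hM T L h1 h2 h3 h4 h5 with h6 | h6
    · exact Or.inl h6
    · exact Or.inr ((Nat.mul_le_mul_left _ hRcard).trans_lt h6)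


end Pool.Agent.LFS
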