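import Mathlib
import Pool.Agent.LFS.LinWild

set_option autoImplicit false

/-!
The main theorem for linear covers, second form: the small nonabelian simple factors of the perfect
normal subgroups of the kernel are given by normal subgroups, or have many conjugates.
-/

namespace Pool.Agent.LFS

open Matrix

universe u v

variable {G : Type u} [Group G]

/-- a finite subgroup containing `F` with a projective special linear quotient. -/
structure CovL2 (F : Finset G) (s : ℕ) where
  H : Subgroup G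
  fin : Finite H
  mem : ∀ g ∈ F, g ∈ H
  n : ℕ
  hn : s ≤ n
  K : Type
  fld : Field K
  finK : Finite K
  ψ : H →* ProjGenLinGroup (Fin n) K
  range : ψ.range = (SpecialLinearGroup.toPGL (n := Fin n) (R := K)).range
  ker : ∀ h, ψ h = 1 → (h : G) ∈ F → h = 1
  few : ∀ (T L : Subgroup H) [T.Normal] [(L.subgroupOf T).Normal], T ≤ ψ.ker → L ≤ T →
    ⁅T, T⁆ = T → IsSimpleGroup (T ⧸ L.subgroupOf T) → Nat.card (T ⧸ L.subgroupOf T) ≤ s →
      L.Normal ∨ Nat.card K ^ (n * s) < (Subgroup.normalizer (L : Set H)).index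

attribute [instance] CovL2.fld CovL2.finK

theorem fewL2_mono {F : Finset G} {s : ℕ} (C : CovL2 F s) (s' t : ℕ)
    (h1 : s' ≤ s) (h2 : t ≤ s) (T L : Subgroup C.H) [T.Normal] [(L.subgroupOf T).Normal]
    (hT : T ≤ C.ψ.ker) (hL : L ≤ T) (hp : ⁅T, T⁆ = T) (hs : IsSimpleGroup (T ⧸ L.subgroupOf T))
    (hc : Nat.card (T ⧸ L.subgroupOf T) ≤ s') : L.Normal ∨
    Nat.card C.K ^ (C.n * t) < (Subgroup.normalizer (L : Set C.H)).index := by
  rcases C.few T L hT hL hp hs (hc.trans h1) with h | h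
  · exact Or.inl h
  · exact Or.inr ((Nat.pow_le_pow_right Nat.card_pos (Nat.mul_le_mul le_rfl h2)).trans_lt h)

def CovL2.mono {F F' : Finset G} {s s' : ℕ} (C : CovL2 F s)
    (hF : F' ⊆ F) (hs : s' ≤ s) : CovL2 F' s' where
  H := C.H
  fin := C.fin
  mem := fun g hg => C.mem g (hF hg)
  n := C.n
  hn := hs.trans C.hn
  K := C.K
  fld := C.fld
  finK := C.finK
  ψ := C.ψ
  range := C.range
  ker := fun h h1 h2 => C.ker h h1 (hF h2)
  few := fun T L _ _ h1 h2 h3 h4 h5 => fewL2_mono C s' s' hs hs T L h1 h2 h3 h4 h5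

/-- the step inside a cover. -/
theorem step_in_coverL2 {F : Finset G} {s : ℕ} (C : CovL2 F s) (D X : Subgroup G)
    (hXD : X ≤ D) (g : G) (hgD : g ∈ D) (hgX : g ∉ X) (hDH : D ≤ C.H) (t : ℕ)
    (hcfg : HasCfgL (C.ψ.comp (Subgroup.inclusion hDH)) t) (hts : t + Nat.card X ≤ s)
    (hn : t + 5 + Nat.card X ≤ C.n)
    (hkill : ∀ (A : Type u) [Group A] [Finite A], Nat.card A ≤ (Nat.card X).factorial →
      ∀ (f : C.H →* A) (x : C.H), (x : G) ∈ X → f x = 1) :
    ∃ Y : Subgroup G, Finite Y ∧ g ∉ Y ∧ Tight ∅ X Y := by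
  have hfin : Finite C.H := C.fin
  have hXH : X ≤ C.H := hXD.trans hDH
  let D' := D.subgroupOf C.H
  let X' := X.subgroupOf C.H
  have hcardX : Nat.card X' = Nat.card X :=
    Nat.card_congr (Subgroup.subgroupOfEquivOfLe hXH).toEquiv
  have hcfg' : HasCfgL (C.ψ.comp D'.subtype) t := by
    obtain ⟨I, hI1, hI2, e, A, a, w, h1, h2, h3, h4, h5, h6, h7, h8⟩ := hcfg
    let eq1 : D' ≃* D := Subgroup.subgroupOfEquivOfLe hDH
    refine ⟨I, hI1, hI2, e, fun d => A (eq1 d), fun d => a (eq1 d), w, h1, ?_, ?_, h4, ?_, ?_, ?_,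
      h8⟩
    · intro d
      exact h2 (eq1 d)
    · intro d
      exact h3 (eq1 d)
    · intro d d'
      exact h5 (eq1 d) (eq1 d')
    · intro d d' h
      exact (MulEquiv.map_eq_one_iff eq1).1 (h6 (eq1 d) (eq1 d') h)
    · intro d
      exact h7 (eq1 d)
  obtain ⟨Y, hgY, hY⟩ := core_lin2 C.ψ C.range D' X'
    (fun x hx => hXD hx) ⟨g, hDH hgD⟩ hgD hgX t hcfg'
    (by rw [hcardX]; exact hn)
    (by
      intro T L hT hTn hTp hL hc
      have hTn' : T.Normal := by
        refine ⟨fun x hx g => ?_⟩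
        have h1 := (conj_mem_cj (g := g)).2 hx
        rwa [hTn g] at h1
      have hLn : (L.subgroupOf T).Normal := ⟨fun l hl t => hL.nrm t t.2 _ hl⟩
      have hperf : ⁅T, T⁆ = T := by
        refine hTp _ (Subgroup.commutator_le_left T T) ?_ ?_
        · intro t _ x hx
          exact (inferInstance : (⁅T, T⁆).Normal).conj_mem x hx t
        · intro x hx y hy
          exact Subgroup.commutator_mem_commutator hx hy
      rw [hcardX] at hc ⊢
      rcases fewL2_mono C (Nat.card X) (t + Nat.card X) (by omega) hts T L hT hL.le hperf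
        (Sch.simple hL) hc with h | h
      · left
        intro g
        have h1 : Nrm ⊤ L := fun t _ n hn => h.conj_mem n hn t
        exact h1.cj_eq (Subgroup.mem_top g)
      · right
        refine lt_of_le_of_lt ?_ h
        have hK : 2 ≤ Nat.card C.K := by
          have : Nontrivial C.K := inferInstance
          exact Finite.one_lt_card
        rw [mul_add, pow_add, mul_comm]
        refine Nat.mul_le_mul le_rfl ?_
        calc 2 ^ Nat.card X ≤ Nat.card C.K ^ Nat.card X := Nat.pow_le_pow_left hK _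
          _ ≤ Nat.card C.K ^ (C.n * Nat.card X) := by
            apply Nat.pow_le_pow_right (by omega)
            exact Nat.le_mul_of_pos_left _ (by omega))
    (by
      intro A _ _ hA f x hx
      rw [hcardX] at hA
      exact hkill A hA f x hx)
  have hYfin : Finite (Y.map C.H.subtype) :=
    Finite.of_injective _ (Subgroup.inclusion_injective (Subgroup.map_subtype_le Y))
  refine ⟨Y.map C.H.subtype, hYfin, ?_, ?_⟩
  · rintro ⟨y, hy, hyg⟩
    apply hgY
    have : y = ⟨g, hDH hgD⟩ := Subtype.ext hyg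
    rwa [← this]
  · have h1 := tight_map hY
    have h2 : X'.map C.H.subtype = X := by
      rw [Subgroup.subgroupOf_map_subtype]
      exact inf_eq_left.2 hXH
    rwa [h2] at h1

theorem stepL2 [Infinite G] [IsSimpleGroup G]
    (hcov : ∀ (F : Finset G) (s : ℕ), Nonempty (CovL2 F s)) (X : Subgroup G) [Finite X] (g : G)
    (hgX : g ∉ X) : ∃ Y : Subgroup G, Finite Y ∧ g ∉ Y ∧ Tight ∅ X Y := by
  classical
  let D : Subgroup G := Subgroup.closure ((X : Set G) ∪ {g})
  have hXD : X ≤ D := fun x hx => Subgroup.subset_closure (Or.inl hx)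
  have hgD : g ∈ D := Subgroup.subset_closure (Or.inr rfl)
  have hXfin : (X : Set G).Finite := Set.toFinite _
  have hDfin : Finite D := by
    obtain ⟨C⟩ := hcov (insert g hXfin.toFinset) 0
    have hfinH : Finite C.H := C.fin
    have hle : D ≤ C.H := by
      rw [Subgroup.closure_le]
      rintro y (hy | rfl)
      · exact C.mem y (by simp [hy])
      · exact C.mem _ (by simp)
    exact Finite.of_injective _ (Subgroup.inclusion_injective hle)
  have hDft : Fintype D := Fintype.ofFinite _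
  have hDnt : Nontrivial D := by
    refine ⟨(⟨g, hgD⟩ : D), 1, fun h => hgX ?_⟩
    have : g = 1 := congrArg Subtype.val h
    rw [this]; exact X.one_mem
  let FD : Finset G := Finset.image (fun d : D => (d : G)) Finset.univ
  have hFD : ∀ d ∈ D, d ∈ FD := fun d hd =>
    Finset.mem_image.2 ⟨(⟨d, hd⟩ : D), Finset.mem_univ _, rfl⟩
  obtain ⟨F₂, hF₂⟩ := exists_kill hXfin.toFinset (Nat.card X).factorial
  obtain ⟨δ, hδ⟩ : ∃ δ, δ = Fintype.card D := ⟨_, rfl⟩
  by_cases hfin : ∃ κ : G, κ ≠ 1 ∧ ∃ N0 : ℕ, ∀ (F : Finset G) (s : ℕ), ∃ C : CovL2 F s,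
      ∃ hκ : κ ∈ C.H, Sm C.ψ ⟨κ, hκ⟩ N0
  · obtain ⟨κ, hκ1, N0, hκ⟩ := hfin
    have htop : bddL κ N0 = ⊤ := by
      rcases (bddL_normal κ N0).eq_bot_or_eq_top with h | h
      · exfalso
        have h1 := self_mem_bddL κ N0
        rw [h, Subgroup.mem_bot] at h1
        exact hκ1 h1
      · exact h
    have hall : ∀ d : D, ∃ (F : Finset G) (m : ℕ), ∀ (H : Subgroup G) (n : ℕ) (K : Type)
        (_ : Field K) (ψ : H →* ProjGenLinGroup (Fin n) K) (hκ : κ ∈ H), (∀ f ∈ F, f ∈ H) →
        Sm ψ ⟨κ, hκ⟩ N0 → ∀ hd : (d : G) ∈ H, Sm ψ ⟨d, hd⟩ m := by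
      intro d
      have h1 : (d : G) ∈ bddL κ N0 := by rw [htop]; exact Subgroup.mem_top _
      exact h1
    choose Fd md hd using hall
    obtain ⟨r, hr⟩ : ∃ r, r = ∑ d : D, md d := ⟨_, rfl⟩
    have hmd : ∀ d, md d ≤ r := by
      intro d
      rw [hr]
      exact Finset.single_le_sum (f := md) (fun i _ => Nat.zero_le _) (Finset.mem_univ d)
    obtain ⟨C, hκC, hC⟩ := hκ (FD ∪ Finset.univ.biUnion Fd ∪ F₂)
      (δ * r + 2 * (δ * r + δ + 1) + 5 + Nat.card X)
    have hnC := C.hn
    have hDH : D ≤ C.H := fun d hd => C.mem d (by simp [hFD d hd])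
    let ρ : D →* ProjGenLinGroup (Fin C.n) C.K := C.ψ.comp (Subgroup.inclusion hDH)
    have hρinj : Function.Injective ρ := by
      rw [injective_iff_map_eq_one]
      intro d hd1
      have h1 := C.ker (Subgroup.inclusion hDH d) hd1 (by
        change (d : G) ∈ _
        simp [hFD d d.2])
      exact Subtype.ext (congrArg (fun z : C.H => (z : G)) h1)
    have hcfg : HasCfgL ρ (2 * (δ * r + δ + 1)) := by
      have hc := cfgL_finitary ρ hρinj r ?_ (by rw [← hδ]; omega)
      · rwa [← hδ] at hc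
      intro d
      have h1 := hd d C.H C.n C.K _ C.ψ hκC (fun f hf => C.mem f (by
        simp only [Finset.mem_union, Finset.mem_biUnion, Finset.mem_univ, true_and]
        exact Or.inl (Or.inr ⟨d, hf⟩))) hC (hDH d.2)
      exact h1.mono C.ψ (hmd d)
    exact step_in_coverL2 C D X hXD g hgD hgX hDH _ hcfg (by omega) (by omega)
      (fun A _ _ hA f x hx => hF₂ C.H (fun f hf => C.mem f (Finset.mem_union_right _ hf)) A hA f x
        (by simpa using hx))
  · push Not at hfin
    have hall : ∀ d : D, ∃ (F : Finset G) (s : ℕ), d ≠ 1 → ∀ (C : CovL2 F s)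
        (hd : (d : G) ∈ C.H), ¬ Sm C.ψ ⟨d, hd⟩ (δ * thr δ δ) := by
      intro d
      by_cases hd1 : d = 1
      · exact ⟨∅, 0, fun h => absurd hd1 h⟩
      · have hd1' : (d : G) ≠ 1 := fun h => hd1 (Subtype.ext h)
        obtain ⟨F, s, h⟩ := hfin d hd1' (δ * thr δ δ)
        exact ⟨F, s, fun _ => h⟩
    choose Fd sd hd using hall
    obtain ⟨C⟩ := hcov (FD ∪ Finset.univ.biUnion Fd ∪ F₂) ((∑ d : D, sd d) + δ * δ + 5 + Nat.card X)
    have hnC := C.hn
    have hDH : D ≤ C.H := fun d hd => C.mem d (by simp [hFD d hd])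
    let ρ : D →* ProjGenLinGroup (Fin C.n) C.K := C.ψ.comp (Subgroup.inclusion hDH)
    have hcfg : HasCfgL ρ (δ * δ) := by
      have hc := cfgL_nonfinitary ρ ?_
      · rwa [← hδ] at hc
      intro d hd1 B hB
      have hsd : sd d ≤ (∑ d : D, sd d) + δ * δ + 5 + Nat.card X := by
        have := Finset.single_le_sum (f := sd) (fun i _ => Nat.zero_le _) (Finset.mem_univ d)
        omega
      have h1 := hd d hd1 (C.mono (F' := Fd d) (by
        intro x hx
        simp only [Finset.mem_union, Finset.mem_biUnion, Finset.mem_univ, true_and]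
        exact Or.inl (Or.inr ⟨d, hx⟩)) hsd) (hDH d.2)
      by_contra hlt
      push Not at hlt
      apply h1
      refine ⟨B, hB, ?_⟩
      rwa [← hδ] at hlt
    exact step_in_coverL2 C D X hXD g hgD hgX hDH _ hcfg (by omega) (by omega)
      (fun A _ _ hA f x hx => hF₂ C.H (fun f hf => C.mem f (Finset.mem_union_right _ hf)) A hA f x
        (by simpa using hx))

theorem mainL2 [Infinite G] [IsSimpleGroup G]
    (hcov : ∀ (F : Finset G) (s : ℕ), Nonempty (CovL2 F s)) :
    ∃ K : Subgroup G, K ≠ ⊤ ∧ ∃ k : K, k ≠ 1 ∧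
      ∀ N : Subgroup K, N.Normal → N.FiniteIndex → k ∈ N := by
  classical
  obtain ⟨C⟩ := hcov ∅ 5
  have hCn : 5 ≤ C.n := C.hn
  have hfinH : Finite C.H := C.fin
  have hH : ¬ SecIn ∅ C.H := by
    intro h
    have h1 : SecIn ∅ C.ψ.range := h.of_surjective C.ψ.rangeRestrict C.ψ.rangeRestrict_surjective
    rw [C.range] at h1
    exact not_secIn_lin (P := ∅) le_rfl (Set.notMem_empty _) hCn h1
  obtain ⟨g, hg⟩ : ∃ g : G, g ∉ C.H := by
    by_contra hb
    push Not at hb
    have : Finite G := Finite.of_injective (fun x : G => (⟨x, hb x⟩ : C.H)) (by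
      intro x y h
      exact congrArg Subtype.val h)
    exact not_finite G
  let T := {X : Subgroup G // Finite X ∧ g ∉ X}
  have hstep : ∀ X : T, ∃ Y : T, Tight ∅ (X : Subgroup G) (Y : Subgroup G) := by
    intro X
    have := X.2.1
    obtain ⟨Y, hY1, hY2, hY3⟩ := stepL2 hcov (X : Subgroup G) g X.2.2
    exact ⟨⟨Y, hY1, hY2⟩, hY3⟩
  choose nxt hnxt using hstep
  let X : ℕ → T := fun j => Nat.rec (motive := fun _ => T) ⟨C.H, hfinH, hg⟩ (fun _ Y => nxt Y) j
  have hXs : ∀ j, Tight ∅ (X j : Subgroup G) (X (j + 1) : Subgroup G) := fun j => hnxt (X j)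
  have h0fin : Finite (X 0 : Subgroup G) := (X 0).2.1
  obtain ⟨k, hk1, hk2⟩ := chain_not_rf (fun j => (X j : Subgroup G)) hXs hH
  refine ⟨⨆ j, (X j : Subgroup G), ?_, k, hk1, hk2⟩
  intro htop
  have hmono : Monotone (fun j => (X j : Subgroup G)) := monotone_nat_of_le_succ (fun j => (hXs j).1)
  have hgm : g ∈ ⨆ j, (X j : Subgroup G) := by rw [htop]; exact Subgroup.mem_top g
  obtain ⟨j, hj⟩ := (Subgroup.mem_iSup_of_directed hmono.directed_le).1 hgm
  exact (X j).2.2 hj

end Pool.Agent.LFS
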