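import Mathlib
import Pool.Agent.LFS.Main

set_option autoImplicit false

/-!
MODULE Ultra (helper34, MP_cbf6a9): if some kappa <> 1 moves at most N0 points in cofinal covers
then G has a faithful action by finitary permutations.

PROOF. Choose H_F, n_F, psi_F for every finite subset F of G. Let U be an ultrafilter on Finset G
containing all sets {F : F0 <= F} (Filter.atTop has an ultrafilter below it). Lambda = the
ultraproduct of the Fin (n_F) (Filter.Product or a quotient by hand; note that n_F = 0 would force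
H_F acts trivially, so kappa in F gives n_F > 0 for F containing kappa, or use Option / Fin (n+1) to
avoid emptiness). g acts on the class of (p_F) by p_F |-> psi_F(g) p_F if g in H_F (else identity);
this is an action since g, h, gh are in H_F for U-almost all F. kappa is not trivial on it: for
F containing kappa choose p_F moved by psi_F(kappa). kappa moves at most N0 classes: N0 + 1 distinct
moved classes would give N0 + 1 distinct moved points in Fin (n_F) for almost all F. The elements
with finite support form a normal subgroup containing kappa, so all of G; the kernel is a proper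
normal subgroup, so trivial.
mv is defined in LFS/Main.lean: number of moved points.
-/

namespace Pool.Agent.LFS

open Equiv

universe u v

open Classical in
/-- the permutation of `ℕ` given by `ψ g` on `{0, .., n-1}` (identity if `g` is not in `H`). -/
private noncomputable def ultraSig {G : Type u} [Group G] (H : Subgroup G) (n : ℕ)
    (ψ : H →* Perm (Fin n)) (g : G) : Perm ℕ :=
  if hg : g ∈ H then Perm.viaEmbeddingHom Fin.valEmbedding (ψ ⟨g, hg⟩) else 1

private theorem ultraSig_of {G : Type u} [Group G] {H : Subgroup G} {n : ℕ}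
    {ψ : H →* Perm (Fin n)} {g : G} (hg : g ∈ H) :
    ultraSig H n ψ g = Perm.viaEmbeddingHom Fin.valEmbedding (ψ ⟨g, hg⟩) := by
  unfold ultraSig
  rw [dif_pos hg]

private theorem ultraSig_mul {G : Type u} [Group G] {H : Subgroup G} {n : ℕ}
    {ψ : H →* Perm (Fin n)} {g h : G} (hg : g ∈ H) (hh : h ∈ H) :
    ultraSig H n ψ (g * h) = ultraSig H n ψ g * ultraSig H n ψ h := by
  rw [ultraSig_of hg, ultraSig_of hh, ultraSig_of (H.mul_mem hg hh), ← map_mul, ← map_mul]
  rfl

/-- the moved points of the extension to `ℕ`. -/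
private theorem ultra_moved {n : ℕ} (σ : Perm (Fin n)) (x : ℕ)
    (hx : Perm.viaEmbeddingHom Fin.valEmbedding σ x ≠ x) : ∃ p : Fin n, σ p ≠ p ∧ (p : ℕ) = x := by
  rw [Perm.viaEmbeddingHom_apply] at hx
  by_cases h : x ∈ Set.range (Fin.valEmbedding : Fin n ↪ ℕ)
  · obtain ⟨p, rfl⟩ := h
    refine ⟨p, ?_, rfl⟩
    intro hp
    apply hx
    rw [Perm.viaEmbedding_apply, hp]
  · exact absurd (Perm.viaEmbedding_apply_of_notMem σ _ x h) hx

/-- at most `mv σ` natural numbers are moved. -/
private theorem ultra_card {n : ℕ} (σ : Perm (Fin n)) {T : Type u} [Fintype T] (f : T → ℕ)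
    (hf : Function.Injective f) (hm : ∀ t, Perm.viaEmbeddingHom Fin.valEmbedding σ (f t) ≠ f t) :
    Fintype.card T ≤ mv σ := by
  classical
  choose p hp hpf using fun t => ultra_moved σ (f t) (hm t)
  unfold mv
  rw [← Finset.card_univ]
  refine Finset.card_le_card_of_injOn p (fun t _ => ?_) ?_
  · rw [Finset.mem_coe, Finset.mem_filter]
    exact ⟨Finset.mem_univ _, hp t⟩
  · intro s _ t _ hst
    apply hf
    rw [← hpf s, ← hpf t, hst]

theorem exists_finitary {G : Type u} [Group G] [IsSimpleGroup G] (κ : G) (hκ : κ ≠ 1) (N0 : ℕ)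
    (h : ∀ F : Finset G, ∃ (H : Subgroup G) (n : ℕ) (ψ : H →* Perm (Fin n)),
      (∀ g ∈ F, g ∈ H) ∧ (∀ h, ψ h = 1 → (h : G) ∈ F → h = 1) ∧
      ∃ hκ : κ ∈ H, mv (ψ ⟨κ, hκ⟩) ≤ N0) :
    ∃ (Λ : Type u) (α : G →* Perm Λ), Function.Injective α ∧ ∀ g, {x | α g x ≠ x}.Finite := by
  classical
  choose H n ψ hmem hker hkH hmv using h
  let U : Ultrafilter (Finset G) := Ultrafilter.of Filter.atTop
  have hU : ∀ F0 : Finset G, ∀ᶠ F in (U : Filter (Finset G)), F0 ≤ F := fun F0 =>
    (Ultrafilter.of_le Filter.atTop) (Filter.eventually_ge_atTop F0)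
  let σ : G → Finset G → Perm ℕ := fun g F => ultraSig (H F) (n F) (ψ F) g
  -- the homomorphism to the ultrapower of the symmetric group of `ℕ`
  have hθ : ∀ g h : G, (((σ (g * h) : Finset G → Perm ℕ) :
      Filter.Germ (U : Filter (Finset G)) (Perm ℕ))) =
      ((σ g : Finset G → Perm ℕ) : Filter.Germ (U : Filter (Finset G)) (Perm ℕ)) *
      ((σ h : Finset G → Perm ℕ) : Filter.Germ (U : Filter (Finset G)) (Perm ℕ)) := by
    intro g h
    rw [← Filter.Germ.coe_mul, Filter.Germ.coe_eq]
    filter_upwards [hU {g, h}] with F hF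
    exact ultraSig_mul (hmem F g (hF (by simp))) (hmem F h (hF (by simp)))
  let θ : G →* Filter.Germ (U : Filter (Finset G)) (Perm ℕ) :=
    MonoidHom.mk' (fun g => ((σ g : Finset G → Perm ℕ) :
      Filter.Germ (U : Filter (Finset G)) (Perm ℕ))) hθ
  let α : G →* Perm (Filter.Germ (U : Filter (Finset G)) ℕ) :=
    (MulAction.toPermHom (Filter.Germ (U : Filter (Finset G)) (Perm ℕ))
      (Filter.Germ (U : Filter (Finset G)) ℕ)).comp θ
  have hα : ∀ (g : G) (p : Finset G → ℕ), α g (p : Filter.Germ (U : Filter (Finset G)) ℕ) =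
      ((fun F => σ g F (p F) : Finset G → ℕ) : Filter.Germ (U : Filter (Finset G)) ℕ) :=
    fun g p => rfl
  -- `κ` acts nontrivially
  have hκα : α κ ≠ 1 := by
    intro h1
    have h2 : ∀ F : Finset G, κ ∈ F → ∃ p : ℕ, σ κ F p ≠ p := by
      intro F hF
      have h3 : ψ F ⟨κ, hkH F⟩ ≠ 1 := by
        intro h4
        have h5 := hker F ⟨κ, hkH F⟩ h4 hF
        exact hκ (congrArg Subtype.val h5)
      obtain ⟨q, hq⟩ : ∃ q, ψ F ⟨κ, hkH F⟩ q ≠ q := by
        by_contra hcon
        push Not at hcon
        exact h3 (Equiv.ext hcon)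
      refine ⟨(q : ℕ), ?_⟩
      show ultraSig (H F) (n F) (ψ F) κ (q : ℕ) ≠ (q : ℕ)
      rw [ultraSig_of (hkH F), Perm.viaEmbeddingHom_apply]
      have h6 : (ψ F ⟨κ, hkH F⟩).viaEmbedding Fin.valEmbedding (q : ℕ) =
          ((ψ F ⟨κ, hkH F⟩ q : Fin (n F)) : ℕ) := Perm.viaEmbedding_apply _ _ q
      rw [h6]
      intro h7
      exact hq (Fin.ext h7)
    let p : Finset G → ℕ := fun F => if hF : κ ∈ F then (h2 F hF).choose else 0
    have h3 := hα κ p
    rw [h1, Perm.one_apply, Filter.Germ.coe_eq] at h3
    obtain ⟨F, hF1, hF2⟩ := (h3.and (hU {κ})).exists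
    have hF : κ ∈ F := hF2 (by simp)
    have h4 : p F = (h2 F hF).choose := dif_pos hF
    have h5 : p F = σ κ F (p F) := hF1
    have h6 := (h2 F hF).choose_spec
    rw [← h4] at h6
    exact h6 h5.symm
  -- `κ` moves at most `N0` points
  have hfin : {x | α κ x ≠ x}.Finite := by
    by_contra hinf
    obtain ⟨T, hT, hTc⟩ := (Set.not_finite.1 hinf).exists_subset_card_eq (N0 + 1)
    have hrep : ∀ x : Filter.Germ (U : Filter (Finset G)) ℕ, ∃ p : Finset G → ℕ,
        (p : Filter.Germ (U : Filter (Finset G)) ℕ) = x := fun x =>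
      Filter.Germ.inductionOn x fun p => ⟨p, rfl⟩
    choose p hp using hrep
    have h1 : ∀ x : T, ∀ᶠ F in (U : Filter (Finset G)), σ κ F (p x F) ≠ p x F := by
      intro x
      rw [Ultrafilter.eventually_not]
      intro h2
      have h3 : α κ (x : Filter.Germ (U : Filter (Finset G)) ℕ) ≠ x :=
        hT (Finset.mem_coe.2 x.2)
      apply h3
      rw [← hp x, hα, Filter.Germ.coe_eq]
      exact h2
    have h2 : ∀ x y : T, x ≠ y → ∀ᶠ F in (U : Filter (Finset G)), p x F ≠ p y F := by
      intro x y hxy
      rw [Ultrafilter.eventually_not]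
      intro h3
      apply hxy
      apply Subtype.ext
      rw [← hp x, ← hp y, Filter.Germ.coe_eq]
      exact h3
    have h3 : ∀ᶠ F in (U : Filter (Finset G)), ∀ x : T, σ κ F (p x F) ≠ p x F :=
      Filter.eventually_all.2 h1
    have h4 : ∀ᶠ F in (U : Filter (Finset G)), ∀ x y : T, x ≠ y → p x F ≠ p y F := by
      rw [Filter.eventually_all]
      intro x
      rw [Filter.eventually_all]
      intro y
      by_cases hxy : x = y
      · exact Filter.Eventually.of_forall fun F h5 => absurd hxy h5
      · exact (h2 x y hxy).mono fun F h5 _ => h5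
    obtain ⟨F, hF1, hF2⟩ := (h3.and h4).exists
    have h5 : Fintype.card T ≤ mv (ψ F ⟨κ, hkH F⟩) := by
      refine ultra_card _ (fun x : T => p x F) ?_ ?_
      · intro x y hxy
        by_contra hne
        exact hF2 x y hne hxy
      · intro x
        have h6 := hF1 x
        show Perm.viaEmbeddingHom Fin.valEmbedding (ψ F ⟨κ, hkH F⟩) (p x F) ≠ p x F
        rw [← ultraSig_of (hkH F)]
        exact h6
    have h6 := hmv F
    rw [Fintype.card_coe, hTc] at h5
    omega
  -- the finitary elements form a normal subgroup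
  let N : Subgroup G :=
    { carrier := {g | {x | α g x ≠ x}.Finite}
      one_mem' := by
        show {x | α 1 x ≠ x}.Finite
        have h1 : {x | α 1 x ≠ x} = ∅ := by
          ext x
          simp
        rw [h1]
        exact Set.finite_empty
      mul_mem' := by
        intro a b ha hb
        refine (ha.union hb).subset fun x hx => ?_
        by_contra hcon
        have h1 : α a x = x := by
          by_contra h2
          exact hcon (Or.inl h2)
        have h2 : α b x = x := by
          by_contra h3
          exact hcon (Or.inr h3)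
        apply hx
        rw [map_mul, Perm.mul_apply, h2, h1]
      inv_mem' := by
        intro a ha
        refine ha.subset fun x hx => ?_
        intro h1
        apply hx
        rw [map_inv, Perm.inv_eq_iff_eq, h1] }
  have hN : N.Normal := by
    refine ⟨fun a ha g => ?_⟩
    have h1 : {x | α (g * a * g⁻¹) x ≠ x} ⊆ (α g) '' {x | α a x ≠ x} := by
      intro x hx
      refine ⟨(α g)⁻¹ x, ?_, by simp⟩
      intro h2
      apply hx
      rw [map_mul, map_mul, map_inv, Perm.mul_apply, Perm.mul_apply, h2]
      simp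
    have ha' : {x | α a x ≠ x}.Finite := ha
    exact (ha'.image _).subset h1
  have hNtop : N = ⊤ := by
    rcases IsSimpleGroup.eq_bot_or_eq_top_of_normal N hN with h1 | h1
    · exfalso
      have h2 : κ ∈ N := hfin
      rw [h1, Subgroup.mem_bot] at h2
      exact hκ h2
    · exact h1
  refine ⟨_, α, ?_, fun g => ?_⟩
  · rw [← MonoidHom.ker_eq_bot_iff]
    rcases IsSimpleGroup.eq_bot_or_eq_top_of_normal α.ker inferInstance with h1 | h1
    · exact h1
    · exfalso
      have h2 : κ ∈ α.ker := by rw [h1]; exact Subgroup.mem_top κ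
      exact hκα h2
  · have h1 : g ∈ N := by rw [hNtop]; exact Subgroup.mem_top g
    exact h1

end Pool.Agent.LFS
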