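import Mathlib
import Pool.Agent.LFS.FinCore
import Pool.Agent.LFS.Kill
import Pool.Agent.LFS.Ultra
import Pool.Agent.LFS.FinCase

set_option autoImplicit false

/-!
Covers with alternating factors and arbitrary kernels.
-/

namespace Pool.Agent.LFS

open Equiv

universe u v

variable {G : Type u} [Group G]

/-- a finite subgroup containing `F` with an alternating quotient, arbitrary kernel. -/
structure WCov (F : Finset G) where
  H : Subgroup G
  fin : Finite H
  mem : ∀ g ∈ F, g ∈ H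
  n : ℕ
  ψ : H →* Perm (Fin n)
  range : ψ.range = alternatingGroup (Fin n)
  ker : ∀ h, ψ h = 1 → (h : G) ∈ F → h = 1

def WCov.mono {F F' : Finset G} (C : WCov F) (hF : F' ⊆ F) : WCov F' where
  H := C.H
  fin := C.fin
  mem := fun g hg => C.mem g (hF hg)
  n := C.n
  ψ := C.ψ
  range := C.range
  ker := fun h h1 h2 => C.ker h h1 (hF h2)

theorem exists_largeW [Infinite G] (B : ℕ) : ∃ F : Finset G, ∀ C : WCov F, B ≤ C.n := by
  classical
  obtain ⟨F0, hF0⟩ := Infinite.exists_subset_card_eq G (B.factorial + 1)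
  refine ⟨F0 ∪ (F0 ×ˢ F0).image (fun z => z.1⁻¹ * z.2), ?_⟩
  intro C
  by_contra hlt
  push Not at hlt
  have hinj : Function.Injective
      (fun x : F0 => C.ψ ⟨(x : G), C.mem _ (Finset.mem_union_left _ x.2)⟩) := by
    intro x y hxy
    have h1 := C.ker (⟨(x : G), C.mem _ (Finset.mem_union_left _ x.2)⟩⁻¹ *
      ⟨(y : G), C.mem _ (Finset.mem_union_left _ y.2)⟩) (by
        rw [map_mul, map_inv, inv_mul_eq_one]
        exact hxy) (by
        change (x : G)⁻¹ * (y : G) ∈ _
        exact Finset.mem_union_right _ (Finset.mem_image.2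
          ⟨((x : G), (y : G)), Finset.mem_product.2 ⟨x.2, y.2⟩, rfl⟩))
    rw [inv_mul_eq_one] at h1
    exact Subtype.ext (congrArg (fun z : C.H => (z : G)) h1)
  have h2 := Fintype.card_le_of_injective _ hinj
  rw [Fintype.card_coe, hF0, Fintype.card_perm, Fintype.card_fin] at h2
  have h3 : C.n.factorial ≤ B.factorial := Nat.factorial_le hlt.le
  omega

/-- a chain of tight extensions avoiding one element. -/
theorem chain_of_step {P : Set ℕ} (H : Subgroup G) [Finite H] (hH : ¬ SecIn P H) (g : G)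
    (hg : g ∉ H) (hstep : ∀ X : Subgroup G, Finite X → g ∉ X → ∃ Y : Subgroup G, Finite Y ∧
      g ∉ Y ∧ Tight P X Y) :
    ∃ K : Subgroup G, K ≠ ⊤ ∧ ∃ k : K, k ≠ 1 ∧
      ∀ N : Subgroup K, N.Normal → N.FiniteIndex → k ∈ N := by
  classical
  let T := {X : Subgroup G // Finite X ∧ g ∉ X}
  have hstep' : ∀ X : T, ∃ Y : T, Tight P (X : Subgroup G) (Y : Subgroup G) := by
    intro X
    obtain ⟨Y, hY1, hY2, hY3⟩ := hstep (X : Subgroup G) X.2.1 X.2.2
    exact ⟨⟨Y, hY1, hY2⟩, hY3⟩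
  choose nxt hnxt using hstep'
  let X : ℕ → T := fun j => Nat.rec (motive := fun _ => T) ⟨H, inferInstance, hg⟩
    (fun _ Y => nxt Y) j
  have hXs : ∀ j, Tight P (X j : Subgroup G) (X (j + 1) : Subgroup G) := fun j => hnxt (X j)
  have h0fin : Finite (X 0 : Subgroup G) := (X 0).2.1
  obtain ⟨k, hk1, hk2⟩ := chain_not_rf (fun j => (X j : Subgroup G)) hXs hH
  refine ⟨⨆ j, (X j : Subgroup G), ?_, k, hk1, hk2⟩
  intro htop
  have hmono : Monotone (fun j => (X j : Subgroup G)) := monotone_nat_of_le_succ (fun j => (hXs j).1)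
  have hgm : g ∈ ⨆ j, (X j : Subgroup G) := by rw [htop]; exact Subgroup.mem_top g
  obtain ⟨j, hj⟩ := (Subgroup.mem_iSup_of_directed hmono.directed_le).1 hgm
  exact (X j).2.2 hj

/-- the step in the non-finitary case. -/
theorem stepW [Infinite G] [IsSimpleGroup G] (hSch : SchG G)
    (hcov : ∀ F : Finset G, Nonempty (WCov F))
    (hnf : ∀ κ : G, κ ≠ 1 → ∀ N0 : ℕ, ∃ F : Finset G, ∀ (C : WCov F) (hκ : κ ∈ C.H),
      N0 < mv (C.ψ ⟨κ, hκ⟩)) (X : Subgroup G) [Finite X] (g : G) (hgX : g ∉ X) :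
    ∃ Y : Subgroup G, Finite Y ∧ g ∉ Y ∧ Tight ∅ X Y := by
  classical
  let D : Subgroup G := Subgroup.closure ((X : Set G) ∪ {g})
  have hXD : X ≤ D := fun x hx => Subgroup.subset_closure (Or.inl hx)
  have hgD : g ∈ D := Subgroup.subset_closure (Or.inr rfl)
  have hXfin : (X : Set G).Finite := Set.toFinite _
  obtain ⟨F₂, hF₂⟩ := exists_kill hXfin.toFinset (Nat.card X).factorial
  let Y₁ : Subgroup G := Subgroup.closure ((D : Set G) ∪ F₂)
  have hDY : D ≤ Y₁ := fun x hx => Subgroup.subset_closure (Or.inl hx)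
  have hYfin : Finite Y₁ := by
    obtain ⟨C⟩ := hcov (insert g hXfin.toFinset ∪ F₂)
    have hfinH : Finite C.H := C.fin
    have hD : D ≤ C.H := by
      rw [Subgroup.closure_le]
      rintro y (hy | rfl)
      · exact C.mem y (by simp [hy])
      · exact C.mem _ (by simp)
    have hle : Y₁ ≤ C.H := by
      rw [Subgroup.closure_le]
      rintro y (hy | hy)
      · exact hD hy
      · exact C.mem _ (Finset.mem_union_right _ (Finset.mem_coe.1 hy))
    exact Finite.of_injective _ (Subgroup.inclusion_injective hle)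
  have hkill : ∀ (A : Type u) [Group A] [Finite A], Nat.card A ≤ (Nat.card X).factorial →
      ∀ (f : Y₁ →* A) (x : Y₁), (x : G) ∈ X → f x = 1 := by
    intro A _ _ hA f x hx
    exact hF₂ Y₁ (fun f hf => Subgroup.subset_closure (Or.inr (Finset.mem_coe.2 hf))) A hA f x
      (hXfin.mem_toFinset.2 hx)
  have hDfin : Finite D := Finite.of_injective _ (Subgroup.inclusion_injective hDY)
  have hDft : Fintype D := Fintype.ofFinite _
  obtain ⟨FL, hFL⟩ := exists_largeW (G := G) (cM (Nat.card D))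
  have hall : ∀ d : D, ∃ F : Finset G, d ≠ 1 → ∀ (C : WCov F) (hκ : (d : G) ∈ C.H),
      cN (Nat.card D) (Nat.card (Subgroup D)) < mv (C.ψ ⟨d, hκ⟩) := by
    intro d
    by_cases hd1 : d = 1
    · exact ⟨∅, fun h => absurd hd1 h⟩
    · have hd1' : (d : G) ≠ 1 := fun h => hd1 (Subtype.ext h)
      obtain ⟨F, h⟩ := hnf d hd1' (cN (Nat.card D) (Nat.card (Subgroup D)))
      exact ⟨F, fun _ => h⟩
  choose Fd hFd using hall
  have hYsfin : (Y₁ : Set G).Finite := Set.toFinite _
  obtain ⟨C⟩ := hcov (hYsfin.toFinset ∪ Finset.univ.biUnion Fd ∪ FL)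
  have hfinH : Finite C.H := C.fin
  have hCn : cM (Nat.card D) ≤ C.n := hFL (C.mono (by intro x hx; simp [hx]))
  have hYH : Y₁ ≤ C.H := fun y hy => C.mem y (by
    simp only [Finset.mem_union, Set.Finite.mem_toFinset]
    exact Or.inl (Or.inl hy))
  have hYker : ∀ y (hy : y ∈ Y₁), C.ψ ⟨y, hYH hy⟩ = 1 → y = 1 := by
    intro y hy h1
    have h2 := C.ker ⟨y, hYH hy⟩ h1 (by
      simp only [Finset.mem_union, Set.Finite.mem_toFinset]
      exact Or.inl (Or.inl hy))
    exact congrArg Subtype.val h2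
  have hXH : X ≤ C.H := (hXD.trans hDY).trans hYH
  have hDH : D ≤ C.H := hDY.trans hYH
  -- the normal subgroup
  let X' := X.subgroupOf C.H
  have hcardX : Nat.card X' = Nat.card X :=
    Nat.card_congr (Subgroup.subgroupOfEquivOfLe hXH).toEquiv
  obtain ⟨K, hKn, hKM, hKB, hKmax⟩ := exists_star (H := C.H) C.ψ.ker (Nat.card X')
  let π : C.H →* (C.H ⧸ K) := QuotientGroup.mk' K
  have hπ : Function.Surjective π := QuotientGroup.mk'_surjective K
  have hπ1 : ∀ h, π h = 1 ↔ h ∈ K := fun h => by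
    rw [QuotientGroup.mk'_apply, QuotientGroup.eq_one_iff]
  let ψ' : (C.H ⧸ K) →* Perm (Fin C.n) := QuotientGroup.lift K C.ψ hKM
  have hψ' : ∀ h, ψ' (π h) = C.ψ h := fun h => rfl
  have hrange : ψ'.range = alternatingGroup (Fin C.n) := by
    rw [← C.range]
    ext σ
    constructor
    · rintro ⟨q, rfl⟩
      obtain ⟨h, rfl⟩ := hπ q
      exact ⟨h, rfl⟩
    · rintro ⟨h, rfl⟩
      exact ⟨π h, rfl⟩
  -- the images
  let ι : Y₁ →* (C.H ⧸ K) := π.comp (Subgroup.inclusion hYH)
  have hι : ∀ (y : G) (hy : y ∈ Y₁), ι ⟨y, hy⟩ = π ⟨y, hYH hy⟩ := fun y hy => rfl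
  have hιinj : Function.Injective ι := by
    rw [injective_iff_map_eq_one]
    rintro ⟨y, hy⟩ h1
    rw [hι] at h1
    have h2 : C.ψ ⟨y, hYH hy⟩ = 1 := by rw [← hψ', h1, map_one]
    exact Subtype.ext (hYker y hy h2)
  let Yb : Subgroup (C.H ⧸ K) := ι.range
  let Db : Subgroup (C.H ⧸ K) := (D.subgroupOf Y₁).map ι
  let Xb : Subgroup (C.H ⧸ K) := (X.subgroupOf Y₁).map ι
  have hXb : Xb = X'.map π := by
    ext q
    constructor
    · rintro ⟨y, hy, rfl⟩
      exact ⟨⟨y, hYH y.2⟩, hy, rfl⟩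
    · rintro ⟨h, hh, rfl⟩
      have hh' : (h : G) ∈ X := hh
      exact ⟨⟨h, hDY (hXD hh')⟩, hh', rfl⟩
  have hXbc : Nat.card Xb ≤ Nat.card X := by
    have h1 : Nat.card (X.subgroupOf Y₁) = Nat.card X :=
      Nat.card_congr (Subgroup.subgroupOfEquivOfLe (hXD.trans hDY)).toEquiv
    rw [← h1]
    exact Nat.card_le_card_of_surjective (fun x : X.subgroupOf Y₁ => (⟨ι x, ⟨x, x.2, rfl⟩⟩ : Xb))
      (by
        rintro ⟨_, ⟨y, hy, rfl⟩⟩
        exact ⟨⟨y, hy⟩, rfl⟩)
  let eD : D ≃* Db := (Subgroup.subgroupOfEquivOfLe hDY).symm.trans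
    ((D.subgroupOf Y₁).equivMapOfInjective ι hιinj)
  have hDbc : Nat.card Db = Nat.card D := (Nat.card_congr eD.toEquiv).symm
  have hDbs : Nat.card (Subgroup Db) = Nat.card (Subgroup D) :=
    (Nat.card_congr eD.mapSubgroup.toEquiv).symm
  have hSch' : SchG (C.H ⧸ K) :=
    SchG.of_surjective (hSch.of_injective C.H.subtype C.H.subtype_injective) π hπ
  obtain ⟨Yt, hgY, hYt⟩ := fin_core (Γ := C.H ⧸ K) hSch' ψ' hrange Db Xb Yb
    (Subgroup.map_mono (fun x hx => hXD hx))
    (by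
      rintro _ ⟨y, -, rfl⟩
      exact ⟨y, rfl⟩)
    (ι ⟨g, hDY hgD⟩) ⟨⟨g, hDY hgD⟩, hgD, rfl⟩
    (by
      rintro ⟨y, hy, hyg⟩
      have h1 := hιinj hyg
      rw [h1] at hy
      exact hgX hy)
    (by
      rintro _ ⟨⟨y, hy⟩, rfl⟩ h1
      rw [hι, hψ'] at h1
      have h2 := hYker y hy h1
      subst h2
      exact map_one ι)
    (by
      intro A _ _ hA f x hx
      obtain ⟨y, hy, hyx⟩ := hx
      have h1 := hkill A (hA.trans (Nat.factorial_le hXbc)) (f.comp ι.rangeRestrict) y hy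
      have h2 : ι.rangeRestrict y = x := Subtype.ext hyx
      rw [← h2]
      exact h1)
    (by
      intro N hN hNn hNab
      have hNn' : N.Normal := ⟨fun a ha b => by
        have h1 : b * a * b⁻¹ ∈ cj b N := conj_mem_cj.2 ha
        rwa [hNn b] at h1⟩
      have h1 := hKmax (N.comap π) (by
          intro k hk
          rw [Subgroup.mem_comap, (hπ1 k).2 hk]
          exact N.one_mem) (by
          intro k hk
          have h2 := hN (Subgroup.mem_comap.1 hk)
          rw [MonoidHom.mem_ker] at h2 ⊢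
          rwa [hψ'] at h2) inferInstance (by
          intro a ha b hb
          rw [← hπ1, map_mul, map_mul, map_mul, map_inv, map_inv,
            hNab _ (Subgroup.mem_comap.1 ha) _ (Subgroup.mem_comap.1 hb)]
          group)
      rw [eq_bot_iff]
      intro q hq
      obtain ⟨h, rfl⟩ := hπ q
      have h2 : h ∈ N.comap π := hq
      rw [h1, ← hπ1] at h2
      rw [h2]
      exact Subgroup.one_mem _)
    (by
      rintro _ ⟨⟨y, hy⟩, hyD, rfl⟩ hne
      have hyD' : y ∈ D := hyD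
      have h1 : (⟨y, hyD'⟩ : D) ≠ 1 := by
        intro h
        apply hne
        have h2 : y = 1 := congrArg Subtype.val h
        subst h2
        exact map_one ι
      rw [hDbc, hDbs, hι, hψ']
      exact (hFd ⟨y, hyD'⟩ h1 (C.mono (F' := Fd ⟨y, hyD'⟩) (by
        intro x hx
        simp only [Finset.mem_union, Finset.mem_biUnion, Finset.mem_univ, true_and]
        exact Or.inl (Or.inr ⟨_, hx⟩))) (hDH hyD')).le)
    (by rw [hDbc]; exact hCn)
  have h1 : Tight ∅ X' (Yt.comap π) := by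
    apply tight_pull K X' hKB Yt
    rw [← hXb]
    exact hYt
  have h2 := tight_map h1
  have h3 : X'.map C.H.subtype = X := by
    rw [Subgroup.subgroupOf_map_subtype]
    exact inf_eq_left.2 hXH
  rw [h3] at h2
  refine ⟨(Yt.comap π).map C.H.subtype, ?_, ?_, h2⟩
  · exact Finite.of_injective _ (Subgroup.inclusion_injective (Subgroup.map_subtype_le _))
  · rintro ⟨y, hy, hyg⟩
    apply hgY
    have h4 : y = ⟨g, hYH (hDY hgD)⟩ := Subtype.ext hyg
    rw [hι, ← h4]
    exact hy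

/-- Infinite simple groups with a cover by finite groups with alternating factors and arbitrary
kernels have a proper subgroup that is not residually finite. -/
theorem mainW [Infinite G] [IsSimpleGroup G] (hSch : SchG G)
    (hcov : ∀ F : Finset G, Nonempty (WCov F)) :
    ∃ K : Subgroup G, K ≠ ⊤ ∧ ∃ k : K, k ≠ 1 ∧
      ∀ N : Subgroup K, N.Normal → N.FiniteIndex → k ∈ N := by
  classical
  by_cases hfin : ∃ κ : G, κ ≠ 1 ∧ ∃ N0 : ℕ, ∀ F : Finset G, ∃ C : WCov F,
      ∃ hκ : κ ∈ C.H, mv (C.ψ ⟨κ, hκ⟩) ≤ N0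
  · obtain ⟨κ, hκ1, N0, h⟩ := hfin
    obtain ⟨Λ, α, hα, hfs⟩ := exists_finitary κ hκ1 N0 (by
      intro F
      obtain ⟨C, hκ, hN⟩ := h F
      exact ⟨C.H, C.n, C.ψ, C.mem, C.ker, hκ, hN⟩)
    exact finitary_main α hα hfs
  · push Not at hfin
    obtain ⟨FL, hFL⟩ := exists_largeW (G := G) 5
    obtain ⟨C⟩ := hcov FL
    have hCn : 5 ≤ C.n := hFL C
    have hfinH : Finite C.H := C.fin
    have hH : ¬ SecIn ∅ C.H := by
      intro h
      have h1 : SecIn ∅ C.ψ.range := h.of_surjective C.ψ.rangeRestrict C.ψ.rangeRestrict_surjective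
      rw [C.range] at h1
      exact not_secIn_alt (le_refl 5) (Set.notMem_empty _) hCn h1
    obtain ⟨g, hg⟩ : ∃ g : G, g ∉ C.H := by
      by_contra hb
      push Not at hb
      have : Finite G := Finite.of_injective (fun x : G => (⟨x, hb x⟩ : C.H)) (by
        intro x y h
        exact congrArg Subtype.val h)
      exact not_finite G
    apply chain_of_step (P := ∅) C.H hH g hg
    intro X hX hgX
    exact stepW hSch hcov (fun κ hκ N0 => hfin κ hκ N0) X g hgX

end Pool.Agent.LFS
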